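import Pool.Agent.LibVer4.G1

open Polynomial Pool.Agent.LibInterm
open scoped InnerProductSpace

namespace Ver4

/-- A1a: Hint: for `y ∈ L`, `y ≠ 0` use `exists_foot` (`LibInterm/Proj.lean`):
`|⟪F, homog θ⟫| = |⟪F, homog θ - t y⟫| ≤ ‖F‖ ‖homog θ‖ projDist (homog θ) y`; then the infimum. -/
theorem inner_le_distTo {n : ℕ} (θ : EuclideanSpace ℝ (Fin n))
    (L : Submodule ℝ (EuclideanSpace ℝ (Fin (n + 1)))) (hL : L ≠ ⊥)
    (F : EuclideanSpace ℝ (Fin (n + 1))) (hF : F ∈ Lᗮ) :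
    |⟪F, homog θ⟫_ℝ| ≤ ‖F‖ * ‖homog θ‖ * distTo θ L := by
  have hθ : 0 < ‖homog θ‖ := lt_of_lt_of_le one_pos (one_le_norm_homog θ)
  have hθ0 : homog θ ≠ 0 := norm_pos_iff.1 hθ
  have h1 : ∀ y ∈ L, y ≠ 0 → |⟪F, homog θ⟫_ℝ| ≤ ‖F‖ * ‖homog θ‖ * projDist (homog θ) y := by
    intro y hy hy0
    obtain ⟨t, ht, _⟩ := exists_foot hθ0 hy0
    have h2 : ⟪F, t • y⟫_ℝ = 0 := by
      have h3 := (Submodule.mem_orthogonal' L F).1 hF (t • y) (L.smul_mem t hy)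
      exact h3
    have h4 : ⟪F, homog θ⟫_ℝ = ⟪F, homog θ - t • y⟫_ℝ := by
      rw [inner_sub_right, h2, sub_zero]
    rw [h4]
    calc |⟪F, homog θ - t • y⟫_ℝ| ≤ ‖F‖ * ‖homog θ - t • y‖ := abs_real_inner_le_norm _ _
      _ = ‖F‖ * ‖homog θ‖ * projDist (homog θ) y := by rw [ht, mul_assoc]
  by_cases hF0 : ‖F‖ = 0
  · have h2 : F = 0 := norm_eq_zero.1 hF0
    rw [h2]
    simp
  · have hFpos : 0 < ‖F‖ := lt_of_le_of_ne (norm_nonneg _) (Ne.symm hF0)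
    have hpos : 0 < ‖F‖ * ‖homog θ‖ := mul_pos hFpos hθ
    rw [← div_le_iff₀' hpos]
    obtain ⟨y0, hy0, hy00⟩ := L.ne_bot_iff.1 hL
    apply le_csInf
    · exact ⟨_, y0, ⟨hy0, hy00⟩, rfl⟩
    · rintro _ ⟨y, ⟨hy, hy'⟩, rfl⟩
      rw [div_le_iff₀' hpos]
      exact h1 y hy hy'

private theorem A1_homog_ver (n : ℕ) (ξ : ℝ) (i : Fin (n + 1)) :
    homog (ver n ξ) i = ξ ^ (i : ℕ) := by
  refine Fin.cases ?_ (fun j => ?_) i
  · rw [homog_zero]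
    simp
  · rw [homog_succ]
    rfl

theorem inner_vec_homog_ver (n : ℕ) (ξ : ℝ) (F : ℤ[X]) (hF : F.natDegree ≤ n) :
    ⟪intVec (vec n F), homog (ver n ξ)⟫_ℝ = aeval ξ F := by
  rw [aeval_eq_sum_range' (Nat.lt_succ_of_le hF), PiLp.inner_apply, ← Fin.sum_univ_eq_sum_range
    (fun i => F.coeff i • ξ ^ i) (n + 1)]
  apply Finset.sum_congr rfl
  intro i _
  rw [A1_homog_ver, intVec_apply]
  simp [vec, mul_comm]

private theorem A1_norm_le {m : ℕ} (x : EuclideanSpace ℝ (Fin m)) : ‖x‖ ≤ ∑ i, |x i| := by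
  rw [EuclideanSpace.norm_eq]
  apply Real.sqrt_le_iff.2
  refine ⟨Finset.sum_nonneg (fun i _ => abs_nonneg _), ?_⟩
  exact Finset.sum_sq_le_sq_sum_of_nonneg (fun i _ => abs_nonneg _)

/-- A1b -/
theorem aeval_le_dist (n : ℕ) (M : ℝ) : ∃ C : ℝ, 0 < C ∧ ∀ ξ : ℝ, |ξ| ≤ M →
    ∀ L : Submodule ℝ (EuclideanSpace ℝ (Fin (n + 1))), L ≠ ⊥ → ∀ F : ℤ[X], F.natDegree ≤ n →
    intVec (vec n F) ∈ Lᗮ → |aeval ξ F| ≤ C * L1 F * distTo (ver n ξ) L := by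
  refine ⟨1 + ∑ i : Fin (n + 1), |M| ^ (i : ℕ), by positivity, ?_⟩
  intro ξ hξ L hL F hF hFL
  have hd : 0 ≤ distTo (ver n ξ) L := by
    apply Real.sInf_nonneg
    rintro _ ⟨y, _, rfl⟩
    exact projDist_nonneg _ _
  have h1 := inner_le_distTo (ver n ξ) L hL _ hFL
  rw [inner_vec_homog_ver n ξ F hF] at h1
  have h2 : ‖intVec (vec n F)‖ ≤ L1 F := by
    rw [L1_eq_sum F n hF, ← Fin.sum_univ_eq_sum_range (fun i => |(F.coeff i : ℝ)|) (n + 1)]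
    exact A1_norm_le _
  have h3 : ‖homog (ver n ξ)‖ ≤ 1 + ∑ i : Fin (n + 1), |M| ^ (i : ℕ) := by
    refine (A1_norm_le _).trans ?_
    refine le_trans (Finset.sum_le_sum (fun i _ => ?_)) (le_add_of_nonneg_left zero_le_one)
    rw [A1_homog_ver, abs_pow]
    exact pow_le_pow_left₀ (abs_nonneg _) (hξ.trans (le_abs_self M)) _
  calc |aeval ξ F| ≤ ‖intVec (vec n F)‖ * ‖homog (ver n ξ)‖ * distTo (ver n ξ) L := h1
    _ ≤ L1 F * (1 + ∑ i : Fin (n + 1), |M| ^ (i : ℕ)) * distTo (ver n ξ) L := by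
        apply mul_le_mul_of_nonneg_right _ hd
        exact mul_le_mul h2 h3 (norm_nonneg _) (L1_nonneg F)
    _ = (1 + ∑ i : Fin (n + 1), |M| ^ (i : ℕ)) * L1 F * distTo (ver n ξ) L := by ring

end Ver4
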