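import Mathlib

open Matrix

namespace Ver4

/-- A2a: Jacobi's identity for complementary minors of dual integer bases. Hint: `A' = A.submatrix id e`,
`B' = B.submatrix id e` are square on `Fin a ⊕ Fin b` with `A' * B'ᵀ = 1`; let `M` be the matrix with
upper rows the unit vectors and lower rows those of `B'`: `M = fromBlocks 1 0 B'₂₁ B'₂₂`; then
`A' * Mᵀ = fromBlocks A'₁₁ 0 A'₂₁ 1`. -/
theorem jacobi {a b N : ℕ} (A B : Matrix (Fin a ⊕ Fin b) (Fin N) ℤ) (e : Fin a ⊕ Fin b ≃ Fin N)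
    (hAB : ∀ i j, ∑ k, A i k * B j k = if i = j then 1 else 0) :
    |(A.submatrix Sum.inl (e ∘ Sum.inl)).det| = |(B.submatrix Sum.inr (e ∘ Sum.inr)).det| := by
  let A' : Matrix (Fin a ⊕ Fin b) (Fin a ⊕ Fin b) ℤ := A.submatrix id e
  let B' : Matrix (Fin a ⊕ Fin b) (Fin a ⊕ Fin b) ℤ := B.submatrix id e
  have h1 : A' * B'ᵀ = 1 := by
    ext i j
    rw [Matrix.mul_apply, Matrix.one_apply, ← hAB i j]
    exact Fintype.sum_equiv e _ _ (fun k => rfl)
  have hdet : A'.det * B'.det = 1 := by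
    have h2 := congrArg Matrix.det h1
    rw [Matrix.det_mul, Matrix.det_transpose, Matrix.det_one] at h2
    exact h2
  have hdA : |A'.det| = 1 := by
    have h3 : IsUnit A'.det := IsUnit.of_mul_eq_one _ hdet
    exact Int.isUnit_iff_abs_eq.1 h3
  let M : Matrix (Fin a ⊕ Fin b) (Fin a ⊕ Fin b) ℤ :=
    Matrix.fromBlocks 1 0 B'.toBlocks₂₁ B'.toBlocks₂₂
  have h4 : A' * Mᵀ = Matrix.fromBlocks A'.toBlocks₁₁ 0 A'.toBlocks₂₁ 1 := by
    ext i j
    rcases j with j | j
    · rw [Matrix.mul_apply, Fintype.sum_sum_type]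
      rcases i with i | i
      · simp [M, Matrix.fromBlocks, Matrix.transpose, Matrix.toBlocks₁₁, Matrix.one_apply]
      · simp [M, Matrix.fromBlocks, Matrix.transpose, Matrix.toBlocks₂₁, Matrix.one_apply]
    · have h5 : (A' * Mᵀ) i (Sum.inr j) = (A' * B'ᵀ) i (Sum.inr j) := by
        rw [Matrix.mul_apply, Matrix.mul_apply]
        apply Finset.sum_congr rfl
        intro k _
        rcases k with k | k
        · rfl
        · rfl
      rw [h5, h1]
      rcases i with i | i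
      · simp [Matrix.fromBlocks, Matrix.one_apply]
      · simp [Matrix.fromBlocks, Matrix.one_apply]
  have h6 := congrArg Matrix.det h4
  rw [Matrix.det_mul, Matrix.det_transpose, Matrix.det_fromBlocks_zero₁₂,
    Matrix.det_fromBlocks_zero₁₂, Matrix.det_one, Matrix.det_one, one_mul, mul_one] at h6
  have h7 : A'.toBlocks₁₁ = A.submatrix Sum.inl (e ∘ Sum.inl) := rfl
  have h8 : B'.toBlocks₂₂ = B.submatrix Sum.inr (e ∘ Sum.inr) := rfl
  rw [← h7, ← h8, ← h6, abs_mul, hdA, one_mul]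

end Ver4
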