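import Pool.Agent.LibVer4.Defs

open Pool.Agent.LibInterm

namespace Ver4

/-- A2b: the integer points of a rational subspace are generated by a part of a basis of `ℤ^(n+1)`.
Hint: `Submodule.smithNormalForm` for `intPts L` (`LibInterm/Heights.lean`) in `Fin (n+1) → ℤ`: a basis
`b` of `ℤ^(n+1)` and `a_i ≠ 0` such that the `a_i b_{f i}` are a basis of `intPts L`; as `L` is a real
subspace `b_{f i} ∈ intPts L`, hence the `b_{f i}` generate it. `A` = the rows `b`, reordered,
`B` = the dual basis (the transposed inverse of the integer matrix `A`). -/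
theorem adapted_basis {n d e : ℕ} (hn : n = d + e + 1)
    (L : Submodule ℝ (EuclideanSpace ℝ (Fin (n + 1)))) (hL : IsRationalSub d L) :
    ∃ A B : Matrix (Fin (d + 1) ⊕ Fin (e + 1)) (Fin (n + 1)) ℤ,
      (∀ i j, ∑ k, A i k * B j k = if i = j then 1 else 0) ∧
      Submodule.span ℝ (Set.range fun i : Fin (d + 1) => intVec (A (Sum.inl i))) = L ∧
      ∀ z : Fin (n + 1) → ℤ, intVec z ∈ L → ∃ y : Fin (d + 1) → ℤ, z = ∑ i, y i • A (Sum.inl i) := by
  classical
  obtain ⟨k, snf⟩ := Submodule.smithNormalForm (Pi.basisFun ℤ (Fin (n + 1))) (intPts L)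
  -- the vectors `bM (f i)` lie in `L`
  have hmem : ∀ i, intVec (snf.bM (snf.f i)) ∈ L := by
    intro i
    have h1 : intVec ((snf.bN i : Fin (n + 1) → ℤ)) ∈ L := (snf.bN i).2
    have h2 := snf.snf i
    have ha : snf.a i ≠ 0 := by
      intro h0
      rw [h0, zero_smul] at h2
      exact snf.bN.ne_zero i (Subtype.ext h2)
    rw [h2, ← intVecHom_apply, map_smul, intVecHom_apply, ← Int.cast_smul_eq_zsmul ℝ] at h1
    have h3 : ((snf.a i : ℤ) : ℝ) ≠ 0 := Int.cast_ne_zero.2 ha
    have h4 := L.smul_mem ((snf.a i : ℝ)⁻¹) h1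
    rwa [smul_smul, inv_mul_cancel₀ h3, one_smul] at h4
  have hgen : ∀ z : Fin (n + 1) → ℤ, intVec z ∈ L →
      ∃ y : Fin k → ℤ, z = ∑ i, y i • snf.bM (snf.f i) := by
    intro z hz
    refine ⟨fun i => snf.bM.repr z (snf.f i), ?_⟩
    have h1 := snf.bM.sum_repr z
    have h0 : ∀ i, i ∉ Set.range snf.f → snf.bM.repr z i = 0 := fun i hi =>
      snf.repr_eq_zero_of_notMem_range (⟨z, hz⟩ : intPts L) hi
    calc z = ∑ i, snf.bM.repr z i • snf.bM i := h1.symm
      _ = ∑ i ∈ Finset.univ.map snf.f, snf.bM.repr z i • snf.bM i := by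
          symm
          apply Finset.sum_subset (Finset.subset_univ _)
          intro i _ hi
          rw [h0 i, zero_smul]
          rintro ⟨j, rfl⟩
          exact hi (Finset.mem_map_of_mem _ (Finset.mem_univ _))
      _ = ∑ i, snf.bM.repr z (snf.f i) • snf.bM (snf.f i) := Finset.sum_map _ _ _
  have hspan : Submodule.span ℝ (Set.range (fun i => intVec (snf.bM (snf.f i)))) = L := by
    apply le_antisymm
    · rw [Submodule.span_le]
      rintro _ ⟨i, rfl⟩
      exact hmem i
    · obtain ⟨_, S, hS⟩ := hL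
      have hSL : ∀ v ∈ S, intVec v ∈ L := by
        intro v hv
        rw [hS]
        exact Submodule.subset_span ⟨v, hv, rfl⟩
      conv_lhs => rw [hS]
      rw [Submodule.span_le]
      rintro _ ⟨v, hv, rfl⟩
      obtain ⟨y, hy⟩ := hgen v (hSL v hv)
      have h3 : intVec v = ∑ i, (y i : ℝ) • intVec (snf.bM (snf.f i)) := by
        rw [hy, ← intVecHom_apply, map_sum]
        apply Finset.sum_congr rfl
        intro i _
        rw [map_smul, intVecHom_apply, Int.cast_smul_eq_zsmul]
      rw [h3]
      apply Submodule.sum_mem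
      intro i _
      exact Submodule.smul_mem _ _ (Submodule.subset_span ⟨i, rfl⟩)
  have hli : LinearIndependent ℤ (fun i => snf.bM (snf.f i)) :=
    snf.bM.linearIndependent.comp snf.f snf.f.injective
  have hliR := linearIndependent_intVec _ hli
  have hk : k = d + 1 := by
    have h4 := finrank_span_eq_card hliR
    rw [hspan, hL.1, Fintype.card_fin] at h4
    exact h4.symm
  subst hk
  -- the complement
  have hcard : Fintype.card ((Set.range snf.f)ᶜ : Set (Fin (n + 1))) = e + 1 := by
    rw [Fintype.card_compl_set, Set.card_range_of_injective snf.f.injective, Fintype.card_fin,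
      Fintype.card_fin]
    omega
  let σ : Fin (d + 1) ⊕ Fin (e + 1) ≃ Fin (n + 1) :=
    ((Equiv.ofInjective snf.f snf.f.injective).sumCongr
      (Fintype.equivFinOfCardEq hcard).symm).trans (Equiv.Set.sumCompl (Set.range snf.f))
  have hσ : ∀ i, σ (Sum.inl i) = snf.f i := by
    intro i
    simp [σ]
  refine ⟨fun i => snf.bM (σ i), fun j k => snf.bM.repr (Pi.single k 1) (σ j), ?_, ?_, ?_⟩
  · intro i j
    have h1 : (snf.bM (σ i)) = ∑ k, (snf.bM (σ i)) k • (Pi.single k 1 : Fin (n + 1) → ℤ) := by
      ext l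
      simp [Pi.single_apply]
    have h2 := congrArg (fun z => snf.bM.repr z (σ j)) h1
    simp only [map_sum, map_smul, Module.Basis.repr_self, Finsupp.finsetSum_apply,
      Finsupp.smul_apply, smul_eq_mul] at h2
    rw [← h2, Finsupp.single_apply]
    by_cases h : i = j
    · rw [if_pos h, if_pos (congrArg σ h)]
    · rw [if_neg h, if_neg (fun h' => h (σ.injective h'))]
  · have h5 : (fun i : Fin (d + 1) => intVec (snf.bM (σ (Sum.inl i)))) =
        fun i => intVec (snf.bM (snf.f i)) := by
      funext i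
      rw [hσ]
    exact (congrArg (fun g : Fin (d + 1) → EuclideanSpace ℝ (Fin (n + 1)) =>
      Submodule.span ℝ (Set.range g)) h5).trans hspan
  · intro z hz
    obtain ⟨y, hy⟩ := hgen z hz
    refine ⟨y, ?_⟩
    rw [hy]
    apply Finset.sum_congr rfl
    intro i _
    change y i • snf.bM (snf.f i) = y i • snf.bM (σ (Sum.inl i))
    rw [hσ]

end Ver4
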