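import Pool.Agent.LibVer4.A2a
import Pool.Agent.LibVer4.A2b

open Pool.Agent.LibInterm

namespace Ver4

private theorem A2c_inner {n : ℕ} (u v : Fin (n + 1) → ℤ) :
    inner ℝ (intVec u) (intVec v) = ((∑ k, u k * v k : ℤ) : ℝ) := by
  rw [PiLp.inner_apply]
  push_cast
  apply Finset.sum_congr rfl
  intro k _
  rw [intVec_apply, intVec_apply]
  simp [mul_comm]

private theorem A2c_indep {n k l : ℕ} (A B : Matrix (Fin k ⊕ Fin l) (Fin (n + 1)) ℤ)
    (hAB : ∀ i j, ∑ t, A i t * B j t = if i = j then 1 else 0) {m : ℕ}
    (f : Fin m → Fin k ⊕ Fin l) (hf : Function.Injective f) :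
    LinearIndependent ℝ (fun i => intVec (B (f i))) := by
  rw [Fintype.linearIndependent_iff]
  intro g hg i
  have h1 := congrArg (fun x => inner ℝ (intVec (A (f i))) x) hg
  simp only [inner_sum, inner_smul_right, A2c_inner, hAB, inner_zero_right] at h1
  rw [Finset.sum_eq_single i] at h1
  · simpa using h1
  · intro j _ hj
    rw [if_neg (fun h => hj (hf h.symm))]
    simp
  · intro h
    exact absurd (Finset.mem_univ i) h

/-- A2c: duality of heights. Hint: with `A, B` of `adapted_basis`, the `intVec (B (inr j))` are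
independent, orthogonal to `L`, so they span `Lᗮ` (dimension `e + 1`); `height_le_minors` for `Lᗮ`,
`primitive_of_int_basis` and `height_eq` for `L`; the sums over the order embeddings agree by
`jacobi` and the bijection `I ↦` complement (`|det|` does not depend on the order of the columns). -/
theorem dual {n d e : ℕ} (hn : n = d + e + 1)
    (L : Submodule ℝ (EuclideanSpace ℝ (Fin (n + 1)))) (hL : IsRationalSub d L) :
    IsRationalSub e Lᗮ ∧ height e Lᗮ ≤ height d L := by
  classical
  obtain ⟨A, B, hAB, hspan, hgen⟩ := adapted_basis hn L hL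
  have hBA : ∀ i j, ∑ t, B i t * A j t = if i = j then 1 else 0 := by
    intro i j
    have h1 : ∑ t, B i t * A j t = ∑ t, A j t * B i t :=
      Finset.sum_congr rfl (fun t _ => mul_comm _ _)
    rw [h1, hAB]
    by_cases h : i = j
    · rw [if_pos h, if_pos h.symm]
    · rw [if_neg h, if_neg (fun h' => h h'.symm)]
  have hliA : LinearIndependent ℝ (fun i : Fin (d + 1) => intVec (A (Sum.inl i))) :=
    A2c_indep B A hBA Sum.inl Sum.inl_injective
  have hliB : LinearIndependent ℝ (fun i : Fin (e + 1) => intVec (B (Sum.inr i))) :=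
    A2c_indep A B hAB Sum.inr Sum.inr_injective
  have hfin : Module.finrank ℝ Lᗮ = e + 1 := by
    have h1 := L.finrank_add_finrank_orthogonal
    rw [hL.1, finrank_euclideanSpace, Fintype.card_fin] at h1
    omega
  have hspanB : Submodule.span ℝ (Set.range fun i : Fin (e + 1) => intVec (B (Sum.inr i))) = Lᗮ := by
    apply Submodule.eq_of_le_of_finrank_eq
    · rw [Submodule.span_le]
      rintro _ ⟨j, rfl⟩
      change intVec (B (Sum.inr j)) ∈ Lᗮ
      rw [← hspan, Submodule.mem_orthogonal]
      intro u hu
      induction hu using Submodule.span_induction with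
      | mem x hx =>
        obtain ⟨i, rfl⟩ := hx
        rw [A2c_inner, hAB]
        simp
      | zero => exact inner_zero_left _
      | add x y _ _ hx hy => rw [inner_add_left, hx, hy, add_zero]
      | smul c x _ hx => rw [inner_smul_left, hx, mul_zero]
    · rw [finrank_span_eq_card hliB, Fintype.card_fin, hfin]
  refine ⟨⟨hfin, Set.range (fun i : Fin (e + 1) => B (Sum.inr i)), ?_⟩, ?_⟩
  · rw [← hspanB, ← Set.range_comp]
    rfl
  have h1 := height_le_minors (fun i : Fin (e + 1) => B (Sum.inr i)) hliB hspanB.symm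
  have h2 := height_eq (primitive_of_int_basis (fun i : Fin (d + 1) => A (Sum.inl i)) hliA hspan hgen)
  rw [h2]
  refine h1.trans (Real.sqrt_le_sqrt ?_)
  -- the complementary embedding
  have hcard : ∀ I : Fin (e + 1) ↪o Fin (n + 1), ((Finset.univ.image I)ᶜ).card = d + 1 := by
    intro I
    rw [Finset.card_compl, Finset.card_image_of_injective _ I.injective, Finset.card_univ,
      Fintype.card_fin, Fintype.card_fin]
    omega
  let φ : (Fin (e + 1) ↪o Fin (n + 1)) → (Fin (d + 1) ↪o Fin (n + 1)) := fun I =>
    ((Finset.univ.image I)ᶜ).orderEmbOfFin (hcard I)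
  have hφr : ∀ I, Set.range (φ I) = (Set.range I)ᶜ := by
    intro I
    have h3 := ((Finset.univ.image I)ᶜ).range_orderEmbOfFin (hcard I)
    rw [show φ I = ((Finset.univ.image I)ᶜ).orderEmbOfFin (hcard I) from rfl, h3]
    simp
  have hφ : Function.Injective φ := by
    intro I J hIJ
    have h3 : (Set.range I)ᶜ = (Set.range J)ᶜ := by rw [← hφr, ← hφr, hIJ]
    have h4 : Set.range I = Set.range J := compl_injective h3
    have h5 := (StrictMono.range_inj I.strictMono J.strictMono).1 h4
    exact DFunLike.coe_injective h5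
  have hdet : ∀ I : Fin (e + 1) ↪o Fin (n + 1),
      (minors (fun i : Fin (e + 1) => intVec (B (Sum.inr i))) I) ^ 2 =
      (((Matrix.submatrix (Matrix.of (fun i : Fin (d + 1) => A (Sum.inl i))) id (φ I)).det : ℤ) : ℝ) ^ 2 := by
    intro I
    have hinj : Function.Injective (Sum.elim (φ I) I) := by
      apply Function.Injective.sumElim (φ I).injective I.injective
      intro i j h
      have h3 : φ I i ∈ (Set.range I)ᶜ := by
        rw [← hφr]
        exact ⟨i, rfl⟩
      exact h3 ⟨j, h.symm⟩
    have hbij : Function.Bijective (Sum.elim (φ I) I) := by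
      rw [Fintype.bijective_iff_injective_and_card]
      refine ⟨hinj, ?_⟩
      rw [Fintype.card_sum, Fintype.card_fin, Fintype.card_fin, Fintype.card_fin]
      omega
    have h3 := jacobi A B (Equiv.ofBijective _ hbij) hAB
    rw [minors_intVec]
    have h4 : ((Matrix.of (fun i : Fin (e + 1) => B (Sum.inr i))).submatrix id I).det ^ 2 =
        (Matrix.submatrix (Matrix.of (fun i : Fin (d + 1) => A (Sum.inl i))) id (φ I)).det ^ 2 := by
      rw [← sq_abs, ← sq_abs (Matrix.det (Matrix.submatrix (Matrix.of (fun i : Fin (d + 1) => A (Sum.inl i))) id (φ I)))]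
      exact congrArg (fun t => t ^ 2) h3.symm
    exact_mod_cast h4
  rw [Finset.sum_congr rfl (fun I _ => hdet I)]
  calc ∑ I, (((Matrix.submatrix (Matrix.of (fun i : Fin (d + 1) => A (Sum.inl i))) id (φ I)).det : ℤ) : ℝ) ^ 2
      = ∑ J ∈ Finset.univ.image φ,
        (((Matrix.submatrix (Matrix.of (fun i : Fin (d + 1) => A (Sum.inl i))) id J).det : ℤ) : ℝ) ^ 2 := by
        rw [Finset.sum_image (fun I _ J _ h => hφ h)]
    _ ≤ _ := Finset.sum_le_sum_of_subset_of_nonneg (Finset.subset_univ _) (fun _ _ _ => sq_nonneg _)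

end Ver4
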