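import Pool.Agent.LibVer4.G1
import Pool.Agent.LibVer4.A2c

open Polynomial Pool.Agent.LibInterm

namespace Ver4

/-- The polynomial with a given coefficient vector. -/
private noncomputable def A3_poly {n : ℕ} (v : Fin (n + 1) → ℤ) : ℤ[X] :=
  ∑ i : Fin (n + 1), C (v i) * X ^ (i : ℕ)

private theorem A3_coeff {n : ℕ} (v : Fin (n + 1) → ℤ) (i : Fin (n + 1)) :
    (A3_poly v).coeff (i : ℕ) = v i := by
  rw [A3_poly, finsetSum_coeff]
  rw [Finset.sum_eq_single i]
  · simp
  · intro j _ hj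
    rw [coeff_C_mul, coeff_X_pow, if_neg (fun h => hj (Fin.ext h.symm)), mul_zero]
  · intro h
    exact absurd (Finset.mem_univ i) h

private theorem A3_natDegree {n : ℕ} (v : Fin (n + 1) → ℤ) : (A3_poly v).natDegree ≤ n := by
  apply natDegree_sum_le_of_forall_le
  intro i _
  exact (natDegree_C_mul_X_pow_le _ _).trans (Nat.lt_succ_iff.1 i.2)

private theorem A3_vec {n : ℕ} (v : Fin (n + 1) → ℤ) : vec n (A3_poly v) = v := by
  funext i
  exact A3_coeff v i

private noncomputable def A3_vecHom (n : ℕ) : ℤ[X] →ₗ[ℤ] (Fin (n + 1) → ℤ) where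
  toFun := vec n
  map_add' p q := by
    funext i
    simp [vec]
  map_smul' c p := by
    funext i
    simp [vec]

/-- A3: a reduced basis of the annihilator, as polynomials. Hint: `dual` and `exists_reduced_basis`
(`LibInterm/Heights.lean`) for `Lᗮ`; the polynomial with coefficient vector `b i`. -/
theorem annih_basis {n d e : ℕ} (hn : n = d + e + 1) : ∃ C : ℝ, 0 < C ∧
    ∀ L : Submodule ℝ (EuclideanSpace ℝ (Fin (n + 1))), IsRationalSub d L →
    ∃ F : Fin (e + 1) → ℤ[X], LinearIndependent ℤ F ∧ (∀ i, (F i).natDegree ≤ n) ∧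
      (∀ i, intVec (vec n (F i)) ∈ Lᗮ) ∧ ∏ i, L1 (F i) ≤ C * height d L := by
  refine ⟨((n + 1 : ℕ) : ℝ) ^ (e + 1) * (((e + 1 : ℕ) : ℝ) ^ (e + 1) *
    Real.sqrt ((e + 1 : ℕ) : ℝ) ^ (e + 1)), by positivity, ?_⟩
  intro L hL
  obtain ⟨h1, h2⟩ := dual hn L hL
  obtain ⟨b, hb1, hb2, hb3⟩ := exists_reduced_basis h1
  refine ⟨fun i => A3_poly (b i), ?_, fun i => A3_natDegree _, ?_, ?_⟩
  · have hbZ : LinearIndependent ℤ b := by
      have h3 : LinearIndependent ℤ (fun i => intVec (b i)) := hb1.restrict_scalars (by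
        intro x y hxy
        simpa using hxy)
      exact LinearIndependent.of_comp (intVecHom n) h3
    apply LinearIndependent.of_comp (A3_vecHom n)
    have h4 : (A3_vecHom n) ∘ (fun i => A3_poly (b i)) = b := by
      funext i
      exact A3_vec (b i)
    rw [h4]
    exact hbZ
  · intro i
    change intVec (vec n (A3_poly (b i))) ∈ Lᗮ
    rw [A3_vec, ← hb2]
    exact Submodule.subset_span ⟨i, rfl⟩
  · have h5 : ∀ i, L1 (A3_poly (b i)) ≤ ((n + 1 : ℕ) : ℝ) * ‖b i‖ := by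
      intro i
      rw [L1_eq_sum _ n (A3_natDegree _), ← Fin.sum_univ_eq_sum_range
        (fun j => |((A3_poly (b i)).coeff j : ℝ)|) (n + 1)]
      calc ∑ j : Fin (n + 1), |((A3_poly (b i)).coeff (j : ℕ) : ℝ)|
          ≤ ∑ j : Fin (n + 1), ‖b i‖ := by
            apply Finset.sum_le_sum
            intro j _
            rw [A3_coeff]
            have h6 := norm_le_pi_norm (b i) j
            rwa [Int.norm_eq_abs] at h6
        _ = ((n + 1 : ℕ) : ℝ) * ‖b i‖ := by
            rw [Finset.sum_const, Finset.card_univ, Fintype.card_fin, nsmul_eq_mul]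
    calc ∏ i, L1 (A3_poly (b i)) ≤ ∏ i, (((n + 1 : ℕ) : ℝ) * ‖b i‖) :=
          Finset.prod_le_prod (fun i _ => L1_nonneg _) (fun i _ => h5 i)
      _ = ((n + 1 : ℕ) : ℝ) ^ (e + 1) * ∏ i, ‖b i‖ := by
          rw [Finset.prod_mul_distrib, Finset.prod_const, Finset.card_univ, Fintype.card_fin]
      _ ≤ ((n + 1 : ℕ) : ℝ) ^ (e + 1) * (((e + 1 : ℕ) : ℝ) ^ (e + 1) *
          Real.sqrt ((e + 1 : ℕ) : ℝ) ^ (e + 1) * height e Lᗮ) :=
          mul_le_mul_of_nonneg_left hb3 (by positivity)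
      _ ≤ ((n + 1 : ℕ) : ℝ) ^ (e + 1) * (((e + 1 : ℕ) : ℝ) ^ (e + 1) *
          Real.sqrt ((e + 1 : ℕ) : ℝ) ^ (e + 1) * height d L) := by
          gcongr
      _ = _ := by ring

end Ver4
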