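import Mathlib

open Polynomial

namespace Ver4

/-- A4: extraction of the greatest common divisor. Hint: `ℤ[X]` is a GCD monoid (or take a common
divisor `P` of maximal degree, and among these with maximal content or number of irreducible
factors); if `D ∣ G i` for all `i` and `D.natDegree ≥ 1` then `P * D` is a common divisor of larger
degree. `r ≤ m' + 1` because the `G i` are independent polynomials of degree at most `m'`. -/
theorem gcd_extract (n r : ℕ) (hr : 1 ≤ r) (F : Fin r → ℤ[X]) (hF : LinearIndependent ℤ F)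
    (hd : ∀ i, (F i).natDegree ≤ n) : ∃ (P : ℤ[X]) (G : Fin r → ℤ[X]) (m' : ℕ), P ≠ 0 ∧
      (∀ i, F i = P * G i) ∧ LinearIndependent ℤ G ∧ (∀ i, (G i).natDegree ≤ m') ∧
      (∃ i, (G i).natDegree = m') ∧ (∀ D : ℤ[X], (∀ i, D ∣ G i) → D.natDegree = 0) ∧
      P.natDegree + m' ≤ n ∧ r ≤ m' + 1 := by
  classical
  let _ : NormalizedGCDMonoid ℤ[X] := UniqueFactorizationMonoid.toNormalizedGCDMonoid ℤ[X]
  have hne : (Finset.univ : Finset (Fin r)).Nonempty := ⟨⟨0, hr⟩, Finset.mem_univ _⟩
  obtain ⟨G, hG, hG1⟩ := Finset.extract_gcd F hne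
  set P : ℤ[X] := Finset.univ.gcd F with hP
  have hF' : ∀ i, F i = P * G i := fun i => hG i (Finset.mem_univ i)
  have hF0 : ∀ i, F i ≠ 0 := fun i => hF.ne_zero i
  have hP0 : P ≠ 0 := by
    intro h
    apply hF0 ⟨0, hr⟩
    rw [hF', h, zero_mul]
  have hG0 : ∀ i, G i ≠ 0 := by
    intro i h
    apply hF0 i
    rw [hF', h, mul_zero]
  have hGi : LinearIndependent ℤ G := by
    rw [Fintype.linearIndependent_iff] at hF ⊢
    intro g hg
    refine hF g ?_
    calc ∑ i, g i • F i = P * ∑ i, g i • G i := by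
          rw [Finset.mul_sum]
          refine Finset.sum_congr rfl fun i _ => ?_
          rw [hF' i, mul_smul_comm]
      _ = 0 := by rw [hg, mul_zero]
  obtain ⟨i0, -, hi0⟩ := Finset.exists_max_image Finset.univ (fun i => (G i).natDegree) hne
  refine ⟨P, G, (G i0).natDegree, hP0, hF', hGi, fun i => hi0 i (Finset.mem_univ i), ⟨i0, rfl⟩,
    ?_, ?_, ?_⟩
  · intro D hD
    have h1 : D ∣ Finset.univ.gcd G := Finset.dvd_gcd fun i _ => hD i
    rw [hG1] at h1
    exact natDegree_eq_zero_of_isUnit (isUnit_of_dvd_one h1)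
  · have h1 := hd i0
    rw [hF' i0, natDegree_mul hP0 (hG0 i0)] at h1
    exact h1
  · set m' := (G i0).natDegree with hm'
    have hmem : ∀ i, G i ∈ degreeLT ℤ (m' + 1) := by
      intro i
      rw [mem_degreeLT]
      refine lt_of_le_of_lt (degree_le_natDegree) ?_
      have := hi0 i (Finset.mem_univ i)
      exact_mod_cast Nat.lt_succ_of_le this
    have h1 : LinearIndependent ℤ (fun i : Fin r => (⟨G i, hmem i⟩ : degreeLT ℤ (m' + 1))) := by
      refine LinearIndependent.of_comp (degreeLT ℤ (m' + 1)).subtype ?_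
      exact hGi
    have h2 : LinearIndependent ℤ (fun i : Fin r =>
        degreeLTEquiv ℤ (m' + 1) (⟨G i, hmem i⟩ : degreeLT ℤ (m' + 1))) :=
      h1.map' (degreeLTEquiv ℤ (m' + 1)).toLinearMap (LinearEquiv.ker _)
    have h3 := h2.fintype_card_le_finrank
    rw [Fintype.card_fin, Module.finrank_fin_fun] at h3
    exact h3

end Ver4
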