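import Pool.Agent.LibVer4.K1

open Polynomial

namespace Ver4

private theorem k2_finrank (K : Type*) [Field K] (n : ℕ) : Module.finrank K (degreeLT K n) = n := by
  rw [(degreeLTEquiv K n).finrank_eq, Module.finrank_fin_fun]

private theorem k2_finite (K : Type*) [Field K] (n : ℕ) : FiniteDimensional K (degreeLT K n) :=
  Module.Finite.equiv (degreeLTEquiv K n).symm

private theorem k2_mem {K : Type*} [Field K] {Q : K[X]} {n : ℕ} (h : Q.natDegree ≤ n) :
    Q ∈ degreeLT K (n + 1) := by
  rw [mem_degreeLT]
  refine lt_of_le_of_lt degree_le_natDegree ?_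
  exact_mod_cast Nat.lt_succ_of_le h

/-- the span of the `X^j G_i`, `j ≤ k` -/
private noncomputable def k2_W {K : Type*} [Field K] {r : ℕ} (G : Fin r → K[X]) (k : ℕ) :
    Submodule K K[X] :=
  Submodule.span K {F : K[X] | ∃ i, ∃ j : ℕ, j ≤ k ∧ F = X ^ j * G i}

private theorem k2_le {K : Type*} [Field K] {r m : ℕ} (G : Fin r → K[X])
    (hdeg : ∀ i, (G i).natDegree ≤ m) (k : ℕ) : k2_W G k ≤ degreeLT K (m + k + 1) := by
  rw [k2_W, Submodule.span_le]
  rintro _ ⟨i, j, hj, rfl⟩
  apply k2_mem
  calc (X ^ j * G i).natDegree ≤ (X ^ j : K[X]).natDegree + (G i).natDegree := natDegree_mul_le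
    _ ≤ j + m := by
        rw [natDegree_X_pow]
        have := hdeg i
        omega
    _ ≤ m + k := by omega

private theorem k2_step {K : Type*} [Field K] {r : ℕ} (G : Fin r → K[X]) (k : ℕ) :
    k2_W G k ⊔ (k2_W G k).map (LinearMap.mulLeft K (X : K[X])) = k2_W G (k + 1) := by
  apply le_antisymm
  · apply sup_le
    · apply Submodule.span_mono
      rintro F ⟨i, j, hj, rfl⟩
      exact ⟨i, j, by omega, rfl⟩
    · rw [k2_W, Submodule.map_span, Submodule.span_le]
      rintro _ ⟨_, ⟨i, j, hj, rfl⟩, rfl⟩
      apply Submodule.subset_span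
      refine ⟨i, j + 1, by omega, ?_⟩
      rw [LinearMap.mulLeft_apply]
      ring
  · rw [k2_W, k2_W, Submodule.span_le]
    rintro F ⟨i, j, hj, rfl⟩
    rcases Nat.eq_zero_or_pos j with h0 | h0
    · subst h0
      apply Submodule.mem_sup_left
      exact Submodule.subset_span ⟨i, 0, Nat.zero_le _, rfl⟩
    · apply Submodule.mem_sup_right
      refine ⟨X ^ (j - 1) * G i, Submodule.subset_span ⟨i, j - 1, by omega, rfl⟩, ?_⟩
      rw [LinearMap.mulLeft_apply]
      have : j = (j - 1) + 1 := by omega
      rw [this]
      simp only [Nat.add_sub_cancel]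
      ring

/-- K2: independent polynomials without common factor, of degree at most `m` (one of degree `m`):
the products `X^j G_i`, `j ≤ m + 1 - r`, span all polynomials of degree at most `2m + 1 - r`. -/
theorem span_all {K : Type*} [Field K] (m r : ℕ) (hr : 1 ≤ r) (G : Fin r → K[X])
    (hG : LinearIndependent K G) (hdeg : ∀ i, (G i).natDegree ≤ m)
    (htop : ∃ i, (G i).natDegree = m) (hcop : ∀ D : K[X], (∀ i, D ∣ G i) → IsUnit D)
    (Q : K[X]) (hQ : Q.natDegree ≤ 2 * m + 1 - r) :
    Q ∈ Submodule.span K {F : K[X] | ∃ i, ∃ j : ℕ, j ≤ m + 1 - r ∧ F = X ^ j * G i} := by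
  have hfin : ∀ n, FiniteDimensional K (degreeLT K n) := k2_finite K
  have hWfin : ∀ k, FiniteDimensional K (k2_W G k) := fun k =>
    Submodule.finiteDimensional_of_le (k2_le G hdeg k)
  have hle : ∀ k, Module.finrank K (k2_W G k) ≤ m + k + 1 := fun k => by
    have := Submodule.finrank_mono (k2_le G hdeg k)
    rwa [k2_finrank] at this
  -- the case k = 0
  have h0 : Module.finrank K (k2_W G 0) = r := by
    have e : k2_W G 0 = Submodule.span K (Set.range G) := by
      rw [k2_W]
      congr 1
      ext F
      constructor
      · rintro ⟨i, j, hj, rfl⟩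
        have : j = 0 := by omega
        subst this
        exact ⟨i, by simp⟩
      · rintro ⟨i, rfl⟩
        exact ⟨i, 0, le_rfl, by simp⟩
    rw [e, finrank_span_eq_card hG, Fintype.card_fin]
  have hrm : r ≤ m + 1 := by
    have := hle 0
    omega
  have hmain : ∀ k, min (m + k + 1) (r + 2 * k) ≤ Module.finrank K (k2_W G k) := by
    intro k
    induction k with
    | zero => rw [h0]; omega
    | succ k ih =>
      by_cases hfull : Module.finrank K (k2_W G k) = m + k + 1
      · -- full
        have hWeq : k2_W G k = degreeLT K (m + k + 1) := by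
          apply Submodule.eq_of_le_of_finrank_eq (k2_le G hdeg k)
          rw [hfull, k2_finrank]
        have h1 : degreeLT K (m + (k + 1) + 1) ≤ k2_W G (k + 1) := by
          intro F hF
          rw [← k2_step, hWeq]
          have e : F = C (F.coeff 0) + X * F.divX := by
            conv_lhs => rw [← divX_mul_X_add F]
            ring
          rw [e]
          apply Submodule.add_mem
          · apply Submodule.mem_sup_left
            rw [mem_degreeLT]
            refine lt_of_le_of_lt degree_C_le ?_
            exact_mod_cast Nat.succ_pos _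
          · apply Submodule.mem_sup_right
            refine ⟨F.divX, ?_, rfl⟩
            apply k2_mem
            rw [natDegree_divX_eq_natDegree_tsub_one]
            by_cases hF0 : F = 0
            · subst hF0; simp
            · rw [mem_degreeLT, degree_eq_natDegree hF0] at hF
              have : F.natDegree < m + (k + 1) + 1 := by exact_mod_cast hF
              omega
        have h2 := Submodule.finrank_mono h1
        rw [k2_finrank] at h2
        omega
      · have hlt : Module.finrank K (k2_W G k) < m + k + 1 :=
          lt_of_le_of_ne (hle k) hfull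
        have h2 : Module.finrank K (k2_W G k) + 2 ≤ Module.finrank K (k2_W G (k + 1)) := by
          by_contra hcon
          have h3 : Module.finrank K ↥(k2_W G k ⊔ (k2_W G k).map
              (LinearMap.mulLeft K (X : K[X]))) ≤ Module.finrank K (k2_W G k) + 1 := by
            rw [k2_step]
            omega
          obtain ⟨D, hD⟩ := shift_space (Module.finrank K (k2_W G k)) (k2_W G k) rfl h3
          have hdvd : ∀ i, D ∣ G i := by
            intro i
            have h4 : G i ∈ k2_W G k := Submodule.subset_span ⟨i, 0, Nat.zero_le _, by simp⟩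
            rw [hD] at h4
            obtain ⟨Q', _, h5⟩ := h4
            rw [LinearMap.mulLeft_apply] at h5
            exact ⟨Q', h5.symm⟩
          have hunit := hcop D hdvd
          obtain ⟨i, hi⟩ := htop
          have hGi : G i ≠ 0 := hG.ne_zero i
          have h4 : X ^ k * G i ∈ k2_W G k := Submodule.subset_span ⟨i, k, le_rfl, rfl⟩
          rw [hD] at h4
          obtain ⟨Q', hQ', h5⟩ := h4
          rw [LinearMap.mulLeft_apply] at h5
          have hQ'0 : Q' ≠ 0 := by
            rintro rfl
            rw [mul_zero] at h5
            exact mul_ne_zero (pow_ne_zero _ X_ne_zero) hGi h5.symm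
          have h6 : Q'.natDegree < Module.finrank K (k2_W G k) := by
            rw [SetLike.mem_coe, mem_degreeLT, degree_eq_natDegree hQ'0] at hQ'
            exact_mod_cast hQ'
          have h7 : (D * Q').natDegree = Q'.natDegree := by
            rw [natDegree_mul hunit.ne_zero hQ'0, natDegree_eq_zero_of_isUnit hunit, zero_add]
          have h8 : (X ^ k * G i).natDegree = k + m := by
            rw [natDegree_mul (pow_ne_zero _ X_ne_zero) hGi, natDegree_X_pow, hi]
          rw [h5, h8] at h7
          omega
        omega
  have hk := hmain (m + 1 - r)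
  have hfull : Module.finrank K (k2_W G (m + 1 - r)) = m + (m + 1 - r) + 1 := by
    have := hle (m + 1 - r)
    omega
  have hWeq : k2_W G (m + 1 - r) = degreeLT K (m + (m + 1 - r) + 1) := by
    apply Submodule.eq_of_le_of_finrank_eq (k2_le G hdeg _)
    rw [hfull, k2_finrank]
  have hfinal : Q ∈ k2_W G (m + 1 - r) := by
    rw [hWeq]
    apply k2_mem
    omega
  exact hfinal

end Ver4
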