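import Pool.Agent.LibVer4.G1
import Pool.Agent.LibVer4.K2

open Polynomial

namespace Ver4

/-- the determinant is at most the product of the row sums of absolute values -/
private theorem k3_det_le (n : ℕ) (B : Matrix (Fin n) (Fin n) ℝ) :
    |B.det| ≤ ∏ i, ∑ j, |B i j| := by
  rw [← Matrix.det_transpose, Matrix.det_apply']
  refine (Finset.abs_sum_le_sum_abs _ _).trans ?_
  have h1 : ∀ σ : Equiv.Perm (Fin n), |((Equiv.Perm.sign σ : ℤ) : ℝ) * ∏ i, B.transpose (σ i) i| =
      ∏ i, |B i (σ i)| := by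
    intro σ
    rw [abs_mul, Finset.abs_prod]
    have : |((Equiv.Perm.sign σ : ℤ) : ℝ)| = 1 := by
      rcases Int.units_eq_one_or (Equiv.Perm.sign σ) with h | h <;> rw [h] <;> simp
    rw [this, one_mul]
    rfl
  rw [Finset.sum_congr rfl (fun σ _ => h1 σ)]
  rw [Finset.prod_univ_sum]
  have h2 : ∑ σ : Equiv.Perm (Fin n), ∏ i, |B i (σ i)| =
      ∑ f ∈ (Finset.univ : Finset (Equiv.Perm (Fin n))).map
        (⟨fun σ : Equiv.Perm (Fin n) => (σ : Fin n → Fin n),
          fun a b h => Equiv.ext (congrFun h)⟩ : Equiv.Perm (Fin n) ↪ (Fin n → Fin n)),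
        ∏ i, |B i (f i)| := by
    rw [Finset.sum_map]
    rfl
  rw [h2]
  apply Finset.sum_le_sum_of_subset_of_nonneg
  · intro f _
    rw [Fintype.mem_piFinset]
    intro i
    exact Finset.mem_univ _
  · intro f _ _
    exact Finset.prod_nonneg fun i _ => abs_nonneg _

/-- the determinant estimate -/
private theorem k3_det (N : ℕ) (A : Matrix (Fin (N + 1)) (Fin (N + 1)) ℤ) (hA : A.det ≠ 0) (ξ : ℝ) :
    1 ≤ ∑ k, |∑ t : Fin (N + 1), ξ ^ (t : ℕ) * (A k t : ℝ)| *
      ∏ l : Fin N, ∑ t : Fin (N + 1), |(A (k.succAbove l) t : ℝ)| := by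
  have h0 : (1 : ℝ) ≤ |(A.map (Int.cast : ℤ → ℝ)).det| := by
    have e : (A.map (Int.cast : ℤ → ℝ)).det = ((A.det : ℤ) : ℝ) := by
      have := (Int.castRingHom ℝ).map_det A
      rw [RingHom.mapMatrix_apply] at this
      exact this.symm
    rw [e]
    exact_mod_cast Int.one_le_abs hA
  have h1 := Matrix.det_updateCol_sum (A.map (Int.cast : ℤ → ℝ)) 0
    (fun t : Fin (N + 1) => ξ ^ (t : ℕ))
  simp only [Fin.val_zero, pow_zero, smul_eq_mul, one_mul] at h1
  rw [← h1, Matrix.det_succ_column_zero] at h0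
  refine h0.trans ((Finset.abs_sum_le_sum_abs _ _).trans ?_)
  apply Finset.sum_le_sum
  intro k _
  rw [abs_mul, abs_mul, abs_pow, abs_neg, abs_one, one_pow, one_mul]
  have e1 : ((A.map (Int.cast : ℤ → ℝ)).updateCol 0 (fun k => ∑ i : Fin (N + 1),
      ξ ^ (i : ℕ) * (A.map (Int.cast : ℤ → ℝ)) k i)) k 0 =
      ∑ t : Fin (N + 1), ξ ^ (t : ℕ) * (A k t : ℝ) := by
    rw [Matrix.updateCol_self]
    rfl
  rw [e1]
  apply mul_le_mul_of_nonneg_left _ (abs_nonneg _)
  refine (k3_det_le N _).trans ?_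
  apply Finset.prod_le_prod (fun l _ => Finset.sum_nonneg fun _ _ => abs_nonneg _)
  intro l _
  rw [Fin.sum_univ_succ (fun t : Fin (N + 1) => |(A (k.succAbove l) t : ℝ)|)]
  have e2 : ∀ j : Fin N, ((A.map (Int.cast : ℤ → ℝ)).updateCol 0 (fun k => ∑ i : Fin (N + 1),
      ξ ^ (i : ℕ) * (A.map (Int.cast : ℤ → ℝ)) k i)).submatrix k.succAbove Fin.succ l j =
      (A (k.succAbove l) j.succ : ℝ) := by
    intro j
    rw [Matrix.submatrix_apply, Matrix.updateCol_ne (Fin.succ_ne_zero j)]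
    rfl
  simp only [e2]
  have := abs_nonneg ((A (k.succAbove l) 0 : ℤ) : ℝ)
  linarith

/-- Gauss' lemma: no common divisor over `ℚ` -/
private theorem k3_gauss {r : ℕ} (hr : 1 ≤ r) (G : Fin r → ℤ[X]) (hG : ∀ i, G i ≠ 0)
    (h : ∀ D : ℤ[X], (∀ i, D ∣ G i) → D.natDegree = 0) (D : ℚ[X])
    (hD : ∀ i, D ∣ (G i).map (Int.castRingHom ℚ)) : IsUnit D := by
  have hinj : Function.Injective (Int.castRingHom ℚ) := Int.cast_injective
  have hD0 : D ≠ 0 := by
    rintro rfl
    have h1 := hD ⟨0, hr⟩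
    rw [zero_dvd_iff, Polynomial.map_eq_zero_iff hinj] at h1
    exact hG _ h1
  obtain ⟨b, hb, hbD⟩ := IsLocalization.integerNormalization_spec (nonZeroDivisors ℤ) D
  set E := IsLocalization.integerNormalization (nonZeroDivisors ℤ) D with hE
  have hb0 : b ≠ 0 := nonZeroDivisors.ne_zero hb
  have halg : (algebraMap ℤ ℚ) = Int.castRingHom ℚ := rfl
  have hE0 : E ≠ 0 := by
    intro h0
    rw [h0, Polynomial.map_zero] at hbD
    exact (smul_ne_zero hb0 hD0) hbD.symm
  have hEeq := E.eq_C_content_mul_primPart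
  have hcont : E.content ≠ 0 := by
    rw [Ne, content_eq_zero_iff]
    exact hE0
  have h1 : ∀ i, E.primPart ∣ G i := by
    intro i
    apply IsPrimitive.dvd_of_fraction_map_dvd_fraction_map (K := ℚ) E.isPrimitive_primPart
    have h2 : (E.primPart).map (algebraMap ℤ ℚ) ∣ D := by
      have h3 : (E.primPart).map (algebraMap ℤ ℚ) ∣ b • D := by
        rw [← hbD]
        conv_rhs => rw [hEeq]
        rw [Polynomial.map_mul]
        exact dvd_mul_left _ _
      have h4 : b • D = C (b : ℚ) * D := by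
        rw [C_mul', ← Int.cast_smul_eq_zsmul ℚ]
      rw [h4] at h3
      have hu : IsUnit (C (b : ℚ)) := by
        rw [isUnit_C]
        exact IsUnit.mk0 _ (by exact_mod_cast hb0)
      exact (hu.dvd_mul_left).1 h3
    exact h2.trans (hD i)
  have h2 := h _ h1
  rw [natDegree_primPart] at h2
  have h3 : D.natDegree = 0 := by
    have h5 : (E.map (algebraMap ℤ ℚ)).natDegree = E.natDegree :=
      natDegree_map_eq_of_injective hinj E
    rw [hbD, h2] at h5
    have h4 : b • D = C (b : ℚ) * D := by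
      rw [C_mul', ← Int.cast_smul_eq_zsmul ℚ]
    rw [h4, natDegree_C_mul (by exact_mod_cast hb0)] at h5
    exact h5
  rw [isUnit_iff_degree_eq_zero, degree_eq_natDegree hD0, h3]
  rfl

private theorem k3_li {r : ℕ} (G : Fin r → ℤ[X]) (hG : LinearIndependent ℤ G) :
    LinearIndependent ℚ (fun i => (G i).map (Int.castRingHom ℚ)) := by
  rw [← LinearIndependent.iff_fractionRing ℤ ℚ]
  have h1 := hG.map' ((Polynomial.mapRingHom (Int.castRingHom ℚ)).toAddMonoidHom.toIntLinearMap)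
    (by
      rw [LinearMap.ker_eq_bot]
      intro a b hab
      exact Polynomial.map_injective _ Int.cast_injective hab)
  exact h1

/-- the nonsingular matrix -/
private theorem k3_matrix (r m' N : ℕ) (hN : N = 2 * m' + 1 - r) (hr : 1 ≤ r) (hrm : r ≤ m' + 1)
    (G : Fin r → ℤ[X])
    (hG : LinearIndependent ℤ G) (hdeg : ∀ i, (G i).natDegree ≤ m')
    (htop : ∃ i, (G i).natDegree = m')
    (hcop : ∀ D : ℤ[X], (∀ i, D ∣ G i) → D.natDegree = 0) :
    ∃ a : Fin (N + 1) → Fin r × Fin (m' + 2 - r), Function.Injective a ∧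
      (Matrix.of fun (k t : Fin (N + 1)) =>
        (X ^ ((a k).2 : ℕ) * G (a k).1).coeff (t : ℕ)).det ≠ 0 := by
  classical
  have hinj : Function.Injective (Int.castRingHom ℚ) := Int.cast_injective
  set g : Fin r → ℚ[X] := fun i => (G i).map (Int.castRingHom ℚ) with hg
  have hgli : LinearIndependent ℚ g := k3_li G hG
  have hgdeg : ∀ i, (g i).natDegree = (G i).natDegree := fun i =>
    natDegree_map_eq_of_injective hinj _
  have hgcop : ∀ D : ℚ[X], (∀ i, D ∣ g i) → IsUnit D := fun D hD =>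
    k3_gauss hr G (fun i => hG.ne_zero i) hcop D hD
  -- the coefficient map
  let cf : ℚ[X] →ₗ[ℚ] (Fin (N + 1) → ℚ) := LinearMap.pi fun t => lcoeff ℚ (t : ℕ)
  let F : Fin r × Fin (m' + 2 - r) → (Fin (N + 1) → ℚ) := fun p => cf (X ^ (p.2 : ℕ) * g p.1)
  have hspan : Submodule.span ℚ (Set.range F) = ⊤ := by
    rw [eq_top_iff]
    intro v _
    have hv : v = cf (∑ t : Fin (N + 1), C (v t) * X ^ (t : ℕ)) := by
      ext s
      simp only [cf, LinearMap.pi_apply, lcoeff_apply, finsetSum_coeff, coeff_C_mul, coeff_X_pow]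
      rw [Finset.sum_eq_single s]
      · simp
      · intro t _ hts
        rw [if_neg (fun h => hts (Fin.ext h.symm)), mul_zero]
      · intro h
        exact absurd (Finset.mem_univ _) h
    have hQ : (∑ t : Fin (N + 1), C (v t) * X ^ (t : ℕ)).natDegree ≤ 2 * m' + 1 - r := by
      apply natDegree_sum_le_of_forall_le
      intro t _
      refine (natDegree_C_mul_X_pow_le _ _).trans ?_
      have := t.2
      omega
    have h1 := span_all m' r hr g hgli (fun i => by rw [hgdeg]; exact hdeg i)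
      (by obtain ⟨i, hi⟩ := htop; exact ⟨i, by rw [hgdeg]; exact hi⟩) hgcop _ hQ
    have h2 := Submodule.mem_map_of_mem (f := cf) h1
    rw [← hv, Submodule.map_span] at h2
    refine Submodule.span_mono ?_ h2
    rintro _ ⟨_, ⟨i, j, hj, rfl⟩, rfl⟩
    exact ⟨(i, ⟨j, by omega⟩), rfl⟩
  obtain ⟨κ, a, ha, hsp, hli⟩ := exists_linearIndependent' ℚ F
  rw [hspan] at hsp
  have : Finite κ := Finite.of_injective a ha
  have : Fintype κ := Fintype.ofFinite κ
  have hcard : Fintype.card κ = N + 1 := by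
    have h1 := Module.finrank_eq_card_basis (Module.Basis.mk hli (by rw [hsp]))
    rw [Module.finrank_fin_fun] at h1
    exact h1.symm
  let e : Fin (N + 1) ≃ κ := (Fintype.equivFinOfCardEq hcard).symm
  refine ⟨a ∘ e, ha.comp e.injective, ?_⟩
  intro hdet
  have hli2 : LinearIndependent ℚ (fun k : Fin (N + 1) => F (a (e k))) :=
    hli.comp e e.injective
  have h3 : (Matrix.of fun (k t : Fin (N + 1)) => F (a (e k)) t).det ≠ 0 := by
    have h4 : IsUnit (Matrix.of fun (k t : Fin (N + 1)) => F (a (e k)) t) := by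
      rw [← Matrix.linearIndependent_rows_iff_isUnit]
      exact hli2
    rw [Matrix.isUnit_iff_isUnit_det] at h4
    exact h4.ne_zero
  apply h3
  have h5 := (Int.castRingHom ℚ).map_det (Matrix.of fun (k t : Fin (N + 1)) =>
        (X ^ (((a ∘ e) k).2 : ℕ) * G ((a ∘ e) k).1).coeff (t : ℕ))
  rw [hdet, map_zero, RingHom.mapMatrix_apply] at h5
  rw [h5]
  congr 1
  ext k t
  simp only [Matrix.of_apply, Matrix.map_apply, F, cf, LinearMap.pi_apply, lcoeff_apply, g,
    Function.comp_apply]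
  rw [← coeff_map, Polynomial.map_mul, Polynomial.map_pow, map_X]

/-- K3: quantitative version at a real point. Hint: over `ℚ` the `X^j G_i`, `j ≤ m'+1-r`, span the
polynomials of degree `≤ N = 2m'+1-r` (`span_all`; the hypothesis on common divisors passes to `ℚ[X]`
by Gauss' lemma), choose `N + 1` independent ones; the integer matrix of their coefficients has
`|det| ≥ 1`; replace column `0` by the values at `ξ` (add `ξ^t` times column `t`), expand along that
column and bound the minors by the products of the `L1` norms of the rows: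
`1 ≤ ∑_rows |ξ^j G_i(ξ)| / L1 (G_i) * ∏_rows L1`, each `G_i` occurs at most `m'+2-r` times. -/
theorem quant (m : ℕ) (M : ℝ) : ∃ c : ℝ, 0 < c ∧ ∀ (r m' : ℕ) (G : Fin r → ℤ[X]) (ξ : ℝ),
    1 ≤ r → r ≤ m' + 1 → m' ≤ m → |ξ| ≤ M → LinearIndependent ℤ G →
    (∀ i, (G i).natDegree ≤ m') → (∃ i, (G i).natDegree = m') →
    (∀ D : ℤ[X], (∀ i, D ∣ G i) → D.natDegree = 0) →
    ∃ i, c * L1 (G i) ≤ |aeval ξ (G i)| * (∏ j, L1 (G j)) ^ (m' + 2 - r) := by
  have hM1 : (1 : ℝ) ≤ max 1 M := le_max_left _ _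
  refine ⟨1 / ((2 * m + 2) * (max 1 M) ^ m), by positivity, ?_⟩
  intro r m' G ξ hr hrm hm hξ hG hdeg htop hcop
  obtain ⟨N, hN⟩ : ∃ N, N = 2 * m' + 1 - r := ⟨_, rfl⟩
  obtain ⟨a, ha, hdet⟩ := k3_matrix r m' N hN hr hrm G hG hdeg htop hcop
  have hmain := k3_det N _ hdet ξ
  simp only [Matrix.of_apply] at hmain
  have hG0 : ∀ i, G i ≠ 0 := fun i => hG.ne_zero i
  have hL1 : ∀ i, 1 ≤ L1 (G i) := fun i => one_le_L1 _ (hG0 i)
  -- degrees
  have hd : ∀ k, (X ^ ((a k).2 : ℕ) * G (a k).1).natDegree ≤ N := by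
    intro k
    refine natDegree_mul_le.trans ?_
    rw [natDegree_X_pow]
    have := (a k).2.2
    have := hdeg (a k).1
    omega
  have hrow : ∀ k, ∑ t : Fin (N + 1), |((X ^ ((a k).2 : ℕ) * G (a k).1).coeff (t : ℕ) : ℝ)| =
      L1 (G (a k).1) := by
    intro k
    rw [← L1_X_pow_mul ((a k).2 : ℕ) (G (a k).1), L1_eq_sum _ N (hd k), Finset.sum_range]
  have hval : ∀ k, |∑ t : Fin (N + 1), ξ ^ (t : ℕ) *
      ((X ^ ((a k).2 : ℕ) * G (a k).1).coeff (t : ℕ) : ℝ)| ≤
      (max 1 M) ^ m * |aeval ξ (G (a k).1)| := by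
    intro k
    have e1 : ∑ t : Fin (N + 1), ξ ^ (t : ℕ) *
      ((X ^ ((a k).2 : ℕ) * G (a k).1).coeff (t : ℕ) : ℝ) =
      aeval ξ (X ^ ((a k).2 : ℕ) * G (a k).1) := by
      rw [aeval_eq_sum_range' (Nat.lt_succ_of_le (hd k)), Finset.sum_range]
      apply Finset.sum_congr rfl
      intro t _
      rw [zsmul_eq_mul, mul_comm]
    rw [e1, map_mul, map_pow, aeval_X, abs_mul, abs_pow]
    apply mul_le_mul_of_nonneg_right _ (abs_nonneg _)
    calc |ξ| ^ ((a k).2 : ℕ) ≤ (max 1 M) ^ ((a k).2 : ℕ) := by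
          apply pow_le_pow_left₀ (abs_nonneg _)
          exact hξ.trans (le_max_right _ _)
      _ ≤ (max 1 M) ^ m := pow_le_pow_right₀ hM1 (by have := (a k).2.2; omega)
  -- the product over the rows
  have hprodall : ∏ k, L1 (G (a k).1) ≤ (∏ j, L1 (G j)) ^ (m' + 2 - r) := by
    have e1 : ∏ k, L1 (G (a k).1) = ∏ p ∈ Finset.univ.map ⟨a, ha⟩, L1 (G p.1) := by
      rw [Finset.prod_map]
      rfl
    rw [e1]
    have e2 : ∏ p ∈ Finset.univ.map ⟨a, ha⟩, L1 (G p.1) ≤
        ∏ p : Fin r × Fin (m' + 2 - r), L1 (G p.1) := by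
      apply Finset.prod_le_prod_of_subset_of_one_le (Finset.subset_univ _)
      · intro p _
        exact L1_nonneg _
      · intro p _ _
        exact hL1 _
    refine e2.trans (le_of_eq ?_)
    rw [Fintype.prod_prod_type]
    simp only [Finset.prod_const, Finset.card_univ, Fintype.card_fin]
    rw [Finset.prod_pow]
  have hk : ∀ k, ∏ l : Fin N, L1 (G (a (k.succAbove l)).1) ≤
      (∏ j, L1 (G j)) ^ (m' + 2 - r) / L1 (G (a k).1) := by
    intro k
    rw [le_div_iff₀ (by have := hL1 (a k).1; linarith), mul_comm]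
    rw [← Fin.prod_univ_succAbove (fun k => L1 (G (a k).1)) k]
    exact hprodall
  by_contra hcon
  push Not at hcon
  have hP0 : 0 ≤ (∏ j, L1 (G j)) ^ (m' + 2 - r) := by
    apply pow_nonneg
    exact Finset.prod_nonneg fun j _ => L1_nonneg _
  have hterm : ∀ k : Fin (N + 1), |∑ t : Fin (N + 1), ξ ^ (t : ℕ) *
      ((X ^ ((a k).2 : ℕ) * G (a k).1).coeff (t : ℕ) : ℝ)| *
      ∏ l : Fin N, ∑ t : Fin (N + 1), |((X ^ ((a (k.succAbove l)).2 : ℕ) *
        G (a (k.succAbove l)).1).coeff (t : ℕ) : ℝ)| ≤ 1 / (2 * m + 2) := by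
    intro k
    simp only [hrow]
    have hLk : 0 < L1 (G (a k).1) := by have := hL1 (a k).1; linarith
    have hc1 := hcon (a k).1
    calc _ ≤ ((max 1 M) ^ m * |aeval ξ (G (a k).1)|) *
          ((∏ j, L1 (G j)) ^ (m' + 2 - r) / L1 (G (a k).1)) := by
          apply mul_le_mul (hval k) (hk k)
          · exact Finset.prod_nonneg fun j _ => L1_nonneg _
          · positivity
      _ = (max 1 M) ^ m * (|aeval ξ (G (a k).1)| * (∏ j, L1 (G j)) ^ (m' + 2 - r)) /
          L1 (G (a k).1) := by ring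
      _ ≤ (max 1 M) ^ m * (1 / ((2 * m + 2) * (max 1 M) ^ m) * L1 (G (a k).1)) /
          L1 (G (a k).1) := by
          gcongr
      _ = 1 / (2 * m + 2) := by
          field_simp
  have hsum := hmain.trans (Finset.sum_le_sum fun k _ => hterm k)
  rw [Finset.sum_const, Finset.card_univ, Fintype.card_fin, nsmul_eq_mul] at hsum
  have hN1 : ((N + 1 : ℕ) : ℝ) ≤ 2 * m + 1 := by
    have : N + 1 ≤ 2 * m + 1 := by omega
    exact_mod_cast this
  have h2 : (0 : ℝ) < 2 * m + 2 := by positivity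
  rw [mul_one_div, le_div_iff₀ h2] at hsum
  linarith

end Ver4
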