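import Pool.Agent.LibVer4.G2
import Pool.Agent.LibVer4.K3
import Pool.Agent.LibVer4.A1
import Pool.Agent.LibVer4.A3
import Pool.Agent.LibVer4.A4

open Polynomial Pool.Agent.LibInterm

namespace Ver4

private theorem A5_ratio (V H x s : ℝ) (hV : 1 ≤ V) (hH : 1 ≤ H) (hx : 0 < x) (hs : 0 ≤ s)
    (h : x * V ≤ H) : V ^ s * H ^ (-s) ≤ x ^ (-s) := by
  have hV0 : 0 < V := by linarith
  have hH0 : 0 < H := by linarith
  have h1 : V * H⁻¹ ≤ x⁻¹ := by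
    rw [← div_eq_mul_inv, div_le_iff₀ hH0, inv_mul_eq_div, le_div_iff₀ hx]
    linarith [mul_comm x V]
  rw [Real.rpow_neg hH0.le, Real.rpow_neg hx.le, ← Real.inv_rpow hH0.le, ← Real.inv_rpow hx.le,
    ← Real.mul_rpow hV0.le (inv_nonneg.2 hH0.le)]
  exact Real.rpow_le_rpow (by positivity) h1 hs

private theorem A5_key (p V H c' : ℝ) (e d k : ℕ) (w : ℝ) (hp : 1 ≤ p) (hV : 1 ≤ V) (hH : 1 ≤ H)
    (hc : 0 < c') (hk : k ≤ d + 2) (hw : (d : ℝ) + 1 < w) (h : c' * p ^ (e + 1) * V ≤ H) :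
    p * V ^ k * H ^ (-1 - w) ≤ c' ^ (-(1 + w)) * p ^ (1 - ((e : ℝ) + 1) * (1 + w)) ∧
    p * V ^ k * H ^ (-1 - w) ≤ c' ^ (-((d : ℝ) + 2)) * H ^ (-(w - ((d : ℝ) + 1))) := by
  have hp0 : 0 < p := by linarith
  have hV0 : 0 < V := by linarith
  have hH0 : 0 < H := by linarith
  have hd0 : (0 : ℝ) ≤ d := Nat.cast_nonneg d
  have he0 : (0 : ℝ) ≤ e := Nat.cast_nonneg e
  have hx : 0 < c' * p ^ (e + 1) := by positivity
  have hkd : (k : ℝ) ≤ (d : ℝ) + 2 := by exact_mod_cast hk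
  have hVk : ∀ s : ℝ, (k : ℝ) ≤ s → V ^ k ≤ V ^ s := by
    intro s hs
    rw [← Real.rpow_natCast V k]
    exact Real.rpow_le_rpow_of_exponent_le hV hs
  have hxs : ∀ s : ℝ, (c' * p ^ (e + 1)) ^ (-s) = c' ^ (-s) * p ^ (-(((e : ℝ) + 1) * s)) := by
    intro s
    rw [Real.mul_rpow hc.le (by positivity), ← Real.rpow_natCast p (e + 1), ← Real.rpow_mul hp0.le]
    congr 2
    push_cast
    ring
  constructor
  · have h1 := A5_ratio V H _ (1 + w) hV hH hx (by linarith) h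
    rw [hxs] at h1
    have e1 : (-1 - w : ℝ) = -(1 + w) := by ring
    rw [e1]
    calc p * V ^ k * H ^ (-(1 + w)) ≤ p * V ^ (1 + w) * H ^ (-(1 + w)) := by
          refine mul_le_mul_of_nonneg_right ?_ (Real.rpow_nonneg hH0.le _)
          exact mul_le_mul_of_nonneg_left (hVk _ (by linarith)) hp0.le
      _ = p * (V ^ (1 + w) * H ^ (-(1 + w))) := by ring
      _ ≤ p * (c' ^ (-(1 + w)) * p ^ (-(((e : ℝ) + 1) * (1 + w)))) :=
          mul_le_mul_of_nonneg_left h1 hp0.le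
      _ = c' ^ (-(1 + w)) * (p ^ (1 : ℝ) * p ^ (-(((e : ℝ) + 1) * (1 + w)))) := by
          rw [Real.rpow_one]; ring
      _ = c' ^ (-(1 + w)) * p ^ (1 - ((e : ℝ) + 1) * (1 + w)) := by
          rw [← Real.rpow_add hp0]
          congr 2
  · have h1 := A5_ratio V H _ ((d : ℝ) + 2) hV hH hx (by linarith) h
    rw [hxs] at h1
    have e1 : H ^ (-1 - w) = H ^ (-((d : ℝ) + 2)) * H ^ (-(w - ((d : ℝ) + 1))) := by
      rw [← Real.rpow_add hH0]
      congr 1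
      ring
    have e2 : p * p ^ (-(((e : ℝ) + 1) * ((d : ℝ) + 2))) ≤ 1 := by
      have : p * p ^ (-(((e : ℝ) + 1) * ((d : ℝ) + 2))) =
          p ^ (1 - ((e : ℝ) + 1) * ((d : ℝ) + 2)) := by
        rw [sub_eq_add_neg, Real.rpow_add hp0, Real.rpow_one]
      rw [this]
      refine Real.rpow_le_one_of_one_le_of_nonpos hp ?_
      nlinarith
    rw [e1]
    have hHn : 0 ≤ H ^ (-(w - ((d : ℝ) + 1))) := Real.rpow_nonneg hH0.le _
    calc p * V ^ k * (H ^ (-((d : ℝ) + 2)) * H ^ (-(w - ((d : ℝ) + 1))))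
        ≤ p * V ^ ((d : ℝ) + 2) * (H ^ (-((d : ℝ) + 2)) * H ^ (-(w - ((d : ℝ) + 1)))) := by
          refine mul_le_mul_of_nonneg_right ?_ (by positivity)
          exact mul_le_mul_of_nonneg_left (hVk _ hkd) hp0.le
      _ = p * (V ^ ((d : ℝ) + 2) * H ^ (-((d : ℝ) + 2))) * H ^ (-(w - ((d : ℝ) + 1))) := by ring
      _ ≤ p * (c' ^ (-((d : ℝ) + 2)) * p ^ (-(((e : ℝ) + 1) * ((d : ℝ) + 2)))) *
          H ^ (-(w - ((d : ℝ) + 1))) := by
          refine mul_le_mul_of_nonneg_right ?_ hHn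
          exact mul_le_mul_of_nonneg_left h1 hp0.le
      _ = c' ^ (-((d : ℝ) + 2)) * (p * p ^ (-(((e : ℝ) + 1) * ((d : ℝ) + 2)))) *
          H ^ (-(w - ((d : ℝ) + 1))) := by ring
      _ ≤ c' ^ (-((d : ℝ) + 2)) * 1 * H ^ (-(w - ((d : ℝ) + 1))) := by
          refine mul_le_mul_of_nonneg_right ?_ hHn
          exact mul_le_mul_of_nonneg_left e2 (Real.rpow_nonneg hc.le _)
      _ = _ := by ring

/-- A5a: one subspace gives one polynomial. Hint (`r = e + 1`, `H = height`, `F_i` of `annih_basis`,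
`F_i = P G_i` of `gcd_extract`, `V = ∏ L1 G_i`): `|F_i(ξ)| ≤ C L1(F_i) dist ≤ C L1(P) L1(G_i) H^{-1-w}`,
`H ≥ c ∏ L1 (F_i) ≥ c' L1(P)^r V`; `quant` gives an `i` with
`|P(ξ)| c L1(G_i) ≤ |P(ξ)| |G_i(ξ)| V^{m'+2-r}`, and `m' + 2 - r ≤ d + 2 ≤ w + 1`. So
`|P(ξ)| ≤ C L1(P) V^{d+2} H^{-1-w}`. With `H ≥ c' L1(P)^r V` this gives both bounds. -/
theorem one_subspace {n d e : ℕ} (hn : n = d + e + 1) (w : ℝ) (hw : (d : ℝ) + 1 < w) (M : ℝ) :
    ∃ C : ℝ, 0 < C ∧ ∀ ξ : ℝ, |ξ| ≤ M → ∀ L ∈ Near n d w ξ,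
    ∃ P : ℤ[X], P ≠ 0 ∧ P.natDegree ≤ d + 1 ∧
      |aeval ξ P| ≤ C * L1 P ^ (1 - ((e : ℝ) + 1) * (1 + w)) ∧
      |aeval ξ P| ≤ C * height d L ^ (-(w - (d + 1))) := by
  obtain ⟨C1, hC1, hval⟩ := aeval_le_dist n M
  obtain ⟨C3, hC3, hbasis⟩ := annih_basis hn
  obtain ⟨cq, hcq, hquant⟩ := quant n M
  obtain ⟨cg, hcg, hgel⟩ := gelfond n
  set c' : ℝ := cg ^ (e + 1) / C3 with hc'def
  have hc' : 0 < c' := by positivity
  have hA : 0 < c' ^ (-(1 + w)) := Real.rpow_pos_of_pos hc' _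
  have hB : 0 < c' ^ (-((d : ℝ) + 2)) := Real.rpow_pos_of_pos hc' _
  refine ⟨C1 / cq * (c' ^ (-(1 + w)) + c' ^ (-((d : ℝ) + 2))), by positivity, ?_⟩
  intro ξ hξ L hL
  obtain ⟨hrat, hdist⟩ := hL
  have hH1 : 1 ≤ height d L := one_le_height hrat
  set H : ℝ := height d L with hH
  have hH0 : 0 < H := by linarith
  have hLbot : L ≠ ⊥ := by
    intro h
    have := hrat.1
    rw [h, finrank_bot] at this
    omega
  have hdist' : distTo (ver n ξ) L ≤ H ^ (-1 - w) := by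
    have h1 : H ^ (-1 - w) = H ^ (-w) * H⁻¹ := by
      rw [← Real.rpow_neg_one H, ← Real.rpow_add hH0]
      congr 1
      ring
    rw [h1, ← div_eq_mul_inv, le_div_iff₀ hH0]
    linarith [mul_comm H (distTo (ver n ξ) L)]
  obtain ⟨F, hFl, hFd, hFL, hFprod⟩ := hbasis L hrat
  obtain ⟨P, G, m', hP0, hFG, hGl, hGd, hGe, hcop, hdeg, hrm⟩ :=
    gcd_extract n (e + 1) (by omega) F hFl hFd
  have hm'n : m' ≤ n := by omega
  obtain ⟨i, hi⟩ := hquant (e + 1) m' G ξ (by omega) hrm hm'n hξ hGl hGd hGe hcop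
  have hG0 : ∀ j, G j ≠ 0 := fun j => hGl.ne_zero j
  have hG1 : ∀ j, 1 ≤ L1 (G j) := fun j => one_le_L1 _ (hG0 j)
  have hp1 : 1 ≤ L1 P := one_le_L1 P hP0
  set V : ℝ := ∏ j, L1 (G j) with hV
  have hV1 : 1 ≤ V := by
    have h1 : ∏ _j : Fin (e + 1), (1 : ℝ) ≤ ∏ j, L1 (G j) :=
      Finset.prod_le_prod (fun _ _ => zero_le_one) fun j _ => hG1 j
    rwa [Finset.prod_const_one] at h1
  have hcgle : c' * L1 P ^ (e + 1) * V ≤ H := by
    have h1 : ∏ j, (cg * (L1 P * L1 (G j))) ≤ ∏ j, L1 (F j) := by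
      refine Finset.prod_le_prod (fun j _ => ?_) fun j _ => ?_
      · have := L1_nonneg P
        have := L1_nonneg (G j)
        positivity
      · have h2 := hgel P (G j) (by omega) ((hGd j).trans hm'n)
        rw [← hFG j] at h2
        exact h2
    rw [Finset.prod_mul_distrib, Finset.prod_mul_distrib, Finset.prod_const, Finset.prod_const,
      Finset.card_univ, Fintype.card_fin, ← hV] at h1
    have h3 : cg ^ (e + 1) * (L1 P ^ (e + 1) * V) ≤ C3 * H := h1.trans hFprod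
    rw [hc'def, div_mul_eq_mul_div, div_mul_eq_mul_div, div_le_iff₀ hC3]
    linarith [mul_comm C3 H, mul_assoc (cg ^ (e + 1)) (L1 P ^ (e + 1)) V]
  have hk : m' + 2 - (e + 1) ≤ d + 2 := by omega
  have hGi0 : 0 < L1 (G i) := by linarith [hG1 i]
  have hmain : |aeval ξ P| ≤ C1 / cq * (L1 P * V ^ (m' + 2 - (e + 1)) * H ^ (-1 - w)) := by
    have h1 : |aeval ξ P| * (cq * L1 (G i)) ≤
        |aeval ξ P| * (|aeval ξ (G i)| * V ^ (m' + 2 - (e + 1))) :=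
      mul_le_mul_of_nonneg_left hi (abs_nonneg _)
    have h2 : |aeval ξ P| * |aeval ξ (G i)| = |aeval ξ (F i)| := by
      rw [hFG i, map_mul, abs_mul]
    have h3 : |aeval ξ (F i)| ≤ C1 * L1 (F i) * distTo (ver n ξ) L :=
      hval ξ hξ L hLbot (F i) (hFd i) (hFL i)
    have h4 : L1 (F i) ≤ L1 P * L1 (G i) := by
      rw [hFG i]; exact L1_mul_le P (G i)
    have hdn : 0 ≤ H ^ (-1 - w) := Real.rpow_nonneg hH0.le _
    have h5 : |aeval ξ (F i)| ≤ C1 * (L1 P * L1 (G i)) * H ^ (-1 - w) := by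
      calc |aeval ξ (F i)| ≤ C1 * L1 (F i) * distTo (ver n ξ) L := h3
        _ ≤ C1 * L1 (F i) * H ^ (-1 - w) :=
            mul_le_mul_of_nonneg_left hdist' (mul_nonneg hC1.le (L1_nonneg _))
        _ ≤ C1 * (L1 P * L1 (G i)) * H ^ (-1 - w) :=
            mul_le_mul_of_nonneg_right (mul_le_mul_of_nonneg_left h4 hC1.le) hdn
    have hVk : 0 ≤ V ^ (m' + 2 - (e + 1)) := by positivity
    have h6 : |aeval ξ P| * (cq * L1 (G i)) ≤
        (C1 * (L1 P * L1 (G i)) * H ^ (-1 - w)) * V ^ (m' + 2 - (e + 1)) := by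
      calc |aeval ξ P| * (cq * L1 (G i))
          ≤ |aeval ξ P| * (|aeval ξ (G i)| * V ^ (m' + 2 - (e + 1))) := h1
        _ = |aeval ξ (F i)| * V ^ (m' + 2 - (e + 1)) := by rw [← h2]; ring
        _ ≤ _ := mul_le_mul_of_nonneg_right h5 hVk
    rw [div_mul_eq_mul_div, le_div_iff₀ hcq]
    refine le_of_mul_le_mul_right ?_ hGi0
    calc |aeval ξ P| * cq * L1 (G i) = |aeval ξ P| * (cq * L1 (G i)) := by ring
      _ ≤ _ := h6
      _ = _ := by ring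
  obtain ⟨k1, k2⟩ := A5_key (L1 P) V H c' e d (m' + 2 - (e + 1)) w hp1 hV1 hH1 hc' hk hw hcgle
  have hCq : 0 < C1 / cq := by positivity
  refine ⟨P, hP0, by omega, ?_, ?_⟩
  · have hn : 0 ≤ L1 P ^ (1 - ((e : ℝ) + 1) * (1 + w)) := Real.rpow_nonneg (L1_nonneg P) _
    calc |aeval ξ P| ≤ C1 / cq * (L1 P * V ^ (m' + 2 - (e + 1)) * H ^ (-1 - w)) := hmain
      _ ≤ C1 / cq * (c' ^ (-(1 + w)) * L1 P ^ (1 - ((e : ℝ) + 1) * (1 + w))) :=
          mul_le_mul_of_nonneg_left k1 hCq.le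
      _ ≤ C1 / cq * ((c' ^ (-(1 + w)) + c' ^ (-((d : ℝ) + 2))) *
          L1 P ^ (1 - ((e : ℝ) + 1) * (1 + w))) := by
          refine mul_le_mul_of_nonneg_left ?_ hCq.le
          exact mul_le_mul_of_nonneg_right (by linarith) hn
      _ = _ := by ring
  · have hn : 0 ≤ H ^ (-(w - ((d : ℝ) + 1))) := Real.rpow_nonneg hH0.le _
    calc |aeval ξ P| ≤ C1 / cq * (L1 P * V ^ (m' + 2 - (e + 1)) * H ^ (-1 - w)) := hmain
      _ ≤ C1 / cq * (c' ^ (-((d : ℝ) + 2)) * H ^ (-(w - ((d : ℝ) + 1)))) :=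
          mul_le_mul_of_nonneg_left k2 hCq.le
      _ ≤ C1 / cq * ((c' ^ (-(1 + w)) + c' ^ (-((d : ℝ) + 2))) *
          H ^ (-(w - ((d : ℝ) + 1)))) := by
          refine mul_le_mul_of_nonneg_left ?_ hCq.le
          exact mul_le_mul_of_nonneg_right (by linarith) hn
      _ = _ := by ring

end Ver4
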