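import Pool.Agent.LibVer4.A5

open Polynomial Pool.Agent.LibInterm

namespace Ver4

/-- A5b: Hint: `height → ∞` along the infinite set (`finite_height_le` in `LibInterm/Lower.lean`), so
the values `|P(ξ)| > 0` of `one_subspace` tend to `0` and there are infinitely many `P`; only finitely
many have small `L1` (`finite_L1`), for the others the constant is absorbed as
`W < (e+1)(w+1) - 1`. -/
theorem up {n d e : ℕ} (hn : n = d + e + 1) (w : ℝ) (hw : (d : ℝ) + 1 < w) (ξ : ℝ)
    (hξ : Transcendental ℤ ξ) (hinf : (Near n d w ξ).Infinite) (W : ℝ)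
    (hW : W < ((e : ℝ) + 1) * (w + 1) - 1) : ξ ∈ Sw (d + 1) W := by
  obtain ⟨C, hC, h1⟩ := one_subspace (n := n) (d := d) (e := e) hn w hw |ξ|
  have hne : ∀ P : ℤ[X], P ≠ 0 → aeval ξ P ≠ 0 := fun P hP h0 => hξ ⟨P, hP, h0⟩
  set δ : ℝ := ((e : ℝ) + 1) * (w + 1) - 1 - W with hδ
  have hδpos : 0 < δ := by rw [hδ]; linarith
  set κ : ℝ := w - ((d : ℝ) + 1) with hκ
  have hκpos : 0 < κ := by rw [hκ]; linarith
  set R0 : ℝ := C ^ (1 / δ) with hR0
  change {P : ℤ[X] | P ≠ 0 ∧ P.natDegree ≤ d + 1 ∧ |aeval ξ P| ≤ L1 P ^ (-W)}.Infinite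
  intro hfin
  apply hinf
  set T : Set ℤ[X] := {P : ℤ[X] | P ≠ 0 ∧ P.natDegree ≤ d + 1 ∧ |aeval ξ P| ≤ L1 P ^ (-W)} ∪
    {P : ℤ[X] | P.natDegree ≤ d + 1 ∧ L1 P ≤ R0} with hT
  have hTfin : T.Finite := hfin.union (finite_L1 _ _)
  have hcover : Near n d w ξ ⊆ ⋃ P ∈ T,
      {L : Submodule ℝ (EuclideanSpace ℝ (Fin (n + 1))) | IsRationalSub d L ∧
        height d L ≤ (C / |aeval ξ P|) ^ (1 / κ)} := by
    intro L hL
    obtain ⟨P, hP, hd, h2, h3⟩ := h1 ξ le_rfl L hL
    rw [Set.mem_iUnion₂]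
    have hL1 : 1 ≤ L1 P := one_le_L1 P hP
    have hLp : 0 < L1 P := lt_of_lt_of_le one_pos hL1
    refine ⟨P, ?_, hL.1, ?_⟩
    · by_cases hR : L1 P ≤ R0
      · exact Or.inr ⟨hd, hR⟩
      · push Not at hR
        refine Or.inl ⟨hP, hd, h2.trans ?_⟩
        have h4 : (1 : ℝ) - ((e : ℝ) + 1) * (1 + w) = -W + -δ := by
          rw [hδ]
          ring
        rw [h4, Real.rpow_add hLp, mul_left_comm]
        have h5 : C * L1 P ^ (-δ) ≤ 1 := by
          rw [Real.rpow_neg hLp.le, ← div_eq_mul_inv, div_le_one (by positivity)]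
          calc C = R0 ^ δ := by
                rw [hR0, ← Real.rpow_mul hC.le, one_div_mul_cancel hδpos.ne', Real.rpow_one]
            _ ≤ L1 P ^ δ := Real.rpow_le_rpow (by positivity) hR.le hδpos.le
        calc L1 P ^ (-W) * (C * L1 P ^ (-δ)) ≤ L1 P ^ (-W) * 1 := by gcongr
          _ = L1 P ^ (-W) := mul_one _
    · have hH1 : 1 ≤ height d L := one_le_height hL.1
      have hH0 : 0 < height d L := lt_of_lt_of_le one_pos hH1
      have h4 : 0 < |aeval ξ P| := abs_pos.2 (hne P hP)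
      have h5 : height d L ^ κ ≤ C / |aeval ξ P| := by
        rw [le_div_iff₀ h4]
        have h6 : |aeval ξ P| * height d L ^ κ ≤ C := by
          rw [Real.rpow_neg hH0.le, ← div_eq_mul_inv, le_div_iff₀ (by positivity)] at h3
          exact h3
        linarith
      calc height d L = (height d L ^ κ) ^ (1 / κ) := by
            rw [← Real.rpow_mul hH0.le, mul_one_div_cancel hκpos.ne', Real.rpow_one]
        _ ≤ (C / |aeval ξ P|) ^ (1 / κ) := Real.rpow_le_rpow (by positivity) h5 (by positivity)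
  refine Set.Finite.subset ?_ hcover
  apply Set.Finite.biUnion hTfin
  intro P _
  exact finite_height_le n d _

end Ver4
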