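import Pool.Agent.LibVer4.G1
import Pool.Agent.LibVer4.A2c

open Polynomial Pool.Agent.LibInterm

namespace Ver4

/-- The space spanned by the coefficient vectors of `X^j P`, `j ≤ e`. -/
noncomputable def mulSp (n e : ℕ) (P : ℤ[X]) : Submodule ℝ (EuclideanSpace ℝ (Fin (n + 1))) :=
  Submodule.span ℝ (Set.range fun j : Fin (e + 1) => intVec (vec n (X ^ (j : ℕ) * P)))

private noncomputable def A6a_vecHom (n : ℕ) : ℤ[X] →ₗ[ℤ] (Fin (n + 1) → ℤ) where
  toFun := vec n
  map_add' p q := by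
    funext i
    simp [vec]
  map_smul' c p := by
    funext i
    simp [vec]

private theorem A6a_indep {n d e : ℕ} (hn : n = d + e + 1) (P : ℤ[X]) (hP : P ≠ 0)
    (hd : P.natDegree ≤ d + 1) :
    LinearIndependent ℝ (fun j : Fin (e + 1) => intVec (vec n (X ^ (j : ℕ) * P))) := by
  apply linearIndependent_intVec
  rw [Fintype.linearIndependent_iff]
  intro g hg i
  set Q : ℤ[X] := ∑ j : Fin (e + 1), C (g j) * X ^ (j : ℕ) with hQ
  have h1 : vec n (Q * P) = 0 := by
    rw [← hg, hQ, Finset.sum_mul]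
    change A6a_vecHom n (∑ j : Fin (e + 1), C (g j) * X ^ (j : ℕ) * P) = _
    rw [map_sum]
    apply Finset.sum_congr rfl
    intro j _
    rw [mul_assoc, ← smul_eq_C_mul, map_smul]
    rfl
  have hQd : Q.natDegree ≤ e := by
    apply natDegree_sum_le_of_forall_le
    intro j _
    exact (natDegree_C_mul_X_pow_le _ _).trans (Nat.lt_succ_iff.1 j.2)
  have h2 : Q * P = 0 := by
    ext k
    by_cases hk : k < n + 1
    · exact congrFun h1 ⟨k, hk⟩
    · rw [coeff_zero]
      apply coeff_eq_zero_of_natDegree_lt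
      have h3 := natDegree_mul_le (p := Q) (q := P)
      omega
  have h3 : Q = 0 := (mul_eq_zero.1 h2).resolve_right hP
  have h4 : Q.coeff (i : ℕ) = g i := by
    rw [hQ, finsetSum_coeff, Finset.sum_eq_single i]
    · simp
    · intro j _ hj
      rw [coeff_C_mul, coeff_X_pow, if_neg (fun h => hj (Fin.ext h.symm)), mul_zero]
    · intro h
      exact absurd (Finset.mem_univ i) h
  rw [← h4, h3, coeff_zero]

/-- A6a: Hint: independence of the `X^j P`; `isRationalSub_span` (`LibInterm/Lower.lean`); `dual`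
applied to `mulSp n e P` (dimension `e + 1`); `height_le_minors`, minors `≤ (e+1)! L1(P)^(e+1)`. -/
theorem annih_mulSp {n d e : ℕ} (hn : n = d + e + 1) : ∃ C : ℝ, 0 < C ∧ ∀ P : ℤ[X], P ≠ 0 →
    P.natDegree ≤ d + 1 → IsRationalSub d (mulSp n e P)ᗮ ∧
      height d (mulSp n e P)ᗮ ≤ C * L1 P ^ (e + 1) := by
  classical
  refine ⟨Real.sqrt (Fintype.card (Fin (e + 1) ↪o Fin (n + 1)) + 1) * ((e + 1).factorial : ℝ),
    by positivity, ?_⟩
  intro P hP hd
  have hli := A6a_indep hn P hP hd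
  have hrat : IsRationalSub e (mulSp n e P) := isRationalSub_span hli
  obtain ⟨h1, h2⟩ := dual (n := n) (d := e) (e := d) (by omega) _ hrat
  refine ⟨h1, h2.trans ?_⟩
  have h3 := height_le_minors (fun j : Fin (e + 1) => vec n (X ^ (j : ℕ) * P)) hli
    (L := mulSp n e P) rfl
  refine h3.trans ?_
  have hK : 0 ≤ ((e + 1).factorial : ℝ) * L1 P ^ (e + 1) := by
    have := L1_nonneg P
    positivity
  have h4 : ∀ I : Fin (e + 1) ↪o Fin (n + 1),
      (minors (fun j : Fin (e + 1) => intVec (vec n (X ^ (j : ℕ) * P))) I) ^ 2 ≤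
        (((e + 1).factorial : ℝ) * L1 P ^ (e + 1)) ^ 2 := by
    intro I
    have h5 : |minors (fun j : Fin (e + 1) => intVec (vec n (X ^ (j : ℕ) * P))) I| ≤
        ((e + 1).factorial : ℝ) * L1 P ^ (e + 1) := by
      have h6 := Matrix.det_le (A := Matrix.of fun i j : Fin (e + 1) =>
        intVec (vec n (X ^ (i : ℕ) * P)) (I j)) (abv := AbsoluteValue.abs) (x := L1 P) (by
          intro i j
          change |((vec n (X ^ (i : ℕ) * P) (I j) : ℤ) : ℝ)| ≤ L1 P
          rw [← L1_X_pow_mul (i : ℕ) P]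
          exact abs_coeff_le_L1 _ _)
      rw [Fintype.card_fin, nsmul_eq_mul] at h6
      exact h6
    rw [← sq_abs]
    exact pow_le_pow_left₀ (abs_nonneg _) h5 2
  calc Real.sqrt (∑ I, (minors (fun j : Fin (e + 1) => intVec (vec n (X ^ (j : ℕ) * P))) I) ^ 2)
      ≤ Real.sqrt ((Fintype.card (Fin (e + 1) ↪o Fin (n + 1)) + 1) *
          (((e + 1).factorial : ℝ) * L1 P ^ (e + 1)) ^ 2) := by
        apply Real.sqrt_le_sqrt
        calc ∑ I, (minors (fun j : Fin (e + 1) => intVec (vec n (X ^ (j : ℕ) * P))) I) ^ 2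
            ≤ ∑ _I : Fin (e + 1) ↪o Fin (n + 1), (((e + 1).factorial : ℝ) * L1 P ^ (e + 1)) ^ 2 :=
              Finset.sum_le_sum (fun I _ => h4 I)
          _ = (Fintype.card (Fin (e + 1) ↪o Fin (n + 1)) : ℝ) *
              (((e + 1).factorial : ℝ) * L1 P ^ (e + 1)) ^ 2 := by
              rw [Finset.sum_const, Finset.card_univ, nsmul_eq_mul]
          _ ≤ _ := by
              apply mul_le_mul_of_nonneg_right _ (sq_nonneg _)
              linarith
    _ = Real.sqrt (Fintype.card (Fin (e + 1) ↪o Fin (n + 1)) + 1) * ((e + 1).factorial : ℝ) *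
          L1 P ^ (e + 1) := by
        rw [Real.sqrt_mul (by positivity), Real.sqrt_sq hK]
        ring

end Ver4
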