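import Pool.Agent.LibVer4.G2
import Pool.Agent.LibVer4.A1
import Pool.Agent.LibVer4.A6a

open Polynomial Pool.Agent.LibInterm
open scoped InnerProductSpace

namespace Ver4

private theorem A6b_eval_le (T : ℝ[X]) (e : ℕ) (hT : T.natDegree ≤ e) (x M : ℝ) (hx : |x| ≤ M) :
    |T.eval x| ≤ L1R T * (max 1 M) ^ e := by
  rw [eval_eq_sum, Polynomial.sum, L1R, Finset.sum_mul]
  refine (Finset.abs_sum_le_sum_abs _ _).trans (Finset.sum_le_sum (fun i hi => ?_))
  rw [abs_mul, abs_pow]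
  apply mul_le_mul_of_nonneg_left _ (abs_nonneg _)
  have h1 : i ≤ e := (le_natDegree_of_mem_supp i hi).trans hT
  calc |x| ^ i ≤ (max 1 M) ^ i := pow_le_pow_left₀ (abs_nonneg _) (hx.trans (le_max_right _ _)) _
    _ ≤ (max 1 M) ^ e := pow_le_pow_right₀ (le_max_left _ _) h1

private theorem A6b_abs_le_norm {m : ℕ} (x : EuclideanSpace ℝ (Fin m)) (i : Fin m) :
    |x i| ≤ ‖x‖ := by
  have h := PiLp.norm_apply_le x i
  rwa [Real.norm_eq_abs] at h

/-- A6b: Hint: let `v = homog (ver n ξ)` and `u` its orthogonal projection on `mulSp n e P`,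
`u = ∑ t_j X^j P` as coefficient vector of `T * P`, `T = ∑ t_j X^j` real; `gelfond_real` gives
`∑ |t_j| ≤ C ‖u‖ / L1 P`, and `‖u‖^2 = ⟪u, v⟫ = T(ξ) P(ξ)`, so `‖u‖ ≤ C |P(ξ)| / L1 P`. Then
`y = v - u ∈ (mulSp n e P)ᗮ`, and `distTo ≤ projDist v y = ‖v ∧ y‖/(‖v‖‖y‖) ≤ ‖u‖ / ‖y‖`
(`projDist_le_dist` needs `1 ≤ ‖y‖`; if `‖u‖ ≥ 1/2` use that `projDist ≤ 1`). -/
theorem dist_le {n d e : ℕ} (hn : n = d + e + 1) (M : ℝ) : ∃ C : ℝ, 0 < C ∧ ∀ ξ : ℝ, |ξ| ≤ M →
    ∀ P : ℤ[X], P ≠ 0 → P.natDegree ≤ d + 1 →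
    distTo (ver n ξ) (mulSp n e P)ᗮ ≤ C * |aeval ξ P| / L1 P := by
  obtain ⟨c, hc, hgel⟩ := gelfond_real n
  obtain ⟨C0, hC0, hann⟩ := annih_mulSp (n := n) (d := d) (e := e) hn
  have hmax : (0 : ℝ) < max 1 M := lt_of_lt_of_le one_pos (le_max_left _ _)
  refine ⟨2 * (((n : ℝ) + 1) * (max 1 M) ^ e / c), by positivity, ?_⟩
  intro ξ hξ P hP hd
  have hL1 : 0 < L1 P := lt_of_lt_of_le one_pos (one_le_L1 P hP)
  set v := homog (ver n ξ) with hv
  have hv1 : 1 ≤ ‖v‖ := one_le_norm_homog _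
  obtain ⟨u, hu, y, hy, huy⟩ := (mulSp n e P).exists_add_mem_mem_orthogonal v
  have huy0 : ⟪u, y⟫_ℝ = 0 := (Submodule.mem_orthogonal _ y).1 hy u hu
  -- the polynomial `T`
  obtain ⟨t, ht⟩ := (Submodule.mem_span_range_iff_exists_fun ℝ).1 hu
  set T : ℝ[X] := ∑ j : Fin (e + 1), C (t j) * X ^ (j : ℕ) with hT
  have hTd : T.natDegree ≤ e := by
    apply natDegree_sum_le_of_forall_le
    intro j _
    exact (natDegree_C_mul_X_pow_le _ _).trans (Nat.lt_succ_iff.1 j.2)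
  set PR : ℝ[X] := P.map (Int.castRingHom ℝ) with hPR
  have hPRd : PR.natDegree ≤ d + 1 := (natDegree_map_le).trans hd
  have hXd : ∀ j : Fin (e + 1), (X ^ (j : ℕ) * P).natDegree ≤ n := by
    intro j
    have h1 := natDegree_mul_le (p := (X : ℤ[X]) ^ (j : ℕ)) (q := P)
    rw [natDegree_X_pow] at h1
    have h2 := j.2
    omega
  have hcoef : ∀ i : Fin (n + 1), (T * PR).coeff (i : ℕ) = u i := by
    intro i
    have h1 : u i = ∑ j : Fin (e + 1), t j * ((X ^ (j : ℕ) * P).coeff (i : ℕ) : ℝ) := by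
      rw [← ht]
      simp only [WithLp.ofLp_sum, Finset.sum_apply, WithLp.ofLp_smul, Pi.smul_apply, smul_eq_mul]
      rfl
    rw [h1, hT, Finset.sum_mul, finsetSum_coeff]
    apply Finset.sum_congr rfl
    intro j _
    have h2 : C (t j) * X ^ (j : ℕ) * PR = C (t j) * ((X ^ (j : ℕ) * P).map (Int.castRingHom ℝ)) := by
      rw [Polynomial.map_mul, Polynomial.map_pow, Polynomial.map_X, mul_assoc]
    rw [h2, coeff_C_mul, coeff_map]
    rfl
  have hTP : L1R (T * PR) ≤ ((n : ℝ) + 1) * ‖u‖ := by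
    have h1 : (T * PR).natDegree < n + 1 := by
      have h2 := natDegree_mul_le (p := T) (q := PR)
      omega
    calc L1R (T * PR) ≤ ∑ i ∈ Finset.range (n + 1), |(T * PR).coeff i| :=
          Finset.sum_le_sum_of_subset_of_nonneg (supp_subset_range h1) (fun _ _ _ => abs_nonneg _)
      _ = ∑ i : Fin (n + 1), |(T * PR).coeff (i : ℕ)| :=
          (Fin.sum_univ_eq_sum_range (fun i => |(T * PR).coeff i|) (n + 1)).symm
      _ ≤ ∑ _i : Fin (n + 1), ‖u‖ := by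
          apply Finset.sum_le_sum
          intro i _
          rw [hcoef]
          exact A6b_abs_le_norm u i
      _ = ((n : ℝ) + 1) * ‖u‖ := by
          rw [Finset.sum_const, Finset.card_univ, Fintype.card_fin, nsmul_eq_mul]
          push_cast
          ring
  have h1 : c * (L1R T * L1 P) ≤ ((n : ℝ) + 1) * ‖u‖ := by
    have h2 := hgel T PR (hTd.trans (by omega)) (hPRd.trans (by omega))
    rw [hPR, ← L1_eq_L1R, ← hPR] at h2
    exact h2.trans hTP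
  have h2 : ‖u‖ ^ 2 = T.eval ξ * aeval ξ P := by
    have h3 : ⟪u, v⟫_ℝ = ‖u‖ ^ 2 := by
      rw [huy, inner_add_right, huy0, add_zero, real_inner_self_eq_norm_sq]
    rw [← h3, ← ht, sum_inner, hT, eval_finsetSum, Finset.sum_mul]
    apply Finset.sum_congr rfl
    intro j _
    rw [inner_smul_left, hv, inner_vec_homog_ver n ξ _ (hXd j)]
    simp
    ring
  have h3 : ‖u‖ ≤ ((n : ℝ) + 1) * (max 1 M) ^ e / c * |aeval ξ P| / L1 P := by
    by_cases hu0 : ‖u‖ = 0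
    · rw [hu0]
      positivity
    · have hupos : 0 < ‖u‖ := lt_of_le_of_ne (norm_nonneg _) (Ne.symm hu0)
      have h4 : ‖u‖ ^ 2 ≤ L1R T * (max 1 M) ^ e * |aeval ξ P| := by
        rw [h2]
        refine (le_abs_self _).trans ?_
        rw [abs_mul]
        exact mul_le_mul_of_nonneg_right (A6b_eval_le T e hTd ξ M hξ) (abs_nonneg _)
      rw [le_div_iff₀ hL1, div_mul_eq_mul_div, le_div_iff₀ hc]
      have h5 : ‖u‖ ^ 2 * L1 P * c ≤ ((n : ℝ) + 1) * ‖u‖ * ((max 1 M) ^ e * |aeval ξ P|) := by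
        calc ‖u‖ ^ 2 * L1 P * c ≤ (L1R T * (max 1 M) ^ e * |aeval ξ P|) * L1 P * c := by gcongr
          _ = c * (L1R T * L1 P) * ((max 1 M) ^ e * |aeval ξ P|) := by ring
          _ ≤ ((n : ℝ) + 1) * ‖u‖ * ((max 1 M) ^ e * |aeval ξ P|) :=
            mul_le_mul_of_nonneg_right h1 (by positivity)
      have h6 : ‖u‖ * (‖u‖ * L1 P * c) ≤ ‖u‖ * (((n : ℝ) + 1) * (max 1 M) ^ e * |aeval ξ P|) := by
        calc ‖u‖ * (‖u‖ * L1 P * c) = ‖u‖ ^ 2 * L1 P * c := by ring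
          _ ≤ ((n : ℝ) + 1) * ‖u‖ * ((max 1 M) ^ e * |aeval ξ P|) := h5
          _ = _ := by ring
      exact le_of_mul_le_mul_left h6 hupos
  have hbdd : BddBelow ((fun y => projDist (homog (ver n ξ)) y) '' {y | y ∈ (mulSp n e P)ᗮ ∧ y ≠ 0}) := by
    refine ⟨0, ?_⟩
    rintro _ ⟨z, _, rfl⟩
    exact projDist_nonneg _ _
  have h4 : distTo (ver n ξ) (mulSp n e P)ᗮ ≤ 2 * ‖u‖ := by
    by_cases hu2 : ‖u‖ ≤ 1 / 2
    · have hyn : 1 / 2 ≤ ‖y‖ := by
        have h5 : ‖v‖ ≤ ‖u‖ + ‖y‖ := by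
          conv_lhs => rw [huy]
          exact norm_add_le _ _
        linarith
      have hy0 : y ≠ 0 := by
        intro h0
        rw [h0, norm_zero] at hyn
        linarith
      have h5 : distTo (ver n ξ) (mulSp n e P)ᗮ ≤ projDist v y := csInf_le hbdd ⟨y, ⟨hy, hy0⟩, rfl⟩
      refine h5.trans ?_
      have h6 : wedgeNorm v y ≤ ‖v‖ * ‖u‖ := by
        rw [← wedgeNorm_sub_self]
        have h7 : y - v = -u := by
          rw [huy]
          abel
        rw [h7, ← norm_neg u]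
        exact wedgeNorm_le _ _
      have hvpos : 0 < ‖v‖ := lt_of_lt_of_le one_pos hv1
      have hypos : 0 < ‖y‖ := lt_of_lt_of_le (by norm_num) hyn
      rw [projDist, div_le_iff₀ (mul_pos hvpos hypos)]
      calc wedgeNorm v y ≤ ‖v‖ * ‖u‖ := h6
        _ = 2 * ‖u‖ * (‖v‖ * (1 / 2)) := by ring
        _ ≤ 2 * ‖u‖ * (‖v‖ * ‖y‖) := by gcongr
    · push Not at hu2
      have hne : (mulSp n e P)ᗮ ≠ ⊥ := by
        intro h0
        have h5 := (hann P hP hd).1.1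
        rw [h0, finrank_bot] at h5
        omega
      obtain ⟨z, hz, hz0⟩ := (Submodule.ne_bot_iff _).1 hne
      have h5 : distTo (ver n ξ) (mulSp n e P)ᗮ ≤ projDist v z := csInf_le hbdd ⟨z, ⟨hz, hz0⟩, rfl⟩
      have h6 : projDist v z ≤ 1 := by
        rw [projDist]
        exact div_le_one_of_le₀ (wedgeNorm_le _ _) (by positivity)
      linarith
  calc distTo (ver n ξ) (mulSp n e P)ᗮ ≤ 2 * ‖u‖ := h4
    _ ≤ 2 * (((n : ℝ) + 1) * (max 1 M) ^ e / c * |aeval ξ P| / L1 P) := by gcongr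
    _ = _ := by ring

end Ver4
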