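import Pool.Agent.LibVer4.A6b

open Polynomial Pool.Agent.LibInterm

namespace Ver4

private theorem A6c_mem {n e : ℕ} (P : ℤ[X]) : intVec (vec n P) ∈ (mulSp n e P)ᗮᗮ := by
  rw [Submodule.orthogonal_orthogonal]
  apply Submodule.subset_span
  exact ⟨0, by simp⟩

/-- A6c: Hint: `L_P = (mulSp n e P)ᗮ`, `H^{1+w} dist ≤ C L1(P)^{(e+1)(1+w)} L1(P)^{-1-W} ≤ 1` for large
`L1 P`. There are infinitely many different `L_P` because the distances tend to `0` and are positive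
(`aeval_le_dist` with `F = P`, `P(ξ) ≠ 0`). -/
theorem low {n d e : ℕ} (hn : n = d + e + 1) (w : ℝ) (hw : 0 < w) (ξ : ℝ)
    (hξ : Transcendental ℤ ξ) (W : ℝ) (hW : ((e : ℝ) + 1) * (w + 1) - 1 < W)
    (h : ξ ∈ Sw (d + 1) W) : (Near n d w ξ).Infinite := by
  obtain ⟨C1, hC1, h1⟩ := dist_le (n := n) (d := d) (e := e) hn |ξ|
  obtain ⟨C2, hC2, h2⟩ := annih_mulSp (n := n) (d := d) (e := e) hn
  obtain ⟨C3, hC3, h3⟩ := aeval_le_dist n |ξ|
  have he : (0 : ℝ) ≤ (e : ℝ) := Nat.cast_nonneg _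
  have hWpos : 0 < W := by nlinarith
  have hne : ∀ P : ℤ[X], P ≠ 0 → aeval ξ P ≠ 0 := fun P hP h0 => hξ ⟨P, hP, h0⟩
  -- the distances
  have hdist : ∀ P : ℤ[X], P ≠ 0 → P.natDegree ≤ d + 1 → |aeval ξ P| ≤ L1 P ^ (-W) →
      distTo (ver n ξ) (mulSp n e P)ᗮ ≤ C1 * L1 P ^ (-W - 1) := by
    intro P hP hd hPW
    have hL : 0 < L1 P := lt_of_lt_of_le one_pos (one_le_L1 P hP)
    refine (h1 ξ le_rfl P hP hd).trans ?_
    rw [Real.rpow_sub_one hL.ne', mul_div_assoc]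
    gcongr
  have hpos : ∀ P : ℤ[X], P ≠ 0 → P.natDegree ≤ d + 1 →
      0 < distTo (ver n ξ) (mulSp n e P)ᗮ := by
    intro P hP hd
    have hL : 0 < L1 P := lt_of_lt_of_le one_pos (one_le_L1 P hP)
    have hne' : (mulSp n e P)ᗮ ≠ ⊥ := by
      intro h0
      have h5 := (h2 P hP hd).1.1
      rw [h0, finrank_bot] at h5
      omega
    have h4 := h3 ξ le_rfl _ hne' P (by omega) (A6c_mem P)
    have h5 : 0 < |aeval ξ P| := abs_pos.2 (hne P hP)
    by_contra hcon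
    push Not at hcon
    have h6 : C3 * L1 P * distTo (ver n ξ) (mulSp n e P)ᗮ ≤ 0 :=
      mul_nonpos_of_nonneg_of_nonpos (by positivity) hcon
    linarith
  intro hfin
  set δ : ℝ := W + 1 - ((e : ℝ) + 1) * (1 + w) with hδ
  have hδpos : 0 < δ := by rw [hδ]; nlinarith
  set K : ℝ := C2 ^ (1 + w) * C1 with hK
  have hKpos : 0 < K := by positivity
  set R0 : ℝ := K ^ (1 / δ) with hR0
  have hnear : ∀ P : ℤ[X], P ≠ 0 → P.natDegree ≤ d + 1 → |aeval ξ P| ≤ L1 P ^ (-W) →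
      R0 ≤ L1 P → (mulSp n e P)ᗮ ∈ Near n d w ξ := by
    intro P hP hd hPW hR
    obtain ⟨h4, h5⟩ := h2 P hP hd
    have hL : 0 < L1 P := lt_of_lt_of_le one_pos (one_le_L1 P hP)
    refine ⟨h4, ?_⟩
    set H := height d (mulSp n e P)ᗮ with hH
    have hH1 : 1 ≤ H := one_le_height h4
    have hH0 : 0 < H := lt_of_lt_of_le one_pos hH1
    set D := distTo (ver n ξ) (mulSp n e P)ᗮ with hD
    have hD0 : 0 < D := hpos P hP hd
    have h6 : D ≤ C1 * L1 P ^ (-W - 1) := hdist P hP hd hPW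
    have h7 : H ^ (1 + w) ≤ C2 ^ (1 + w) * L1 P ^ (((e : ℝ) + 1) * (1 + w)) := by
      calc H ^ (1 + w) ≤ (C2 * L1 P ^ (e + 1)) ^ (1 + w) :=
            Real.rpow_le_rpow hH0.le h5 (by linarith)
        _ = C2 ^ (1 + w) * L1 P ^ (((e : ℝ) + 1) * (1 + w)) := by
            rw [Real.mul_rpow hC2.le (by positivity), ← Real.rpow_natCast, ← Real.rpow_mul hL.le]
            push_cast
            rfl
    have h8 : H ^ (1 + w) * D ≤ 1 := by
      calc H ^ (1 + w) * D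
          ≤ (C2 ^ (1 + w) * L1 P ^ (((e : ℝ) + 1) * (1 + w))) * (C1 * L1 P ^ (-W - 1)) := by
            apply mul_le_mul h7 h6 hD0.le (by positivity)
        _ = K * (L1 P ^ (((e : ℝ) + 1) * (1 + w)) * L1 P ^ (-W - 1)) := by rw [hK]; ring
        _ = K * L1 P ^ (-δ) := by
            rw [← Real.rpow_add hL]
            congr 2
            rw [hδ]
            ring
        _ ≤ 1 := by
            rw [Real.rpow_neg hL.le, ← div_eq_mul_inv, div_le_one (by positivity)]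
            calc K = R0 ^ δ := by
                  rw [hR0, ← Real.rpow_mul hKpos.le, one_div_mul_cancel hδpos.ne', Real.rpow_one]
              _ ≤ L1 P ^ δ := Real.rpow_le_rpow (by positivity) hR hδpos.le
    have h9 : H ^ (1 + w) = H * H ^ w := by
      rw [Real.rpow_add hH0, Real.rpow_one]
    rw [Real.rpow_neg hH0.le, ← one_div, le_div_iff₀ (by positivity)]
    calc H * D * H ^ w = H ^ (1 + w) * D := by rw [h9]; ring
      _ ≤ 1 := h8
  -- the contradiction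
  apply h
  have hcover : {P : ℤ[X] | P ≠ 0 ∧ P.natDegree ≤ d + 1 ∧ |aeval ξ P| ≤ L1 P ^ (-W)} ⊆
      {P : ℤ[X] | P.natDegree ≤ d + 1 ∧ L1 P ≤ R0} ∪ ⋃ L ∈ Near n d w ξ,
        {P : ℤ[X] | P.natDegree ≤ d + 1 ∧ L1 P ≤ C1 / distTo (ver n ξ) L} := by
    rintro P ⟨hP, hd, hPW⟩
    by_cases hR : L1 P ≤ R0
    · exact Or.inl ⟨hd, hR⟩
    · push Not at hR
      right
      rw [Set.mem_iUnion₂]
      refine ⟨_, hnear P hP hd hPW hR.le, hd, ?_⟩
      have hL1 : 1 ≤ L1 P := one_le_L1 P hP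
      have hL : 0 < L1 P := lt_of_lt_of_le one_pos hL1
      rw [le_div_iff₀ (hpos P hP hd)]
      calc L1 P * distTo (ver n ξ) (mulSp n e P)ᗮ ≤ L1 P * (C1 * L1 P ^ (-W - 1)) := by
            gcongr
            exact hdist P hP hd hPW
        _ = C1 * L1 P ^ (-W) := by
            rw [Real.rpow_sub_one hL.ne']
            field_simp
        _ ≤ C1 * 1 := by
            gcongr
            exact Real.rpow_le_one_of_one_le_of_nonpos hL1 (by linarith)
        _ = C1 := mul_one _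
  refine Set.Finite.subset ?_ hcover
  apply (finite_L1 _ _).union
  apply Set.Finite.biUnion hfin
  intro L _
  exact finite_L1 _ _

end Ver4
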