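import Pool.Agent.LibVer4.N4

open MeasureTheory Polynomial Pool.Agent.LibInterm

namespace Ver4

/-- the pairs of a polynomial and a real root -/
abbrev N5_I (m : ℕ) : Type := Σ P : {P : ℤ[X] // P ≠ 0 ∧ P.natDegree ≤ m}, P.1.rootSet ℝ

theorem N5_countable (m : ℕ) : Countable (N5_I m) := by
  have h1 : Countable ℤ[X] := by
    rw [← Cardinal.mk_le_aleph0_iff]
    exact (Polynomial.cardinalMk_le_max (R := ℤ)).trans (by simp)
  have h2 : ∀ P : {P : ℤ[X] // P ≠ 0 ∧ P.natDegree ≤ m}, Countable (P.1.rootSet ℝ) := fun P =>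
    (Polynomial.rootSet_finite P.1 ℝ).countable.to_subtype
  infer_instance

theorem N5_close (m : ℕ) (P : ℤ[X]) (hdeg : P.natDegree ≤ m) (x α : ℝ) (hα : aeval α P = 0)
    (hxα : |x - α| ≤ 1) :
    |aeval x P| ≤ (m * (|x| + 1) ^ m) * L1 P * |x - α| := by
  have hdegP' : (derivative P).natDegree ≤ m :=
    (Polynomial.natDegree_derivative_le P).trans (by omega)
  have hconv : Convex ℝ (Set.Icc (x - 1) (x + 1)) := convex_Icc _ _
  have hxm : x ∈ Set.Icc (x - 1) (x + 1) := ⟨by linarith, by linarith⟩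
  have hαm : α ∈ Set.Icc (x - 1) (x + 1) := by
    have := abs_le.1 hxα
    constructor <;> linarith
  set f : ℝ[X] := P.map (algebraMap ℤ ℝ) with hf
  have hf0 : ∀ y, f.eval y = aeval y P := fun y => Polynomial.eval_map_algebraMap _ _
  have hf1 : ∀ y, (derivative f).eval y = aeval y (derivative P) := by
    intro y
    rw [hf, Polynomial.derivative_map, Polynomial.eval_map_algebraMap]
  have h5 : ‖f.eval x - f.eval α‖ ≤ ((m * (|x| + 1) ^ m) * L1 P) * ‖x - α‖ := by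
    apply Convex.norm_image_sub_le_of_norm_hasDerivWithin_le
      (f := fun y => f.eval y) (f' := fun y => (derivative f).eval y)
      (s := Set.Icc (x - 1) (x + 1)) _ _ hconv hαm hxm
    · intro z _
      exact (f.hasDerivAt z).hasDerivWithinAt
    · intro z hz
      rw [Real.norm_eq_abs, hf1]
      refine (abs_aeval_le _ m hdegP' z).trans ?_
      have h1 : max 1 |z| ≤ |x| + 1 := by
        apply max_le (by linarith [abs_nonneg x])
        rw [abs_le]
        constructor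
        · linarith [hz.1, neg_abs_le x]
        · linarith [hz.2, le_abs_self x]
      have h2 : (max 1 |z|) ^ m ≤ (|x| + 1) ^ m :=
        pow_le_pow_left₀ (le_trans zero_le_one (le_max_left _ _)) h1 m
      calc L1 (derivative P) * (max 1 |z|) ^ m ≤ (m * L1 P) * (|x| + 1) ^ m := by
            apply mul_le_mul (L1_derivative_le P m hdeg) h2 (by positivity)
            have := L1_nonneg P
            positivity
        _ = _ := by ring
  rw [hf0, hf0, hα, sub_zero, Real.norm_eq_abs, Real.norm_eq_abs] at h5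
  exact h5

/-- N5: lower bound for the dimension. Hint: `mtp_dim` (`LibInterm/MTP.lean`, with `m = 1`) for the
countable family of the pairs `(P, α)`, `α` a real root of `P`, radii `L1(P)^{-τ}`, `τ < m + 1`
close to `m + 1`, and `a > 1` with `τ a > W + 1`, `s a < 1`: a point `x` with
`|x - α| ≤ L1(P)^{-τ a}` has `|P(x)| ≤ C L1(P) |x - α| ≤ L1(P)^{-W}` for large `L1 P`. Transfer from
`Fin 1 → ℝ` to `ℝ` by the isometry. Needs `W > m`. -/
theorem lowB (m : ℕ) (hm : 1 ≤ m) (W : ℝ) (hW : (m : ℝ) < W) :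
    ENNReal.ofReal (((m : ℝ) + 1) / (W + 1)) ≤ dimH (Sw m W) := by
  have hmR : (1 : ℝ) ≤ m := by exact_mod_cast hm
  apply ENNReal.le_of_forall_nnreal_lt
  intro s hs
  rcases eq_or_lt_of_le (zero_le : (0 : NNReal) ≤ s) with h0 | hspos
  · rw [← h0]
    simp
  have hsR : (0 : ℝ) < s := hspos
  have hW1 : 0 < W + 1 := by linarith
  have hs1 : (s : ℝ) < ((m : ℝ) + 1) / (W + 1) := by
    rw [← ENNReal.ofReal_coe_nnreal] at hs
    exact (ENNReal.ofReal_lt_ofReal_iff (by positivity)).1 hs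
  have hs2 : (s : ℝ) * (W + 1) < (m : ℝ) + 1 := (lt_div_iff₀ hW1).1 hs1
  set τ : ℝ := ((s : ℝ) * (W + 1) + ((m : ℝ) + 1)) / 2 with hτ
  have hsW : 0 < (s : ℝ) * (W + 1) := mul_pos hsR hW1
  have hτ1 : (s : ℝ) * (W + 1) < τ := by rw [hτ]; linarith
  have hτ2 : τ < (m : ℝ) + 1 := by rw [hτ]; linarith
  have hτ0 : 0 < τ := by linarith
  have hq : (W + 1) / τ < 1 / (s : ℝ) := by
    rw [div_lt_div_iff₀ hτ0 hsR]
    linarith
  set a : ℝ := ((W + 1) / τ + 1 / (s : ℝ)) / 2 with ha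
  have ha1 : (W + 1) / τ < a := by rw [ha]; linarith
  have ha2 : a < 1 / (s : ℝ) := by rw [ha]; linarith
  have hWτ : 1 < (W + 1) / τ := by
    rw [one_lt_div hτ0]
    linarith
  have ha3 : 1 < a := hWτ.trans ha1
  have ha4 : W + 1 < τ * a := by
    rw [div_lt_iff₀ hτ0] at ha1
    linarith
  have ha5 : (s : ℝ) * a < 1 := by
    rw [lt_div_iff₀ hsR] at ha2
    linarith
  have hL1 : ∀ i : N5_I m, 1 ≤ L1 i.1.1 := fun i => one_le_L1 i.1.1 i.1.2.1
  have hfull : ∀ δ > 0, ∀ᵐ x : Fin 1 → ℝ, ∃ i : N5_I m, L1 i.1.1 ^ (-τ) < δ ∧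
      x ∈ Metric.closedBall (fun _ : Fin 1 => (i.2 : ℝ)) (L1 i.1.1 ^ (-τ)) := by
    intro δ hδ
    have h1 := (volume_preserving_funUnique (Fin 1) ℝ).quasiMeasurePreserving.ae
      (ae_roots m hm τ hτ0 hτ2)
    filter_upwards [h1] with x hx
    obtain ⟨N, hN⟩ : ∃ N : ℝ, 1 ≤ N ∧ N ^ (-τ) < δ := by
      have h2 := (tendsto_rpow_neg_atTop hτ0).eventually (gt_mem_nhds hδ)
      obtain ⟨N, hN1, hN2⟩ := (h2.and (Filter.eventually_ge_atTop 1)).exists
      exact ⟨N, hN2, hN1⟩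
    obtain ⟨P, α, hP0, hPdeg, hPα, hNP, hxα⟩ := hx N
    refine ⟨⟨⟨P, hP0, hPdeg⟩, ⟨α, ?_⟩⟩, ?_, ?_⟩
    · rw [Polynomial.mem_rootSet]
      exact ⟨hP0, hPα⟩
    · refine lt_of_le_of_lt ?_ hN.2
      exact Real.rpow_le_rpow_of_nonpos (by linarith [hN.1]) hNP.le (by linarith)
    · rw [Metric.mem_closedBall, dist_pi_le_iff (by
        have := one_le_L1 P hP0
        positivity)]
      intro b
      have hb : b = default := Subsingleton.elim _ _
      rw [hb, Real.dist_eq]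
      exact hxα
  have hcount := N5_countable m
  have hmtp := mtp_dim (m := 1) (ι := N5_I m) (fun i => fun _ : Fin 1 => (i.2 : ℝ))
    (fun i => L1 i.1.1 ^ (-τ)) (fun i => Real.rpow_pos_of_pos (by linarith [hL1 i]) _) hfull
    ha3 hsR (by simpa using ha5)
  set E : Set (Fin 1 → ℝ) := {x : Fin 1 → ℝ | ∀ δ > 0, ∃ i : N5_I m, L1 i.1.1 ^ (-τ) < δ ∧
    x ∈ Metric.closedBall (fun _ : Fin 1 => (i.2 : ℝ)) ((L1 i.1.1 ^ (-τ)) ^ a)} with hE
  have hdim : (s : ENNReal) ≤ dimH E := le_dimH_of_hausdorffMeasure_ne_zero hmtp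
  refine hdim.trans ?_
  rw [← (IsometryEquiv.funUnique (Fin 1) ℝ).dimH_image E]
  apply dimH_mono
  rintro _ ⟨x, hx, rfl⟩
  set y : ℝ := IsometryEquiv.funUnique (Fin 1) ℝ x with hy
  have hyx : y = x default := rfl
  intro hfin
  have hfin' : {P : ℤ[X] | P ≠ 0 ∧ P.natDegree ≤ m ∧ |aeval y P| ≤ L1 P ^ (-W)}.Finite := hfin
  obtain ⟨B, hB⟩ := (hfin'.image L1).bddAbove
  set K : ℝ := m * (|y| + 1) ^ m with hK
  have hKpos : 0 < K := by positivity
  -- choice of the threshold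
  obtain ⟨T, hT1, hT2, hT3⟩ : ∃ T : ℝ, 1 ≤ T ∧ B < T ∧
      ∀ L : ℝ, T ≤ L → K * L ^ (1 - τ * a + W) ≤ 1 := by
    have h2 : Filter.Tendsto (fun L : ℝ => K * L ^ (-(τ * a - 1 - W))) Filter.atTop
        (nhds (K * 0)) := (tendsto_rpow_neg_atTop (by linarith)).const_mul K
    rw [mul_zero] at h2
    have h3 := h2.eventually (gt_mem_nhds (zero_lt_one))
    obtain ⟨T0, hT0⟩ := Filter.eventually_atTop.1 h3
    refine ⟨max (max 1 T0) (B + 1), ?_, ?_, ?_⟩
    · exact (le_max_left _ _).trans (le_max_left _ _)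
    · exact lt_of_lt_of_le (by linarith) (le_max_right _ _)
    · intro L hL
      have h4 := hT0 L (((le_max_right _ _).trans (le_max_left _ _)).trans hL)
      have h5 : 1 - τ * a + W = -(τ * a - 1 - W) := by ring
      rw [h5]
      exact h4.le
  have hTpos : 0 < T := by linarith
  obtain ⟨i, hi1, hi2⟩ := hx (T ^ (-τ)) (Real.rpow_pos_of_pos hTpos _)
  obtain ⟨⟨P, hP0, hPdeg⟩, ⟨α, hα⟩⟩ := i
  have hLP : T < L1 P := by
    by_contra hcon
    have h6 : T ^ (-τ) ≤ L1 P ^ (-τ) :=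
      Real.rpow_le_rpow_of_nonpos (by linarith [one_le_L1 P hP0]) (not_lt.1 hcon) (by linarith)
    exact absurd hi1 (not_lt.2 h6)
  have hLpos : 0 < L1 P := by linarith
  have hroot : aeval α P = 0 := (Polynomial.mem_rootSet.1 hα).2
  have hdist : |y - α| ≤ L1 P ^ (-(τ * a)) := by
    have h7 : dist x (fun _ : Fin 1 => α) ≤ (L1 P ^ (-τ)) ^ a := hi2
    rw [dist_pi_le_iff (by positivity)] at h7
    have h8 := h7 default
    rw [Real.dist_eq, ← hyx, ← Real.rpow_mul hLpos.le] at h8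
    rw [← neg_mul]
    exact h8
  have hτa : 0 < τ * a := by linarith
  have hdist1 : |y - α| ≤ 1 := by
    refine hdist.trans ?_
    apply Real.rpow_le_one_of_one_le_of_nonpos (by linarith) (by linarith)
  have hmem : P ∈ {P : ℤ[X] | P ≠ 0 ∧ P.natDegree ≤ m ∧ |aeval y P| ≤ L1 P ^ (-W)} := by
    refine ⟨hP0, hPdeg, ?_⟩
    refine (N5_close m P hPdeg y α hroot hdist1).trans ?_
    calc K * L1 P * |y - α| ≤ K * L1 P * L1 P ^ (-(τ * a)) :=
          mul_le_mul_of_nonneg_left hdist (by positivity)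
      _ = (K * L1 P ^ (1 - τ * a + W)) * L1 P ^ (-W) := by
          have h10 : L1 P * L1 P ^ (-(τ * a)) = L1 P ^ (1 - τ * a + W) * L1 P ^ (-W) := by
            rw [← Real.rpow_add hLpos]
            nth_rewrite 1 [← Real.rpow_one (L1 P)]
            rw [← Real.rpow_add hLpos]
            congr 1
            ring
          rw [mul_assoc K, mul_assoc K, h10]
      _ ≤ 1 * L1 P ^ (-W) :=
          mul_le_mul_of_nonneg_right (hT3 (L1 P) hLP.le) (Real.rpow_nonneg hLpos.le _)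
      _ = L1 P ^ (-W) := one_mul _
  have h9 : L1 P ≤ B := hB ⟨P, hmem, rfl⟩
  linarith

end Ver4
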