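import Pool.Agent.LibVer4.G1

open Polynomial

namespace Ver4

private theorem U3_prod (x α : ℂ) (t : Multiset ℂ) (h : ∀ β ∈ t, ‖x - α‖ ≤ ‖x - β‖) :
    ‖(t.map (fun β => α - β)).prod‖ ≤ 2 ^ Multiset.card t * ‖(t.map (fun β => x - β)).prod‖ := by
  induction t using Multiset.induction_on with
  | empty => simp
  | cons β t ih =>
    rw [Multiset.map_cons, Multiset.map_cons, Multiset.prod_cons, Multiset.prod_cons,
      Multiset.card_cons, norm_mul, norm_mul, pow_succ]
    have h1 := ih fun γ hγ => h γ (Multiset.mem_cons_of_mem hγ)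
    have h2 : ‖α - β‖ ≤ 2 * ‖x - β‖ := by
      have h3 : ‖α - β‖ ≤ ‖x - β‖ + ‖x - α‖ := by
        have : α - β = (x - β) - (x - α) := by ring
        rw [this]
        exact norm_sub_le _ _
      have h4 := h β (Multiset.mem_cons_self β t)
      linarith
    calc ‖α - β‖ * ‖(t.map (fun β => α - β)).prod‖
        ≤ (2 * ‖x - β‖) * (2 ^ Multiset.card t * ‖(t.map (fun β => x - β)).prod‖) :=
          mul_le_mul h2 h1 (norm_nonneg _) (by positivity)
      _ = 2 ^ Multiset.card t * 2 * (‖x - β‖ * ‖(t.map (fun β => x - β)).prod‖) := by ring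

/-- U3: the nearest root. Hint: `α` the root nearest to `x`; for the other roots `α_i`,
`|α - α_i| ≤ 2 |x - α_i|`, so `|P(x)| = |a| ∏ |x - α_i| ≥ |x - α| |P'(α)| / 2^{m-1}`
(`P'(α) = a ∏ (α - α_i)` over the other roots, with multiplicity). -/
theorem near_root (m : ℕ) (P : ℤ[X]) (h1 : 1 ≤ P.natDegree) (hm : P.natDegree ≤ m) (x : ℝ) :
    ∃ α : ℂ, aeval α P = 0 ∧ ‖(x : ℂ) - α‖ * ‖aeval α (derivative P)‖ ≤ 2 ^ m * |aeval x P| := by
  classical
  have hinj : Function.Injective (Int.castRingHom ℂ) := Int.cast_injective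
  set Q : ℂ[X] := P.map (Int.castRingHom ℂ) with hQ
  have hev : ∀ z : ℂ, aeval z P = eval z Q := by
    intro z
    rw [hQ, eval_map, aeval_def]
    rfl
  have hev' : ∀ z : ℂ, aeval z (derivative P) = eval z (derivative Q) := by
    intro z
    rw [hQ, derivative_map, eval_map, aeval_def]
    rfl
  have hdeg : Q.natDegree = P.natDegree := natDegree_map_eq_of_injective hinj P
  have hsplit : Q.Splits := IsAlgClosed.splits Q
  have hcard : Multiset.card Q.roots = Q.natDegree := hsplit.natDegree_eq_card_roots.symm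
  have hprod : Q = C Q.leadingCoeff * (Q.roots.map (fun a => X - C a)).prod := hsplit.eq_prod_roots
  have hne : Q.roots ≠ 0 := by
    intro h
    rw [h, Multiset.card_zero] at hcard
    omega
  obtain ⟨α, hα, hmin⟩ : ∃ α ∈ Q.roots.toFinset, ∀ β ∈ Q.roots.toFinset,
      ‖(x : ℂ) - α‖ ≤ ‖(x : ℂ) - β‖ := by
    refine Finset.exists_min_image _ _ ?_
    obtain ⟨a, ha⟩ := Multiset.exists_mem_of_ne_zero hne
    exact ⟨a, Multiset.mem_toFinset.2 ha⟩
  rw [Multiset.mem_toFinset] at hα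
  have hQ0 : Q ≠ 0 := by
    intro h
    rw [h] at hne
    exact hne roots_zero
  have hroot : eval α Q = 0 := (mem_roots hQ0).1 hα
  refine ⟨α, by rw [hev, hroot], ?_⟩
  obtain ⟨t, ht⟩ := Multiset.exists_cons_of_mem hα
  obtain ⟨R, hR⟩ : ∃ R : ℂ[X], R = C Q.leadingCoeff * (t.map (fun a => X - C a)).prod := ⟨_, rfl⟩
  have hQR : Q = (X - C α) * R := by
    conv_lhs => rw [hprod, ht, Multiset.map_cons, Multiset.prod_cons]
    rw [hR]
    ring
  have hRev : ∀ z : ℂ, eval z R = Q.leadingCoeff * (t.map (fun β => z - β)).prod := by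
    intro z
    rw [hR, eval_mul, eval_C, eval_multiset_prod, Multiset.map_map]
    simp
  have hder : eval α (derivative Q) = eval α R := by
    conv_lhs => rw [hQR]
    rw [derivative_mul, eval_add, eval_mul, eval_mul, derivative_sub, derivative_X, derivative_C,
      sub_zero, eval_one, one_mul, eval_sub, eval_X, eval_C, sub_self, zero_mul, add_zero]
  have hQx : eval (x : ℂ) Q = ((x : ℂ) - α) * eval (x : ℂ) R := by
    conv_lhs => rw [hQR]
    rw [eval_mul, eval_sub, eval_X, eval_C]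
  have hreal : ‖eval (x : ℂ) Q‖ = |aeval x P| := by
    rw [← hev]
    have : aeval (x : ℂ) P = ((aeval x P : ℝ) : ℂ) := by
      have := aeval_algebraMap_apply ℂ x P
      exact this
    rw [this, Complex.norm_real, Real.norm_eq_abs]
  have htc : Multiset.card t ≤ m := by
    have : Multiset.card Q.roots = Multiset.card t + 1 := by rw [ht, Multiset.card_cons]
    omega
  have hb := U3_prod (x : ℂ) α t fun β hβ => hmin β
    (Multiset.mem_toFinset.2 (by rw [ht]; exact Multiset.mem_cons_of_mem hβ))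
  rw [hev', hder, ← hreal, hQx, hRev, hRev, norm_mul, norm_mul, norm_mul]
  have h2 : (2 : ℝ) ^ Multiset.card t ≤ 2 ^ m := pow_le_pow_right₀ (by norm_num) htc
  calc ‖(x : ℂ) - α‖ * (‖Q.leadingCoeff‖ * ‖(t.map (fun β => α - β)).prod‖)
      ≤ ‖(x : ℂ) - α‖ * (‖Q.leadingCoeff‖ *
        (2 ^ Multiset.card t * ‖(t.map (fun β => (x : ℂ) - β)).prod‖)) := by gcongr
    _ ≤ ‖(x : ℂ) - α‖ * (‖Q.leadingCoeff‖ *
        (2 ^ m * ‖(t.map (fun β => (x : ℂ) - β)).prod‖)) := by gcongr
    _ = 2 ^ m * (‖(x : ℂ) - α‖ *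
        (‖Q.leadingCoeff‖ * ‖(t.map (fun β => (x : ℂ) - β)).prod‖)) := by ring

end Ver4
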