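import Mathlib

namespace Ver4

private theorem u5a_key (q s c : ℝ) (hs : 0 < s) (hs1 : s ≤ 1) (hc : 0 < c)
    (ι : Type) (T : Finset ι) (D : ι → ℝ) (A H η : ℝ) (hH : 1 ≤ H) (hA : 0 ≤ A)
    (hη : 0 < η) (hlow : ∀ t ∈ T, c * H ^ (-q) ≤ D t)
    (hcnt : ∀ δ : ℝ, η ≤ δ →
      ∀ T' : Finset ι, T' ⊆ T → (∀ t ∈ T', D t ≤ δ * H) → (T'.card : ℝ) ≤ A * δ ^ 2) (n : ℕ) :
    ∑ t ∈ T.filter (fun t => D t ≤ 2 ^ n * η * H), (D t) ^ (-s) ≤
      4 * A * (2 ^ n * η) ^ (2 - s) * H ^ (-s) + A * η ^ 2 * (c ^ (-s) * H ^ (q * s)) := by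
  have hH0 : 0 < H := by linarith
  induction n with
  | zero =>
    have h1 : ∀ t ∈ T.filter (fun t => D t ≤ 2 ^ 0 * η * H),
        (D t) ^ (-s) ≤ c ^ (-s) * H ^ (q * s) := by
      intro t ht
      rw [Finset.mem_filter] at ht
      have h2 : (D t) ^ (-s) ≤ (c * H ^ (-q)) ^ (-s) :=
        Real.rpow_le_rpow_of_nonpos (mul_pos hc (Real.rpow_pos_of_pos hH0 _)) (hlow t ht.1)
          (by linarith)
      rw [Real.mul_rpow hc.le (Real.rpow_nonneg hH0.le _), ← Real.rpow_mul hH0.le] at h2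
      have e : -q * -s = q * s := by ring
      rwa [e] at h2
    have h2 := Finset.sum_le_sum h1
    rw [Finset.sum_const, nsmul_eq_mul] at h2
    have h3 := hcnt η le_rfl (T.filter (fun t => D t ≤ 2 ^ 0 * η * H)) (Finset.filter_subset _ _)
      (fun t ht => by
        rw [Finset.mem_filter, pow_zero, one_mul] at ht
        exact ht.2)
    have h4 : 0 ≤ c ^ (-s) * H ^ (q * s) := by positivity
    have h5 : 0 ≤ 4 * A * (2 ^ 0 * η) ^ (2 - s) * H ^ (-s) := by positivity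
    have h6 := mul_le_mul_of_nonneg_right h3 h4
    linarith
  | succ n ih =>
    set x : ℝ := 2 ^ n * η with hx
    have hx0 : 0 < x := by positivity
    have hηx : η ≤ x := by
      have : (1 : ℝ) ≤ 2 ^ n := one_le_pow₀ (by norm_num)
      nlinarith
    have hx2 : (2 : ℝ) ^ (n + 1) * η = 2 * x := by
      rw [hx]
      ring
    rw [hx2]
    set F := T.filter (fun t => D t ≤ 2 * x * H) with hF
    rw [← Finset.sum_filter_add_sum_filter_not F (fun t => D t ≤ x * H)]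
    have h1 : ∑ t ∈ F.filter (fun t => D t ≤ x * H), (D t) ^ (-s) ≤
        ∑ t ∈ T.filter (fun t => D t ≤ x * H), (D t) ^ (-s) := by
      refine Finset.sum_le_sum_of_subset_of_nonneg ?_ ?_
      · intro t ht
        rw [Finset.mem_filter, hF, Finset.mem_filter] at ht
        exact Finset.mem_filter.2 ⟨ht.1.1, ht.2⟩
      · intro t ht _
        have h2 := hlow t (Finset.mem_filter.1 ht).1
        have h3 : 0 < c * H ^ (-q) := mul_pos hc (Real.rpow_pos_of_pos hH0 _)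
        exact Real.rpow_nonneg (h3.le.trans h2) _
    have h2 : ∀ t ∈ F.filter (fun t => ¬ D t ≤ x * H), (D t) ^ (-s) ≤ x ^ (-s) * H ^ (-s) := by
      intro t ht
      rw [Finset.mem_filter, not_le] at ht
      rw [← Real.mul_rpow hx0.le hH0.le]
      exact Real.rpow_le_rpow_of_nonpos (mul_pos hx0 hH0) ht.2.le (by linarith)
    have h3 := Finset.sum_le_sum h2
    rw [Finset.sum_const, nsmul_eq_mul] at h3
    have h4 := hcnt (2 * x) (by linarith) (F.filter (fun t => ¬ D t ≤ x * H))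
      ((Finset.filter_subset _ _).trans (Finset.filter_subset _ _))
      (fun t ht => by
        rw [Finset.mem_filter, hF, Finset.mem_filter] at ht
        exact ht.1.2)
    have h5 : 0 ≤ x ^ (-s) * H ^ (-s) := by positivity
    have h6 := mul_le_mul_of_nonneg_right h4 h5
    have e1 : x ^ (2 - s) = x ^ 2 * x ^ (-s) := by
      rw [sub_eq_add_neg, Real.rpow_add hx0]
      norm_num
    have e2 : (2 * x) ^ (2 - s) = 2 ^ (2 - s) * x ^ (2 - s) :=
      Real.mul_rpow (by norm_num) hx0.le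
    have h7 : (2 : ℝ) ≤ 2 ^ (2 - s) := by
      have := Real.rpow_le_rpow_of_exponent_le (show (1 : ℝ) ≤ 2 by norm_num)
        (show 1 ≤ 2 - s by linarith)
      rwa [Real.rpow_one] at this
    have h8 : 0 ≤ A * x ^ (2 - s) * H ^ (-s) := by positivity
    have h9 : A * (2 * x) ^ 2 * (x ^ (-s) * H ^ (-s)) = 4 * (A * x ^ (2 - s) * H ^ (-s)) := by
      rw [e1]
      ring
    have h10 : 4 * A * (2 * x) ^ (2 - s) * H ^ (-s) =
        4 * 2 ^ (2 - s) * (A * x ^ (2 - s) * H ^ (-s)) := by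
      rw [e2]
      ring
    have h11 : 4 * A * x ^ (2 - s) * H ^ (-s) = 4 * (A * x ^ (2 - s) * H ^ (-s)) := by ring
    have h12 := mul_le_mul_of_nonneg_right h7 h8
    rw [h10]
    rw [h9] at h6
    rw [h11] at ih
    linarith

/-- U5a: a layer-cake estimate. Hint: split `T` into the dyadic classes
`2^{-i-1} C₁ H < D t ≤ 2^{-i} C₁ H` as long as `2^{-i} C₁ ≥ H^{-1/2}`, and the rest
(`D t ≤ H^{1/2}`, at most `A H^{-1}` elements, each term at most `(c H^{-q})^{-s}`). -/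
theorem layer (q s c C₁ : ℝ) (hs : 0 < s) (hs1 : s ≤ 1) (hc : 0 < c) (hC₁ : 0 < C₁) :
    ∃ C : ℝ, 0 < C ∧ ∀ (ι : Type) (T : Finset ι) (D : ι → ℝ) (A H : ℝ), 1 ≤ H → 0 ≤ A →
    (∀ t ∈ T, c * H ^ (-q) ≤ D t) → (∀ t ∈ T, D t ≤ C₁ * H) →
    (∀ δ : ℝ, H ^ (-(1 / 2 : ℝ)) ≤ δ →
      ∀ T' : Finset ι, T' ⊆ T → (∀ t ∈ T', D t ≤ δ * H) → (T'.card : ℝ) ≤ A * δ ^ 2) →
    ∑ t ∈ T, (D t) ^ (-s) ≤ C * (A * H ^ (-s) + A * H ^ (-(1 : ℝ)) * H ^ (q * s)) := by
  refine ⟨4 * (2 * C₁) ^ (2 - s) + 4 + c ^ (-s), by positivity, ?_⟩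
  intro ι T D A H hH hA hlow hup hcnt
  have hH0 : 0 < H := by linarith
  set η : ℝ := H ^ (-(1 / 2 : ℝ)) with hη
  have hη0 : 0 < η := Real.rpow_pos_of_pos hH0 _
  have hη1 : η ≤ 1 := Real.rpow_le_one_of_one_le_of_nonpos hH (by norm_num)
  have hη2 : η ^ 2 = H ^ (-(1 : ℝ)) := by
    rw [hη, ← Real.rpow_natCast, ← Real.rpow_mul hH0.le]
    norm_num
  -- the smallest power of two
  have hex : ∃ n : ℕ, C₁ ≤ 2 ^ n * η := by
    obtain ⟨n, hn⟩ := pow_unbounded_of_one_lt (C₁ / η) (show (1 : ℝ) < 2 by norm_num)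
    exact ⟨n, ((div_lt_iff₀ hη0).1 hn).le⟩
  classical
  set n := Nat.find hex with hn
  have hn1 : C₁ ≤ 2 ^ n * η := Nat.find_spec hex
  have hn2 : (2 ^ n * η) ^ (2 - s) ≤ (2 * C₁) ^ (2 - s) + 1 := by
    rcases Nat.eq_zero_or_pos n with h0 | h0
    · rw [h0, pow_zero, one_mul]
      have h1 : η ^ (2 - s) ≤ 1 := Real.rpow_le_one hη0.le hη1 (by linarith)
      have h2 : 0 ≤ (2 * C₁) ^ (2 - s) := by positivity
      linarith
    · have h1 := Nat.find_min hex (Nat.sub_lt h0 one_pos)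
      rw [← hn, not_le] at h1
      have h2 : (2 : ℝ) ^ n * η ≤ 2 * C₁ := by
        have e : (2 : ℝ) ^ n = 2 * 2 ^ (n - 1) := by
          rw [← pow_succ']
          congr 1
          omega
        rw [e]
        linarith
      have h3 := Real.rpow_le_rpow (by positivity) h2 (show 0 ≤ 2 - s by linarith)
      linarith
  have hkey := u5a_key q s c hs hs1 hc ι T D A H η hH hA hη0 hlow hcnt n
  have hT : T.filter (fun t => D t ≤ 2 ^ n * η * H) = T := by
    refine Finset.filter_true_of_mem fun t ht => ?_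
    exact (hup t ht).trans (mul_le_mul_of_nonneg_right hn1 hH0.le)
  rw [hT, hη2] at hkey
  refine hkey.trans ?_
  have h1 : 0 ≤ A * H ^ (-s) := by positivity
  have h2 : 0 ≤ A * H ^ (-(1 : ℝ)) * H ^ (q * s) := by positivity
  have h3 : 0 ≤ (2 * C₁) ^ (2 - s) := by positivity
  have h4 : 0 ≤ c ^ (-s) := by positivity
  have h5 := mul_le_mul_of_nonneg_right hn2 h1
  have e1 : 4 * A * (2 ^ n * η) ^ (2 - s) * H ^ (-s) =
      4 * ((2 ^ n * η) ^ (2 - s) * (A * H ^ (-s))) := by ring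
  have e2 : A * H ^ (-(1 : ℝ)) * (c ^ (-s) * H ^ (q * s)) =
      c ^ (-s) * (A * H ^ (-(1 : ℝ)) * H ^ (q * s)) := by ring
  rw [e1, e2]
  have h6 := mul_nonneg h3 h2
  have h7 := mul_nonneg h4 h1
  nlinarith

end Ver4
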