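import Pool.Agent.LibVer4.U2

open Polynomial

namespace Ver4

/-- the case of degree one -/
private theorem U5b_one (m : ℕ) (hm : 1 ≤ m) (M : ℝ) (hM : 1 ≤ M) (P : ℤ[X]) (α : ℂ) (x : ℝ)
    (hP0 : P ≠ 0) (hP1 : P.natDegree = 1) (hx : |x| ≤ M) (hPx : |aeval x P| ≤ 1) :
    (M + 2)⁻¹ * L1 P ^ (2 - (m : ℝ)) ≤ ‖aeval α (derivative P)‖ ∧
      |aeval x (derivative P)| ≤ 2 * ‖aeval α (derivative P)‖ ∧
      ‖aeval α (derivative P)‖ ≤ L1 P := by
  have hL1 : 1 ≤ L1 P := one_le_L1 P hP0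
  obtain ⟨a, b, ha, hPe⟩ : ∃ a b : ℤ, a ≠ 0 ∧ P = C a * X + C b := by
    refine ⟨P.coeff 1, P.coeff 0, ?_, eq_X_add_C_of_natDegree_le_one hP1.le⟩
    rw [← hP1, coeff_natDegree]
    exact leadingCoeff_ne_zero.2 hP0
  have hd : derivative P = C a := by
    rw [hPe]
    simp
  have hL : L1 P = |(a : ℝ)| + |(b : ℝ)| := by
    have c0 : P.coeff 0 = b := by
      rw [hPe, coeff_add, coeff_C_mul, coeff_X_zero, coeff_C_zero, mul_zero, zero_add]
    have c1 : P.coeff 1 = a := by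
      rw [hPe, coeff_add, coeff_C_mul, coeff_X_one, coeff_C_succ, mul_one, add_zero]
    rw [L1_eq_sum P 1 hP1.le, Finset.sum_range_succ, Finset.sum_range_one, c0, c1]
    ring
  have h1 : ‖aeval α (derivative P)‖ = |(a : ℝ)| := by
    rw [hd, aeval_C]
    exact Complex.norm_intCast a
  have h2 : aeval x (derivative P) = (a : ℝ) := by
    rw [hd, aeval_C]
    rfl
  have h3 : aeval x P = a * x + b := by
    rw [hPe]
    simp
  have ha1 : (1 : ℝ) ≤ |(a : ℝ)| := by
    have h4 := Int.one_le_abs ha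
    exact_mod_cast h4
  have hb : |(b : ℝ)| ≤ |(a : ℝ)| * M + 1 := by
    have h4 : (b : ℝ) = aeval x P - a * x := by rw [h3]; ring
    rw [h4]
    calc |aeval x P - a * x| ≤ |aeval x P| + |(a : ℝ) * x| := abs_sub _ _
      _ ≤ 1 + |(a : ℝ)| * M := by
          rw [abs_mul]
          have := mul_le_mul_of_nonneg_left hx (abs_nonneg (a : ℝ))
          linarith
      _ = |(a : ℝ)| * M + 1 := by ring
  rw [h1, h2]
  refine ⟨?_, by linarith, by rw [hL]; linarith [abs_nonneg (b : ℝ)]⟩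
  have h5 : L1 P ^ (2 - (m : ℝ)) ≤ L1 P := by
    calc L1 P ^ (2 - (m : ℝ)) ≤ L1 P ^ (1 : ℝ) := by
          apply Real.rpow_le_rpow_of_exponent_le hL1
          have : (1 : ℝ) ≤ m := by exact_mod_cast hm
          linarith
      _ = L1 P := Real.rpow_one _
  have h6 : L1 P ≤ (M + 2) * |(a : ℝ)| := by
    rw [hL]
    nlinarith
  rw [inv_mul_le_iff₀ (by linarith)]
  exact h5.trans h6

/-- the difference of the values of the derivative -/
private theorem U5b_diff (m : ℕ) (B : ℝ) (hB : 1 ≤ B) (P : ℤ[X]) (hPm : P.natDegree ≤ m)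
    (z w : ℂ) (hz : ‖z‖ ≤ B) (hw : ‖w‖ ≤ B) :
    ‖aeval z (derivative P) - aeval w (derivative P)‖ ≤ m * m * B ^ m * L1 P * ‖z - w‖ := by
  have hd1 : (derivative P).natDegree ≤ m := (natDegree_derivative_le P).trans (by omega)
  have hd2 : (derivative (derivative P)).natDegree ≤ m :=
    (natDegree_derivative_le _).trans (by omega)
  have hB0 : 0 ≤ B := by linarith
  have hbound : ∀ u ∈ Metric.closedBall (0 : ℂ) B,
      ‖aeval u (derivative (derivative P))‖ ≤ m * m * B ^ m * L1 P := by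
    intro u hu
    have hu' : ‖u‖ ≤ B := by simpa using hu
    have h1 := norm_aeval_le (derivative (derivative P)) m hd2 u
    have h2 := L1_derivative_le (derivative P) m hd1
    have h3 := L1_derivative_le P m hPm
    have h4 : (max 1 ‖u‖) ^ m ≤ B ^ m := pow_le_pow_left₀ (by positivity) (max_le hB hu') m
    calc ‖aeval u (derivative (derivative P))‖
        ≤ L1 (derivative (derivative P)) * (max 1 ‖u‖) ^ m := h1
      _ ≤ (m * (m * L1 P)) * B ^ m := by
          refine mul_le_mul (h2.trans ?_) h4 (by positivity) ?_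
          · exact mul_le_mul_of_nonneg_left h3 (Nat.cast_nonneg m)
          · have := L1_nonneg P
            positivity
      _ = m * m * B ^ m * L1 P := by ring
  have hder : ∀ u ∈ Metric.closedBall (0 : ℂ) B,
      HasDerivWithinAt (fun v : ℂ => aeval v (derivative P))
        (aeval u (derivative (derivative P))) (Metric.closedBall (0 : ℂ) B) u := by
    intro u _
    exact (Polynomial.hasDerivAt_aeval (derivative P) u).hasDerivWithinAt
  exact (convex_closedBall (0 : ℂ) B).norm_image_sub_le_of_norm_hasDerivWithin_le hder hbound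
    (by simpa using hw) (by simpa using hz)

/-- U5b: Hint: degree one: `|a| ≥ L1 / (M+2)` because `|b| ≤ |a| M + 1`. Degree at least two:
`deriv_ge`. Then `|P'(x) - P'(α)| ≤ C L1 |x - α| ≤ C 2^m L1^{1-W} / |P'(α)| ≤ |P'(α)|` for large `L1`
(`W > 2m - 1`; `|α| ≤ M + 1` because `|x - α|` is small). -/
theorem rel_facts (m : ℕ) (hm : 1 ≤ m) (M W : ℝ) (hM : 1 ≤ M) (hW : 2 * (m : ℝ) - 1 < W) :
    ∃ c L₀ : ℝ, 0 < c ∧ 1 ≤ L₀ ∧ ∀ (P : ℤ[X]) (α : ℂ) (x : ℝ), Irreducible P → 1 ≤ P.natDegree →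
    P.natDegree ≤ m → L₀ ≤ L1 P → aeval α P = 0 → |x| ≤ M → |aeval x P| ≤ L1 P ^ (-W) →
    ‖(x : ℂ) - α‖ * ‖aeval α (derivative P)‖ ≤ 2 ^ m * L1 P ^ (-W) →
    c * L1 P ^ (2 - (m : ℝ)) ≤ ‖aeval α (derivative P)‖ ∧
      |aeval x (derivative P)| ≤ 2 * ‖aeval α (derivative P)‖ ∧
      ‖aeval α (derivative P)‖ ≤ c⁻¹ * L1 P := by
  have hmR : (1 : ℝ) ≤ m := by exact_mod_cast hm
  obtain ⟨c₁, hc₁, hder⟩ : ∃ c₁ : ℝ, 0 < c₁ ∧ ∀ P : ℤ[X], Irreducible P →
      2 ≤ P.natDegree → P.natDegree ≤ m → ∀ α : ℂ, aeval α P = 0 →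
      c₁ * L1 P ^ (2 - (m : ℝ)) ≤ ‖aeval α (derivative P)‖ := by
    by_cases h2 : 2 ≤ m
    · exact deriv_ge m h2
    · exact ⟨1, one_pos, fun P _ h3 h4 => by omega⟩
  set B : ℝ := M + 1 with hB
  have hB1 : 1 ≤ B := by linarith
  have hBm : 1 ≤ B ^ m := one_le_pow₀ hB1
  set K : ℝ := m * m * B ^ m with hK
  have hK0 : 0 < K := by positivity
  set c : ℝ := min (M + 2)⁻¹ (min c₁ (m * B ^ m)⁻¹) with hc
  have hc0 : 0 < c := by
    refine lt_min (by positivity) (lt_min hc₁ (by positivity))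
  have hca : c ≤ (M + 2)⁻¹ := min_le_left _ _
  have hcb : c ≤ c₁ := (min_le_right _ _).trans (min_le_left _ _)
  have hcc : c ≤ (m * B ^ m)⁻¹ := (min_le_right _ _).trans (min_le_right _ _)
  have hcinv : m * B ^ m ≤ c⁻¹ := by
    rw [← inv_inv (m * B ^ m)]
    exact inv_anti₀ hc0 hcc
  have hcinv1 : 1 ≤ c⁻¹ := by
    refine le_trans ?_ hcinv
    nlinarith
  refine ⟨c, max 1 (max (2 ^ m / c₁) (K * 2 ^ m / c₁ ^ 2)), hc0, le_max_left _ _, ?_⟩
  intro P α x hP h1 hPm hL hα hx hPx hxα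
  have hP0 : P ≠ 0 := hP.ne_zero
  have hL1 : 1 ≤ L1 P := one_le_L1 P hP0
  have hLa : 2 ^ m / c₁ ≤ L1 P := ((le_max_left _ _).trans (le_max_right _ _)).trans hL
  have hLb : K * 2 ^ m / c₁ ^ 2 ≤ L1 P := ((le_max_right _ _).trans (le_max_right _ _)).trans hL
  set L := L1 P with hLdef
  have hL0 : 0 < L := by linarith
  by_cases hdeg : P.natDegree = 1
  · have hPx' : |aeval x P| ≤ 1 :=
      hPx.trans (Real.rpow_le_one_of_one_le_of_nonpos hL1 (by linarith))
    obtain ⟨e1, e2, e3⟩ := U5b_one m hm M hM P α x hP0 hdeg hx hPx'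
    refine ⟨le_trans ?_ e1, e2, e3.trans ?_⟩
    · exact mul_le_mul_of_nonneg_right hca (by positivity)
    · exact le_mul_of_one_le_left (by linarith) hcinv1
  · have hdeg2 : 2 ≤ P.natDegree := by omega
    have hlow := hder P hP hdeg2 hPm α hα
    rw [← hLdef] at hlow
    set D := ‖aeval α (derivative P)‖ with hD
    have hlow0 : 0 < c₁ * L ^ (2 - (m : ℝ)) := by positivity
    have hD0 : 0 < D := hlow0.trans_le hlow
    -- the distance
    have hdist : ‖(x : ℂ) - α‖ ≤ 2 ^ m / c₁ * L ^ ((m : ℝ) - 2 - W) := by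
      have e1 : ‖(x : ℂ) - α‖ * (c₁ * L ^ (2 - (m : ℝ))) ≤ 2 ^ m * L ^ (-W) :=
        (mul_le_mul_of_nonneg_left hlow (norm_nonneg _)).trans hxα
      rw [← le_div_iff₀ hlow0] at e1
      refine e1.trans (le_of_eq ?_)
      rw [mul_div_mul_comm, ← Real.rpow_sub hL0]
      congr 2
      ring
    have hexp1 : L ^ ((m : ℝ) - 2 - W) ≤ L⁻¹ := by
      rw [← Real.rpow_neg_one]
      exact Real.rpow_le_rpow_of_exponent_le hL1 (by linarith)
    have hdist1 : ‖(x : ℂ) - α‖ ≤ 1 := by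
      calc ‖(x : ℂ) - α‖ ≤ 2 ^ m / c₁ * L ^ ((m : ℝ) - 2 - W) := hdist
        _ ≤ L * L⁻¹ := mul_le_mul hLa hexp1 (by positivity) hL0.le
        _ = 1 := mul_inv_cancel₀ hL0.ne'
    have hxB : ‖(x : ℂ)‖ ≤ B := by
      rw [Complex.norm_real, Real.norm_eq_abs]
      linarith
    have hαB : ‖α‖ ≤ B := by
      have e1 : ‖α‖ ≤ ‖(x : ℂ)‖ + ‖(x : ℂ) - α‖ := by
        have e2 : α = (x : ℂ) - ((x : ℂ) - α) := by ring
        calc ‖α‖ = ‖(x : ℂ) - ((x : ℂ) - α)‖ := by rw [← e2]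
          _ ≤ _ := norm_sub_le _ _
      rw [Complex.norm_real, Real.norm_eq_abs] at e1
      linarith
    have hdiff := U5b_diff m B hB1 P hPm (x : ℂ) α hxB hαB
    rw [← hLdef, ← hK] at hdiff
    have hexp2 : L ^ ((m : ℝ) - 1 - W) ≤ L ^ (2 - (m : ℝ)) * L⁻¹ := by
      rw [← Real.rpow_neg_one, ← Real.rpow_add hL0]
      exact Real.rpow_le_rpow_of_exponent_le hL1 (by linarith)
    have hdiff2 : ‖aeval (x : ℂ) (derivative P) - aeval α (derivative P)‖ ≤ D := by
      calc ‖aeval (x : ℂ) (derivative P) - aeval α (derivative P)‖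
          ≤ K * L * ‖(x : ℂ) - α‖ := hdiff
        _ ≤ K * L * (2 ^ m / c₁ * L ^ ((m : ℝ) - 2 - W)) :=
            mul_le_mul_of_nonneg_left hdist (by positivity)
        _ = (K * 2 ^ m / c₁ ^ 2) * c₁ * (L ^ (1 : ℝ) * L ^ ((m : ℝ) - 2 - W)) := by
            rw [Real.rpow_one]
            field_simp
        _ = (K * 2 ^ m / c₁ ^ 2) * c₁ * L ^ ((m : ℝ) - 1 - W) := by
            rw [← Real.rpow_add hL0]
            congr 2
            ring
        _ ≤ L * c₁ * (L ^ (2 - (m : ℝ)) * L⁻¹) := by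
            refine mul_le_mul (mul_le_mul_of_nonneg_right hLb hc₁.le) hexp2 (by positivity)
              (by positivity)
        _ = c₁ * L ^ (2 - (m : ℝ)) := by
            field_simp
        _ ≤ D := hlow
    have hreal : ((aeval x (derivative P) : ℝ) : ℂ) = aeval (x : ℂ) (derivative P) :=
      (Polynomial.aeval_algebraMap_apply ℂ x (derivative P)).symm
    refine ⟨?_, ?_, ?_⟩
    · exact (mul_le_mul_of_nonneg_right hcb (by positivity)).trans hlow
    · have e1 : |aeval x (derivative P)| = ‖aeval (x : ℂ) (derivative P)‖ := by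
        rw [← hreal, Complex.norm_real, Real.norm_eq_abs]
      rw [e1]
      have e2 : ‖aeval (x : ℂ) (derivative P)‖ ≤
          ‖aeval (x : ℂ) (derivative P) - aeval α (derivative P)‖ + D := by
        have e3 : aeval (x : ℂ) (derivative P) =
          (aeval (x : ℂ) (derivative P) - aeval α (derivative P)) + aeval α (derivative P) := by
          ring
        conv_lhs => rw [e3]
        exact norm_add_le _ _
      linarith
    · have e1 := norm_aeval_le (derivative P) m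
        ((natDegree_derivative_le P).trans (by omega)) α
      have e2 := L1_derivative_le P m hPm
      have e3 : (max 1 ‖α‖) ^ m ≤ B ^ m := pow_le_pow_left₀ (by positivity) (max_le hB1 hαB) m
      calc D ≤ L1 (derivative P) * (max 1 ‖α‖) ^ m := e1
        _ ≤ (m * L) * B ^ m := mul_le_mul e2 e3 (by positivity) (by positivity)
        _ = (m * B ^ m) * L := by ring
        _ ≤ c⁻¹ * L := mul_le_mul_of_nonneg_right hcinv hL0.le

end Ver4
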