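import Pool.Agent.LibVer4.U4
import Pool.Agent.LibVer4.U5a
import Pool.Agent.LibVer4.U5b

open Polynomial

namespace Ver4

/-- The relevant pairs (polynomial, root). -/
def Rel (m : ℕ) (M W : ℝ) (p : ℤ[X] × ℂ) : Prop :=
  Irreducible p.1 ∧ 1 ≤ p.1.natDegree ∧ p.1.natDegree ≤ m ∧ aeval p.2 p.1 = 0 ∧
    ∃ x : ℝ, |x| ≤ M ∧ |aeval x p.1| ≤ L1 p.1 ^ (-W) ∧
      ‖(x : ℂ) - p.2‖ * ‖aeval p.2 (derivative p.1)‖ ≤ 2 ^ m * L1 p.1 ^ (-W)

private theorem U5c_roots (m : ℕ) (T : Finset (ℤ[X] × ℂ))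
    (hT : ∀ p ∈ T, p.1 ≠ 0 ∧ p.1.natDegree ≤ m ∧ aeval p.2 p.1 = 0) :
    T.card ≤ m * (T.image Prod.fst).card := by
  classical
  apply Finset.card_le_mul_card_image
  intro P hP
  obtain ⟨p₀, hp₀, hp₀'⟩ := Finset.mem_image.1 hP
  have hP0 : P ≠ 0 := hp₀' ▸ (hT p₀ hp₀).1
  have hPm : P.natDegree ≤ m := hp₀' ▸ (hT p₀ hp₀).2.1
  have hinj : Set.InjOn (Prod.snd : ℤ[X] × ℂ → ℂ) ((T.filter fun p => p.1 = P : Finset _) :
      Set (ℤ[X] × ℂ)) := by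
    intro a ha b hb hab
    rw [Finset.mem_coe, Finset.mem_filter] at ha hb
    exact Prod.ext (ha.2.trans hb.2.symm) hab
  rw [← Finset.card_image_of_injOn hinj]
  have hsub : (T.filter fun p => p.1 = P).image Prod.snd ⊆ (P.aroots ℂ).toFinset := by
    intro z hz
    obtain ⟨p, hp, rfl⟩ := Finset.mem_image.1 hz
    rw [Finset.mem_filter] at hp
    rw [Multiset.mem_toFinset, mem_aroots]
    exact ⟨hP0, hp.2 ▸ (hT p hp.1).2.2⟩
  calc ((T.filter fun p => p.1 = P).image Prod.snd).card ≤ (P.aroots ℂ).toFinset.card :=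
        Finset.card_le_card hsub
    _ ≤ (P.aroots ℂ).card := Multiset.toFinset_card_le _
    _ ≤ (P.map (algebraMap ℤ ℂ)).natDegree := card_roots' _
    _ ≤ P.natDegree := natDegree_map_le
    _ ≤ m := hPm

/-- U5c: the sum over one dyadic shell. Hint: `layer` with `q = m - 2`, `H = 2^(t+1)`,
`D p = ‖P'(α)‖`, `A = C H^{m+1}` from `count_small` (each polynomial has at most `m` roots; a relevant
pair with `D ≤ δ H` gives a polynomial with `|P(x)| ≤ 1`, `|P'(x)| ≤ 2 δ H`). The exponents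
`m + 1 - (W+1) s` and `m - (W - m + 2) s` are negative. Only `t ≥ t₀` (so that `L1 ≥ L₀`). -/
theorem shell (m : ℕ) (hm : 1 ≤ m) (M W s : ℝ) (hM : 1 ≤ M) (hW : 2 * (m : ℝ) - 1 < W)
    (hs : 0 < s) (hs1 : s ≤ 1) (h1 : ((m : ℝ) + 1) / (W + 1) < s)
    (h2 : (m : ℝ) / (W - m + 2) < s) :
    ∃ (C η : ℝ) (t₀ : ℕ), 0 < C ∧ 0 < η ∧ ∀ t : ℕ, t₀ ≤ t → ∀ T : Finset (ℤ[X] × ℂ),
    (∀ p ∈ T, Rel m M W p ∧ (2 : ℝ) ^ t ≤ L1 p.1 ∧ L1 p.1 < 2 ^ (t + 1)) →
    ∑ p ∈ T, (L1 p.1 ^ (-W) / ‖aeval p.2 (derivative p.1)‖) ^ s ≤ C * (2 : ℝ) ^ (-(η * t)) := by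
  classical
  have hmR : (1 : ℝ) ≤ m := by exact_mod_cast hm
  obtain ⟨c, L₀, hc, hL₀, hrel⟩ := rel_facts m hm M W hM hW
  obtain ⟨C₃, hC₃, hcount⟩ := count_small m hm M hM
  obtain ⟨C₄, hC₄, hlayer⟩ := layer ((m : ℝ) - 2) s (c / 2) c⁻¹ hs hs1 (by positivity)
    (by positivity)
  obtain ⟨t₀, ht₀⟩ := pow_unbounded_of_one_lt L₀ (by norm_num : (1 : ℝ) < 2)
  have hW1 : 0 < W + 1 := by linarith
  have hW2 : 0 < W - m + 2 := by linarith
  have he1 : 0 < (W + 1) * s - (m + 1) := by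
    rw [div_lt_iff₀ hW1] at h1
    linarith
  have he2 : 0 < (W - m + 2) * s - m := by
    rw [div_lt_iff₀ hW2] at h2
    linarith
  set η := min ((W + 1) * s - (m + 1)) ((W - m + 2) * s - m) with hη
  have hη0 : 0 < η := lt_min he1 he2
  refine ⟨2 ^ (W * s) * (C₄ * (4 * m * C₃)) * 2, η, t₀, by positivity, hη0, ?_⟩
  intro t ht T hT
  set H : ℝ := 2 ^ (t + 1) with hH
  have hH1 : 1 ≤ H := one_le_pow₀ (by norm_num)
  have hH0 : 0 < H := by linarith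
  have hH2 : H / 2 = 2 ^ t := by rw [hH, pow_succ]; ring
  have hLt : L₀ ≤ 2 ^ t := ht₀.le.trans (pow_le_pow_right₀ (by norm_num) ht)
  -- the facts
  have hfact : ∀ p ∈ T, p.1 ≠ 0 ∧ p.1.natDegree ≤ m ∧ aeval p.2 p.1 = 0 ∧ H / 2 ≤ L1 p.1 ∧
      L1 p.1 ≤ H ∧ c / 2 * H ^ (-((m : ℝ) - 2)) ≤ ‖aeval p.2 (derivative p.1)‖ ∧
      ‖aeval p.2 (derivative p.1)‖ ≤ c⁻¹ * H ∧
      ∃ x : ℝ, |x| ≤ M ∧ |aeval x p.1| ≤ 1 ∧
        |aeval x (derivative p.1)| ≤ 2 * ‖aeval p.2 (derivative p.1)‖ := by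
    intro p hp
    obtain ⟨⟨hirr, hd1, hdm, hroot, x, hx, hxP, hxα⟩, hlo, hhi⟩ := hT p hp
    have hL1 : 1 ≤ L1 p.1 := one_le_L1 p.1 hirr.ne_zero
    obtain ⟨f1, f2, f3⟩ := hrel p.1 p.2 x hirr hd1 hdm (hLt.trans hlo) hroot hx hxP hxα
    have hL0 : 0 < L1 p.1 := by linarith
    refine ⟨hirr.ne_zero, hdm, hroot, by rw [hH2]; exact hlo, hhi.le, ?_, ?_, x, hx, ?_, f2⟩
    · refine le_trans ?_ f1
      have h3 : 1 / 2 * H ^ (-((m : ℝ) - 2)) ≤ L1 p.1 ^ (2 - (m : ℝ)) := by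
        have h4 : -((m : ℝ) - 2) = 2 - m := by ring
        rw [h4]
        by_cases hm1 : m = 1
        · subst hm1
          have h5 : (2 : ℝ) - ((1 : ℕ) : ℝ) = 1 := by norm_num
          rw [h5, Real.rpow_one, Real.rpow_one]
          have h6 : H / 2 ≤ L1 p.1 := by rw [hH2]; exact hlo
          linarith
        · have hm2 : (2 : ℝ) ≤ m := by
            have : 2 ≤ m := by omega
            exact_mod_cast this
          have h5 : H ^ (2 - (m : ℝ)) ≤ L1 p.1 ^ (2 - (m : ℝ)) :=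
            Real.rpow_le_rpow_of_nonpos hL0 hhi.le (by linarith)
          have h6 : 0 < H ^ (2 - (m : ℝ)) := by positivity
          linarith
      calc c / 2 * H ^ (-((m : ℝ) - 2)) = c * (1 / 2 * H ^ (-((m : ℝ) - 2))) := by ring
        _ ≤ c * L1 p.1 ^ (2 - (m : ℝ)) := mul_le_mul_of_nonneg_left h3 hc.le
    · exact f3.trans (mul_le_mul_of_nonneg_left hhi.le (by positivity))
    · exact hxP.trans (Real.rpow_le_one_of_one_le_of_nonpos hL1 (by linarith))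
  -- the layer estimate
  set A : ℝ := 4 * m * C₃ * H ^ (m + 1) with hA
  have hA0 : 0 ≤ A := by positivity
  have hsum := hlayer (ℤ[X] × ℂ) T (fun p => ‖aeval p.2 (derivative p.1)‖) A H hH1 hA0
    (fun p hp => (hfact p hp).2.2.2.2.2.1) (fun p hp => (hfact p hp).2.2.2.2.2.2.1) (by
      intro δ hδ T' hT' hD
      have g1 := U5c_roots m T' (fun p hp => ⟨(hfact p (hT' hp)).1, (hfact p (hT' hp)).2.1,
        (hfact p (hT' hp)).2.2.1⟩)
      have hfin : {P : ℤ[X] | P.natDegree ≤ m ∧ L1 P ≤ H ∧ ∃ x : ℝ, |x| ≤ M ∧ |aeval x P| ≤ 1 ∧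
          |aeval x (derivative P)| ≤ (2 * δ) * H}.Finite :=
        (finite_L1 m H).subset fun P hP => ⟨hP.1, hP.2.1⟩
      have hδ0 : 0 < δ := lt_of_lt_of_le (by positivity) hδ
      have g2 : (T'.image Prod.fst).card ≤
          {P : ℤ[X] | P.natDegree ≤ m ∧ L1 P ≤ H ∧ ∃ x : ℝ, |x| ≤ M ∧ |aeval x P| ≤ 1 ∧
          |aeval x (derivative P)| ≤ (2 * δ) * H}.ncard := by
        rw [← Set.ncard_coe_finset]
        refine Set.ncard_le_ncard ?_ hfin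
        intro P hP
        rw [Finset.mem_coe, Finset.mem_image] at hP
        obtain ⟨p, hp, rfl⟩ := hP
        obtain ⟨-, k1, -, -, k2, -, -, x, k3, k4, k5⟩ := hfact p (hT' hp)
        refine ⟨k1, k2, x, k3, k4, k5.trans ?_⟩
        have k6 := hD p hp
        linarith
      have g3 := hcount H (2 * δ) hH1 (by linarith)
      have g4 : (T'.card : ℝ) ≤ m * ((T'.image Prod.fst).card : ℝ) := by exact_mod_cast g1
      have g5 : ((T'.image Prod.fst).card : ℝ) ≤ C₃ * (2 * δ) ^ 2 * H ^ (m + 1) :=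
        le_trans (by exact_mod_cast g2) g3
      calc (T'.card : ℝ) ≤ m * ((T'.image Prod.fst).card : ℝ) := g4
        _ ≤ m * (C₃ * (2 * δ) ^ 2 * H ^ (m + 1)) :=
            mul_le_mul_of_nonneg_left g5 (Nat.cast_nonneg m)
        _ = A * δ ^ 2 := by rw [hA]; ring)
  -- the terms
  have hterm : ∀ p ∈ T, (L1 p.1 ^ (-W) / ‖aeval p.2 (derivative p.1)‖) ^ s ≤
      (2 ^ (W * s) * H ^ (-(W * s))) * ‖aeval p.2 (derivative p.1)‖ ^ (-s) := by
    intro p hp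
    obtain ⟨k0, k1, -, k2, k3, k4, -, -⟩ := hfact p hp
    have hL1 : 1 ≤ L1 p.1 := one_le_L1 p.1 k0
    have hL0 : 0 < L1 p.1 := by linarith
    have hD0 : 0 < ‖aeval p.2 (derivative p.1)‖ := lt_of_lt_of_le (by positivity) k4
    have hWs : 0 ≤ W * s := by
      have : 0 ≤ W := by linarith
      positivity
    rw [Real.div_rpow (by positivity) hD0.le, ← Real.rpow_mul hL0.le, div_eq_mul_inv,
      ← Real.rpow_neg hD0.le]
    refine mul_le_mul_of_nonneg_right ?_ (by positivity)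
    have e1 : -W * s = -(W * s) := by ring
    rw [e1]
    calc L1 p.1 ^ (-(W * s)) ≤ (H / 2) ^ (-(W * s)) :=
          Real.rpow_le_rpow_of_nonpos (by positivity) k2 (by linarith)
      _ = 2 ^ (W * s) * H ^ (-(W * s)) := by
          rw [Real.div_rpow hH0.le (by norm_num), Real.rpow_neg (by norm_num : (0 : ℝ) ≤ 2)]
          rw [div_inv_eq_mul, mul_comm]
  have hexp : ∀ e : ℝ, η ≤ -e → H ^ e ≤ (2 : ℝ) ^ (-(η * t)) := by
    intro e he
    calc H ^ e ≤ H ^ (-η) := Real.rpow_le_rpow_of_exponent_le hH1 (by linarith)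
      _ = (2 : ℝ) ^ (((t : ℝ) + 1) * (-η)) := by
          rw [hH, ← Real.rpow_natCast 2 (t + 1), ← Real.rpow_mul (by norm_num)]
          push_cast
          rfl
      _ ≤ (2 : ℝ) ^ (-(η * t)) := by
          apply Real.rpow_le_rpow_of_exponent_le (by norm_num)
          linarith
  calc ∑ p ∈ T, (L1 p.1 ^ (-W) / ‖aeval p.2 (derivative p.1)‖) ^ s
      ≤ ∑ p ∈ T, (2 ^ (W * s) * H ^ (-(W * s))) * ‖aeval p.2 (derivative p.1)‖ ^ (-s) :=
        Finset.sum_le_sum hterm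
    _ = (2 ^ (W * s) * H ^ (-(W * s))) * ∑ p ∈ T, ‖aeval p.2 (derivative p.1)‖ ^ (-s) := by
        rw [Finset.mul_sum]
    _ ≤ (2 ^ (W * s) * H ^ (-(W * s))) *
        (C₄ * (A * H ^ (-s) + A * H ^ (-(1 : ℝ)) * H ^ (((m : ℝ) - 2) * s))) :=
        mul_le_mul_of_nonneg_left hsum (by positivity)
    _ = 2 ^ (W * s) * (C₄ * (4 * m * C₃)) *
        (H ^ (-(W * s)) * H ^ (m + 1) * H ^ (-s) +
          H ^ (-(W * s)) * H ^ (m + 1) * H ^ (-(1 : ℝ)) * H ^ (((m : ℝ) - 2) * s)) := by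
        rw [hA]
        ring
    _ = 2 ^ (W * s) * (C₄ * (4 * m * C₃)) *
        (H ^ (-(W * s) + ((m + 1 : ℕ) : ℝ) + -s) +
          H ^ (-(W * s) + ((m + 1 : ℕ) : ℝ) + -(1 : ℝ) + ((m : ℝ) - 2) * s)) := by
        rw [← Real.rpow_natCast H (m + 1), ← Real.rpow_add hH0, ← Real.rpow_add hH0,
          ← Real.rpow_add hH0, ← Real.rpow_add hH0]
    _ ≤ 2 ^ (W * s) * (C₄ * (4 * m * C₃)) *
        ((2 : ℝ) ^ (-(η * t)) + (2 : ℝ) ^ (-(η * t))) := by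
        refine mul_le_mul_of_nonneg_left (add_le_add (hexp _ ?_) (hexp _ ?_)) (by positivity)
        · have := min_le_left ((W + 1) * s - ((m : ℝ) + 1)) ((W - m + 2) * s - m)
          rw [hη]
          push_cast
          linarith
        · have := min_le_right ((W + 1) * s - ((m : ℝ) + 1)) ((W - m + 2) * s - m)
          rw [hη]
          push_cast
          linarith
    _ = 2 ^ (W * s) * (C₄ * (4 * m * C₃)) * 2 * (2 : ℝ) ^ (-(η * t)) := by ring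

end Ver4
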