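import Mathlib

namespace Ver4

/-- One step of the comparison of the sum of `r ^ (-a)` with the integral. -/
theorem V6a_step (a : ℝ) (ha : 0 < a) (ha1 : a < 1) (N : ℕ) :
    ((N : ℝ) + 1) ^ (-a) + (N : ℝ) ^ (1 - a) / (1 - a) ≤ ((N : ℝ) + 1) ^ (1 - a) / (1 - a) := by
  have hx : (0 : ℝ) < (N : ℝ) + 1 := by positivity
  have h1a : 0 < 1 - a := by linarith
  set x : ℝ := (N : ℝ) + 1 with hxdef
  have hN : (N : ℝ) = x * (1 + (-(1 / x))) := by
    field_simp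
    rw [hxdef]
    ring
  have hinv : 1 / x ≤ 1 := by
    rw [div_le_one hx]
    have : (0 : ℝ) ≤ N := Nat.cast_nonneg N
    linarith
  have h2 : (1 + (-(1 / x))) ^ (1 - a) ≤ 1 + (1 - a) * (-(1 / x)) :=
    _root_.rpow_one_add_le_one_add_mul_self (by linarith) h1a.le (by linarith)
  have h3 : (N : ℝ) ^ (1 - a) ≤ x ^ (1 - a) - (1 - a) * x ^ (-a) := by
    rw [hN, Real.mul_rpow hx.le (by linarith)]
    have h4 : x ^ (1 - a) * (1 + (-(1 / x))) ^ (1 - a) ≤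
        x ^ (1 - a) * (1 + (1 - a) * (-(1 / x))) :=
      mul_le_mul_of_nonneg_left h2 (Real.rpow_nonneg hx.le _)
    have h5 : x ^ (1 - a) = x * x ^ (-a) := by
      rw [sub_eq_add_neg, Real.rpow_add hx, Real.rpow_one]
    refine h4.trans (le_of_eq ?_)
    rw [h5]
    field_simp
    ring
  rw [le_div_iff₀ h1a, add_mul, div_mul_cancel₀ _ h1a.ne']
  linarith

/-- The sum over the layers, by removing a largest element. -/
theorem V6a_ind (s : ℝ) (hs : 0 < s) (hs1 : s < 1 / 2) (ι : Type) (E : ι → ℝ) (A : ℝ)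
    (hA : 0 < A) (n : ℕ) : ∀ T : Finset ι, T.card = n → (∀ t ∈ T, 0 < E t) →
    (∀ t₀ ∈ T, ((T.filter (fun t => E t ≤ E t₀)).card : ℝ) ≤ A * (E t₀) ^ (1 / 2 : ℝ)) →
    ∑ t ∈ T, (E t) ^ (-s) ≤ A ^ (2 * s) * ((n : ℝ) ^ (1 - 2 * s) / (1 - 2 * s)) := by
  classical
  induction n with
  | zero =>
    intro T hT _ _
    have h1 : T = ∅ := Finset.card_eq_zero.1 hT
    rw [h1, Finset.sum_empty]
    have h2 : 0 < 1 - 2 * s := by linarith
    positivity
  | succ n ih =>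
    intro T hT hpos h
    have hne : T.Nonempty := by
      rw [← Finset.card_pos, hT]
      omega
    obtain ⟨t₀, ht₀, hmax⟩ := T.exists_max_image E hne
    have hfil : T.filter (fun t => E t ≤ E t₀) = T := by
      rw [Finset.filter_eq_self]
      exact hmax
    have h1 := h t₀ ht₀
    rw [hfil, hT] at h1
    have hE : 0 < E t₀ := hpos t₀ ht₀
    have hn : (0 : ℝ) < (n : ℝ) + 1 := by positivity
    push_cast at h1
    -- the largest term
    have h2 : (E t₀) ^ (-s) ≤ A ^ (2 * s) * ((n : ℝ) + 1) ^ (-(2 * s)) := by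
      have h3 : ((n : ℝ) + 1) / A ≤ (E t₀) ^ (1 / 2 : ℝ) := by
        rw [div_le_iff₀ hA, mul_comm]
        exact h1
      have h4 : (E t₀) ^ (-s) = ((E t₀) ^ (1 / 2 : ℝ)) ^ (-(2 * s)) := by
        rw [← Real.rpow_mul hE.le]
        congr 1
        ring
      have h5 : ((E t₀) ^ (1 / 2 : ℝ)) ^ (-(2 * s)) ≤ (((n : ℝ) + 1) / A) ^ (-(2 * s)) :=
        Real.rpow_le_rpow_of_nonpos (div_pos hn hA) h3 (by linarith)
      rw [h4]
      refine h5.trans (le_of_eq ?_)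
      rw [Real.div_rpow hn.le hA.le, Real.rpow_neg hA.le (2 * s), div_inv_eq_mul, mul_comm]
    have h6 := ih (T.erase t₀) (by rw [Finset.card_erase_of_mem ht₀, hT]; rfl)
      (fun t ht => hpos t (Finset.mem_of_mem_erase ht)) (by
        intro t₁ ht₁
        refine le_trans ?_ (h t₁ (Finset.mem_of_mem_erase ht₁))
        exact_mod_cast Finset.card_le_card
          (Finset.filter_subset_filter _ (Finset.erase_subset t₀ T)))
    rw [← Finset.add_sum_erase T _ ht₀]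
    have h7 := V6a_step (2 * s) (by linarith) (by linarith) n
    have h8 : (0 : ℝ) ≤ A ^ (2 * s) := Real.rpow_nonneg hA.le _
    calc (E t₀) ^ (-s) + ∑ t ∈ T.erase t₀, (E t) ^ (-s)
        ≤ A ^ (2 * s) * ((n : ℝ) + 1) ^ (-(2 * s)) +
          A ^ (2 * s) * ((n : ℝ) ^ (1 - 2 * s) / (1 - 2 * s)) := add_le_add h2 h6
      _ = A ^ (2 * s) * (((n : ℝ) + 1) ^ (-(2 * s)) + (n : ℝ) ^ (1 - 2 * s) / (1 - 2 * s)) := by
          ring
      _ ≤ A ^ (2 * s) * (((n : ℝ) + 1) ^ (1 - 2 * s) / (1 - 2 * s)) :=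
          mul_le_mul_of_nonneg_left h7 h8
      _ = _ := by push_cast; rfl

/-- V6a: a layer estimate. Hint: by removing a largest element one gets (with `E = D / H`)
`∑ E^(-s) ≤ ∑_{r=1}^{N} (A / r)^(2s)`, `N = card T ≤ A √C₁`, and `∑_{r=1}^{N} r^(-a) ≤ N^(1-a)/(1-a)`
for `0 < a < 1` (induction, Bernoulli's inequality `Real.rpow_one_add_le_one_add_mul_self`). -/
theorem layer2 (s C₁ : ℝ) (hs : 0 < s) (hs1 : s < 1 / 2) (hC₁ : 0 < C₁) :
    ∃ C : ℝ, 0 < C ∧ ∀ (ι : Type) (T : Finset ι) (D : ι → ℝ) (A H : ℝ), 1 ≤ H → 0 ≤ A →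
    (∀ t ∈ T, 0 < D t) → (∀ t ∈ T, D t ≤ C₁ * H) →
    (∀ t₀ ∈ T, ((T.filter (fun t => D t ≤ D t₀)).card : ℝ) ≤ A * (D t₀ / H) ^ (1 / 2 : ℝ)) →
    ∑ t ∈ T, (D t) ^ (-s) ≤ C * A * H ^ (-s) := by
  classical
  have h2s : 0 < 1 - 2 * s := by linarith
  refine ⟨C₁ ^ ((1 / 2 : ℝ) * (1 - 2 * s)) / (1 - 2 * s), by positivity, ?_⟩
  intro ι T D A H hH hA hpos hle hcard
  have hH0 : 0 < H := by linarith
  rcases T.eq_empty_or_nonempty with rfl | hne
  · rw [Finset.sum_empty]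
    positivity
  obtain ⟨t₀, ht₀, hmax⟩ := T.exists_max_image D hne
  have hfil : T.filter (fun t => D t ≤ D t₀) = T := by
    rw [Finset.filter_eq_self]
    exact hmax
  have h1 := hcard t₀ ht₀
  rw [hfil] at h1
  have hN : (1 : ℝ) ≤ T.card := by
    exact_mod_cast Finset.card_pos.2 hne
  have hA' : 0 < A := by
    rcases hA.lt_or_eq with h | h
    · exact h
    · rw [← h, zero_mul] at h1
      linarith
  have h2 : (T.card : ℝ) ≤ A * C₁ ^ (1 / 2 : ℝ) := by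
    refine h1.trans (mul_le_mul_of_nonneg_left ?_ hA)
    refine Real.rpow_le_rpow (div_nonneg (hpos t₀ ht₀).le hH0.le) ?_ (by norm_num)
    rw [div_le_iff₀ hH0]
    exact hle t₀ ht₀
  have h3 := V6a_ind s hs hs1 ι (fun t => D t / H) A hA' T.card T rfl
    (fun t ht => div_pos (hpos t ht) hH0) (by
      intro t₁ ht₁
      have h4 := hcard t₁ ht₁
      have h5 : T.filter (fun t => D t / H ≤ D t₁ / H) = T.filter (fun t => D t ≤ D t₁) := by
        apply Finset.filter_congr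
        intro t _
        exact div_le_div_iff_of_pos_right hH0
      simp only [h5]
      exact h4)
  have h4 : ∑ t ∈ T, (D t) ^ (-s) = H ^ (-s) * ∑ t ∈ T, (D t / H) ^ (-s) := by
    rw [Finset.mul_sum]
    refine Finset.sum_congr rfl fun t ht => ?_
    rw [Real.div_rpow (hpos t ht).le hH0.le, mul_div_cancel₀]
    exact (Real.rpow_pos_of_pos hH0 _).ne'
  have h5 : A ^ (2 * s) * ((T.card : ℝ) ^ (1 - 2 * s) / (1 - 2 * s)) ≤
      C₁ ^ ((1 / 2 : ℝ) * (1 - 2 * s)) / (1 - 2 * s) * A := by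
    have h6 : (T.card : ℝ) ^ (1 - 2 * s) ≤ (A * C₁ ^ (1 / 2 : ℝ)) ^ (1 - 2 * s) :=
      Real.rpow_le_rpow (by linarith) h2 h2s.le
    rw [Real.mul_rpow hA (Real.rpow_nonneg hC₁.le _), ← Real.rpow_mul hC₁.le] at h6
    have h7 : A ^ (2 * s) * A ^ (1 - 2 * s) = A := by
      rw [← Real.rpow_add hA']
      have : 2 * s + (1 - 2 * s) = 1 := by ring
      rw [this, Real.rpow_one]
    calc A ^ (2 * s) * ((T.card : ℝ) ^ (1 - 2 * s) / (1 - 2 * s))
        ≤ A ^ (2 * s) * ((A ^ (1 - 2 * s) * C₁ ^ ((1 / 2 : ℝ) * (1 - 2 * s))) / (1 - 2 * s)) := by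
          gcongr
      _ = (A ^ (2 * s) * A ^ (1 - 2 * s)) * (C₁ ^ ((1 / 2 : ℝ) * (1 - 2 * s)) / (1 - 2 * s)) := by
          ring
      _ = _ := by rw [h7]; ring
  rw [h4]
  calc H ^ (-s) * ∑ t ∈ T, (D t / H) ^ (-s)
      ≤ H ^ (-s) * (C₁ ^ ((1 / 2 : ℝ) * (1 - 2 * s)) / (1 - 2 * s) * A) :=
        mul_le_mul_of_nonneg_left (h3.trans h5) (Real.rpow_nonneg hH0.le _)
    _ = _ := by ring

end Ver4
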