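import Pool.Agent.LibVer4.V5
import Pool.Agent.LibVer4.V6a
import Pool.Agent.LibVer4.U5c

open Polynomial

namespace Ver4

private theorem V6_roots (m : ℕ) (T : Finset (ℤ[X] × ℂ))
    (hT : ∀ p ∈ T, p.1 ≠ 0 ∧ p.1.natDegree ≤ m ∧ aeval p.2 p.1 = 0) :
    T.card ≤ m * (T.image Prod.fst).card := by
  classical
  apply Finset.card_le_mul_card_image
  intro P hP
  obtain ⟨p₀, hp₀, hp₀'⟩ := Finset.mem_image.1 hP
  have hP0 : P ≠ 0 := hp₀' ▸ (hT p₀ hp₀).1
  have hPm : P.natDegree ≤ m := hp₀' ▸ (hT p₀ hp₀).2.1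
  have hinj : Set.InjOn (Prod.snd : ℤ[X] × ℂ → ℂ) ((T.filter fun p => p.1 = P : Finset _) :
      Set (ℤ[X] × ℂ)) := by
    intro a ha b hb hab
    rw [Finset.mem_coe, Finset.mem_filter] at ha hb
    exact Prod.ext (ha.2.trans hb.2.symm) hab
  rw [← Finset.card_image_of_injOn hinj]
  have hsub : (T.filter fun p => p.1 = P).image Prod.snd ⊆ (P.aroots ℂ).toFinset := by
    intro z hz
    obtain ⟨p, hp, rfl⟩ := Finset.mem_image.1 hz
    rw [Finset.mem_filter] at hp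
    rw [Multiset.mem_toFinset, mem_aroots]
    exact ⟨hP0, hp.2 ▸ (hT p hp.1).2.2⟩
  calc ((T.filter fun p => p.1 = P).image Prod.snd).card ≤ (P.aroots ℂ).toFinset.card :=
        Finset.card_le_card hsub
    _ ≤ (P.aroots ℂ).card := Multiset.toFinset_card_le _
    _ ≤ (P.map (algebraMap ℤ ℂ)).natDegree := card_roots' _
    _ ≤ P.natDegree := natDegree_map_le
    _ ≤ m := hPm

/-- `count_new` with the condition on the degree as a hypothesis. -/
private theorem V6_count (m : ℕ) (M : ℝ) (hM : 1 ≤ M) : ∃ C : ℝ, 0 < C ∧ (2 ≤ m →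
    ∀ H δ : ℝ, 1 ≤ H →
    H ^ (-((m : ℝ) + 2)) ≤ δ → δ ≤ 1 → ∀ S : Finset ℤ[X],
    (∀ P ∈ S, Irreducible P ∧ 2 ≤ P.natDegree ∧ P.natDegree ≤ m ∧ L1 P ≤ H ∧
      ∃ x : ℝ, |x| ≤ M ∧ |aeval x P| ≤ δ ^ 2 * H ∧ |aeval x (derivative P)| ≤ δ * H) →
    (S.card : ℝ) ≤ C * H ^ (m + 1) * δ ^ (1 / 2 : ℝ)) := by
  by_cases hm : 2 ≤ m
  · obtain ⟨C, hC, h⟩ := count_new m hm M hM
    exact ⟨C, hC, fun _ => h⟩
  · exact ⟨1, one_pos, fun h => absurd h hm⟩

/-- The derivative of a polynomial of degree one is not small. -/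
private theorem V6_linear (M : ℝ) (hM : 1 ≤ M) (P : ℤ[X]) (hP : P.natDegree = 1) (x : ℝ)
    (hx : |x| ≤ M) (hPx : |aeval x P| ≤ 1) (z : ℂ) :
    L1 P / (M + 2) ≤ ‖aeval z (derivative P)‖ := by
  have h1 : P = C (P.coeff 1) * X + C (P.coeff 0) :=
    eq_X_add_C_of_natDegree_le_one (by omega)
  have ha : P.coeff 1 ≠ 0 := by
    have h2 : P.leadingCoeff ≠ 0 := by
      rw [leadingCoeff_ne_zero]
      rintro rfl
      simp at hP
    rw [leadingCoeff, hP] at h2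
    exact h2
  have h3 : L1 P = |(P.coeff 0 : ℝ)| + |(P.coeff 1 : ℝ)| := by
    rw [L1_eq_sum P 1 (by omega), Finset.sum_range_succ, Finset.sum_range_succ,
      Finset.sum_range_zero, zero_add]
  have h4 : aeval x P = (P.coeff 1 : ℝ) * x + (P.coeff 0 : ℝ) := by
    conv_lhs => rw [h1]
    simp
  have h5 : aeval z (derivative P) = ((P.coeff 1 : ℤ) : ℂ) := by
    conv_lhs => rw [h1]
    simp
  have h6 : (1 : ℝ) ≤ |(P.coeff 1 : ℝ)| := by
    have h7 : 1 ≤ |P.coeff 1| := Int.one_le_abs ha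
    exact_mod_cast h7
  have h8 : |(P.coeff 0 : ℝ)| ≤ |(P.coeff 1 : ℝ)| * M + 1 := by
    have h9 : (P.coeff 0 : ℝ) = aeval x P - (P.coeff 1 : ℝ) * x := by
      rw [h4]
      ring
    rw [h9]
    calc |aeval x P - (P.coeff 1 : ℝ) * x| ≤ |aeval x P| + |(P.coeff 1 : ℝ) * x| := abs_sub _ _
      _ ≤ 1 + |(P.coeff 1 : ℝ)| * M := by
          rw [abs_mul]
          exact add_le_add hPx (mul_le_mul_of_nonneg_left hx (abs_nonneg _))
      _ = _ := by ring
  have h10 : ‖aeval z (derivative P)‖ = |(P.coeff 1 : ℝ)| := by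
    rw [h5, Complex.norm_intCast]
  rw [h10, div_le_iff₀ (by linarith), h3]
  nlinarith

/-- V6: the sum over one dyadic shell, `s < 1/2`. Hint: `layer2` with `H = 2^(t+1)`,
`D p = ‖P'(α)‖`, `A = C H^(m+1)`: let `p₀ ∈ T`, `δ = 2 D p₀ / H` (times a constant). By `rel_facts`
`D p₀ ≥ c H^(2-m)`, so `δ ≥ H^(-(m+2))` and `|P(x)| ≤ L1^(-W) ≤ δ² H` for large `H` (`W > 2m - 1`).
The `p ∈ T` of degree at least two with `D p ≤ D p₀` give polynomials as in `count_new` (if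
`δ ≤ 1`; otherwise use `card_L1`), each polynomial has at most `m` roots. The `p ∈ T` of degree one
have `D p ≥ c H`: if there is one with `D p ≤ D p₀` then `D p₀ / H ≥ c` and `card_L1` suffices. -/
theorem shell2 (m : ℕ) (hm : 1 ≤ m) (M W s : ℝ) (hM : 1 ≤ M) (hW : 2 * (m : ℝ) - 1 < W)
    (hs : 0 < s) (hs1 : s < 1 / 2) (h1 : ((m : ℝ) + 1) / (W + 1) < s) :
    ∃ (C η : ℝ) (t₀ : ℕ), 0 < C ∧ 0 < η ∧ ∀ t : ℕ, t₀ ≤ t → ∀ T : Finset (ℤ[X] × ℂ),
    (∀ p ∈ T, Rel m M W p ∧ (2 : ℝ) ^ t ≤ L1 p.1 ∧ L1 p.1 < 2 ^ (t + 1)) →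
    ∑ p ∈ T, (L1 p.1 ^ (-W) / ‖aeval p.2 (derivative p.1)‖) ^ s ≤ C * (2 : ℝ) ^ (-(η * t)) := by
  classical
  have hmR : (1 : ℝ) ≤ m := by exact_mod_cast hm
  have hm0 : (0 : ℝ) < m := by linarith
  obtain ⟨c, L₀, hc, hL₀, hrel⟩ := rel_facts m hm M W hM hW
  obtain ⟨C₂, hC₂, hcount2⟩ := V6_count m M hM
  obtain ⟨C₃, hC₃, hcount3⟩ := card_L1 m
  obtain ⟨C₄, hC₄, hlayer⟩ := layer2 s c⁻¹ hs hs1 (by positivity)
  obtain ⟨t₀, ht₀⟩ := pow_unbounded_of_one_lt (L₀ + (2 : ℝ) ^ W / c ^ 2 + 1 / c)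
    (by norm_num : (1 : ℝ) < 2)
  have hW1 : 0 < W + 1 := by linarith
  set η := (W + 1) * s - (m + 1) with hη
  have hη0 : 0 < η := by
    rw [div_lt_iff₀ hW1] at h1
    rw [hη]
    linarith
  set κ : ℝ := 1 / (2 * (M + 2)) with hκ
  have hκ0 : 0 < κ := by
    rw [hκ]
    have : 0 < M + 2 := by linarith
    positivity
  have hκ1 : κ ≤ 1 / 2 := by
    rw [hκ, div_le_div_iff₀ (by linarith) (by norm_num)]
    linarith
  set C₅ : ℝ := m * C₃ * κ ^ (-(1 / 2 : ℝ)) + 2 * (m * C₂) with hC₅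
  have hC₅0 : 0 < C₅ := by
    rw [hC₅]
    positivity
  refine ⟨2 ^ (W * s) * (C₄ * C₅), η, t₀, by positivity, hη0, ?_⟩
  intro t ht T hT
  set H : ℝ := 2 ^ (t + 1) with hH
  have hH1 : 1 ≤ H := one_le_pow₀ (by norm_num)
  have hH0 : 0 < H := by linarith
  have hH2 : H / 2 = 2 ^ t := by rw [hH, pow_succ]; ring
  have hlarge : L₀ + (2 : ℝ) ^ W / c ^ 2 + 1 / c < 2 ^ t :=
    ht₀.trans_le (pow_le_pow_right₀ (by norm_num) ht)
  have hHt : (2 : ℝ) ^ t ≤ H := by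
    rw [← hH2]
    linarith
  have hpos1 : 0 < (2 : ℝ) ^ W / c ^ 2 := by positivity
  have hpos2 : 0 < 1 / c := by positivity
  have hLt : L₀ ≤ 2 ^ t := by linarith
  have hbig1 : (2 : ℝ) ^ W ≤ c ^ 2 * H := by
    have h2 : (2 : ℝ) ^ W / c ^ 2 ≤ H := by linarith
    rw [div_le_iff₀ (by positivity)] at h2
    linarith
  have hbig2 : 1 ≤ c * H := by
    have h2 : 1 / c ≤ H := by linarith
    rw [div_le_iff₀ hc] at h2
    linarith
  -- the facts
  have hfact : ∀ p ∈ T, p.1 ≠ 0 ∧ p.1.natDegree ≤ m ∧ aeval p.2 p.1 = 0 ∧ H / 2 ≤ L1 p.1 ∧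
      L1 p.1 ≤ H ∧ c / 2 * H ^ (-((m : ℝ) - 2)) ≤ ‖aeval p.2 (derivative p.1)‖ ∧
      ‖aeval p.2 (derivative p.1)‖ ≤ c⁻¹ * H ∧
      ∃ x : ℝ, |x| ≤ M ∧ |aeval x p.1| ≤ L1 p.1 ^ (-W) ∧ |aeval x p.1| ≤ 1 ∧
        |aeval x (derivative p.1)| ≤ 2 * ‖aeval p.2 (derivative p.1)‖ := by
    intro p hp
    obtain ⟨⟨hirr, hd1, hdm, hroot, x, hx, hxP, hxα⟩, hlo, hhi⟩ := hT p hp
    have hL1 : 1 ≤ L1 p.1 := one_le_L1 p.1 hirr.ne_zero
    obtain ⟨f1, f2, f3⟩ := hrel p.1 p.2 x hirr hd1 hdm (hLt.trans hlo) hroot hx hxP hxα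
    have hL0 : 0 < L1 p.1 := by linarith
    refine ⟨hirr.ne_zero, hdm, hroot, by rw [hH2]; exact hlo, hhi.le, ?_, ?_, x, hx, hxP, ?_, f2⟩
    · refine le_trans ?_ f1
      have h3 : 1 / 2 * H ^ (-((m : ℝ) - 2)) ≤ L1 p.1 ^ (2 - (m : ℝ)) := by
        have h4 : -((m : ℝ) - 2) = 2 - m := by ring
        rw [h4]
        by_cases hm1 : m = 1
        · subst hm1
          have h5 : (2 : ℝ) - ((1 : ℕ) : ℝ) = 1 := by norm_num
          rw [h5, Real.rpow_one, Real.rpow_one]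
          have h6 : H / 2 ≤ L1 p.1 := by rw [hH2]; exact hlo
          linarith
        · have hm2 : (2 : ℝ) ≤ m := by
            have : 2 ≤ m := by omega
            exact_mod_cast this
          have h5 : H ^ (2 - (m : ℝ)) ≤ L1 p.1 ^ (2 - (m : ℝ)) :=
            Real.rpow_le_rpow_of_nonpos hL0 hhi.le (by linarith)
          have h6 : 0 < H ^ (2 - (m : ℝ)) := by positivity
          linarith
      calc c / 2 * H ^ (-((m : ℝ) - 2)) = c * (1 / 2 * H ^ (-((m : ℝ) - 2))) := by ring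
        _ ≤ c * L1 p.1 ^ (2 - (m : ℝ)) := mul_le_mul_of_nonneg_left h3 hc.le
    · exact f3.trans (mul_le_mul_of_nonneg_left hhi.le (by positivity))
    · exact hxP.trans (Real.rpow_le_one_of_one_le_of_nonpos hL1 (by linarith))
  have hLW : ∀ p ∈ T, L1 p.1 ^ (-W) ≤ 2 ^ W * H ^ (-W) := by
    intro p hp
    obtain ⟨k0, k1, -, k2, k3, k4, -, -⟩ := hfact p hp
    calc L1 p.1 ^ (-W) ≤ (H / 2) ^ (-W) :=
          Real.rpow_le_rpow_of_nonpos (by positivity) k2 (by linarith)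
      _ = 2 ^ W * H ^ (-W) := by
          rw [Real.div_rpow hH0.le (by norm_num), Real.rpow_neg (by norm_num : (0 : ℝ) ≤ 2)]
          rw [div_inv_eq_mul, mul_comm]
  have hDpos : ∀ p ∈ T, 0 < ‖aeval p.2 (derivative p.1)‖ := fun p hp =>
    lt_of_lt_of_le (by positivity) (hfact p hp).2.2.2.2.2.1
  -- the layer estimate
  set A : ℝ := C₅ * H ^ (m + 1) with hA
  have hA0 : 0 ≤ A := by positivity
  have hsum := hlayer (ℤ[X] × ℂ) T (fun p => ‖aeval p.2 (derivative p.1)‖) A H hH1 hA0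
    hDpos (fun p hp => (hfact p hp).2.2.2.2.2.2.1) (by
      intro p₀ hp₀
      set D₀ := ‖aeval p₀.2 (derivative p₀.1)‖ with hD₀
      have hD₀0 : 0 < D₀ := hDpos p₀ hp₀
      set T' := T.filter (fun p => ‖aeval p.2 (derivative p.1)‖ ≤ D₀) with hT'
      have hsub : T' ⊆ T := Finset.filter_subset _ _
      have g1 := V6_roots m T' (fun p hp => ⟨(hfact p (hsub hp)).1, (hfact p (hsub hp)).2.1,
        (hfact p (hsub hp)).2.2.1⟩)
      have g4 : (T'.card : ℝ) ≤ m * ((T'.image Prod.fst).card : ℝ) := by exact_mod_cast g1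
      have hDH : 0 < D₀ / H := div_pos hD₀0 hH0
      have hsq : 0 ≤ (D₀ / H) ^ (1 / 2 : ℝ) := Real.rpow_nonneg hDH.le _
      by_cases hcase : κ ≤ D₀ / H
      · -- the trivial bound
        have hfin : {P : ℤ[X] | P.natDegree ≤ m ∧ L1 P ≤ H}.Finite := finite_L1 m H
        have g2 : (T'.image Prod.fst).card ≤ {P : ℤ[X] | P.natDegree ≤ m ∧ L1 P ≤ H}.ncard := by
          rw [← Set.ncard_coe_finset]
          refine Set.ncard_le_ncard ?_ hfin
          intro P hP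
          rw [Finset.mem_coe, Finset.mem_image] at hP
          obtain ⟨p, hp, rfl⟩ := hP
          exact ⟨(hfact p (hsub hp)).2.1, (hfact p (hsub hp)).2.2.2.2.1⟩
        have g3 := hcount3 H hH1
        have g5 : ((T'.image Prod.fst).card : ℝ) ≤ C₃ * H ^ (m + 1) :=
          le_trans (by exact_mod_cast g2) g3
        have g6 : κ ^ (1 / 2 : ℝ) ≤ (D₀ / H) ^ (1 / 2 : ℝ) :=
          Real.rpow_le_rpow hκ0.le hcase (by norm_num)
        have g7 : κ ^ (-(1 / 2 : ℝ)) * κ ^ (1 / 2 : ℝ) = 1 := by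
          rw [← Real.rpow_add hκ0]
          norm_num
        have g8 : 0 ≤ κ ^ (-(1 / 2 : ℝ)) := Real.rpow_nonneg hκ0.le _
        calc (T'.card : ℝ) ≤ m * ((T'.image Prod.fst).card : ℝ) := g4
          _ ≤ m * (C₃ * H ^ (m + 1)) := mul_le_mul_of_nonneg_left g5 hm0.le
          _ = m * C₃ * H ^ (m + 1) * (κ ^ (-(1 / 2 : ℝ)) * κ ^ (1 / 2 : ℝ)) := by
              rw [g7]
              ring
          _ ≤ m * C₃ * H ^ (m + 1) * (κ ^ (-(1 / 2 : ℝ)) * (D₀ / H) ^ (1 / 2 : ℝ)) := by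
              gcongr
          _ = (m * C₃ * κ ^ (-(1 / 2 : ℝ))) * H ^ (m + 1) * (D₀ / H) ^ (1 / 2 : ℝ) := by ring
          _ ≤ A * (D₀ / H) ^ (1 / 2 : ℝ) := by
              rw [hA, hC₅]
              have g9 : 0 ≤ 2 * (m * C₂) * H ^ (m + 1) * (D₀ / H) ^ (1 / 2 : ℝ) := by positivity
              nlinarith
      · push Not at hcase
        -- all the polynomials have degree at least two
        have hdeg : ∀ p ∈ T', 2 ≤ p.1.natDegree := by
          intro p hp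
          have hp' := hsub hp
          by_contra hlt
          have hirr := (hT p hp').1
          have hd1 : p.1.natDegree = 1 := by
            have := hirr.2.1
            omega
          obtain ⟨-, -, -, k2, -, -, -, x, k3, -, k4, -⟩ := hfact p hp'
          have g2 := V6_linear M hM p.1 hd1 x k3 k4 p.2
          have g3 : ‖aeval p.2 (derivative p.1)‖ ≤ D₀ := (Finset.mem_filter.1 hp).2
          have g5 : H / 2 / (M + 2) ≤ D₀ := by
            refine le_trans ?_ (g2.trans g3)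
            exact div_le_div_of_nonneg_right k2 (by linarith)
          have g6 : κ ≤ D₀ / H := by
            rw [le_div_iff₀ hH0]
            refine le_trans (le_of_eq ?_) g5
            rw [hκ]
            field_simp
          exact absurd g6 (not_le.2 hcase)
        have hp₀' : p₀ ∈ T' := Finset.mem_filter.2 ⟨hp₀, le_rfl⟩
        have hm2 : 2 ≤ m := (hdeg p₀ hp₀').trans (hfact p₀ hp₀).2.1
        set δ : ℝ := 2 * (D₀ / H) with hδ
        have hδ0 : 0 < δ := by positivity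
        have hδ1 : δ ≤ 1 := by
          rw [hδ]
          linarith
        -- the lower bound for `δ`
        have hδc : c * H ^ (1 - (m : ℝ)) ≤ δ := by
          have g2 := (hfact p₀ hp₀).2.2.2.2.2.1
          have g3 : H ^ (-((m : ℝ) - 2)) = H ^ (1 - (m : ℝ)) * H := by
            rw [← Real.rpow_add_one hH0.ne']
            congr 1
            ring
          rw [g3] at g2
          rw [hδ, mul_div_assoc', le_div_iff₀ hH0]
          linarith
        have hHm : 0 < H ^ (1 - (m : ℝ)) := Real.rpow_pos_of_pos hH0 _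
        have hδ2 : H ^ (-((m : ℝ) + 2)) ≤ δ := by
          refine le_trans ?_ hδc
          have g2 : H ^ (-((m : ℝ) + 2)) ≤ c * H * H ^ (-((m : ℝ) + 2)) :=
            le_mul_of_one_le_left (Real.rpow_nonneg hH0.le _) hbig2
          have g3 : H * H ^ (-((m : ℝ) + 2)) = H ^ (-((m : ℝ) + 1)) := by
            rw [← Real.rpow_one_add' hH0.le]
            · congr 1
              ring
            · have : 1 + -((m : ℝ) + 2) < 0 := by linarith
              exact this.ne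
          have g5 : H ^ (-((m : ℝ) + 1)) ≤ H ^ (1 - (m : ℝ)) :=
            Real.rpow_le_rpow_of_exponent_le hH1 (by linarith)
          calc H ^ (-((m : ℝ) + 2)) ≤ c * H * H ^ (-((m : ℝ) + 2)) := g2
            _ = c * H ^ (-((m : ℝ) + 1)) := by rw [mul_assoc, g3]
            _ ≤ c * H ^ (1 - (m : ℝ)) := mul_le_mul_of_nonneg_left g5 hc.le
        have hδ3 : 2 ^ W * H ^ (-W) ≤ δ ^ 2 * H := by
          have g2 : (c * H ^ (1 - (m : ℝ))) ^ 2 ≤ δ ^ 2 :=
            pow_le_pow_left₀ (by positivity) hδc 2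
          have g3 : H ^ (1 - W) ≤ (H ^ (1 - (m : ℝ))) ^ 2 * H := by
            rw [← Real.rpow_natCast (H ^ (1 - (m : ℝ))) 2, ← Real.rpow_mul hH0.le,
              ← Real.rpow_add_one hH0.ne']
            apply Real.rpow_le_rpow_of_exponent_le hH1
            push_cast
            linarith
          have g5 : H * H ^ (-W) = H ^ (1 - W) := by
            rw [sub_eq_add_neg, Real.rpow_add hH0, Real.rpow_one]
          calc 2 ^ W * H ^ (-W) ≤ c ^ 2 * H * H ^ (-W) :=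
                mul_le_mul_of_nonneg_right hbig1 (Real.rpow_nonneg hH0.le _)
            _ = c ^ 2 * H ^ (1 - W) := by rw [mul_assoc, g5]
            _ ≤ c ^ 2 * ((H ^ (1 - (m : ℝ))) ^ 2 * H) := mul_le_mul_of_nonneg_left g3 (by positivity)
            _ = (c * H ^ (1 - (m : ℝ))) ^ 2 * H := by ring
            _ ≤ δ ^ 2 * H := mul_le_mul_of_nonneg_right g2 hH0.le
        have g2 := hcount2 hm2 H δ hH1 hδ2 hδ1 (T'.image Prod.fst) (by
          intro P hP
          obtain ⟨p, hp, rfl⟩ := Finset.mem_image.1 hP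
          have hp' := hsub hp
          obtain ⟨-, k1, -, -, k2, -, -, x, k3, k4, -, k5⟩ := hfact p hp'
          refine ⟨(hT p hp').1.1, hdeg p hp, k1, k2, x, k3,
            k4.trans ((hLW p hp').trans hδ3), k5.trans ?_⟩
          have k6 : ‖aeval p.2 (derivative p.1)‖ ≤ D₀ := (Finset.mem_filter.1 hp).2
          rw [hδ, mul_assoc, div_mul_cancel₀ _ hH0.ne']
          linarith)
        have g3 : δ ^ (1 / 2 : ℝ) ≤ 2 * (D₀ / H) ^ (1 / 2 : ℝ) := by
          rw [hδ, Real.mul_rpow (by norm_num) hDH.le]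
          apply mul_le_mul_of_nonneg_right _ hsq
          calc (2 : ℝ) ^ (1 / 2 : ℝ) ≤ 2 ^ (1 : ℝ) :=
                Real.rpow_le_rpow_of_exponent_le (by norm_num) (by norm_num)
            _ = 2 := Real.rpow_one 2
        calc (T'.card : ℝ) ≤ m * ((T'.image Prod.fst).card : ℝ) := g4
          _ ≤ m * (C₂ * H ^ (m + 1) * δ ^ (1 / 2 : ℝ)) := mul_le_mul_of_nonneg_left g2 hm0.le
          _ ≤ m * (C₂ * H ^ (m + 1) * (2 * (D₀ / H) ^ (1 / 2 : ℝ))) := by gcongr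
          _ = (2 * (m * C₂)) * H ^ (m + 1) * (D₀ / H) ^ (1 / 2 : ℝ) := by ring
          _ ≤ A * (D₀ / H) ^ (1 / 2 : ℝ) := by
              rw [hA, hC₅]
              have g9 : 0 ≤ m * C₃ * κ ^ (-(1 / 2 : ℝ)) * H ^ (m + 1) *
                (D₀ / H) ^ (1 / 2 : ℝ) := by positivity
              nlinarith)
  -- the terms
  have hterm : ∀ p ∈ T, (L1 p.1 ^ (-W) / ‖aeval p.2 (derivative p.1)‖) ^ s ≤
      (2 ^ (W * s) * H ^ (-(W * s))) * ‖aeval p.2 (derivative p.1)‖ ^ (-s) := by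
    intro p hp
    obtain ⟨k0, k1, -, k2, k3, k4, -, -⟩ := hfact p hp
    have hL1 : 1 ≤ L1 p.1 := one_le_L1 p.1 k0
    have hL0 : 0 < L1 p.1 := by linarith
    have hD0 : 0 < ‖aeval p.2 (derivative p.1)‖ := hDpos p hp
    have hWs : 0 ≤ W * s := by
      have : 0 ≤ W := by linarith
      positivity
    rw [Real.div_rpow (by positivity) hD0.le, ← Real.rpow_mul hL0.le, div_eq_mul_inv,
      ← Real.rpow_neg hD0.le]
    refine mul_le_mul_of_nonneg_right ?_ (by positivity)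
    have e1 : -W * s = -(W * s) := by ring
    rw [e1]
    calc L1 p.1 ^ (-(W * s)) ≤ (H / 2) ^ (-(W * s)) :=
          Real.rpow_le_rpow_of_nonpos (by positivity) k2 (by linarith)
      _ = 2 ^ (W * s) * H ^ (-(W * s)) := by
          rw [Real.div_rpow hH0.le (by norm_num), Real.rpow_neg (by norm_num : (0 : ℝ) ≤ 2)]
          rw [div_inv_eq_mul, mul_comm]
  have hexp : ∀ e : ℝ, η ≤ -e → H ^ e ≤ (2 : ℝ) ^ (-(η * t)) := by
    intro e he
    calc H ^ e ≤ H ^ (-η) := Real.rpow_le_rpow_of_exponent_le hH1 (by linarith)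
      _ = (2 : ℝ) ^ (((t : ℝ) + 1) * (-η)) := by
          rw [hH, ← Real.rpow_natCast 2 (t + 1), ← Real.rpow_mul (by norm_num)]
          push_cast
          rfl
      _ ≤ (2 : ℝ) ^ (-(η * t)) := by
          apply Real.rpow_le_rpow_of_exponent_le (by norm_num)
          linarith
  calc ∑ p ∈ T, (L1 p.1 ^ (-W) / ‖aeval p.2 (derivative p.1)‖) ^ s
      ≤ ∑ p ∈ T, (2 ^ (W * s) * H ^ (-(W * s))) * ‖aeval p.2 (derivative p.1)‖ ^ (-s) :=
        Finset.sum_le_sum hterm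
    _ = (2 ^ (W * s) * H ^ (-(W * s))) * ∑ p ∈ T, ‖aeval p.2 (derivative p.1)‖ ^ (-s) := by
        rw [Finset.mul_sum]
    _ ≤ (2 ^ (W * s) * H ^ (-(W * s))) * (C₄ * A * H ^ (-s)) :=
        mul_le_mul_of_nonneg_left hsum (by positivity)
    _ = 2 ^ (W * s) * (C₄ * C₅) * (H ^ (-(W * s)) * H ^ (m + 1) * H ^ (-s)) := by
        rw [hA]
        ring
    _ = 2 ^ (W * s) * (C₄ * C₅) * H ^ (-(W * s) + ((m + 1 : ℕ) : ℝ) + -s) := by
        rw [← Real.rpow_natCast H (m + 1), ← Real.rpow_add hH0, ← Real.rpow_add hH0]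
    _ ≤ 2 ^ (W * s) * (C₄ * C₅) * (2 : ℝ) ^ (-(η * t)) := by
        refine mul_le_mul_of_nonneg_left (hexp _ ?_) (by positivity)
        rw [hη]
        push_cast
        linarith

end Ver4
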