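import Pool.Agent.LibVer4.U1
import Pool.Agent.LibVer4.U3
import Pool.Agent.LibVer4.V6
import Pool.Agent.LibInterm.Slicing

open Polynomial

namespace Ver4

open MeasureTheory in
private theorem V7_countable (m : ℕ) (M W : ℝ) : {p : ℤ[X] × ℂ | Rel m M W p}.Countable := by
  have hsub : {p : ℤ[X] × ℂ | Rel m M W p} ⊆
      ⋃ P : ℤ[X], (fun α : ℂ => (P, α)) '' {α : ℂ | P ≠ 0 ∧ aeval α P = 0} := by
    rintro ⟨P, α⟩ hp
    refine Set.mem_iUnion.2 ⟨P, ⟨α, ⟨?_, hp.2.2.2.1⟩, rfl⟩⟩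
    exact hp.1.ne_zero
  have hcount : Countable ℤ[X] := by
    have h1 : (Set.univ : Set ℤ[X]) = ⋃ k : ℕ × ℕ, {P : ℤ[X] | P.natDegree ≤ k.1 ∧ L1 P ≤ k.2} := by
      refine (Set.eq_univ_of_forall fun P => ?_).symm
      obtain ⟨k, hk⟩ := exists_nat_ge (L1 P)
      exact Set.mem_iUnion.2 ⟨(P.natDegree, k), le_rfl, hk⟩
    have h2 : (Set.univ : Set ℤ[X]).Countable := by
      rw [h1]
      exact Set.countable_iUnion fun k => (finite_L1 k.1 k.2).countable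
    exact Set.countable_univ_iff.1 h2
  refine Set.Countable.mono hsub (Set.countable_iUnion fun P => Set.Countable.image ?_ _)
  refine ((P.rootSet_finite ℂ).subset ?_).countable
  rintro α ⟨hP, hα⟩
  exact Polynomial.mem_rootSet.2 ⟨hP, hα⟩

private theorem V7_summable (m : ℕ) (M W s C η : ℝ) (t₁ : ℕ) (hη : 0 < η) (hC : 0 < C)
    (hshell : ∀ t : ℕ, t₁ ≤ t → ∀ T : Finset (ℤ[X] × ℂ),
      (∀ p ∈ T, Rel m M W p ∧ (2 : ℝ) ^ t ≤ L1 p.1 ∧ L1 p.1 < 2 ^ (t + 1)) →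
      ∑ p ∈ T, (L1 p.1 ^ (-W) / ‖aeval p.2 (derivative p.1)‖) ^ s ≤ C * (2 : ℝ) ^ (-(η * t))) :
    Summable (fun p : {p : ℤ[X] × ℂ // Rel m M W p ∧ (2 : ℝ) ^ t₁ ≤ L1 p.1} =>
      (L1 p.1.1 ^ (-W) / ‖aeval p.1.2 (derivative p.1.1)‖) ^ s) := by
  classical
  have hτ : ∀ p : {p : ℤ[X] × ℂ // Rel m M W p ∧ (2 : ℝ) ^ t₁ ≤ L1 p.1},
      ∃ t : ℕ, (2 : ℝ) ^ t ≤ L1 p.1.1 ∧ L1 p.1.1 < 2 ^ (t + 1) := fun p =>
    exists_nat_pow_near (le_trans (one_le_pow₀ (by norm_num)) p.2.2) (by norm_num)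
  choose τ hτ1 hτ2 using hτ
  have hτt : ∀ p, t₁ ≤ τ p := by
    intro p
    have h1 : (2 : ℝ) ^ t₁ < 2 ^ (τ p + 1) := lt_of_le_of_lt p.2.2 (hτ2 p)
    have h2 : t₁ < τ p + 1 := (pow_lt_pow_iff_right₀ (by norm_num : (1 : ℝ) < 2)).1 h1
    omega
  have hgeo : Summable (fun t : ℕ => C * (2 : ℝ) ^ (-(η * t))) := by
    have h1 : ∀ t : ℕ, C * (2 : ℝ) ^ (-(η * t)) = C * ((2 : ℝ) ^ (-η)) ^ t := by
      intro t
      rw [← Real.rpow_natCast ((2 : ℝ) ^ (-η)) t, ← Real.rpow_mul (by norm_num)]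
      congr 2
      ring
    simp_rw [h1]
    refine Summable.mul_left C (summable_geometric_of_lt_one (Real.rpow_nonneg (by norm_num) _) ?_)
    exact Real.rpow_lt_one_of_one_lt_of_neg (by norm_num) (by linarith)
  refine summable_of_sum_le (c := ∑' t : ℕ, C * (2 : ℝ) ^ (-(η * t))) ?_ ?_
  · intro p
    exact Real.rpow_nonneg (div_nonneg (Real.rpow_nonneg (L1_nonneg _) _) (norm_nonneg _)) _
  · intro u
    have h1 := Finset.sum_fiberwise_of_maps_to (s := u) (t := u.image τ) (g := τ)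
      (fun p hp => Finset.mem_image_of_mem τ hp)
      (fun p => (L1 p.1.1 ^ (-W) / ‖aeval p.1.2 (derivative p.1.1)‖) ^ s)
    rw [← h1]
    refine le_trans (Finset.sum_le_sum (g := fun t : ℕ => C * (2 : ℝ) ^ (-(η * t)))
      fun t ht => ?_) ?_
    · obtain ⟨p0, _, hp0⟩ := Finset.mem_image.1 ht
      have ht1 : t₁ ≤ t := hp0 ▸ hτt p0
      have h2 := hshell t ht1 ((u.filter fun p => τ p = t).map (Function.Embedding.subtype _)) ?_
      · rw [Finset.sum_map] at h2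
        exact h2
      · intro p hp
        obtain ⟨q, hq, rfl⟩ := Finset.mem_map.1 hp
        have hqt : τ q = t := (Finset.mem_filter.1 hq).2
        refine ⟨q.2.1, ?_, ?_⟩
        · have := hτ1 q
          rw [hqt] at this
          exact this
        · have := hτ2 q
          rw [hqt] at this
          exact this
    · exact hgeo.sum_le_tsum _ fun t _ => mul_nonneg hC.le (Real.rpow_nonneg (by norm_num) _)

open MeasureTheory in
private theorem V7_null (m : ℕ) (hm : 1 ≤ m) (M W s : ℝ) (hM : 1 ≤ M)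
    (hW : 2 * (m : ℝ) - 1 < W) (hs : 0 < s) (hs1 : s < 1 / 2)
    (h1 : ((m : ℝ) + 1) / (W + 1) < s) :
    μH[s] {ξ : ℝ | |ξ| ≤ M ∧ {P : ℤ[X] | Irreducible P ∧ 1 ≤ P.natDegree ∧ P.natDegree ≤ m ∧
      |aeval ξ P| ≤ L1 P ^ (-W)}.Infinite} = 0 := by
  classical
  obtain ⟨C, η, t₀, hC, hη, hshell⟩ := shell2 m hm M W s hM hW hs hs1 h1
  obtain ⟨c, L₀, hc, hL0, hfacts⟩ := rel_facts m hm M W hM hW
  obtain ⟨k, hk⟩ := pow_unbounded_of_one_lt L₀ (one_lt_two : (1 : ℝ) < 2)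
  set t₁ : ℕ := max t₀ k with ht₁
  have hL0t : L₀ ≤ (2 : ℝ) ^ t₁ :=
    hk.le.trans (pow_le_pow_right₀ (by norm_num) (le_max_right _ _))
  have hsum := V7_summable m M W s C η t₁ hη hC
    (fun t ht T hT => hshell t ((le_max_left _ _).trans ht) T hT)
  have : Countable {p : ℤ[X] × ℂ // Rel m M W p ∧ (2 : ℝ) ^ t₁ ≤ L1 p.1} :=
    ((V7_countable m M W).mono fun p hp => hp.1).to_subtype
  let U : {p : ℤ[X] × ℂ // Rel m M W p ∧ (2 : ℝ) ^ t₁ ≤ L1 p.1} → Set ℝ := fun p =>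
    {x | |x| ≤ M ∧ |aeval x p.1.1| ≤ L1 p.1.1 ^ (-W) ∧
      ‖(x : ℂ) - p.1.2‖ * ‖aeval p.1.2 (derivative p.1.1)‖ ≤ 2 ^ m * L1 p.1.1 ^ (-W)}
  have hdiam : ∀ p, Metric.ediam (U p) ^ s ≤ ENNReal.ofReal (((2 : ℝ) ^ (m + 1)) ^ s *
      (L1 p.1.1 ^ (-W) / ‖aeval p.1.2 (derivative p.1.1)‖) ^ s) := by
    rintro ⟨⟨P, α⟩, hrel, hL⟩
    have hirr := hrel.1
    have hP0 : P ≠ 0 := hirr.ne_zero
    obtain ⟨x0, hx0M, hx0v, hx0d⟩ := hrel.2.2.2.2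
    have hder : 0 < ‖aeval α (derivative P)‖ := by
      have h3 := (hfacts P α x0 hirr hrel.2.1 hrel.2.2.1 (hL0t.trans hL) hrel.2.2.2.1 hx0M hx0v
        hx0d).1
      have h4 : 0 < L1 P := by
        have := one_le_L1 P hP0
        linarith
      have h5 : 0 < c * L1 P ^ (2 - (m : ℝ)) := mul_pos hc (Real.rpow_pos_of_pos h4 _)
      exact lt_of_lt_of_le h5 h3
    have hLn : 0 ≤ L1 P ^ (-W) := Real.rpow_nonneg (L1_nonneg P) _
    have h6 : Metric.ediam (U ⟨(P, α), hrel, hL⟩) ≤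
        ENNReal.ofReal ((2 : ℝ) ^ (m + 1) * (L1 P ^ (-W) / ‖aeval α (derivative P)‖)) := by
      refine Metric.ediam_le_of_forall_dist_le ?_
      rintro x ⟨_, _, hx⟩ y ⟨_, _, hy⟩
      have hx' : ‖(x : ℂ) - α‖ ≤ 2 ^ m * L1 P ^ (-W) / ‖aeval α (derivative P)‖ := by
        rw [le_div_iff₀ hder]; exact hx
      have hy' : ‖(y : ℂ) - α‖ ≤ 2 ^ m * L1 P ^ (-W) / ‖aeval α (derivative P)‖ := by
        rw [le_div_iff₀ hder]; exact hy
      have h7 : dist x y = ‖(x : ℂ) - (y : ℂ)‖ := by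
        rw [← Complex.ofReal_sub, Complex.norm_real, Real.dist_eq, Real.norm_eq_abs]
      have h8 : ‖(x : ℂ) - (y : ℂ)‖ ≤ ‖(x : ℂ) - α‖ + ‖(y : ℂ) - α‖ := by
        have : (x : ℂ) - (y : ℂ) = ((x : ℂ) - α) - ((y : ℂ) - α) := by ring
        rw [this]
        exact norm_sub_le _ _
      rw [h7]
      calc ‖(x : ℂ) - (y : ℂ)‖ ≤ _ := h8
        _ ≤ 2 ^ m * L1 P ^ (-W) / ‖aeval α (derivative P)‖ +
            2 ^ m * L1 P ^ (-W) / ‖aeval α (derivative P)‖ := add_le_add hx' hy'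
        _ = _ := by rw [pow_succ]; ring
    calc Metric.ediam (U ⟨(P, α), hrel, hL⟩) ^ s
        ≤ ENNReal.ofReal ((2 : ℝ) ^ (m + 1) * (L1 P ^ (-W) / ‖aeval α (derivative P)‖)) ^ s :=
          ENNReal.rpow_le_rpow h6 hs.le
      _ = ENNReal.ofReal (((2 : ℝ) ^ (m + 1) * (L1 P ^ (-W) / ‖aeval α (derivative P)‖)) ^ s) :=
          ENNReal.ofReal_rpow_of_nonneg (by positivity) hs.le
      _ = _ := by rw [Real.mul_rpow (by positivity) (by positivity)]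
  have hfin : ∑' p, Metric.ediam (U p) ^ s ≠ ⊤ := by
    refine ne_top_of_le_ne_top (hsum.mul_left (((2 : ℝ) ^ (m + 1)) ^ s)).tsum_ofReal_ne_top ?_
    exact ENNReal.tsum_le_tsum hdiam
  have hnull := Pool.Agent.LibInterm.hausdorffMeasure_limsup_eq_zero hs U hfin
  refine measure_mono_null ?_ hnull
  rintro ξ ⟨hξM, hξ⟩
  -- infinitely many with `L1` large
  have hinf : {P : ℤ[X] | (Irreducible P ∧ 1 ≤ P.natDegree ∧ P.natDegree ≤ m ∧
      |aeval ξ P| ≤ L1 P ^ (-W)) ∧ (2 : ℝ) ^ t₁ ≤ L1 P}.Infinite := by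
    have h3 := hξ.sdiff (finite_L1 m ((2 : ℝ) ^ t₁))
    refine h3.mono ?_
    rintro P ⟨hP1, hP2⟩
    refine ⟨hP1, ?_⟩
    by_contra hcon
    exact hP2 ⟨hP1.2.2.1, (not_le.1 hcon).le⟩
  have hch : ∀ P : {P : ℤ[X] | (Irreducible P ∧ 1 ≤ P.natDegree ∧ P.natDegree ≤ m ∧
      |aeval ξ P| ≤ L1 P ^ (-W)) ∧ (2 : ℝ) ^ t₁ ≤ L1 P},
      ∃ q : {p : ℤ[X] × ℂ // Rel m M W p ∧ (2 : ℝ) ^ t₁ ≤ L1 p.1}, ξ ∈ U q ∧ q.1.1 = P := by
    rintro ⟨P, ⟨hirr, hd1, hd2, hval⟩, hL⟩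
    obtain ⟨α, hα, hα2⟩ := near_root m P hd1 hd2 ξ
    have h4 : ‖(ξ : ℂ) - α‖ * ‖aeval α (derivative P)‖ ≤ 2 ^ m * L1 P ^ (-W) :=
      hα2.trans (mul_le_mul_of_nonneg_left hval (by positivity))
    exact ⟨⟨(P, α), ⟨hirr, hd1, hd2, hα, ξ, hξM, hval, h4⟩, hL⟩, ⟨hξM, hval, h4⟩, rfl⟩
  choose f hf1 hf2 using hch
  have hfinj : Function.Injective f := by
    intro P Q h
    apply Subtype.ext
    rw [← hf2 P, ← hf2 Q, h]
  have := hinf.to_subtype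
  exact Set.infinite_of_injective_forall_mem hfinj hf1

open MeasureTheory in
/-- The dimension of the points approximated by irreducible polynomials: same proof as `dim_irred`
with `shell2` instead of `shell`. -/
theorem dim_irred2 (m : ℕ) (hm : 1 ≤ m) (W : ℝ) (hW : 2 * ((m : ℝ) + 1) < W + 1) :
    dimH {ξ : ℝ | {P : ℤ[X] | Irreducible P ∧ 1 ≤ P.natDegree ∧ P.natDegree ≤ m ∧
      |aeval ξ P| ≤ L1 P ^ (-W)}.Infinite} ≤ ENNReal.ofReal (((m : ℝ) + 1) / (W + 1)) := by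
  have hm1 : (1 : ℝ) ≤ m := by exact_mod_cast hm
  set s₀ : ℝ := ((m : ℝ) + 1) / (W + 1) with hs₀
  have hs0pos : 0 < s₀ := by apply div_pos <;> linarith
  have hs0lt : s₀ < 1 / 2 := by
    rw [hs₀, div_lt_div_iff₀ (by linarith) (by norm_num)]
    linarith
  have hs : ∀ s : ℝ, s₀ < s → s < 1 / 2 →
      dimH {ξ : ℝ | {P : ℤ[X] | Irreducible P ∧ 1 ≤ P.natDegree ∧ P.natDegree ≤ m ∧
      |aeval ξ P| ≤ L1 P ^ (-W)}.Infinite} ≤ ENNReal.ofReal s := by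
    intro s hs1 hs2
    have hspos : 0 < s := hs0pos.trans hs1
    have h0 : μH[s] {ξ : ℝ | {P : ℤ[X] | Irreducible P ∧ 1 ≤ P.natDegree ∧ P.natDegree ≤ m ∧
      |aeval ξ P| ≤ L1 P ^ (-W)}.Infinite} = 0 := by
      have hsub : {ξ : ℝ | {P : ℤ[X] | Irreducible P ∧ 1 ≤ P.natDegree ∧ P.natDegree ≤ m ∧
          |aeval ξ P| ≤ L1 P ^ (-W)}.Infinite} ⊆ ⋃ N : ℕ, {ξ : ℝ | |ξ| ≤ (N : ℝ) + 1 ∧
          {P : ℤ[X] | Irreducible P ∧ 1 ≤ P.natDegree ∧ P.natDegree ≤ m ∧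
          |aeval ξ P| ≤ L1 P ^ (-W)}.Infinite} := by
        intro ξ hξ
        obtain ⟨N, hN⟩ := exists_nat_ge |ξ|
        exact Set.mem_iUnion.2 ⟨N, by linarith, hξ⟩
      refine measure_mono_null hsub (measure_iUnion_null fun N => ?_)
      refine V7_null m hm _ W s ?_ (by linarith) hspos hs2 hs1
      have : (0 : ℝ) ≤ N := Nat.cast_nonneg N
      linarith
    have h1 : μH[((s.toNNReal : NNReal) : ℝ)] {ξ : ℝ | {P : ℤ[X] | Irreducible P ∧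
      1 ≤ P.natDegree ∧ P.natDegree ≤ m ∧ |aeval ξ P| ≤ L1 P ^ (-W)}.Infinite} ≠ ⊤ := by
      rw [Real.coe_toNNReal s hspos.le, h0]
      exact ENNReal.zero_ne_top
    exact dimH_le_of_hausdorffMeasure_ne_top h1
  refine le_of_forall_gt fun b hb => ?_
  by_cases hbt : b = ⊤
  · have h1 := hs ((s₀ + 1 / 2) / 2) (by linarith) (by linarith)
    rw [hbt]
    exact lt_of_le_of_lt h1 ENNReal.ofReal_lt_top
  · have hb' : s₀ < b.toReal := by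
      rwa [← ENNReal.ofReal_lt_iff_lt_toReal hs0pos.le hbt]
    obtain ⟨s, hs1, hs2⟩ := exists_between (lt_min hb' hs0lt)
    have h1 := hs s hs1 (lt_of_lt_of_le hs2 (min_le_right _ _))
    refine lt_of_le_of_lt h1 ?_
    rw [ENNReal.ofReal_lt_iff_lt_toReal (hs0pos.trans hs1).le hbt]
    exact lt_of_lt_of_le hs2 (min_le_left _ _)

open Filter Topology in
/-- Upper bound for the dimension, for all `W + 1 > 2 (m + 1)`. -/
theorem upB2 (m : ℕ) (hm : 1 ≤ m) (W : ℝ) (hW : 2 * ((m : ℝ) + 1) < W + 1) :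
    dimH (Sw m W) ≤ ENNReal.ofReal (((m : ℝ) + 1) / (W + 1)) := by
  have hm1 : (1 : ℝ) ≤ (m : ℝ) := by exact_mod_cast hm
  have h1 : ∀ W' : ℝ, 2 * ((m : ℝ) + 1) < W' + 1 → W' < W → dimH (Sw m W) ≤
      ENNReal.ofReal (((m : ℝ) + 1) / (W' + 1)) := by
    intro W' hW' hWW
    have h2 : Sw m W ⊆ {x : ℝ | IsAlgebraic ℤ x} ∪
        {ξ : ℝ | {P : ℤ[X] | Irreducible P ∧ 1 ≤ P.natDegree ∧ P.natDegree ≤ m ∧
          |aeval ξ P| ≤ L1 P ^ (-W')}.Infinite} := by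
      intro ξ hξ
      by_cases h3 : IsAlgebraic ℤ ξ
      · exact Or.inl h3
      · exact Or.inr (irred_reduction m W W' (by linarith) hWW ξ h3 hξ)
    refine (dimH_mono h2).trans ?_
    rw [dimH_union, (Algebraic.countable ℤ ℝ).dimH_zero]
    exact max_le zero_le (dim_irred2 m hm W' hW')
  have h2 : Tendsto (fun W' : ℝ => ENNReal.ofReal (((m : ℝ) + 1) / (W' + 1))) (𝓝[<] W)
      (𝓝 (ENNReal.ofReal (((m : ℝ) + 1) / (W + 1)))) := by
    apply Tendsto.mono_left _ nhdsWithin_le_nhds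
    apply ENNReal.tendsto_ofReal
    apply Tendsto.div tendsto_const_nhds _ (by linarith : W + 1 ≠ 0)
    exact (tendsto_id (α := ℝ)).add_const 1
  apply ge_of_tendsto h2
  have h3 : Set.Ioo (2 * ((m : ℝ) + 1) - 1) W ∈ 𝓝[<] W := Ioo_mem_nhdsLT (by linarith)
  filter_upwards [h3] with W' hW'
  exact h1 W' (by linarith [hW'.1]) hW'.2

end Ver4
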