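import Pool.Agent.LibVer4.A5b
import Pool.Agent.LibVer4.A6c
import Pool.Agent.LibVer4.V7
import Pool.Agent.LibVer4.N5

open Polynomial Pool.Agent.LibInterm

namespace Ver4

private theorem d1_mono {n d : ℕ} (ω w ξ : ℝ) (hw : w ≤ ω) : Near n d ω ξ ⊆ Near n d w ξ := by
  rintro L ⟨hL, h⟩
  refine ⟨hL, h.trans ?_⟩
  exact Real.rpow_le_rpow_of_exponent_le (one_le_height hL) (by linarith)

private theorem near_infinite' {n d : ℕ} (w w' ξ : ℝ) (hw : w' < w)
    (h : (w : EReal) ≤ omegaExp n d (ver n ξ)) : (Near n d w' ξ).Infinite := by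
  have h1 : (w' : EReal) < omegaExp n d (ver n ξ) :=
    lt_of_lt_of_le (by exact_mod_cast hw) h
  unfold omegaExp at h1
  rw [lt_sSup_iff] at h1
  obtain ⟨y, ⟨ω, hω, rfl⟩, h2⟩ := h1
  have h3 : w' < ω := by
    have h4 : (w' : EReal) < (ω : EReal) := h2
    exact_mod_cast h4
  exact Set.Infinite.mono (d1_mono ω w' ξ h3.le) hω

private theorem omegaExp_ge' {n d : ℕ} (w ξ : ℝ) (h : ∀ w' < w, (Near n d w' ξ).Infinite) :
    (w : EReal) ≤ omegaExp n d (ver n ξ) := by
  by_contra hcon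
  rw [not_le] at hcon
  obtain ⟨q, hq1, hq2⟩ := EReal.lt_iff_exists_real_btwn.1 hcon
  have hq3 : q < w := by exact_mod_cast hq2
  have h1 : (q : EReal) ≤ omegaExp n d (ver n ξ) := by
    unfold omegaExp
    exact le_sSup ⟨q, h q hq3, rfl⟩
  exact absurd h1 (not_le.2 hq1)

private theorem d1_alg : {ξ : ℝ | ¬ Transcendental ℤ ξ}.Countable := by
  have h := Algebraic.countable ℤ ℝ
  refine h.mono ?_
  intro ξ hξ
  unfold Transcendental at hξ
  exact not_not.1 hξ

private theorem d1_dim_le {A B : Set ℝ} (h : ∀ ξ ∈ A, Transcendental ℤ ξ → ξ ∈ B) :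
    dimH A ≤ dimH B := by
  have hsub : A ⊆ B ∪ {ξ : ℝ | ¬ Transcendental ℤ ξ} := by
    intro ξ hξ
    by_cases ht : Transcendental ℤ ξ
    · exact Or.inl (h ξ hξ ht)
    · exact Or.inr ht
  calc dimH A ≤ dimH (B ∪ {ξ : ℝ | ¬ Transcendental ℤ ξ}) := dimH_mono hsub
    _ = max (dimH B) (dimH {ξ : ℝ | ¬ Transcendental ℤ ξ}) := dimH_union _ _
    _ = dimH B := by rw [dimH_countable d1_alg]; simp

open Filter Topology in
/-- The dimension formula for all `w > d + 1`. -/
theorem dimension2 {n d e : ℕ} (hn : n = d + e + 1) (he : 1 ≤ e) (w : ℝ) (hw : (d : ℝ) + 1 < w) :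
    dimH {ξ : ℝ | (w : EReal) ≤ omegaExp n d (ver n ξ)} =
      ENNReal.ofReal (((d : ℝ) + 2) / (((e : ℝ) + 1) * (w + 1))) := by
  have hd0 : (0 : ℝ) ≤ d := Nat.cast_nonneg d
  have he1 : (1 : ℝ) ≤ e := by exact_mod_cast he
  set Ws : ℝ := ((e : ℝ) + 1) * (w + 1) - 1 with hWs
  have hWs1 : 2 * (d : ℝ) + 3 < Ws := by
    rw [hWs]; nlinarith
  have hW1 : Ws + 1 = ((e : ℝ) + 1) * (w + 1) := by rw [hWs]; ring
  have hmcast : ((d + 1 : ℕ) : ℝ) = (d : ℝ) + 1 := by push_cast; ring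
  apply le_antisymm
  · -- upper bound
    have hub : ∀ W : ℝ, 2 * (d : ℝ) + 3 < W → W < Ws →
        dimH {ξ : ℝ | (w : EReal) ≤ omegaExp n d (ver n ξ)} ≤
          ENNReal.ofReal (((d : ℝ) + 2) / (W + 1)) := by
      intro W hW hWW
      have h1 := upB2 (d + 1) (by omega) W (by rw [hmcast]; linarith)
      have e1 : ((d + 1 : ℕ) : ℝ) + 1 = (d : ℝ) + 2 := by rw [hmcast]; ring
      rw [e1] at h1
      refine le_trans (d1_dim_le ?_) h1
      intro ξ hξ ht
      -- choose w' < w close to w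
      obtain ⟨w', hw'1, hw'2, hw'3⟩ : ∃ w', (d : ℝ) + 1 < w' ∧ w' < w ∧
          W < ((e : ℝ) + 1) * (w' + 1) - 1 := by
        have hpos : 0 < (e : ℝ) + 1 := by linarith
        have hlt : max ((d : ℝ) + 1) ((W + 1) / ((e : ℝ) + 1) - 1) < w := by
          apply max_lt hw
          rw [sub_lt_iff_lt_add, div_lt_iff₀ hpos]
          rw [hWs] at hWW
          nlinarith
        obtain ⟨w', h1, h2⟩ := exists_between hlt
        refine ⟨w', (le_max_left _ _).trans_lt h1, h2, ?_⟩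
        have h3 := (le_max_right _ _).trans_lt h1
        rw [sub_lt_iff_lt_add, div_lt_iff₀ hpos] at h3
        nlinarith
      exact up hn w' hw'1 ξ ht (near_infinite' w w' ξ hw'2 hξ) W hw'3
    -- limit
    have hlim : Tendsto (fun W : ℝ => ENNReal.ofReal (((d : ℝ) + 2) / (W + 1))) (𝓝[<] Ws)
        (𝓝 (ENNReal.ofReal (((d : ℝ) + 2) / (Ws + 1)))) := by
      apply ENNReal.tendsto_ofReal
      apply Tendsto.mono_left _ nhdsWithin_le_nhds
      apply Tendsto.div tendsto_const_nhds (tendsto_id.add_const 1)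
      linarith
    have hle := ge_of_tendsto hlim (b := dimH {ξ : ℝ | (w : EReal) ≤ omegaExp n d (ver n ξ)}) ?_
    · rw [← hW1]
      exact hle
    · filter_upwards [Ioo_mem_nhdsLT (show 2 * (d : ℝ) + 3 < Ws by linarith)] with W hW
      exact hub W hW.1 hW.2
  · -- lower bound
    have hlb : ∀ W : ℝ, Ws < W → ENNReal.ofReal (((d : ℝ) + 2) / (W + 1)) ≤
        dimH {ξ : ℝ | (w : EReal) ≤ omegaExp n d (ver n ξ)} := by
      intro W hW
      have h1 := lowB (d + 1) (by omega) W (by rw [hmcast]; linarith)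
      have e1 : ((d + 1 : ℕ) : ℝ) + 1 = (d : ℝ) + 2 := by rw [hmcast]; ring
      rw [e1] at h1
      refine h1.trans (d1_dim_le ?_)
      intro ξ hξ ht
      apply omegaExp_ge'
      intro w' hw'
      by_cases hw0 : 0 < w'
      · apply low hn w' hw0 ξ ht W _ hξ
        rw [hWs] at hW
        nlinarith
      · have h2 := low hn w (by linarith) ξ ht W (by rw [hWs] at hW; linarith) hξ
        exact Set.Infinite.mono (d1_mono w w' ξ hw'.le) h2
    have hlim : Tendsto (fun W : ℝ => ENNReal.ofReal (((d : ℝ) + 2) / (W + 1))) (𝓝[>] Ws)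
        (𝓝 (ENNReal.ofReal (((d : ℝ) + 2) / (Ws + 1)))) := by
      apply ENNReal.tendsto_ofReal
      apply Tendsto.mono_left _ nhdsWithin_le_nhds
      apply Tendsto.div tendsto_const_nhds (tendsto_id.add_const 1)
      linarith
    rw [← hW1]
    apply le_of_tendsto hlim
    filter_upwards [self_mem_nhdsWithin] with W hW
    exact hlb W hW

end Ver4
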