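import Pool.Agent.LibInterm.Lower

/-!
# Intermediate exponents on the Veronese curve: definitions
-/

open Polynomial Pool.Agent.LibInterm

namespace Ver4

/-- The sum of the absolute values of the coefficients. -/
noncomputable def L1 (P : ℤ[X]) : ℝ := ∑ i ∈ P.support, |(P.coeff i : ℝ)|

/-- The sum of the absolute values of the coefficients of a real polynomial. -/
noncomputable def L1R (P : ℝ[X]) : ℝ := ∑ i ∈ P.support, |P.coeff i|

/-- The real numbers approximated to order `W` by integer polynomials of degree at most `m`. -/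
def Sw (m : ℕ) (W : ℝ) : Set ℝ :=
  {ξ | {P : ℤ[X] | P ≠ 0 ∧ P.natDegree ≤ m ∧ |aeval ξ P| ≤ L1 P ^ (-W)}.Infinite}

/-- The point `(ξ, ξ², …, ξⁿ)`. -/
noncomputable def ver (n : ℕ) (ξ : ℝ) : EuclideanSpace ℝ (Fin n) :=
  WithLp.toLp 2 (fun i : Fin n => ξ ^ ((i : ℕ) + 1))

/-- The vector of the coefficients of degree at most `n`. -/
def vec (n : ℕ) (P : ℤ[X]) : Fin (n + 1) → ℤ := fun i => P.coeff i

/-- The rational linear subvarieties of dimension `d` close to the point `ver n ξ`. -/
def Near (n d : ℕ) (w ξ : ℝ) : Set (Submodule ℝ (EuclideanSpace ℝ (Fin (n + 1)))) :=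
  {L | IsRationalSub d L ∧ height d L * distTo (ver n ξ) L ≤ height d L ^ (-w)}

/-- The lattice of the polynomials of degree at most `m`, seen from `x` at scale `H`:
`zcomb (hmat m H x) a` has the coordinates `H^m * ∑ i, a i * x^i` and `a i / H`, `i ≥ 1`. -/
noncomputable def hmat (m : ℕ) (H x : ℝ) : Matrix (Fin (m + 1)) (Fin (m + 1)) ℝ :=
  Matrix.of fun i j => Fin.cases (H ^ m * x ^ (i : ℕ)) (fun l => if i = l.succ then H⁻¹ else 0) j

end Ver4
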