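import Pool.Agent.LibVer4.Defs

open Polynomial Finset

namespace Ver4

theorem L1_nonneg (P : ℤ[X]) : 0 ≤ L1 P :=
  Finset.sum_nonneg fun _ _ => abs_nonneg _

theorem one_le_L1 (P : ℤ[X]) (hP : P ≠ 0) : 1 ≤ L1 P := by
  obtain ⟨i, hi⟩ := Finset.nonempty_iff_ne_empty.2 (fun h => hP (support_eq_empty.1 h))
  have h1 : (1 : ℝ) ≤ |(P.coeff i : ℝ)| := by
    have h2 : 1 ≤ |P.coeff i| := Int.one_le_abs (mem_support_iff.1 hi)
    exact_mod_cast h2
  exact h1.trans (Finset.single_le_sum (f := fun i => |(P.coeff i : ℝ)|)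
    (fun _ _ => abs_nonneg _) hi)

theorem abs_coeff_le_L1 (P : ℤ[X]) (i : ℕ) : |(P.coeff i : ℝ)| ≤ L1 P := by
  by_cases h : i ∈ P.support
  · exact Finset.single_le_sum (f := fun i => |(P.coeff i : ℝ)|) (fun _ _ => abs_nonneg _) h
  · rw [notMem_support_iff.1 h]
    simpa using L1_nonneg P

theorem L1_eq_sum (P : ℤ[X]) (m : ℕ) (h : P.natDegree ≤ m) :
    L1 P = ∑ i ∈ range (m + 1), |(P.coeff i : ℝ)| := by
  rw [L1]
  apply Finset.sum_subset
  · intro i hi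
    rw [Finset.mem_range]
    exact Nat.lt_succ_of_le ((le_natDegree_of_mem_supp i hi).trans h)
  · intro i _ hi
    rw [notMem_support_iff.1 hi]
    simp

private theorem L1_zero' : L1 0 = 0 := by simp [L1]

private theorem L1_add_le' (P Q : ℤ[X]) : L1 (P + Q) ≤ L1 P + L1 Q := by
  have hP : P.natDegree ≤ max P.natDegree Q.natDegree := le_max_left _ _
  have hQ : Q.natDegree ≤ max P.natDegree Q.natDegree := le_max_right _ _
  have hPQ : (P + Q).natDegree ≤ max P.natDegree Q.natDegree := natDegree_add_le _ _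
  rw [L1_eq_sum _ _ hP, L1_eq_sum _ _ hQ, L1_eq_sum _ _ hPQ, ← Finset.sum_add_distrib]
  apply Finset.sum_le_sum
  intro i _
  rw [coeff_add]
  push_cast
  exact abs_add_le _ _

private theorem L1_sum_le' {ι : Type*} (s : Finset ι) (f : ι → ℤ[X]) :
    L1 (∑ i ∈ s, f i) ≤ ∑ i ∈ s, L1 (f i) := by
  classical
  induction s using Finset.induction_on with
  | empty => simp [L1_zero']
  | insert a s ha ih =>
    rw [Finset.sum_insert ha, Finset.sum_insert ha]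
    exact (L1_add_le' _ _).trans (by gcongr)

theorem L1_X_pow_mul (j : ℕ) (P : ℤ[X]) : L1 (X ^ j * P) = L1 P := by
  have h1 : (X ^ j * P).natDegree ≤ j + P.natDegree :=
    natDegree_mul_le.trans (by simp)
  rw [L1_eq_sum _ _ h1, L1_eq_sum P _ le_rfl, add_assoc, Finset.sum_range_add]
  have h2 : ∑ x ∈ range j, |((X ^ j * P).coeff x : ℝ)| = 0 := by
    apply Finset.sum_eq_zero
    intro x hx
    rw [coeff_X_pow_mul', if_neg (by rw [Finset.mem_range] at hx; omega)]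
    simp
  rw [h2, zero_add]
  apply Finset.sum_congr rfl
  intro x _
  rw [coeff_X_pow_mul', if_pos (by omega), Nat.add_sub_cancel_left]

private theorem L1_C_mul' (a : ℤ) (P : ℤ[X]) : L1 (C a * P) = |(a : ℝ)| * L1 P := by
  rw [L1_eq_sum (C a * P) P.natDegree (natDegree_C_mul_le a P), L1_eq_sum P _ le_rfl,
    Finset.mul_sum]
  apply Finset.sum_congr rfl
  intro x _
  rw [coeff_C_mul]
  push_cast
  rw [abs_mul]

theorem L1_mul_le (P Q : ℤ[X]) : L1 (P * Q) ≤ L1 P * L1 Q := by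
  have h1 : P * Q = ∑ i ∈ P.support, C (P.coeff i) * (X ^ i * Q) := by
    conv_lhs => rw [P.as_sum_support_C_mul_X_pow, Finset.sum_mul]
    apply Finset.sum_congr rfl
    intro i _
    ring
  rw [h1]
  refine (L1_sum_le' _ _).trans ?_
  conv_rhs => rw [L1, Finset.sum_mul]
  apply Finset.sum_le_sum
  intro i _
  rw [L1_C_mul', L1_X_pow_mul]

theorem L1_derivative_le (P : ℤ[X]) (m : ℕ) (h : P.natDegree ≤ m) :
    L1 (derivative P) ≤ m * L1 P := by
  have h1 : (derivative P).natDegree ≤ P.natDegree - 1 := natDegree_derivative_le P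
  rw [L1_eq_sum (derivative P) P.natDegree (by omega)]
  have h2 : ∑ i ∈ range (P.natDegree + 1), |((derivative P).coeff i : ℝ)| ≤
      ∑ i ∈ range (P.natDegree + 1), (m : ℝ) * |(P.coeff (i + 1) : ℝ)| := by
    apply Finset.sum_le_sum
    intro i hi
    rw [coeff_derivative]
    push_cast
    rw [abs_mul, mul_comm]
    by_cases hi2 : i + 1 ≤ m
    · have h3 : |(i : ℝ) + 1| ≤ m := by
        rw [abs_of_nonneg (by positivity)]
        exact_mod_cast hi2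
      exact mul_le_mul_of_nonneg_right h3 (abs_nonneg _)
    · have h3 : P.coeff (i + 1) = 0 := coeff_eq_zero_of_natDegree_lt (by omega)
      rw [h3]
      simp
  refine h2.trans ?_
  rw [← Finset.mul_sum]
  apply mul_le_mul_of_nonneg_left _ (Nat.cast_nonneg m)
  have h4 : L1 P = ∑ i ∈ range (P.natDegree + 1 + 1), |(P.coeff i : ℝ)| :=
    L1_eq_sum P _ (by omega)
  have h5 := Finset.sum_range_succ' (fun i => |(P.coeff i : ℝ)|) (P.natDegree + 1)
  have := abs_nonneg ((P.coeff 0 : ℤ) : ℝ)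
  rw [h4, h5]
  linarith

theorem norm_aeval_le (P : ℤ[X]) (m : ℕ) (h : P.natDegree ≤ m) (z : ℂ) :
    ‖aeval z P‖ ≤ L1 P * (max 1 ‖z‖) ^ m := by
  rw [aeval_eq_sum_range' (Nat.lt_succ_of_le h), L1_eq_sum P m h, Finset.sum_mul]
  refine (norm_sum_le _ _).trans ?_
  apply Finset.sum_le_sum
  intro i hi
  rw [Finset.mem_range] at hi
  rw [zsmul_eq_mul, norm_mul, norm_pow, Complex.norm_intCast]
  apply mul_le_mul_of_nonneg_left _ (abs_nonneg _)
  calc ‖z‖ ^ i ≤ (max 1 ‖z‖) ^ i := by gcongr; exact le_max_right _ _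
    _ ≤ (max 1 ‖z‖) ^ m := pow_le_pow_right₀ (le_max_left _ _) (by omega)

theorem abs_aeval_le (P : ℤ[X]) (m : ℕ) (h : P.natDegree ≤ m) (x : ℝ) :
    |aeval x P| ≤ L1 P * (max 1 |x|) ^ m := by
  rw [aeval_eq_sum_range' (Nat.lt_succ_of_le h), L1_eq_sum P m h, Finset.sum_mul]
  refine (Finset.abs_sum_le_sum_abs _ _).trans ?_
  apply Finset.sum_le_sum
  intro i hi
  rw [Finset.mem_range] at hi
  rw [zsmul_eq_mul, abs_mul, abs_pow]
  apply mul_le_mul_of_nonneg_left _ (abs_nonneg _)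
  calc |x| ^ i ≤ (max 1 |x|) ^ i := by gcongr; exact le_max_right _ _
    _ ≤ (max 1 |x|) ^ m := pow_le_pow_right₀ (le_max_left _ _) (by omega)

private theorem L1_box (m : ℕ) (R : ℝ) (hR : 0 ≤ R) :
    Set.InjOn (fun P : ℤ[X] => (fun i : Fin (m + 1) => P.coeff (i : ℕ)))
      {P : ℤ[X] | P.natDegree ≤ m ∧ L1 P ≤ R} ∧
    ∀ P ∈ {P : ℤ[X] | P.natDegree ≤ m ∧ L1 P ≤ R},
      (fun i : Fin (m + 1) => P.coeff (i : ℕ)) ∈
        (Fintype.piFinset (fun _ : Fin (m + 1) => Finset.Icc (-⌊R⌋) ⌊R⌋) : Set (Fin (m + 1) → ℤ)) := by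
  constructor
  · rintro P ⟨hP, _⟩ Q ⟨hQ, _⟩ hPQ
    ext i
    by_cases hi : i < m + 1
    · exact congrFun hPQ ⟨i, hi⟩
    · rw [coeff_eq_zero_of_natDegree_lt (by omega), coeff_eq_zero_of_natDegree_lt (by omega)]
  · rintro P ⟨_, hP⟩
    rw [Finset.mem_coe, Fintype.mem_piFinset]
    intro i
    rw [Finset.mem_Icc, ← abs_le]
    rw [Int.le_floor]
    have := (abs_coeff_le_L1 P i).trans hP
    exact_mod_cast this

theorem finite_L1 (m : ℕ) (R : ℝ) : {P : ℤ[X] | P.natDegree ≤ m ∧ L1 P ≤ R}.Finite := by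
  rcases lt_or_ge R 0 with hR | hR
  · apply Set.Finite.subset Set.finite_empty
    rintro P ⟨_, hP⟩
    exact absurd ((L1_nonneg P).trans hP) (not_le.2 hR)
  · obtain ⟨h1, h2⟩ := L1_box m R hR
    exact Set.Finite.of_injOn h2 h1 (Finset.finite_toSet _)

/-- The number of polynomials of bounded degree and size. -/
theorem card_L1 (m : ℕ) : ∃ C : ℝ, 0 < C ∧ ∀ H : ℝ, 1 ≤ H →
    ({P : ℤ[X] | P.natDegree ≤ m ∧ L1 P ≤ H}.ncard : ℝ) ≤ C * H ^ (m + 1) := by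
  refine ⟨3 ^ (m + 1), by positivity, fun H hH => ?_⟩
  obtain ⟨h1, h2⟩ := L1_box m H (by linarith)
  have h3 := Set.ncard_le_ncard_of_injOn _ h2 h1 (Finset.finite_toSet _)
  rw [Set.ncard_coe_finset, Fintype.card_piFinset] at h3
  simp only [Int.card_Icc, Finset.prod_const, Finset.card_univ, Fintype.card_fin] at h3
  have hf0 : 0 ≤ ⌊H⌋ := Int.floor_nonneg.2 (by linarith)
  have h4 : (((⌊H⌋ + 1 - -⌊H⌋).toNat : ℕ) : ℝ) ≤ 3 * H := by
    have e : (((⌊H⌋ + 1 - -⌊H⌋).toNat : ℕ) : ℤ) = 2 * ⌊H⌋ + 1 := by omega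
    have e2 : (((⌊H⌋ + 1 - -⌊H⌋).toNat : ℕ) : ℝ) = 2 * (⌊H⌋ : ℝ) + 1 := by exact_mod_cast e
    rw [e2]
    have := Int.floor_le H
    linarith
  calc ({P : ℤ[X] | P.natDegree ≤ m ∧ L1 P ≤ H}.ncard : ℝ)
      ≤ (((⌊H⌋ + 1 - -⌊H⌋).toNat ^ (m + 1) : ℕ) : ℝ) := by exact_mod_cast h3
    _ = (((⌊H⌋ + 1 - -⌊H⌋).toNat : ℕ) : ℝ) ^ (m + 1) := by push_cast; rfl
    _ ≤ (3 * H) ^ (m + 1) := by gcongr
    _ = 3 ^ (m + 1) * H ^ (m + 1) := by rw [mul_pow]

end Ver4
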