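import Pool.Agent.LibVer4.G1

open Polynomial Finset

namespace Ver4

theorem L1_eq_L1R (P : ℤ[X]) : L1 P = L1R (P.map (Int.castRingHom ℝ)) := by
  unfold L1 L1R
  have hs : (P.map (Int.castRingHom ℝ)).support = P.support :=
    Polynomial.support_map_of_injective _ (Int.cast_injective)
  rw [hs]
  refine Finset.sum_congr rfl fun i _ => ?_
  simp

private noncomputable def G2_mah (P : ℝ[X]) : ℝ := (P.map (algebraMap ℝ ℂ)).mahlerMeasure

private theorem G2_mah_nonneg (P : ℝ[X]) : 0 ≤ G2_mah P := Polynomial.mahlerMeasure_nonneg _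

private theorem G2_mah_mul (P Q : ℝ[X]) : G2_mah (P * Q) = G2_mah P * G2_mah Q := by
  unfold G2_mah
  rw [Polynomial.map_mul, Polynomial.mahlerMeasure_mul]

private theorem G2_mah_le (P : ℝ[X]) : G2_mah P ≤ L1R P := by
  unfold G2_mah L1R
  refine (Polynomial.mahlerMeasure_le_sum_norm_coeff _).trans (le_of_eq ?_)
  rw [Polynomial.sum_def]
  have hs : (P.map (algebraMap ℝ ℂ)).support = P.support :=
    Polynomial.support_map_of_injective _ (algebraMap ℝ ℂ).injective
  rw [hs]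
  refine Finset.sum_congr rfl fun i _ => ?_
  simp

private theorem G2_L1R_le (m : ℕ) (P : ℝ[X]) (h : P.natDegree ≤ m) :
    L1R P ≤ ((m : ℝ) + 1) * 2 ^ m * G2_mah P := by
  have hc : ∀ i, |P.coeff i| ≤ 2 ^ m * G2_mah P := by
    intro i
    have h1 := Polynomial.norm_coeff_le_choose_mul_mahlerMeasure i (P.map (algebraMap ℝ ℂ))
    have h2 : ‖(P.map (algebraMap ℝ ℂ)).coeff i‖ = |P.coeff i| := by simp
    rw [h2] at h1
    refine h1.trans ?_
    refine mul_le_mul_of_nonneg_right ?_ (G2_mah_nonneg P)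
    have h3 : (P.map (algebraMap ℝ ℂ)).natDegree ≤ m := (Polynomial.natDegree_map_le).trans h
    have h4 : (P.map (algebraMap ℝ ℂ)).natDegree.choose i ≤ 2 ^ m :=
      (Nat.choose_le_two_pow _ _).trans (Nat.pow_le_pow_right (by norm_num) h3)
    exact_mod_cast h4
  have hsub : P.support ⊆ Finset.range (m + 1) := by
    intro i hi
    rw [Finset.mem_range]
    exact Nat.lt_succ_of_le ((Polynomial.le_natDegree_of_mem_supp i hi).trans h)
  unfold L1R
  calc ∑ i ∈ P.support, |P.coeff i| ≤ ∑ i ∈ Finset.range (m + 1), |P.coeff i| :=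
        Finset.sum_le_sum_of_subset_of_nonneg hsub fun _ _ _ => abs_nonneg _
    _ ≤ ∑ _i ∈ Finset.range (m + 1), 2 ^ m * G2_mah P := Finset.sum_le_sum fun i _ => hc i
    _ = ((m : ℝ) + 1) * 2 ^ m * G2_mah P := by
        rw [Finset.sum_const, Finset.card_range, nsmul_eq_mul]
        push_cast
        ring

private theorem G2_L1R_nonneg (P : ℝ[X]) : 0 ≤ L1R P :=
  Finset.sum_nonneg fun _ _ => abs_nonneg _

/-- Gelfond's lemma. Hint: over `ℂ`, `Polynomial.mahlerMeasure_mul`,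
`Polynomial.mahlerMeasure_le_sum_norm_coeff` and `Polynomial.norm_coeff_le_choose_mul_mahlerMeasure`. -/
theorem gelfond_real (m : ℕ) : ∃ c : ℝ, 0 < c ∧ ∀ P Q : ℝ[X], P.natDegree ≤ m → Q.natDegree ≤ m →
    c * (L1R P * L1R Q) ≤ L1R (P * Q) := by
  have hK : (0 : ℝ) < ((m : ℝ) + 1) * 2 ^ m := by positivity
  refine ⟨((((m : ℝ) + 1) * 2 ^ m) ^ 2)⁻¹, by positivity, ?_⟩
  intro P Q hP hQ
  have h1 := G2_L1R_le m P hP
  have h2 := G2_L1R_le m Q hQ
  have h3 : L1R P * L1R Q ≤ (((m : ℝ) + 1) * 2 ^ m) ^ 2 * L1R (P * Q) := by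
    calc L1R P * L1R Q ≤ (((m : ℝ) + 1) * 2 ^ m * G2_mah P) * (((m : ℝ) + 1) * 2 ^ m * G2_mah Q) :=
          mul_le_mul h1 h2 (G2_L1R_nonneg Q) (mul_nonneg hK.le (G2_mah_nonneg P))
      _ = (((m : ℝ) + 1) * 2 ^ m) ^ 2 * G2_mah (P * Q) := by rw [G2_mah_mul]; ring
      _ ≤ _ := mul_le_mul_of_nonneg_left (G2_mah_le _) (by positivity)
  rw [inv_mul_le_iff₀ (by positivity)]
  exact h3

theorem gelfond (m : ℕ) : ∃ c : ℝ, 0 < c ∧ ∀ P Q : ℤ[X], P.natDegree ≤ m → Q.natDegree ≤ m →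
    c * (L1 P * L1 Q) ≤ L1 (P * Q) := by
  obtain ⟨c, hc, h⟩ := gelfond_real m
  refine ⟨c, hc, fun P Q hP hQ => ?_⟩
  have := h (P.map (Int.castRingHom ℝ)) (Q.map (Int.castRingHom ℝ))
    ((Polynomial.natDegree_map_le).trans hP) ((Polynomial.natDegree_map_le).trans hQ)
  rw [← Polynomial.map_mul, ← L1_eq_L1R, ← L1_eq_L1R, ← L1_eq_L1R] at this
  exact this

private noncomputable def G2_mz (P : ℤ[X]) : ℝ := G2_mah (P.map (Int.castRingHom ℝ))

private theorem G2_mz_nonneg (P : ℤ[X]) : 0 ≤ G2_mz P := G2_mah_nonneg _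

private theorem G2_mz_mul (P Q : ℤ[X]) : G2_mz (P * Q) = G2_mz P * G2_mz Q := by
  unfold G2_mz
  rw [Polynomial.map_mul, G2_mah_mul]

private theorem G2_mz_C (c : ℤ) : G2_mz (Polynomial.C c) = |(c : ℝ)| := by
  unfold G2_mz G2_mah
  rw [Polynomial.map_C, Polynomial.map_C, Polynomial.mahlerMeasure_const]
  simp

private theorem G2_mz_one : G2_mz 1 = 1 := by
  unfold G2_mz G2_mah
  simp

private theorem G2_mz_prod (s : Multiset ℤ[X]) : G2_mz s.prod = (s.map G2_mz).prod := by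
  induction s using Multiset.induction_on with
  | empty => simp [G2_mz_one]
  | cons a s ih => rw [Multiset.prod_cons, G2_mz_mul, ih, Multiset.map_cons, Multiset.prod_cons]

private theorem G2_prod_le (m : ℕ) (s : Multiset ℤ[X]) (h : ∀ Q ∈ s, Q.natDegree ≤ m) :
    (s.map L1).prod ≤ (((m : ℝ) + 1) * 2 ^ m) ^ (Multiset.card s) * (s.map G2_mz).prod := by
  induction s using Multiset.induction_on with
  | empty => simp
  | cons a s ih =>
    have iha := ih fun Q hQ => h Q (Multiset.mem_cons_of_mem hQ)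
    have h1 : L1 a ≤ ((m : ℝ) + 1) * 2 ^ m * G2_mz a := by
      rw [L1_eq_L1R]
      exact G2_L1R_le m _ ((Polynomial.natDegree_map_le).trans (h a (Multiset.mem_cons_self a s)))
    rw [Multiset.map_cons, Multiset.prod_cons, Multiset.map_cons, Multiset.prod_cons,
      Multiset.card_cons, pow_succ]
    have h0 : 0 ≤ (s.map L1).prod := by
      refine Multiset.prod_nonneg fun x hx => ?_
      obtain ⟨Q, _, rfl⟩ := Multiset.mem_map.1 hx
      exact L1_nonneg Q
    calc L1 a * (s.map L1).prod ≤ (((m : ℝ) + 1) * 2 ^ m * G2_mz a) *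
          ((((m : ℝ) + 1) * 2 ^ m) ^ (Multiset.card s) * (s.map G2_mz).prod) :=
          mul_le_mul h1 iha h0 (mul_nonneg (by positivity) (G2_mz_nonneg a))
      _ = _ := by ring

/-- Gelfond's lemma for the product of a multiset of nonconstant polynomials. Hint: at most `m`
factors of degree at least one; constants (integers) multiply `L1` exactly. -/
theorem gelfond_multiset (m : ℕ) : ∃ C : ℝ, 1 ≤ C ∧ ∀ (c : ℤ) (s : Multiset ℤ[X]), c ≠ 0 →
    (∀ Q ∈ s, 1 ≤ Q.natDegree) →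
    (Polynomial.C c * s.prod).natDegree ≤ m →
    |(c : ℝ)| * (s.map L1).prod ≤ C * L1 (Polynomial.C c * s.prod) := by
  have hK1 : (1 : ℝ) ≤ ((m : ℝ) + 1) * 2 ^ m := by
    have h1 : (1 : ℝ) ≤ (m : ℝ) + 1 := by
      have : (0 : ℝ) ≤ m := Nat.cast_nonneg m
      linarith
    have h2 : (1 : ℝ) ≤ 2 ^ m := one_le_pow₀ (by norm_num)
    nlinarith
  refine ⟨(((m : ℝ) + 1) * 2 ^ m) ^ m, one_le_pow₀ hK1, ?_⟩
  intro c s hc hs hdeg
  have h0 : (0 : ℤ[X]) ∉ s := by
    intro h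
    have := hs 0 h
    simp at this
  have hCs : (Polynomial.C c * s.prod).natDegree = s.prod.natDegree :=
    Polynomial.natDegree_C_mul hc
  have hsd : s.prod.natDegree = (s.map Polynomial.natDegree).sum :=
    Polynomial.natDegree_multiset_prod s h0
  have hsum : (s.map Polynomial.natDegree).sum ≤ m := by
    rw [← hsd, ← hCs]; exact hdeg
  have hcard : Multiset.card s ≤ m := by
    refine le_trans ?_ hsum
    have : Multiset.card s • 1 ≤ (s.map Polynomial.natDegree).sum := by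
      rw [← Multiset.card_map Polynomial.natDegree s]
      refine Multiset.card_nsmul_le_sum fun x hx => ?_
      obtain ⟨Q, hQ, rfl⟩ := Multiset.mem_map.1 hx
      exact hs Q hQ
    simpa using this
  have hdm : ∀ Q ∈ s, Q.natDegree ≤ m := by
    intro Q hQ
    refine le_trans ?_ hsum
    exact Multiset.single_le_sum (fun _ _ => Nat.zero_le _) _ (Multiset.mem_map_of_mem _ hQ)
  have h1 := G2_prod_le m s hdm
  have hmz0 : 0 ≤ (s.map G2_mz).prod := by
    rw [← G2_mz_prod]; exact G2_mz_nonneg _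
  calc |(c : ℝ)| * (s.map L1).prod
      ≤ |(c : ℝ)| * ((((m : ℝ) + 1) * 2 ^ m) ^ (Multiset.card s) * (s.map G2_mz).prod) :=
        mul_le_mul_of_nonneg_left h1 (abs_nonneg _)
    _ ≤ |(c : ℝ)| * ((((m : ℝ) + 1) * 2 ^ m) ^ m * (s.map G2_mz).prod) := by
        refine mul_le_mul_of_nonneg_left ?_ (abs_nonneg _)
        exact mul_le_mul_of_nonneg_right (pow_le_pow_right₀ hK1 hcard) hmz0
    _ = (((m : ℝ) + 1) * 2 ^ m) ^ m * G2_mz (Polynomial.C c * s.prod) := by
        rw [G2_mz_mul, G2_mz_C, G2_mz_prod]; ring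
    _ ≤ (((m : ℝ) + 1) * 2 ^ m) ^ m * L1 (Polynomial.C c * s.prod) := by
        refine mul_le_mul_of_nonneg_left ?_ (by positivity)
        rw [L1_eq_L1R]
        exact G2_mah_le _

end Ver4
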