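import Mathlib

open Polynomial

namespace Ver4

section
variable {K : Type*} [Field K]

private theorem k1_finrank_degreeLT (n : ℕ) : Module.finrank K (degreeLT K n) = n := by
  rw [(degreeLTEquiv K n).finrank_eq, Module.finrank_fin_fun]

private theorem k1_finite_degreeLT (n : ℕ) : FiniteDimensional K (degreeLT K n) :=
  Module.Finite.equiv (degreeLTEquiv K n).symm

private theorem k1_inj (G : K[X]) (hG : G ≠ 0) : Function.Injective (LinearMap.mulLeft K G) := by
  intro a b hab
  simp only [LinearMap.mulLeft_apply] at hab
  exact mul_left_cancel₀ hG hab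

private theorem k1_finrank_map (G : K[X]) (hG : G ≠ 0) (W : Submodule K K[X]) :
    Module.finrank K (W.map (LinearMap.mulLeft K G)) = Module.finrank K W :=
  (Submodule.equivMapOfInjective _ (k1_inj G hG) W).finrank_eq.symm

/-- a finite dimensional nonzero space is not stable under multiplication by `X` -/
private theorem k1_not_stable (W : Submodule K K[X]) [FiniteDimensional K W]
    (hX : ∀ F ∈ W, X * F ∈ W) : W = ⊥ := by
  by_contra hne
  obtain ⟨F, hF, hF0⟩ := W.exists_mem_ne_zero_of_ne_bot hne
  have hpow : ∀ k : ℕ, X ^ k * F ∈ W := by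
    intro k
    induction k with
    | zero => simpa using hF
    | succ k ih =>
      have := hX _ ih
      rwa [← mul_assoc, ← pow_succ'] at this
  have hli : LinearIndependent K (fun k : ℕ => (⟨X ^ k * F, hpow k⟩ : W)) := by
    apply LinearIndependent.of_comp W.subtype
    have h1 : LinearIndependent K (fun k : ℕ => (X : K[X]) ^ k) := by
      have := (basisMonomials K).linearIndependent
      simpa [coe_basisMonomials, monomial_one_right_eq_X_pow] using this
    have h2 := h1.map' (LinearMap.mulRight K F) (by
      rw [LinearMap.ker_eq_bot]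
      intro a b hab
      simp only [LinearMap.mulRight_apply] at hab
      exact mul_right_cancel₀ hF0 hab)
    exact h2
  have := hli.finite
  exact not_finite ℕ

/-- K1: a space of polynomials which grows by at most one dimension when multiplied by `1` and `X`
consists of all multiples `G * Q`, `deg Q < r`, of one polynomial. -/
theorem shift_space {K : Type*} [Field K] (r : ℕ) (W : Submodule K K[X]) [FiniteDimensional K W]
    (hr : Module.finrank K W = r)
    (h : Module.finrank K ↥(W ⊔ W.map (LinearMap.mulLeft K (X : K[X]))) ≤ r + 1) :
    ∃ G : K[X], W = (degreeLT K r).map (LinearMap.mulLeft K G) := by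
  induction r generalizing W with
  | zero =>
    refine ⟨0, ?_⟩
    have h1 : W = ⊥ := Submodule.finrank_eq_zero.1 hr
    have h2 : degreeLT K 0 = ⊥ := by
      haveI := k1_finite_degreeLT (K := K) 0
      exact Submodule.finrank_eq_zero.1 (k1_finrank_degreeLT (K := K) 0)
    rw [h1, h2, Submodule.map_bot]
  | succ r ih =>
    set Xm : K[X] →ₗ[K] K[X] := LinearMap.mulLeft K (X : K[X]) with hXm
    have hXinj : Function.Injective Xm := k1_inj X X_ne_zero
    set W' : Submodule K K[X] := W ⊓ W.comap Xm with hW'
    have hW'W : W' ≤ W := inf_le_left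
    haveI : FiniteDimensional K W' := Submodule.finiteDimensional_of_le hW'W
    haveI : FiniteDimensional K (W.map Xm) := inferInstance
    have hWne : W ≠ ⊥ := by
      intro hb
      rw [hb] at hr
      simp at hr
    have hlt : Module.finrank K W' < r + 1 := by
      rw [← hr]
      apply Submodule.finrank_lt_finrank_of_lt
      refine lt_of_le_of_ne hW'W ?_
      intro heq
      apply hWne
      apply k1_not_stable
      intro F hF
      rw [← heq] at hF
      exact hF.2
    have hmap : W'.map Xm = W ⊓ W.map Xm := by
      ext F
      constructor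
      · rintro ⟨Q, ⟨hQ1, hQ2⟩, rfl⟩
        exact ⟨hQ2, Q, hQ1, rfl⟩
      · rintro ⟨h1, Q, hQ, rfl⟩
        exact ⟨Q, ⟨hQ, h1⟩, rfl⟩
    have hsum := Submodule.finrank_sup_add_finrank_inf_eq W (W.map Xm)
    have hfm : Module.finrank K (W.map Xm) = r + 1 := by
      rw [hXm, k1_finrank_map X X_ne_zero, hr]
    have hfi : Module.finrank K ↥(W ⊓ W.map Xm) = Module.finrank K W' := by
      rw [← hmap, hXm, k1_finrank_map X X_ne_zero]
    rw [hfi, hr, hfm] at hsum
    have hW'r : Module.finrank K W' = r := by omega
    have hle : W' ⊔ W'.map Xm ≤ W := by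
      apply sup_le hW'W
      rw [hmap]
      exact inf_le_left
    haveI : FiniteDimensional K ↥(W' ⊔ W'.map Xm) := Submodule.finiteDimensional_of_le hle
    have h2 : Module.finrank K ↥(W' ⊔ W'.map Xm) ≤ r + 1 := by
      rw [← hr]
      exact Submodule.finrank_mono hle
    obtain ⟨G, hG⟩ := ih W' hW'r h2
    rcases Nat.eq_zero_or_pos r with hr0 | hrpos
    · subst hr0
      obtain ⟨F, hF, hF0⟩ := W.exists_mem_ne_zero_of_ne_bot hWne
      refine ⟨F, ?_⟩
      symm
      haveI := k1_finite_degreeLT (K := K) 1
      apply Submodule.eq_of_le_of_finrank_eq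
      · rintro _ ⟨Q, hQ, rfl⟩
        have hQ1 : Q.degree < 1 := by
          have := mem_degreeLT.1 hQ
          exact_mod_cast this
        have hQ2 : Q = C (Q.coeff 0) := by
          apply eq_C_of_degree_le_zero
          exact Nat.WithBot.lt_one_iff_le_zero.1 hQ1
        rw [hQ2, LinearMap.mulLeft_apply, mul_comm, ← smul_eq_C_mul]
        exact W.smul_mem _ hF
      · rw [k1_finrank_map F hF0, k1_finrank_degreeLT, hr]
    · have hG0 : G ≠ 0 := by
        rintro rfl
        have : W' = ⊥ := by
          rw [hG]
          ext F
          simp only [Submodule.mem_map, LinearMap.mulLeft_apply, zero_mul, Submodule.mem_bot]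
          constructor
          · rintro ⟨_, _, rfl⟩; rfl
          · rintro rfl; exact ⟨0, Submodule.zero_mem _, rfl⟩
        rw [this] at hW'r
        simp at hW'r
        omega
      refine ⟨G, ?_⟩
      symm
      have hsub : (degreeLT K (r + 1)).map (LinearMap.mulLeft K G) ≤ W := by
        refine le_trans ?_ hle
        rintro _ ⟨Q, hQ, rfl⟩
        have hQ1 : Q.degree < ((r + 1 : ℕ) : WithBot ℕ) := mem_degreeLT.1 hQ
        have e : G * Q = G * C (Q.coeff 0) + X * (G * Q.divX) := by
          conv_lhs => rw [← divX_mul_X_add Q]
          ring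
        rw [LinearMap.mulLeft_apply, e]
        apply Submodule.add_mem
        · apply Submodule.mem_sup_left
          rw [hG]
          refine ⟨C (Q.coeff 0), ?_, rfl⟩
          rw [SetLike.mem_coe, mem_degreeLT]
          refine lt_of_le_of_lt degree_C_le ?_
          exact_mod_cast hrpos
        · apply Submodule.mem_sup_right
          refine ⟨G * Q.divX, ?_, rfl⟩
          rw [hG]
          refine ⟨Q.divX, ?_, rfl⟩
          rw [SetLike.mem_coe, mem_degreeLT]
          by_cases hQ0 : Q.divX = 0
          · rw [hQ0, degree_zero]
            exact WithBot.bot_lt_coe _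
          · rw [degree_eq_natDegree hQ0, natDegree_divX_eq_natDegree_tsub_one]
            have hQne : Q ≠ 0 := by
              rintro rfl
              simp at hQ0
            rw [degree_eq_natDegree hQne] at hQ1
            have h3 : Q.natDegree < r + 1 := by exact_mod_cast hQ1
            have h4 : Q.natDegree ≠ 0 := by
              intro h0
              apply hQ0
              rw [divX_eq_zero_iff]
              exact eq_C_of_natDegree_eq_zero h0
            have : Q.natDegree - 1 < r := by omega
            exact_mod_cast this
      apply Submodule.eq_of_le_of_finrank_eq hsub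
      rw [k1_finrank_map G hG0, k1_finrank_degreeLT, hr]

end

end Ver4
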