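import Mathlib

open MeasureTheory Polynomial

namespace Ver4

/-- well separated points in a set of large measure -/
theorem M1_points (E : Set ℝ) (D : ℕ) (δ : ℝ) (hδ : 0 < δ)
    (hE : ENNReal.ofReal (2 * (D + 1) * δ) < volume E) (n : ℕ) (hn : n ≤ D + 1) :
    ∃ s : Finset ℝ, s.card = n ∧ (∀ y ∈ s, y ∈ E) ∧
      ∀ y ∈ s, ∀ z ∈ s, y ≠ z → δ ≤ |y - z| := by
  induction n with
  | zero => exact ⟨∅, rfl, by simp, by simp⟩
  | succ n ih =>
    obtain ⟨s, hs, hsE, hsep⟩ := ih (by omega)
    have hex : ∃ x ∈ E, ∀ y ∈ s, δ ≤ |x - y| := by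
      by_contra hcon
      push Not at hcon
      have hsub : E ⊆ ⋃ y ∈ s, Metric.ball y δ := by
        intro x hx
        obtain ⟨y, hy, hlt⟩ := hcon x hx
        rw [Set.mem_iUnion₂]
        exact ⟨y, hy, by rwa [Metric.mem_ball, Real.dist_eq]⟩
      have h1 : volume E ≤ ∑ _y ∈ s, ENNReal.ofReal (2 * δ) := by
        refine (measure_mono hsub).trans ((measure_biUnion_finset_le _ _).trans ?_)
        apply Finset.sum_le_sum
        intro y _
        rw [Real.volume_ball]
      rw [Finset.sum_const, hs, nsmul_eq_mul, ← ENNReal.ofReal_natCast,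
        ← ENNReal.ofReal_mul (Nat.cast_nonneg n)] at h1
      have h2 : ENNReal.ofReal ((n : ℝ) * (2 * δ)) ≤ ENNReal.ofReal (2 * (D + 1) * δ) := by
        apply ENNReal.ofReal_le_ofReal
        have h3 : (n : ℝ) ≤ (D : ℝ) + 1 := by exact_mod_cast (by omega : n ≤ D + 1)
        nlinarith
      exact absurd (h1.trans h2) (not_le.2 hE)
    obtain ⟨x, hxE, hx⟩ := hex
    have hxs : x ∉ s := by
      intro h
      have := hx x h
      simp at this
      linarith
    refine ⟨insert x s, ?_, ?_, ?_⟩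
    · rw [Finset.card_insert_of_notMem hxs, hs]
    · intro y hy
      rcases Finset.mem_insert.1 hy with h | h
      · rw [h]
        exact hxE
      · exact hsE y h
    · intro y hy z hz hyz
      rcases Finset.mem_insert.1 hy with h | h
      · rcases Finset.mem_insert.1 hz with h' | h'
        · exact absurd (h.trans h'.symm) hyz
        · rw [h]
          exact hx z h'
      · rcases Finset.mem_insert.1 hz with h' | h'
        · rw [h', abs_sub_comm]
          exact hx y h
        · exact hsep y h z h' hyz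

/-- M1: a Remez-type inequality: a real polynomial of degree at most `D` is rarely small on an
interval where it is somewhere large. Hint (Lagrange interpolation): if the set where `|f| < ε` has
measure `λ > 0` then it contains `D + 1` points with mutual distances at least `λ / (D+1)` or so, and
`S ≤ |f x| ≤ (D + 1) ε ((b - a) (D + 1) / λ)^D`. (Or by induction on the degree.) -/
theorem good_poly (D : ℕ) (hD : 1 ≤ D) : ∃ C : ℝ, 0 < C ∧ ∀ f : ℝ[X], f.natDegree ≤ D →
    ∀ a b : ℝ, a < b → ∀ S : ℝ, 0 < S → (∃ x ∈ Set.Icc a b, S ≤ |f.eval x|) →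
    ∀ ε : ℝ, 0 < ε → volume {x ∈ Set.Icc a b | |f.eval x| < ε} ≤
      ENNReal.ofReal (C * (ε / S) ^ (1 / (D : ℝ)) * (b - a)) := by
  have hDR : (0 : ℝ) < (D : ℝ) + 1 := by positivity
  refine ⟨2 * ((D : ℝ) + 1) ^ 2, by positivity, ?_⟩
  rintro f hf a b hab S hS ⟨x0, hx0, hSx⟩ ε hε
  by_contra hcon
  push Not at hcon
  have hba : 0 < b - a := sub_pos.2 hab
  set u : ℝ := (ε / S) ^ (1 / (D : ℝ)) with hu
  have hu0 : 0 < u := Real.rpow_pos_of_pos (div_pos hε hS) _
  have huD : u ^ D = ε / S := by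
    rw [hu, one_div]
    exact Real.rpow_inv_natCast_pow (div_pos hε hS).le (by omega)
  set δ : ℝ := ((D : ℝ) + 1) * u * (b - a) with hδ
  have hδ0 : 0 < δ := by positivity
  obtain ⟨s, hcard, hsE, hsep⟩ := M1_points {x ∈ Set.Icc a b | |f.eval x| < ε} D δ hδ0
    (by
      refine lt_of_eq_of_lt ?_ hcon
      congr 1
      rw [hδ]
      ring) (D + 1) le_rfl
  have hdeg : f.degree < s.card := by
    rw [hcard]
    refine lt_of_le_of_lt Polynomial.degree_le_natDegree ?_
    exact_mod_cast Nat.lt_succ_of_le hf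
  have hint := Lagrange.eq_interpolate (s := s) (v := id) (Set.injOn_id _) hdeg
  have heval : f.eval x0 = ∑ y ∈ s, f.eval y * ∏ z ∈ s.erase y, ((y - z)⁻¹ * (x0 - z)) := by
    conv_lhs => rw [hint]
    rw [Lagrange.interpolate_apply, Polynomial.eval_finsetSum]
    apply Finset.sum_congr rfl
    intro y _
    rw [Polynomial.eval_mul, Polynomial.eval_C, Lagrange.basis, Polynomial.eval_prod]
    congr 1
    apply Finset.prod_congr rfl
    intro z _
    simp [Lagrange.basisDivisor]
  set P : ℝ := (δ⁻¹ * (b - a)) ^ D with hP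
  have hP0 : 0 < P := by positivity
  have hPval : P = S / (((D : ℝ) + 1) ^ D * ε) := by
    have h1 : δ⁻¹ * (b - a) = (((D : ℝ) + 1) * u)⁻¹ := by
      rw [hδ]
      field_simp
    rw [hP, h1, inv_pow, mul_pow, huD]
    field_simp
  have hterm : ∀ y ∈ s, |f.eval y * ∏ z ∈ s.erase y, ((y - z)⁻¹ * (x0 - z))| < ε * P := by
    intro y hy
    have h1 : |∏ z ∈ s.erase y, ((y - z)⁻¹ * (x0 - z))| ≤ P := by
      rw [Finset.abs_prod]
      have h2 : P = ∏ _z ∈ s.erase y, (δ⁻¹ * (b - a)) := by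
        rw [Finset.prod_const, Finset.card_erase_of_mem hy, hcard, Nat.add_sub_cancel]
      rw [h2]
      apply Finset.prod_le_prod (fun _ _ => abs_nonneg _)
      intro z hz
      rw [abs_mul, abs_inv]
      have h3 : δ ≤ |y - z| := hsep y hy z (Finset.mem_of_mem_erase hz)
        (Finset.ne_of_mem_erase hz).symm
      have h4 : |x0 - z| ≤ b - a := by
        have hz' := (hsE z (Finset.mem_of_mem_erase hz)).1
        rw [abs_le]
        constructor <;> linarith [hx0.1, hx0.2, hz'.1, hz'.2]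
      exact mul_le_mul (inv_anti₀ hδ0 h3) h4 (abs_nonneg _) (inv_nonneg.2 hδ0.le)
    rw [abs_mul]
    calc |f.eval y| * |∏ z ∈ s.erase y, ((y - z)⁻¹ * (x0 - z))| ≤ |f.eval y| * P :=
          mul_le_mul_of_nonneg_left h1 (abs_nonneg _)
      _ < ε * P := mul_lt_mul_of_pos_right (hsE y hy).2 hP0
  have hne : s.Nonempty := by
    rw [← Finset.card_pos, hcard]
    omega
  have hlt : |f.eval x0| < (((D : ℝ) + 1)) * (ε * P) := by
    rw [heval]
    refine lt_of_le_of_lt (Finset.abs_sum_le_sum_abs _ _) ?_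
    refine lt_of_lt_of_le (Finset.sum_lt_sum_of_nonempty hne hterm) ?_
    rw [Finset.sum_const, hcard, nsmul_eq_mul]
    push_cast
    exact le_rfl
  have hfin : (((D : ℝ) + 1)) * (ε * P) ≤ S := by
    rw [hPval]
    have h1 : (D : ℝ) + 1 ≤ ((D : ℝ) + 1) ^ D := by
      have h2 : (1 : ℝ) ≤ (D : ℝ) + 1 := by
        have : (0 : ℝ) ≤ D := Nat.cast_nonneg D
        linarith
      calc (D : ℝ) + 1 = ((D : ℝ) + 1) ^ 1 := (pow_one _).symm
        _ ≤ ((D : ℝ) + 1) ^ D := pow_le_pow_right₀ h2 hD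
    have h3 : ((D : ℝ) + 1) * (ε * (S / (((D : ℝ) + 1) ^ D * ε))) =
        (((D : ℝ) + 1) / ((D : ℝ) + 1) ^ D) * S := by
      field_simp
    rw [h3]
    have h4 : ((D : ℝ) + 1) / ((D : ℝ) + 1) ^ D ≤ 1 := by
      rw [div_le_one (by positivity)]
      exact h1
    nlinarith
  exact absurd (hSx.trans_lt hlt) (not_lt.2 hfin)

end Ver4
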