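import Mathlib

open MeasureTheory

namespace Ver4

/-- The point `y` is marked: there is a chain `F` in `S` such that `ε ≤ ψ s y ≤ ρ` for `s ∈ F`, and
`ρ ≤ ψ s y` for all other `s ∈ S` which are comparable with all elements of `F`. -/
def Marked {T : Type*} [PartialOrder T] (S : Set T) (ψ : T → ℝ → ℝ) (ε ρ y : ℝ) : Prop :=
  ∃ F : Finset T, (F : Set T) ⊆ S ∧ IsChain (· ≤ ·) (F : Set T) ∧
    (∀ s ∈ F, ε ≤ ψ s y ∧ ψ s y ≤ ρ) ∧
    ∀ s ∈ S, s ∉ F → (∀ t ∈ F, s ≤ t ∨ t ≤ s) → ρ ≤ ψ s y

/-- the maximal ball at an unmarked point -/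
private theorem m2_ball {T : Type*} [PartialOrder T] (S : Set T) (ψ : T → ℝ → ℝ) (ε ρ : ℝ)
    (hcont : ∀ s ∈ S, Continuous (ψ s)) (hfin : ∀ y : ℝ, {s ∈ S | ψ s y < ρ}.Finite)
    (a b : ℝ) (hsup : ∀ s ∈ S, ∃ x ∈ Set.Icc a b, ρ ≤ ψ s x) (y : ℝ) (hy : y ∈ Set.Icc a b)
    (hun : ¬ Marked S ψ ε ρ y) :
    ∃ (r : ℝ) (s : T), s ∈ S ∧ 0 < r ∧ r ≤ b - a ∧
      (∀ x ∈ Set.Icc (y - r) (y + r), ψ s x ≤ ρ) ∧
      ∀ t ∈ S, ∃ x ∈ Set.Icc (y - r) (y + r), ρ ≤ ψ t x := by
  classical
  have hne : {s ∈ S | ψ s y < ρ}.Nonempty := by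
    by_contra hcon
    rw [Set.not_nonempty_iff_eq_empty] at hcon
    apply hun
    refine ⟨∅, by simp, by simp [IsChain], by simp, ?_⟩
    intro s hs _ _
    by_contra hlt
    rw [not_le] at hlt
    have : s ∈ {s ∈ S | ψ s y < ρ} := ⟨hs, hlt⟩
    rw [hcon] at this
    exact this
  -- the distance to the closed set where `ψ s` is at least `ρ`
  set Z : T → Set ℝ := fun s => {x | ρ ≤ ψ s x} with hZ
  have hZc : ∀ s ∈ S, IsClosed (Z s) := fun s hs => isClosed_le continuous_const (hcont s hs)
  have hZn : ∀ s ∈ S, (Z s).Nonempty := fun s hs => by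
    obtain ⟨x, _, hx⟩ := hsup s hs
    exact ⟨x, hx⟩
  obtain ⟨s, hs, hmax⟩ := Set.exists_max_image _ (fun s => Metric.infDist y (Z s)) (hfin y) hne
  set r : ℝ := Metric.infDist y (Z s) with hr
  have hball : ∀ t ∈ S, ∃ x ∈ Z t, Metric.infDist y (Z t) = dist y x := fun t ht =>
    (hZc t ht).exists_infDist_eq_dist (hZn t ht) y
  have hrpos : 0 < r := by
    rw [hr, ← (hZc s hs.1).notMem_iff_infDist_pos (hZn s hs.1)]
    intro h
    exact absurd hs.2 (not_lt.2 h)
  have hmem : ∀ x, x ∈ Set.Icc (y - r) (y + r) ↔ dist x y ≤ r := by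
    intro x
    rw [Real.dist_eq, abs_le, Set.mem_Icc]
    constructor <;> rintro ⟨h1, h2⟩ <;> constructor <;> linarith
  refine ⟨r, s, hs.1, hrpos, ?_, ?_, ?_⟩
  · obtain ⟨x, hx, hρ⟩ := hsup s hs.1
    have h1 : r ≤ dist y x := Metric.infDist_le_dist_of_mem hρ
    have h2 : dist y x ≤ b - a := by
      rw [Real.dist_eq, abs_le]
      constructor <;> linarith [hx.1, hx.2, hy.1, hy.2]
    linarith
  · intro x hx
    have hcl : IsClosed {x | ψ s x ≤ ρ} := isClosed_le (hcont s hs.1) continuous_const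
    have hsub : Metric.ball y r ⊆ {x | ψ s x ≤ ρ} := by
      intro z hz
      by_contra hcon
      have hz2 : z ∈ Z s := by
        have hcon' : ¬ ψ s z ≤ ρ := hcon
        exact (not_le.1 hcon').le
      have h3 : r ≤ dist y z := Metric.infDist_le_dist_of_mem hz2
      rw [Metric.mem_ball, dist_comm] at hz
      linarith
    have hsub2 := closure_minimal hsub hcl
    rw [closure_ball y hrpos.ne'] at hsub2
    exact hsub2 (Metric.mem_closedBall.2 ((hmem x).1 hx))
  · intro t ht
    by_cases hty : ψ t y < ρ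
    · obtain ⟨x, hx, hd⟩ := hball t ht
      refine ⟨x, (hmem x).2 ?_, hx⟩
      rw [dist_comm, ← hd]
      exact hmax t ⟨ht, hty⟩
    · exact ⟨y, (hmem y).2 (by rw [dist_self]; exact hrpos.le), not_lt.1 hty⟩

/-- M2: the combinatorial theorem of Kleinbock and Margulis (one variable). -/
theorem km_abstract {T : Type*} [PartialOrder T] (C α : ℝ) (hC : 0 < C) (hα : 0 < α) (k : ℕ) :
    ∃ K : ℝ, 0 < K ∧ ∀ (S : Set T) (ψ : T → ℝ → ℝ) (ε ρ : ℝ), 0 < ε → ε ≤ ρ →
    (∀ s ∈ S, Continuous (ψ s)) →
    (∀ F : Finset T, (F : Set T) ⊆ S → IsChain (· ≤ ·) (F : Set T) → F.card ≤ k) →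
    (∀ s ∈ S, ∀ a b : ℝ, a < b → ∀ σ : ℝ, 0 < σ → (∃ x ∈ Set.Icc a b, σ ≤ ψ s x) →
      ∀ ε' : ℝ, 0 < ε' → volume {x ∈ Set.Icc a b | ψ s x < ε'} ≤
        ENNReal.ofReal (C * (ε' / σ) ^ α * (b - a))) →
    (∀ y : ℝ, {s ∈ S | ψ s y < ρ}.Finite) →
    ∀ a b : ℝ, a < b → (∀ s ∈ S, ∃ x ∈ Set.Icc a b, ρ ≤ ψ s x) →
    volume {y ∈ Set.Icc a b | ¬ Marked S ψ ε ρ y} ≤
      ENNReal.ofReal (K * (ε / ρ) ^ α * (b - a)) := by
  classical
  obtain ⟨N, τ, hτ, hN⟩ := HasBesicovitchCovering.no_satelliteConfig (α := ℝ)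
  induction k with
  | zero =>
    refine ⟨1, one_pos, ?_⟩
    intro S ψ ε ρ hε hερ hcont hchain hgood hfin a b hab hsup
    have hS : S = ∅ := by
      by_contra hne
      obtain ⟨s, hs⟩ := Set.nonempty_iff_ne_empty.2 hne
      have := hchain {s} (by simpa using hs) (by simp [IsChain])
      simp at this
    have hempty : {y ∈ Set.Icc a b | ¬ Marked S ψ ε ρ y} = ∅ := by
      ext y
      simp only [Set.mem_sep_iff, Set.mem_empty_iff_false, iff_false, not_and, not_not]
      intro _
      refine ⟨∅, by simp, by simp [IsChain], by simp, ?_⟩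
      intro s hs
      rw [hS] at hs
      exact absurd hs (Set.notMem_empty s)
    rw [hempty]
    simp
  | succ k ih =>
    obtain ⟨K, hK, ih⟩ := ih
    refine ⟨3 * (N + 1) * (K + C), by positivity, ?_⟩
    intro S ψ ε ρ hε hερ hcont hchain hgood hfin a b hab hsup
    have hρ : 0 < ρ := lt_of_lt_of_le hε hερ
    set E : Set ℝ := {y ∈ Set.Icc a b | ¬ Marked S ψ ε ρ y} with hE
    have hch : ∀ y : E, ∃ (r : ℝ) (s : T), s ∈ S ∧ 0 < r ∧ r ≤ b - a ∧
        (∀ x ∈ Set.Icc ((y : ℝ) - r) (y + r), ψ s x ≤ ρ) ∧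
        ∀ t ∈ S, ∃ x ∈ Set.Icc ((y : ℝ) - r) (y + r), ρ ≤ ψ t x := fun y =>
      m2_ball S ψ ε ρ hcont hfin a b hsup y y.2.1 y.2.2
    choose r s hsS hr hrab hle hge using hch
    let q : Besicovitch.BallPackage E ℝ :=
      { c := fun y => (y : ℝ)
        r := r
        rpos := hr
        r_bound := b - a
        r_le := hrab }
    obtain ⟨u, hdisj, hcov⟩ := Besicovitch.exist_disjoint_covering_families hτ hN q
    have hqc : ∀ y : E, q.c y = (y : ℝ) := fun _ => rfl
    have hqr : ∀ y : E, q.r y = r y := fun _ => rfl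
    -- one ball
    set κ : ℝ := (K + C) * (ε / ρ) ^ α with hκ
    have hκ0 : 0 ≤ κ := by positivity
    have hone : ∀ y : E, volume (E ∩ Metric.closedBall (y : ℝ) (r y)) ≤
        ENNReal.ofReal κ * volume (Metric.closedBall (y : ℝ) (r y)) := by
      intro y
      set a' : ℝ := (y : ℝ) - r y with ha'
      set b' : ℝ := (y : ℝ) + r y with hb'
      have hab' : a' < b' := by rw [ha', hb']; linarith [hr y]
      set S' : Set T := {t ∈ S | t ≠ s y ∧ (t ≤ s y ∨ s y ≤ t)} with hS'
      have hS'S : S' ⊆ S := fun t ht => ht.1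
      have h1 := ih S' ψ ε ρ hε hερ (fun t ht => hcont t (hS'S ht)) ?_
        (fun t ht => hgood t (hS'S ht)) (fun z => (hfin z).subset ?_) a' b' hab'
        (fun t ht => hge y t (hS'S ht))
      · have h2 := hgood (s y) (hsS y) a' b' hab' ρ hρ (hge y (s y) (hsS y)) ε hε
        have hsub : E ∩ Metric.closedBall (y : ℝ) (r y) ⊆
            {z ∈ Set.Icc a' b' | ¬ Marked S' ψ ε ρ z} ∪ {x ∈ Set.Icc a' b' | ψ (s y) x < ε} := by
          rintro z ⟨hzE, hzB⟩
          have hz : z ∈ Set.Icc a' b' := by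
            rw [Real.closedBall_eq_Icc] at hzB
            exact hzB
          by_cases hzε : ψ (s y) z < ε
          · exact Or.inr ⟨hz, hzε⟩
          · refine Or.inl ⟨hz, fun hM => hzE.2 ?_⟩
            obtain ⟨F, hF1, hF2, hF3, hF4⟩ := hM
            refine ⟨insert (s y) F, ?_, ?_, ?_, ?_⟩
            · rw [Finset.coe_insert]
              exact Set.insert_subset (hsS y) (hF1.trans hS'S)
            · rw [Finset.coe_insert]
              exact hF2.insert fun t ht _ => ((hF1 ht).2.2).symm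
            · intro t ht
              rw [Finset.mem_insert] at ht
              rcases ht with rfl | ht
              · exact ⟨not_lt.1 hzε, hle y z hz⟩
              · exact hF3 t ht
            · intro t ht htF hcomp
              rw [Finset.mem_insert, not_or] at htF
              apply hF4 t ⟨ht, htF.1, hcomp (s y) (Finset.mem_insert_self _ _)⟩ htF.2
              intro t' ht'
              exact hcomp t' (Finset.mem_insert_of_mem ht')
        have hvol : volume (Metric.closedBall (y : ℝ) (r y)) = ENNReal.ofReal (b' - a') := by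
          rw [Real.closedBall_eq_Icc, Real.volume_Icc]
        calc volume (E ∩ Metric.closedBall (y : ℝ) (r y))
            ≤ volume {z ∈ Set.Icc a' b' | ¬ Marked S' ψ ε ρ z} +
              volume {x ∈ Set.Icc a' b' | ψ (s y) x < ε} :=
              (measure_mono hsub).trans (measure_union_le _ _)
          _ ≤ ENNReal.ofReal (K * (ε / ρ) ^ α * (b' - a')) +
              ENNReal.ofReal (C * (ε / ρ) ^ α * (b' - a')) := add_le_add h1 h2
          _ = ENNReal.ofReal κ * volume (Metric.closedBall (y : ℝ) (r y)) := by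
              have hba : 0 ≤ b' - a' := by linarith
              rw [hvol, ← ENNReal.ofReal_mul hκ0, ← ENNReal.ofReal_add (by positivity)
                (by positivity)]
              congr 1
              rw [hκ]
              ring
      · intro F hF hFc
        have h2 := hchain (insert (s y) F) ?_ ?_
        · rw [Finset.card_insert_of_notMem] at h2
          · omega
          · intro hmem
            exact (hF hmem).2.1 rfl
        · rw [Finset.coe_insert]
          exact Set.insert_subset (hsS y) (hF.trans hS'S)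
        · rw [Finset.coe_insert]
          exact hFc.insert fun t ht _ => ((hF ht).2.2).symm
      · rintro t ⟨ht, htρ⟩
        exact ⟨hS'S ht, htρ⟩
    -- one family
    have hfam : ∀ i : Fin N, volume (⋃ j ∈ u i, (E ∩ Metric.closedBall (j : ℝ) (r j))) ≤
        ENNReal.ofReal κ * ENNReal.ofReal (3 * (b - a)) := by
      intro i
      have hcount : (u i).Countable := by
        apply (hdisj i).countable_of_nonempty_interior
        intro j _
        have : (Metric.ball (q.c j) (q.r j)).Nonempty := Metric.nonempty_ball.2 (q.rpos j)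
        exact this.mono Metric.ball_subset_interior_closedBall
      calc volume (⋃ j ∈ u i, (E ∩ Metric.closedBall (j : ℝ) (r j)))
          ≤ ∑' j : u i, volume (E ∩ Metric.closedBall ((j : E) : ℝ) (r j)) :=
            measure_biUnion_le _ hcount _
        _ ≤ ∑' j : u i, ENNReal.ofReal κ * volume (Metric.closedBall ((j : E) : ℝ) (r j)) :=
            ENNReal.tsum_le_tsum fun j => hone j
        _ = ENNReal.ofReal κ * ∑' j : u i, volume (Metric.closedBall ((j : E) : ℝ) (r j)) :=
            ENNReal.tsum_mul_left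
        _ = ENNReal.ofReal κ * volume (⋃ j ∈ u i, Metric.closedBall (j : ℝ) (r j)) := by
            rw [measure_biUnion hcount (hdisj i) (fun j _ => Metric.isClosed_closedBall.measurableSet)]
        _ ≤ ENNReal.ofReal κ * volume (Set.Icc (a - (b - a)) (b + (b - a))) := by
            gcongr
            intro z hz
            simp only [Set.mem_iUnion] at hz
            obtain ⟨j, _, hz⟩ := hz
            rw [Real.closedBall_eq_Icc] at hz
            have h1 := j.2.1
            have h2 := hrab j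
            exact ⟨by linarith [hz.1, h1.1], by linarith [hz.2, h1.2]⟩
        _ = ENNReal.ofReal κ * ENNReal.ofReal (3 * (b - a)) := by
            rw [Real.volume_Icc]
            congr 2
            ring
    have hEsub : E ⊆ ⋃ i : Fin N, ⋃ j ∈ u i, (E ∩ Metric.closedBall (j : ℝ) (r j)) := by
      intro y hy
      have h1 := hcov (Set.mem_range_self (⟨y, hy⟩ : E))
      simp only [Set.mem_iUnion] at h1 ⊢
      obtain ⟨i, j, hj, h2⟩ := h1
      exact ⟨i, j, hj, hy, Metric.ball_subset_closedBall h2⟩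
    calc volume E ≤ volume (⋃ i : Fin N, ⋃ j ∈ u i, (E ∩ Metric.closedBall (j : ℝ) (r j))) :=
          measure_mono hEsub
      _ ≤ ∑ i : Fin N, volume (⋃ j ∈ u i, (E ∩ Metric.closedBall (j : ℝ) (r j))) :=
          measure_iUnion_fintype_le _ _
      _ ≤ ∑ _i : Fin N, ENNReal.ofReal κ * ENNReal.ofReal (3 * (b - a)) :=
          Finset.sum_le_sum fun i _ => hfam i
      _ = ENNReal.ofReal (N * (κ * (3 * (b - a)))) := by
          rw [Finset.sum_const, Finset.card_univ, Fintype.card_fin, nsmul_eq_mul,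
            ← ENNReal.ofReal_mul hκ0, ENNReal.ofReal_mul (Nat.cast_nonneg N),
            ENNReal.ofReal_natCast]
      _ ≤ ENNReal.ofReal (3 * (N + 1) * (K + C) * (ε / ρ) ^ α * (b - a)) := by
          apply ENNReal.ofReal_le_ofReal
          have hba : 0 ≤ b - a := by linarith
          have e : 3 * ((N : ℝ) + 1) * (K + C) * (ε / ρ) ^ α * (b - a) =
              N * (κ * (3 * (b - a))) + κ * (3 * (b - a)) := by rw [hκ]; ring
          rw [e]
          have : 0 ≤ κ * (3 * (b - a)) := by positivity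
          linarith

end Ver4
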