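import Pool.Agent.LibVer4.Defs

open Pool.Agent.LibInterm

namespace Ver4

/-- the inclusion of the integer vectors -/
def M3a_hom (k : ℕ) : (Fin k → ℤ) →ₗ[ℤ] (Fin k → ℚ) where
  toFun v j := (v j : ℚ)
  map_add' x y := by ext j; simp
  map_smul' t x := by ext j; simp

theorem M3a_hom_inj (k : ℕ) : Function.Injective (M3a_hom k) := by
  intro v w h
  ext j
  exact Int.cast_injective (α := ℚ) (congrFun h j)

theorem M3a_scale {k : ℕ} (v : Fin k → ℚ) : ∃ (N : ℤ) (z : Fin k → ℤ), N ≠ 0 ∧
    (fun l => (z l : ℚ)) = (N : ℚ) • v := by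
  refine ⟨∏ i, ((v i).den : ℤ), fun l => (v l).num * ∏ i ∈ Finset.univ.erase l, ((v i).den : ℤ),
    ?_, ?_⟩
  · rw [Finset.prod_ne_zero_iff]
    intro i _
    exact_mod_cast (v i).den_nz
  · ext l
    rw [Pi.smul_apply, smul_eq_mul, ← Finset.mul_prod_erase Finset.univ _ (Finset.mem_univ l)]
    push_cast
    have h1 : (v l).den * v l = (v l).num := Rat.den_mul_eq_num (v l)
    linear_combination (- ∏ i ∈ Finset.univ.erase l, ((v i).den : ℚ)) * h1

/-- M3a: a basis of the integer points of a rational subspace. Hint: the `ℤ`-submodule of the integer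
points is free (submodule of a free module over a PID); its rank is the dimension of `V` (a
`ℚ`-basis of `V` can be scaled to integer vectors). -/
theorem exists_zb {k : ℕ} (V : Submodule ℚ (Fin k → ℚ)) :
    ∃ c : Fin (Module.finrank ℚ V) → Fin k → ℤ, LinearIndependent ℤ c ∧
      (∀ i, (fun l => (c i l : ℚ)) ∈ V) ∧
      ∀ z : Fin k → ℤ, (fun l => (z l : ℚ)) ∈ V →
        ∃ y : Fin (Module.finrank ℚ V) → ℤ, z = ∑ i, y i • c i := by
  obtain ⟨r, b⟩ := Submodule.basisOfPid (Pi.basisFun ℤ (Fin k))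
    ((V.restrictScalars ℤ).comap (M3a_hom k))
  have hli : LinearIndependent ℤ (fun i => (b i : Fin k → ℤ)) :=
    b.linearIndependent.map' (Submodule.subtype _) (Submodule.ker_subtype _)
  have hmem : ∀ i, (fun l => ((b i : Fin k → ℤ) l : ℚ)) ∈ V := fun i => (b i).2
  have hgen : ∀ z : Fin k → ℤ, (fun l => (z l : ℚ)) ∈ V →
      ∃ y : Fin r → ℤ, z = ∑ i, y i • (b i : Fin k → ℤ) := by
    intro z hz
    refine ⟨fun i => b.repr ⟨z, hz⟩ i, ?_⟩
    have h1 := b.sum_repr ⟨z, hz⟩
    have h2 := congrArg (fun x : ((V.restrictScalars ℤ).comap (M3a_hom k)) => (x : Fin k → ℤ)) h1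
    simp only [Submodule.coe_sum, Submodule.coe_smul] at h2
    exact h2.symm
  have hliQ : LinearIndependent ℚ (fun i => M3a_hom k (b i : Fin k → ℤ)) := by
    rw [← LinearIndependent.iff_fractionRing (R := ℤ) (K := ℚ)]
    exact hli.map' (M3a_hom k) (LinearMap.ker_eq_bot.2 (M3a_hom_inj k))
  have hspan : Submodule.span ℚ (Set.range (fun i => M3a_hom k (b i : Fin k → ℤ))) = V := by
    apply le_antisymm
    · rw [Submodule.span_le]
      rintro _ ⟨i, rfl⟩
      exact hmem i
    · intro v hv
      obtain ⟨N, z, hN, hz⟩ := M3a_scale v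
      have hzV : (fun l => (z l : ℚ)) ∈ V := by
        rw [hz]
        exact V.smul_mem _ hv
      obtain ⟨y, hy⟩ := hgen z hzV
      have h3 : v = (N : ℚ)⁻¹ • (∑ i, (y i : ℚ) • M3a_hom k (b i : Fin k → ℤ)) := by
        have h4 : (∑ i, (y i : ℚ) • M3a_hom k (b i : Fin k → ℤ)) = fun l => (z l : ℚ) := by
          have h5 : (fun l => (z l : ℚ)) = M3a_hom k z := rfl
          rw [h5]
          conv_rhs => rw [hy]
          rw [map_sum]
          apply Finset.sum_congr rfl
          intro i _
          rw [map_smul, Int.cast_smul_eq_zsmul]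
        rw [h4, hz, smul_smul, inv_mul_cancel₀ (by exact_mod_cast hN), one_smul]
      rw [h3]
      apply Submodule.smul_mem
      apply Submodule.sum_mem
      intro i _
      exact Submodule.smul_mem _ _ (Submodule.subset_span ⟨i, rfl⟩)
  have hr : Module.finrank ℚ V = r := by
    have h4 := finrank_span_eq_card hliQ
    rwa [hspan, Fintype.card_fin] at h4
  rw [hr]
  exact ⟨fun i => b i, hli, hmem, hgen⟩

/-- The chosen basis of the integer points of `V`. -/
noncomputable def zb {k : ℕ} (V : Submodule ℚ (Fin k → ℚ)) :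
    Fin (Module.finrank ℚ V) → Fin k → ℤ := (exists_zb V).choose

/-- The size of the lattice of the integer points of `V`, seen through the matrix `B`: the largest
absolute value of a maximal minor. -/
noncomputable def psi {k : ℕ} (B : Matrix (Fin k) (Fin k) ℝ) (V : Submodule ℚ (Fin k → ℚ)) : ℝ :=
  ⨆ I : Fin (Module.finrank ℚ V) → Fin k, |(Matrix.of fun i l => zcomb B (zb V i) (I l)).det|

theorem minor_le_psi {k : ℕ} (B : Matrix (Fin k) (Fin k) ℝ) (V : Submodule ℚ (Fin k → ℚ))
    (I : Fin (Module.finrank ℚ V) → Fin k) :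
    |(Matrix.of fun i l => zcomb B (zb V i) (I l)).det| ≤ psi B V :=
  le_ciSup (f := fun I : Fin (Module.finrank ℚ V) → Fin k =>
    |(Matrix.of fun i l => zcomb B (zb V i) (I l)).det|) (Set.finite_range _).bddAbove I

theorem exists_minor_eq_psi {k : ℕ} (hk : 0 < k) (B : Matrix (Fin k) (Fin k) ℝ)
    (V : Submodule ℚ (Fin k → ℚ)) : ∃ I : Fin (Module.finrank ℚ V) → Fin k,
    psi B V = |(Matrix.of fun i l => zcomb B (zb V i) (I l)).det| := by
  have : Nonempty (Fin (Module.finrank ℚ V) → Fin k) := ⟨fun _ => ⟨0, hk⟩⟩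
  obtain ⟨I, hI⟩ := exists_eq_ciSup_of_finite (f := fun I : Fin (Module.finrank ℚ V) → Fin k =>
    |(Matrix.of fun i l => zcomb B (zb V i) (I l)).det|)
  exact ⟨I, hI.symm⟩

/-- Chains of nonzero subspaces have at most `k` elements. -/
theorem chain_card {k : ℕ} (F : Finset (Submodule ℚ (Fin k → ℚ))) (h : ∀ V ∈ F, V ≠ ⊥)
    (hF : IsChain (· ≤ ·) (F : Set (Submodule ℚ (Fin k → ℚ)))) : F.card ≤ k := by
  have h1 : F.card ≤ (Finset.Icc 1 k).card := by
    apply Finset.card_le_card_of_injOn (fun V : Submodule ℚ (Fin k → ℚ) => Module.finrank ℚ V)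
    · intro V hV
      rw [Finset.mem_coe, Finset.mem_Icc]
      constructor
      · have h2 := h V hV
        rw [Nat.one_le_iff_ne_zero]
        intro h3
        exact h2 (Submodule.finrank_eq_zero.1 h3)
      · have h3 := Submodule.finrank_le V
        simpa using h3
    · intro V hV W hW hVW
      rcases hF.total hV hW with h4 | h4
      · exact Submodule.eq_of_le_of_finrank_eq h4 hVW
      · exact (Submodule.eq_of_le_of_finrank_eq h4 hVW.symm).symm
  simpa using h1

end Ver4
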