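import Pool.Agent.LibVer4.M1
import Pool.Agent.LibVer4.M3a

open MeasureTheory Polynomial Pool.Agent.LibInterm

namespace Ver4

theorem zcomb_hmat_zero (m : ℕ) (H x : ℝ) (a : Fin (m + 1) → ℤ) :
    zcomb (hmat m H x) a 0 = H ^ m * ∑ i, (a i : ℝ) * x ^ (i : ℕ) := by
  simp only [zcomb, Matrix.vecMul, dotProduct, hmat, Matrix.of_apply, Fin.cases_zero]
  rw [Finset.mul_sum]
  apply Finset.sum_congr rfl
  intro i _
  ring

theorem zcomb_hmat_succ (m : ℕ) (H x : ℝ) (a : Fin (m + 1) → ℤ) (l : Fin m) :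
    zcomb (hmat m H x) a l.succ = a l.succ * H⁻¹ := by
  simp only [zcomb, Matrix.vecMul, dotProduct, hmat, Matrix.of_apply, Fin.cases_succ]
  rw [Finset.sum_eq_single l.succ]
  · rw [if_pos rfl]
  · intro i _ hi
    rw [if_neg hi, mul_zero]
  · intro h
    exact absurd (Finset.mem_univ _) h

theorem det_hmat (m : ℕ) (H x : ℝ) (hH : H ≠ 0) : (hmat m H x).det = 1 := by
  rw [Matrix.det_of_isLowerTriangular]
  · rw [Fin.prod_univ_succ]
    have h1 : ∀ l : Fin m, hmat m H x l.succ l.succ = H⁻¹ := by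
      intro l
      simp [hmat]
    have h2 : hmat m H x 0 0 = H ^ m := by
      simp [hmat]
    rw [h2, Finset.prod_congr rfl (fun l _ => h1 l), Finset.prod_const, Finset.card_univ,
      Fintype.card_fin, ← mul_pow, mul_inv_cancel₀ hH, one_pow]
  · intro i j hij
    have hij' : i < j := hij
    have hj0 : j ≠ 0 := by
      intro h0
      rw [h0] at hij'
      exact absurd hij' (Fin.not_lt_zero _)
    obtain ⟨l, rfl⟩ := Fin.exists_succ_eq.2 hj0
    simp only [hmat, Matrix.of_apply, Fin.cases_succ]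
    rw [if_neg hij'.ne]

/-- every minor is a polynomial in `x` of degree at most `m` -/
theorem minor_poly (m : ℕ) (H : ℝ) (j : ℕ) (c : Fin j → Fin (m + 1) → ℤ) (I : Fin j → Fin (m + 1)) :
    ∃ f : ℝ[X], f.natDegree ≤ m ∧ ∀ x, f.eval x =
      (Matrix.of fun i l => zcomb (hmat m H x) (c i) (I l)).det := by
  set M : Matrix (Fin j) (Fin j) ℝ[X] := Matrix.of fun i l =>
    Fin.cases (C (H ^ m) * ∑ k : Fin (m + 1), C ((c i k : ℝ)) * X ^ (k : ℕ))
      (fun s => C ((c i s.succ : ℝ) * H⁻¹)) (I l) with hM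
  have heval : ∀ x, M.det.eval x =
      (Matrix.of fun i l => zcomb (hmat m H x) (c i) (I l)).det := by
    intro x
    have h0 : M.det.eval x = (Polynomial.evalRingHom x) M.det := rfl
    rw [h0, RingHom.map_det]
    congr 1
    ext i l
    rw [Matrix.of_apply, RingHom.mapMatrix_apply, Matrix.map_apply, Polynomial.coe_evalRingHom,
      hM, Matrix.of_apply]
    rcases Fin.eq_zero_or_eq_succ (I l) with h | ⟨s, h⟩
    · rw [h, Fin.cases_zero, zcomb_hmat_zero]
      simp [Polynomial.eval_finsetSum]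
    · rw [h, Fin.cases_succ, zcomb_hmat_succ]
      simp
  by_cases hI : ∃ l l', l ≠ l' ∧ I l = 0 ∧ I l' = 0
  · obtain ⟨l, l', hl, h1, h2⟩ := hI
    refine ⟨0, by simp, fun x => ?_⟩
    rw [Polynomial.eval_zero, eq_comm]
    apply Matrix.det_zero_of_column_eq hl
    intro i
    simp only [Matrix.of_apply, h1, h2]
  · refine ⟨M.det, ?_, heval⟩
    rw [Matrix.det_apply]
    apply Polynomial.natDegree_sum_le_of_forall_le
    intro σ _
    refine (Polynomial.natDegree_smul_le _ _).trans ?_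
    refine (Polynomial.natDegree_prod_le _ _).trans ?_
    have hcol : ∀ l, (M (σ l) l).natDegree ≤ if I l = 0 then m else 0 := by
      intro l
      rw [hM, Matrix.of_apply]
      rcases Fin.eq_zero_or_eq_succ (I l) with h | ⟨s, h⟩
      · rw [h, Fin.cases_zero, if_pos rfl]
        refine (Polynomial.natDegree_C_mul_le _ _).trans ?_
        apply Polynomial.natDegree_sum_le_of_forall_le
        intro k _
        refine (Polynomial.natDegree_C_mul_X_pow_le _ _).trans ?_
        omega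
      · rw [h, Fin.cases_succ, Polynomial.natDegree_C]
        exact Nat.zero_le _
    refine (Finset.sum_le_sum (fun l _ => hcol l)).trans ?_
    rw [← Finset.sum_filter, Finset.sum_const, smul_eq_mul]
    have hcard : (Finset.univ.filter (fun l => I l = 0)).card ≤ 1 := by
      rw [Finset.card_le_one]
      intro a ha b hb
      by_contra hab
      exact hI ⟨a, b, hab, (Finset.mem_filter.1 ha).2, (Finset.mem_filter.1 hb).2⟩
    calc _ ≤ 1 * m := Nat.mul_le_mul_right m hcard
      _ = m := one_mul m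

theorem continuous_psi (m : ℕ) (H : ℝ) (V : Submodule ℚ (Fin (m + 1) → ℚ)) :
    Continuous fun x => psi (hmat m H x) V := by
  have h1 : ∀ x, psi (hmat m H x) V = Finset.univ.sup' Finset.univ_nonempty
      (fun I : Fin (Module.finrank ℚ V) → Fin (m + 1) =>
        |(Matrix.of fun i l => zcomb (hmat m H x) (zb V i) (I l)).det|) := by
    intro x
    rw [Finset.sup'_univ_eq_ciSup]
    rfl
  simp_rw [h1]
  apply Continuous.finset_sup'_apply
  intro I _
  obtain ⟨f, _, hf⟩ := minor_poly m H _ (zb V) I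
  have h2 : (fun x => |(Matrix.of fun i l => zcomb (hmat m H x) (zb V i) (I l)).det|) =
      fun x => |f.eval x| := by
    ext x
    rw [hf]
  rw [h2]
  exact f.continuous.abs

/-- Hint: `good_poly` for the minor which is largest at the given point. -/
theorem good_psi (m : ℕ) (hm : 1 ≤ m) : ∃ C : ℝ, 0 < C ∧ ∀ (H : ℝ)
    (V : Submodule ℚ (Fin (m + 1) → ℚ)),
    ∀ a b : ℝ, a < b → ∀ S : ℝ, 0 < S → (∃ x ∈ Set.Icc a b, S ≤ psi (hmat m H x) V) →
    ∀ ε : ℝ, 0 < ε → volume {x ∈ Set.Icc a b | psi (hmat m H x) V < ε} ≤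
      ENNReal.ofReal (C * (ε / S) ^ (1 / (m : ℝ)) * (b - a)) := by
  obtain ⟨C, hC, hgood⟩ := good_poly m hm
  refine ⟨C, hC, ?_⟩
  rintro H V a b hab S hS ⟨x0, hx0, hSx⟩ ε hε
  obtain ⟨I, hI⟩ := exists_minor_eq_psi (Nat.succ_pos m) (hmat m H x0) V
  obtain ⟨f, hfdeg, hf⟩ := minor_poly m H _ (zb V) I
  refine le_trans (measure_mono ?_) (hgood f hfdeg a b hab S hS ⟨x0, hx0, ?_⟩ ε hε)
  · rintro x ⟨hx, hlt⟩
    refine ⟨hx, ?_⟩
    rw [hf]
    exact (minor_le_psi (hmat m H x) V I).trans_lt hlt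
  · rw [hf, ← hI]
    exact hSx

end Ver4
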