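import Pool.Agent.LibVer4.M3a

open Pool.Agent.LibInterm

namespace Ver4

theorem M3c_apply {k : ℕ} (B : Matrix (Fin k) (Fin k) ℝ) (a : Fin k → ℤ) (l : Fin k) :
    zcomb B a l = ∑ i, (a i : ℝ) * B i l := rfl

theorem M3c_ne {k : ℕ} (B : Matrix (Fin k) (Fin k) ℝ) (hB : B.det ≠ 0) (z : Fin k → ℤ)
    (hz : z ≠ 0) : 0 < ‖zcomb B z‖ := by
  rw [norm_pos_iff]
  intro h
  apply hz
  have h1 := Matrix.eq_zero_of_vecMul_eq_zero hB h
  ext j
  have h2 := congrFun h1 j
  simpa using h2

theorem M3c_min {k : ℕ} (B : Matrix (Fin k) (Fin k) ℝ) (hB : B.det ≠ 0) :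
    ∃ e : ℝ, 0 < e ∧ e ≤ 1 ∧ ∀ z : Fin k → ℤ, z ≠ 0 → e ≤ ‖zcomb B z‖ := by
  have hfin : {a : Fin k → ℤ | a ≠ 0 ∧ ‖zcomb B a‖ ≤ 1}.Finite :=
    (finite_zcomb_sup_le B hB 1).subset (fun a ha => ha.2)
  rcases Set.eq_empty_or_nonempty {a : Fin k → ℤ | a ≠ 0 ∧ ‖zcomb B a‖ ≤ 1} with h | h
  · refine ⟨1, one_pos, le_rfl, fun z hz => ?_⟩
    by_contra hcon
    have : z ∈ {a : Fin k → ℤ | a ≠ 0 ∧ ‖zcomb B a‖ ≤ 1} := ⟨hz, (not_le.1 hcon).le⟩
    rw [h] at this
    exact this
  · obtain ⟨a, ha, hmin⟩ := Set.exists_min_image _ (fun a => ‖zcomb B a‖) hfin h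
    refine ⟨‖zcomb B a‖, M3c_ne B hB a ha.1, ha.2, fun z hz => ?_⟩
    by_cases h1 : ‖zcomb B z‖ ≤ 1
    · exact hmin z ⟨hz, h1⟩
    · exact ha.2.trans (not_le.1 h1).le

theorem M3c_li {n r : ℕ} (B : Matrix (Fin (n + 1)) (Fin (n + 1)) ℝ) (hB : B.det ≠ 0)
    (c : Fin r → Fin (n + 1) → ℤ) (h : LinearIndependent ℤ c) :
    LinearIndependent ℝ (fun i => zcomb B (c i)) := by
  have h1 : LinearIndependent ℝ (fun i => (fun j => (c i j : ℝ) : Fin (n + 1) → ℝ)) := by
    have h2 := linearIndependent_intVec c h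
    have h3 : (fun i => intVec (c i)) = (WithLp.linearEquiv 2 ℝ (Fin (n + 1) → ℝ)).symm ∘
        (fun i => (fun j => (c i j : ℝ) : Fin (n + 1) → ℝ)) := rfl
    rw [h3] at h2
    exact (LinearMap.linearIndependent_iff _ (LinearEquiv.ker _)).1 h2
  have h4 : LinearMap.ker (Matrix.vecMulLinear B) = ⊥ := by
    rw [LinearMap.ker_eq_bot']
    intro v hv
    exact Matrix.eq_zero_of_vecMul_eq_zero hB hv
  exact h1.map' (Matrix.vecMulLinear B) h4

theorem M3c_comb {k r : ℕ} (B : Matrix (Fin k) (Fin k) ℝ) (c : Fin r → Fin k → ℤ)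
    (y : Fin r → ℤ) (l : Fin k) :
    zcomb B (∑ j, y j • c j) l = ∑ j, (y j : ℝ) * zcomb B (c j) l := by
  simp only [M3c_apply, Finset.sum_apply, Pi.smul_apply, smul_eq_mul, Int.cast_sum, Int.cast_mul,
    Finset.sum_mul, Finset.mul_sum]
  rw [Finset.sum_comm]
  apply Finset.sum_congr rfl
  intro j _
  apply Finset.sum_congr rfl
  intro i _
  ring

theorem M3c_bound {n : ℕ} (B : Matrix (Fin (n + 1)) (Fin (n + 1)) ℝ) (hB : B.det ≠ 0)
    (V : Submodule ℚ (Fin (n + 1) → ℚ)) :
    ∃ v : Fin (Module.finrank ℚ V) → Fin (n + 1) → ℤ,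
      LinearIndependent ℝ (fun i => zcomb B (v i)) ∧ (∀ i, (fun l => (v i l : ℚ)) ∈ V) ∧
      ∏ i, ‖zcomb B (v i)‖ ≤ (Module.finrank ℚ V : ℝ) ^ Module.finrank ℚ V *
        (Real.sqrt (Module.finrank ℚ V : ℝ) ^ Module.finrank ℚ V * psi B V) := by
  obtain ⟨hli, hmem, -⟩ := (exists_zb V).choose_spec
  have hliR := M3c_li B hB (zb V) hli
  obtain ⟨I, hI⟩ := exists_minor_eq_psi (Nat.succ_pos n) B V
  set U : Matrix (Fin (Module.finrank ℚ V)) (Fin (Module.finrank ℚ V)) ℝ :=
    Matrix.of fun i l => zcomb B (zb V i) (I l) with hU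
  have hdetU : U.det ≠ 0 := by
    intro h0
    obtain ⟨J, hJ⟩ := exists_minor_ne_zero
      (Matrix.of fun i j => zcomb B (zb V i) j :
        Matrix (Fin (Module.finrank ℚ V)) (Fin (n + 1)) ℝ) hliR
    apply hJ
    have h1 := minor_le_psi B V J
    rw [hI, h0, abs_zero] at h1
    exact abs_nonpos_iff.1 h1
  obtain ⟨a, hali, haprod⟩ := weak_minkowski_second U hdetU
  set v : Fin (Module.finrank ℚ V) → Fin (n + 1) → ℤ := fun i => ∑ j, a i j • zb V j with hv
  have hvU : ∀ i l, zcomb B (v i) (I l) = zcomb U (a i) l := by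
    intro i l
    rw [hv, M3c_comb, M3c_apply U]
    rfl
  refine ⟨v, ?_, ?_, ?_⟩
  · let φ : (Fin (n + 1) → ℝ) →ₗ[ℝ] (Fin (Module.finrank ℚ V) → ℝ) :=
      { toFun := fun x j => x (I j)
        map_add' := fun x y => rfl
        map_smul' := fun t x => rfl }
    apply LinearIndependent.of_comp φ
    have h1 : (φ ∘ fun i => zcomb B (v i)) = fun i => zcomb U (a i) := by
      ext i j
      exact hvU i j
    rw [h1]
    exact hali
  · intro i
    have h1 : (fun l => (v i l : ℚ)) = ∑ j, (a i j : ℚ) • (fun l => (zb V j l : ℚ)) := by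
      ext l
      simp [hv]
    rw [h1]
    exact Submodule.sum_mem _ (fun j _ => Submodule.smul_mem _ _ (hmem j))
  · have hnorm : ∀ i, ‖zcomb B (v i)‖ ≤ (Module.finrank ℚ V : ℝ) * ‖zcomb U (a i)‖ := by
      intro i
      rw [pi_norm_le_iff_of_nonneg (by positivity)]
      intro l
      rw [Real.norm_eq_abs]
      set w : Fin (Module.finrank ℚ V) → ℝ := fun j => zcomb B (zb V j) l with hw
      have h1 : U.det * zcomb B (v i) l = ∑ j, zcomb U (a i) j * (U.cramer w) j := by
        have h2 : zcomb B (v i) l = (fun j => (a i j : ℝ)) ⬝ᵥ w := by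
          rw [hv, M3c_comb]
          rfl
        have h3 : U.det • w = Matrix.mulVec U (U.cramer w) := (Matrix.mulVec_cramer U w).symm
        calc U.det * zcomb B (v i) l = (fun j => (a i j : ℝ)) ⬝ᵥ (U.det • w) := by
              rw [h2, dotProduct_smul, smul_eq_mul]
          _ = zcomb U (a i) ⬝ᵥ U.cramer w := by
              rw [h3, Matrix.dotProduct_mulVec]
              rfl
          _ = _ := rfl
      have h4 : ∀ j, |(U.cramer w) j| ≤ |U.det| := by
        intro j
        rw [Matrix.cramer_apply]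
        have h5 : U.updateCol j w =
            Matrix.of fun i' j' => zcomb B (zb V i') ((Function.update I j l) j') := by
          ext i' j'
          by_cases h : j' = j
          · subst h
            simp [hw]
          · simp [h, hU]
        rw [h5]
        refine (minor_le_psi B V _).trans ?_
        rw [hI]
      have h6 : |U.det| * |zcomb B (v i) l| ≤
          |U.det| * ((Module.finrank ℚ V : ℝ) * ‖zcomb U (a i)‖) := by
        rw [← abs_mul, h1]
        calc |∑ j, zcomb U (a i) j * (U.cramer w) j|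
            ≤ ∑ j, |zcomb U (a i) j * (U.cramer w) j| := Finset.abs_sum_le_sum_abs _ _
          _ ≤ ∑ _j : Fin (Module.finrank ℚ V), ‖zcomb U (a i)‖ * |U.det| := by
              apply Finset.sum_le_sum
              intro j _
              rw [abs_mul]
              exact mul_le_mul (norm_le_pi_norm (zcomb U (a i)) j) (h4 j) (abs_nonneg _)
                (norm_nonneg _)
          _ = |U.det| * ((Module.finrank ℚ V : ℝ) * ‖zcomb U (a i)‖) := by
              rw [Finset.sum_const, Finset.card_univ, Fintype.card_fin, nsmul_eq_mul]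
              ring
      exact le_of_mul_le_mul_left h6 (abs_pos.2 hdetU)
    calc ∏ i, ‖zcomb B (v i)‖ ≤ ∏ i, ((Module.finrank ℚ V : ℝ) * ‖zcomb U (a i)‖) :=
          Finset.prod_le_prod (fun _ _ => norm_nonneg _) (fun i _ => hnorm i)
      _ = (Module.finrank ℚ V : ℝ) ^ Module.finrank ℚ V * ∏ i, ‖zcomb U (a i)‖ := by
          rw [Finset.prod_mul_distrib, Finset.prod_const, Finset.card_univ, Fintype.card_fin]
      _ ≤ _ := by
          rw [hI]
          exact mul_le_mul_of_nonneg_left haprod (by positivity)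

/-- M3c: only finitely many subspaces are small. Hint: let `I` be a maximal minor of
`U i = zcomb B (zb V i)` (so the other coordinates are combinations of the coordinates `I l` with
coefficients of absolute value at most `1`, by Cramer's rule); `weak_minkowski_second`
(`LibInterm/Minkowski2.lean`) for the square matrix `U i (I l)` gives independent integer vectors
`v_i ∈ V` with `∏ ‖zcomb B v_i‖ ≤ C psi B V`; each factor is at least `ε₀ > 0` (the minimum of the
lattice, `finite_zcomb_sup_le`), so each is bounded, and there are finitely many such tuples; `V` is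
their span. Compare `exists_reduced_basis` in `LibInterm/Heights.lean`. -/
theorem finite_psi {k : ℕ} (hk : 0 < k) (B : Matrix (Fin k) (Fin k) ℝ) (hB : B.det ≠ 0) (ρ : ℝ) :
    {V : Submodule ℚ (Fin k → ℚ) | V ≠ ⊥ ∧ psi B V < ρ}.Finite := by
  obtain ⟨n, rfl⟩ := Nat.exists_eq_succ_of_ne_zero hk.ne'
  obtain ⟨e, he, he1, hmin⟩ := M3c_min B hB
  set K : ℝ := ((n + 1 : ℕ) : ℝ) ^ (n + 1) * (Real.sqrt ((n + 1 : ℕ) : ℝ) ^ (n + 1) * ρ) with hK
  have hfin := finite_zcomb_sup_le B hB (K / e ^ n)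
  refine (hfin.powerset.image (fun s : Set (Fin (n + 1) → ℤ) =>
    Submodule.span ℚ ((fun (z : Fin (n + 1) → ℤ) (l : Fin (n + 1)) => (z l : ℚ)) '' s))).subset ?_
  rintro V ⟨hV, hpsi⟩
  obtain ⟨v, hvli, hvV, hvprod⟩ := M3c_bound B hB V
  refine ⟨Set.range v, ?_, ?_⟩
  · rintro _ ⟨i, rfl⟩
    have hr : Module.finrank ℚ V ≤ n + 1 := by simpa using Submodule.finrank_le V
    have hpsi0 : 0 ≤ psi B V := by
      obtain ⟨I, hI⟩ := exists_minor_eq_psi (Nat.succ_pos n) B V
      rw [hI]
      exact abs_nonneg _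
    have hge : ∀ j, e ≤ ‖zcomb B (v j)‖ := by
      intro j
      apply hmin
      intro h0
      apply hvli.ne_zero j
      rw [h0]
      ext l
      simp [M3c_apply]
    have hle : (Module.finrank ℚ V : ℝ) ^ Module.finrank ℚ V *
        (Real.sqrt (Module.finrank ℚ V : ℝ) ^ Module.finrank ℚ V * psi B V) ≤ K := by
      have hrR : (Module.finrank ℚ V : ℝ) ≤ ((n + 1 : ℕ) : ℝ) := by exact_mod_cast hr
      have h1 : (1 : ℝ) ≤ ((n + 1 : ℕ) : ℝ) := by
        push_cast
        linarith [(Nat.cast_nonneg n : (0 : ℝ) ≤ n)]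
      have h2 : (1 : ℝ) ≤ Real.sqrt ((n + 1 : ℕ) : ℝ) := Real.one_le_sqrt.2 h1
      have h3 : (Module.finrank ℚ V : ℝ) ^ Module.finrank ℚ V ≤ ((n + 1 : ℕ) : ℝ) ^ (n + 1) :=
        (pow_le_pow_left₀ (by positivity) hrR _).trans (pow_le_pow_right₀ h1 hr)
      have h4 : Real.sqrt (Module.finrank ℚ V : ℝ) ^ Module.finrank ℚ V ≤
          Real.sqrt ((n + 1 : ℕ) : ℝ) ^ (n + 1) :=
        (pow_le_pow_left₀ (by positivity) (Real.sqrt_le_sqrt hrR) _).trans
          (pow_le_pow_right₀ h2 hr)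
      rw [hK]
      exact mul_le_mul h3 (mul_le_mul h4 hpsi.le hpsi0 (by positivity)) (by positivity)
        (by positivity)
    have hsplit : ‖zcomb B (v i)‖ * ∏ j ∈ Finset.univ.erase i, ‖zcomb B (v j)‖ ≤ K := by
      rw [Finset.mul_prod_erase Finset.univ (fun j => ‖zcomb B (v j)‖) (Finset.mem_univ i)]
      exact hvprod.trans hle
    have hrest : e ^ n ≤ ∏ j ∈ Finset.univ.erase i, ‖zcomb B (v j)‖ := by
      have hcard : (Finset.univ.erase i).card ≤ n := by
        rw [Finset.card_erase_of_mem (Finset.mem_univ i), Finset.card_univ, Fintype.card_fin]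
        omega
      calc e ^ n ≤ e ^ (Finset.univ.erase i).card := pow_le_pow_of_le_one he.le he1 hcard
        _ = ∏ _j ∈ Finset.univ.erase i, e := by rw [Finset.prod_const]
        _ ≤ _ := Finset.prod_le_prod (fun _ _ => he.le) (fun j _ => hge j)
    show ‖zcomb B (v i)‖ ≤ K / e ^ n
    rw [le_div_iff₀ (pow_pos he n)]
    exact (mul_le_mul_of_nonneg_left hrest (norm_nonneg _)).trans hsplit
  · show Submodule.span ℚ _ = V
    have hliQ' : LinearIndependent ℚ (fun i => zcomb B (v i)) := by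
      refine hvli.restrict_scalars ?_
      intro p q hpq
      simpa using hpq
    let φ : (Fin (n + 1) → ℚ) →ₗ[ℚ] (Fin (n + 1) → ℝ) :=
      { toFun := fun q l => ∑ i, (q i : ℝ) * B i l
        map_add' := fun x y => by
          ext l
          simp [add_mul, Finset.sum_add_distrib]
        map_smul' := fun t x => by
          ext l
          simp [Finset.mul_sum, mul_assoc, Rat.smul_def] }
    have hliQ : LinearIndependent ℚ
        (fun i => (fun l => (v i l : ℚ) : Fin (n + 1) → ℚ)) := by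
      apply LinearIndependent.of_comp φ
      have h1 : (φ ∘ fun i => (fun l => (v i l : ℚ) : Fin (n + 1) → ℚ)) =
          fun i => zcomb B (v i) := by
        ext i l
        simp [φ, M3c_apply]
      rw [h1]
      exact hliQ'
    have himg : ((fun (z : Fin (n + 1) → ℤ) (l : Fin (n + 1)) => (z l : ℚ)) '' Set.range v) =
        Set.range (fun i => (fun l => (v i l : ℚ) : Fin (n + 1) → ℚ)) := by
      rw [← Set.range_comp]
      rfl
    rw [himg]
    apply Submodule.eq_of_le_of_finrank_eq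
    · rw [Submodule.span_le]
      rintro _ ⟨i, rfl⟩
      exact hvV i
    · rw [finrank_span_eq_card hliQ, Fintype.card_fin]

end Ver4
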