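import Pool.Agent.LibVer4.M3a

open Pool.Agent.LibInterm

namespace Ver4

/-- a nonzero integer polynomial of degree at most `m` is not small on a whole interval -/
theorem int_poly_sup (m : ℕ) (a b : ℝ) (hab : a < b) : ∃ c : ℝ, 0 < c ∧ c ≤ 1 ∧
    ∀ z : Fin (m + 1) → ℤ, z ≠ 0 → ∃ x ∈ Set.Icc a b, c ≤ |∑ i, (z i : ℝ) * x ^ (i : ℕ)| := by
  set xs : Fin (m + 1) → ℝ := fun j => a + (b - a) * ((j : ℕ) / ((m : ℝ) + 1)) with hxs
  have hm : (0 : ℝ) < (m : ℝ) + 1 := by positivity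
  have hba : 0 < b - a := sub_pos.2 hab
  have hinj : Function.Injective xs := by
    intro i j hij
    simp only [hxs] at hij
    have h1 : (b - a) * (((i : ℕ) : ℝ) / ((m : ℝ) + 1)) =
        (b - a) * (((j : ℕ) : ℝ) / ((m : ℝ) + 1)) := by linarith
    have h2 := mul_left_cancel₀ hba.ne' h1
    rw [div_left_inj' hm.ne'] at h2
    exact Fin.ext (by exact_mod_cast h2)
  have hmem : ∀ j, xs j ∈ Set.Icc a b := by
    intro j
    have h1 : 0 ≤ ((j : ℕ) : ℝ) / ((m : ℝ) + 1) := by positivity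
    have h2 : ((j : ℕ) : ℝ) / ((m : ℝ) + 1) ≤ 1 := by
      rw [div_le_one hm]
      have h3 : ((j : ℕ) : ℝ) ≤ m := by exact_mod_cast Nat.lt_succ_iff.1 j.2
      linarith
    constructor
    · simp only [hxs]
      nlinarith
    · simp only [hxs]
      nlinarith
  set M : Matrix (Fin (m + 1)) (Fin (m + 1)) ℝ := Matrix.vandermonde xs with hM
  have hdet : IsUnit M.det :=
    isUnit_iff_ne_zero.2 (Matrix.det_vandermonde_ne_zero_iff.2 hinj)
  set K : ℝ := (∑ i, ∑ j, |M⁻¹ i j|) + 1 with hK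
  have hK0 : 0 ≤ ∑ i, ∑ j, |M⁻¹ i j| :=
    Finset.sum_nonneg (fun i _ => Finset.sum_nonneg (fun j _ => abs_nonneg _))
  have hKpos : 0 < K := by linarith
  refine ⟨K⁻¹, inv_pos.2 hKpos, inv_le_one_of_one_le₀ (by linarith), fun z hz => ?_⟩
  by_contra hcon
  push Not at hcon
  apply hz
  ext i
  have h1 : (fun j => (z j : ℝ)) = M⁻¹.mulVec (M.mulVec (fun j => (z j : ℝ))) := by
    rw [Matrix.mulVec_mulVec, Matrix.nonsing_inv_mul M hdet, Matrix.one_mulVec]
  have h2 : ∀ j, |M.mulVec (fun j => (z j : ℝ)) j| ≤ K⁻¹ := by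
    intro j
    have h3 := hcon (xs j) (hmem j)
    have h4 : M.mulVec (fun j => (z j : ℝ)) j = ∑ i, (z i : ℝ) * xs j ^ (i : ℕ) := by
      simp only [Matrix.mulVec, dotProduct, hM, Matrix.vandermonde_apply]
      exact Finset.sum_congr rfl (fun i _ => mul_comm _ _)
    rw [h4]
    exact h3.le
  have h5 : |(z i : ℝ)| < 1 := by
    have h6 := congrFun h1 i
    rw [h6]
    calc |(M⁻¹.mulVec (M.mulVec (fun j => (z j : ℝ)))) i|
        = |∑ j, M⁻¹ i j * M.mulVec (fun j => (z j : ℝ)) j| := rfl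
      _ ≤ ∑ j, |M⁻¹ i j * M.mulVec (fun j => (z j : ℝ)) j| := Finset.abs_sum_le_sum_abs _ _
      _ ≤ ∑ j, |M⁻¹ i j| * K⁻¹ := by
          apply Finset.sum_le_sum
          intro j _
          rw [abs_mul]
          exact mul_le_mul_of_nonneg_left (h2 j) (abs_nonneg _)
      _ = (∑ j, |M⁻¹ i j|) * K⁻¹ := by rw [Finset.sum_mul]
      _ ≤ (∑ i, ∑ j, |M⁻¹ i j|) * K⁻¹ := by
          apply mul_le_mul_of_nonneg_right _ (inv_pos.2 hKpos).le
          exact Finset.single_le_sum (f := fun i => ∑ j, |M⁻¹ i j|)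
            (fun i _ => Finset.sum_nonneg (fun j _ => abs_nonneg _)) (Finset.mem_univ i)
      _ < 1 := by
          rw [← div_eq_mul_inv, div_lt_one hKpos]
          linarith
  have h7 : |z i| < 1 := by exact_mod_cast h5
  exact Int.abs_lt_one_iff.1 h7

theorem M3d_succ (m : ℕ) (H x : ℝ) (a : Fin (m + 1) → ℤ) (l : Fin (m + 1)) (hl : l ≠ 0) :
    zcomb (hmat m H x) a l = a l * H⁻¹ := by
  obtain ⟨s, rfl⟩ := Fin.exists_succ_eq.2 hl
  simp only [zcomb, Matrix.vecMul, dotProduct, hmat, Matrix.of_apply, Fin.cases_succ]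
  rw [Finset.sum_eq_single s.succ]
  · rw [if_pos rfl]
  · intro i _ hi
    rw [if_neg hi, mul_zero]
  · intro h
    exact absurd (Finset.mem_univ _) h

theorem M3d_zero (m : ℕ) (H x : ℝ) (a : Fin (m + 1) → ℤ) :
    zcomb (hmat m H x) a 0 = H ^ m * ∑ i : Fin (m + 1), x ^ (i : ℕ) * (a i : ℝ) := by
  simp only [zcomb, Matrix.vecMul, dotProduct, hmat, Matrix.of_apply, Fin.cases_zero]
  rw [Finset.mul_sum]
  apply Finset.sum_congr rfl
  intro i _
  ring

/-- the minor with one column replaced by the column `0` -/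
theorem M3d_minor (m : ℕ) (H x : ℝ) {r : ℕ} (c : Fin r → Fin (m + 1) → ℤ)
    (t : Fin r → Fin (m + 1)) (l0 : Fin r) (ht : ∀ l, l ≠ l0 → t l ≠ 0) :
    (Matrix.of fun i l => zcomb (hmat m H x) (c i) ((Function.update t l0 0) l)).det =
      (H ^ m * H⁻¹ ^ (r - 1)) * ∑ s : Fin (m + 1),
        (((Matrix.of fun i l => c i ((Function.update t l0 s) l)).det : ℤ) : ℝ) *
          x ^ (s : ℕ) := by
  set N : Matrix (Fin r) (Fin r) ℝ := Matrix.of fun i l => (c i (t l) : ℝ) with hN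
  set w : Fin r → ℝ := fun i => ∑ s : Fin (m + 1), x ^ (s : ℕ) * (c i s : ℝ) with hw
  have h1 : (Matrix.of fun i l => zcomb (hmat m H x) (c i) ((Function.update t l0 0) l)) =
      Matrix.of fun i l => (if l = l0 then H ^ m else H⁻¹) * N.updateCol l0 w i l := by
    ext i l
    rw [Matrix.of_apply, Matrix.of_apply]
    by_cases h : l = l0
    · subst h
      rw [Function.update_self, if_pos rfl, Matrix.updateCol_self, M3d_zero]
    · rw [Function.update_of_ne h, if_neg h, Matrix.updateCol_ne h, M3d_succ _ _ _ _ _ (ht l h),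
        mul_comm]
      rfl
  have h2 : ∏ l : Fin r, (if l = l0 then H ^ m else H⁻¹) = H ^ m * H⁻¹ ^ (r - 1) := by
    rw [← Finset.mul_prod_erase Finset.univ _ (Finset.mem_univ l0), if_pos rfl]
    congr 1
    rw [Finset.prod_congr rfl (g := fun _ => H⁻¹)]
    · rw [Finset.prod_const, Finset.card_erase_of_mem (Finset.mem_univ _), Finset.card_univ,
        Fintype.card_fin]
    · intro l hl
      rw [if_neg (Finset.ne_of_mem_erase hl)]
  have h3 : w = ∑ s : Fin (m + 1), x ^ (s : ℕ) • (fun i => (c i s : ℝ)) := by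
    ext i
    rw [hw, Finset.sum_apply]
    rfl
  rw [h1, Matrix.det_mul_row, h2]
  congr 1
  rw [← Matrix.cramer_apply, h3, map_sum, Finset.sum_apply]
  apply Finset.sum_congr rfl
  intro s _
  rw [map_smul, Pi.smul_apply, smul_eq_mul, Matrix.cramer_apply, mul_comm]
  congr 1
  rw [Int.cast_det]
  congr 1
  ext i l
  by_cases h : l = l0
  · subst h
    rw [Matrix.updateCol_self]
    simp
  · rw [Matrix.updateCol_ne h]
    simp [h, hN]

/-- M3d: lower bound for the supremum. Hint: `j = finrank V`, `c i = zb V i`. Some minor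
`det (c i (t l))`, `t` strictly increasing, is not zero. Take `I = (0, t_1, …, t_{j-1})` (the first
column replaced by `0`): the minor of `zcomb (hmat m H x) (c i)` is
`H^{m-(j-1)} ∑_t x^t det (c i t, c i t_1, …, c i t_{j-1})`, an integer polynomial with the nonzero
coefficient `t = t_0`; and `H^{m-(j-1)} ≥ 1`. -/
theorem sup_psi (m : ℕ) (a b : ℝ) (hab : a < b) : ∃ c : ℝ, 0 < c ∧ c ≤ 1 ∧
    ∀ (H : ℝ), 1 ≤ H → ∀ V : Submodule ℚ (Fin (m + 1) → ℚ), V ≠ ⊥ →
    ∃ x ∈ Set.Icc a b, c ≤ psi (hmat m H x) V := by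
  obtain ⟨c, hc, hc1, hsup⟩ := int_poly_sup m a b hab
  refine ⟨c, hc, hc1, fun H hH V hV => ?_⟩
  have hr0 : 0 < Module.finrank ℚ V := by
    rw [Nat.pos_iff_ne_zero]
    intro h0
    exact hV (Submodule.finrank_eq_zero.1 h0)
  have hr : Module.finrank ℚ V ≤ m + 1 := by simpa using Submodule.finrank_le V
  obtain ⟨t, ht⟩ := exists_minor_int (zb V) (exists_zb V).choose_spec.1
  have htinj : Function.Injective t := by
    intro l l' hll
    by_contra hne
    apply ht
    apply Matrix.det_zero_of_column_eq hne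
    intro i
    simp [hll]
  obtain ⟨l0, hl0⟩ : ∃ l0 : Fin (Module.finrank ℚ V), ∀ l, l ≠ l0 → t l ≠ 0 := by
    by_cases h : ∃ l, t l = 0
    · obtain ⟨l0, h0⟩ := h
      refine ⟨l0, fun l hl h1 => hl (htinj ?_)⟩
      rw [h1, h0]
    · push Not at h
      exact ⟨⟨0, hr0⟩, fun l _ => h l⟩
  set z : Fin (m + 1) → ℤ := fun s =>
    (Matrix.of fun i l => zb V i ((Function.update t l0 s) l)).det with hz
  have hz0 : z ≠ 0 := by
    intro h0
    apply ht
    have h1 := congrFun h0 (t l0)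
    simp only [hz, Function.update_eq_self, Pi.zero_apply] at h1
    exact h1
  obtain ⟨x, hx, hcx⟩ := hsup z hz0
  refine ⟨x, hx, ?_⟩
  refine le_trans ?_ (minor_le_psi (hmat m H x) V (Function.update t l0 0))
  rw [M3d_minor m H x (zb V) t l0 hl0, abs_mul]
  have hfac : 1 ≤ |H ^ m * H⁻¹ ^ (Module.finrank ℚ V - 1)| := by
    refine le_trans ?_ (le_abs_self _)
    obtain ⟨e, he⟩ := Nat.exists_eq_add_of_le (show Module.finrank ℚ V - 1 ≤ m by omega)
    have hHpos : 0 < H := by linarith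
    have h1 : H ^ m * H⁻¹ ^ (Module.finrank ℚ V - 1) = H ^ e := by
      rw [inv_pow, ← div_eq_mul_inv, div_eq_iff (pow_ne_zero _ hHpos.ne'), ← pow_add]
      congr 1
      omega
    rw [h1]
    exact one_le_pow₀ hH
  exact hcx.trans (le_mul_of_one_le_left (abs_nonneg _) hfac)

end Ver4
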