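import Pool.Agent.LibVer4.M3a

open Pool.Agent.LibInterm

namespace Ver4

theorem M3e_apply {k : ℕ} (B : Matrix (Fin k) (Fin k) ℝ) (a : Fin k → ℤ) (l : Fin k) :
    zcomb B a l = ∑ i, (a i : ℝ) * B i l := rfl

theorem M3e_comb {k r : ℕ} (B : Matrix (Fin k) (Fin k) ℝ) (c : Fin r → Fin k → ℤ)
    (y : Fin r → ℤ) (l : Fin k) :
    zcomb B (∑ j, y j • c j) l = ∑ j, (y j : ℝ) * zcomb B (c j) l := by
  simp only [M3e_apply, Finset.sum_apply, Pi.smul_apply, smul_eq_mul, Int.cast_sum, Int.cast_mul,
    Finset.sum_mul, Finset.mul_sum]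
  rw [Finset.sum_comm]
  apply Finset.sum_congr rfl
  intro j _
  apply Finset.sum_congr rfl
  intro i _
  ring

theorem M3e_zb_li {k : ℕ} (V : Submodule ℚ (Fin k → ℚ)) :
    LinearIndependent ℚ (fun i => M3a_hom k (zb V i)) := by
  rw [← LinearIndependent.iff_fractionRing (R := ℤ) (K := ℚ)]
  exact (exists_zb V).choose_spec.1.map' (M3a_hom k) (LinearMap.ker_eq_bot.2 (M3a_hom_inj k))

/-- the minors of a basis of the integer points are at most the minors of any independent family -/
theorem M3e_compare {k : ℕ} (B : Matrix (Fin k) (Fin k) ℝ) (W : Submodule ℚ (Fin k → ℚ))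
    (u : Fin (Module.finrank ℚ W) → Fin k → ℤ)
    (hu : LinearIndependent ℚ (fun i => M3a_hom k (u i))) (huW : ∀ i, M3a_hom k (u i) ∈ W)
    (J : Fin (Module.finrank ℚ W) → Fin k) :
    |(Matrix.of fun i l => zcomb B (zb W i) (J l)).det| ≤
      |(Matrix.of fun i l => zcomb B (u i) (J l)).det| := by
  have hgen := (exists_zb W).choose_spec.2.2
  choose y hy using fun i => hgen (u i) (huW i)
  have hy' : ∀ i, u i = ∑ j, y i j • zb W j := hy
  have h1 : (Matrix.of fun i l => zcomb B (u i) (J l)) =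
      (Matrix.of y).map (Int.castRingHom ℝ) * (Matrix.of fun i l => zcomb B (zb W i) (J l)) := by
    ext i l
    rw [Matrix.mul_apply, Matrix.of_apply, hy' i, M3e_comb]
    rfl
  have h2 : (Matrix.of y).det ≠ 0 := by
    intro h0
    have h3 : ((Matrix.of y).map (Int.castRingHom ℚ)).det = 0 := by
      have h4 := RingHom.map_det (Int.castRingHom ℚ) (Matrix.of y)
      rw [h0, map_zero] at h4
      exact h4.symm
    obtain ⟨t, ht, ht0⟩ := Matrix.exists_vecMul_eq_zero_iff.2 h3
    apply ht
    rw [Fintype.linearIndependent_iff] at hu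
    ext i
    apply hu t
    have h5 : ∀ i, M3a_hom k (u i) = ∑ j, (y i j : ℚ) • M3a_hom k (zb W j) := by
      intro i
      conv_lhs => rw [hy' i]
      rw [map_sum]
      apply Finset.sum_congr rfl
      intro j _
      rw [map_smul, Int.cast_smul_eq_zsmul]
    calc ∑ i, t i • M3a_hom k (u i)
        = ∑ i, ∑ j, (t i * (y i j : ℚ)) • M3a_hom k (zb W j) := by
          apply Finset.sum_congr rfl
          intro i _
          rw [h5 i, Finset.smul_sum]
          apply Finset.sum_congr rfl
          intro j _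
          rw [smul_smul]
      _ = ∑ j, (∑ i, t i * (y i j : ℚ)) • M3a_hom k (zb W j) := by
          rw [Finset.sum_comm]
          apply Finset.sum_congr rfl
          intro j _
          rw [Finset.sum_smul]
      _ = 0 := by
          apply Finset.sum_eq_zero
          intro j _
          have h6 := congrFun ht0 j
          have h7 : ∑ i, t i * (y i j : ℚ) = 0 := by
            simpa [Matrix.vecMul, dotProduct] using h6
          rw [h7, zero_smul]
  have h8 : (1 : ℝ) ≤ |((Matrix.of y).map (Int.castRingHom ℝ)).det| := by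
    have h4 := RingHom.map_det (Int.castRingHom ℝ) (Matrix.of y)
    have h9 : ((Matrix.of y).map (Int.castRingHom ℝ)).det = (((Matrix.of y).det : ℤ) : ℝ) :=
      h4.symm
    rw [h9]
    exact_mod_cast Int.one_le_abs h2
  rw [h1, Matrix.det_mul, abs_mul]
  exact le_mul_of_one_le_left (abs_nonneg _) h8

theorem M3e_psi_nonneg {k : ℕ} (B : Matrix (Fin k) (Fin k) ℝ) (V : Submodule ℚ (Fin k → ℚ)) :
    0 ≤ psi B V := Real.iSup_nonneg (fun _ => abs_nonneg _)

theorem M3e_expand {k r : ℕ} (B : Matrix (Fin k) (Fin k) ℝ) (c : Fin r → Fin k → ℤ)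
    (v : Fin k → ℤ) (p : ℝ) (J : Fin (r + 1) → Fin k)
    (hp : ∀ I : Fin r → Fin k, |(Matrix.of fun i l => zcomb B (c i) (I l)).det| ≤ p) :
    |(Matrix.of fun i l =>
      zcomb B ((Fin.snoc c v : Fin (r + 1) → Fin k → ℤ) i) (J l)).det| ≤
      ((r + 1 : ℕ) : ℝ) * (p * ‖zcomb B v‖) := by
  rw [Matrix.det_succ_row _ (Fin.last r)]
  refine (Finset.abs_sum_le_sum_abs _ _).trans ?_
  have h1 : ∀ j : Fin (r + 1), |(-1 : ℝ) ^ ((Fin.last r : ℕ) + (j : ℕ)) *
      (Matrix.of fun i l => zcomb B ((Fin.snoc c v : Fin (r + 1) → Fin k → ℤ) i) (J l))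
        (Fin.last r) j *
      ((Matrix.of fun i l =>
        zcomb B ((Fin.snoc c v : Fin (r + 1) → Fin k → ℤ) i) (J l)).submatrix
        (Fin.last r).succAbove j.succAbove).det| ≤ p * ‖zcomb B v‖ := by
    intro j
    rw [abs_mul, abs_mul, abs_pow, abs_neg, abs_one, one_pow, one_mul, Matrix.of_apply,
      Fin.snoc_last]
    have h2 : ((Matrix.of fun i l =>
        zcomb B ((Fin.snoc c v : Fin (r + 1) → Fin k → ℤ) i) (J l)).submatrix
        (Fin.last r).succAbove j.succAbove) =
        Matrix.of fun i l => zcomb B (c i) ((J ∘ j.succAbove) l) := by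
      ext i l
      simp
    rw [h2, mul_comm]
    exact mul_le_mul (hp _) (norm_le_pi_norm (zcomb B v) (J j)) (abs_nonneg _)
      ((abs_nonneg _).trans (hp (J ∘ j.succAbove)))
  refine (Finset.sum_le_sum (fun j _ => h1 j)).trans ?_
  rw [Finset.sum_const, Finset.card_univ, Fintype.card_fin, nsmul_eq_mul]

/-- M3e: adding a vector. Hint: `(zb V, v)` are integer combinations, with nonzero integer
determinant `q`, of the basis `zb (V ⊔ ⟨v⟩)`, so the minors of the latter are at most those of the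
former; expand the minors of `(zcomb B (zb V i), zcomb B v)` along the last row. -/
theorem psi_sup_span {k : ℕ} (B : Matrix (Fin k) (Fin k) ℝ) (V : Submodule ℚ (Fin k → ℚ))
    (v : Fin k → ℤ) (hv : (fun l => (v l : ℚ)) ∉ V) :
    psi B (V ⊔ Submodule.span ℚ {fun l => (v l : ℚ)}) ≤ k * (psi B V * ‖zcomb B v‖) := by
  set W := V ⊔ Submodule.span ℚ {fun l => (v l : ℚ)} with hW
  set u : Fin (Module.finrank ℚ V + 1) → Fin k → ℤ := Fin.snoc (zb V) v with hu
  have huli : LinearIndependent ℚ (fun i => M3a_hom k (u i)) := by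
    have h1 : (fun i => M3a_hom k (u i)) =
        (Fin.snoc (fun i => M3a_hom k (zb V i)) (M3a_hom k v) :
          Fin (Module.finrank ℚ V + 1) → Fin k → ℚ) := by
      ext1 j
      refine Fin.lastCases ?_ (fun j => ?_) j
      · simp [hu]
      · simp [hu]
    rw [h1, linearIndependent_finSnoc]
    refine ⟨M3e_zb_li V, fun h => hv ?_⟩
    have h2 : Submodule.span ℚ (Set.range (fun i => M3a_hom k (zb V i))) ≤ V := by
      rw [Submodule.span_le]
      rintro _ ⟨i, rfl⟩
      exact (exists_zb V).choose_spec.2.1 i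
    exact h2 h
  have huW : ∀ i, M3a_hom k (u i) ∈ W := by
    intro i
    refine Fin.lastCases ?_ (fun j => ?_) i
    · rw [hu, Fin.snoc_last]
      exact (le_sup_right : _ ≤ W) (Submodule.subset_span rfl)
    · rw [hu, Fin.snoc_castSucc]
      exact (le_sup_left : _ ≤ W) ((exists_zb V).choose_spec.2.1 j)
  have hle : Module.finrank ℚ V + 1 ≤ Module.finrank ℚ W := by
    have h1 := finrank_span_eq_card huli
    rw [Fintype.card_fin] at h1
    rw [← h1]
    apply Submodule.finrank_mono
    rw [Submodule.span_le]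
    rintro _ ⟨i, rfl⟩
    exact huW i
  have hge : Module.finrank ℚ W ≤ Module.finrank ℚ V + 1 := by
    refine (Submodule.finrank_add_le_finrank_add_finrank _ _).trans ?_
    have h1 : Module.finrank ℚ (Submodule.span ℚ {fun l => (v l : ℚ)} :
      Submodule ℚ (Fin k → ℚ)) ≤ 1 := by
      have h2 := finrank_span_le_card (R := ℚ) ({fun l => (v l : ℚ)} : Set (Fin k → ℚ))
      simpa using h2
    omega
  have hr : Module.finrank ℚ W = Module.finrank ℚ V + 1 := le_antisymm hge hle
  have hk : Module.finrank ℚ V + 1 ≤ k := by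
    rw [← hr]
    simpa using Submodule.finrank_le W
  have hk0 : 0 < k := by omega
  obtain ⟨J, hJ⟩ := exists_minor_eq_psi hk0 B W
  rw [hJ]
  have huli' : LinearIndependent ℚ (fun i => M3a_hom k ((u ∘ Fin.cast hr) i)) :=
    huli.comp _ (Fin.cast_injective hr)
  refine (M3e_compare B W (u ∘ Fin.cast hr) huli' (fun i => huW _) J).trans ?_
  have h3 : (Matrix.of fun i l => zcomb B ((u ∘ Fin.cast hr) i) (J l)).det =
      (Matrix.of fun i l => zcomb B (u i) ((J ∘ Fin.cast hr.symm) l)).det := by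
    rw [← Matrix.det_submatrix_equiv_self (finCongr hr)]
    rfl
  rw [h3]
  refine (M3e_expand B (zb V) v (psi B V) _ (fun I => minor_le_psi B V I)).trans ?_
  apply mul_le_mul_of_nonneg_right
  · exact_mod_cast hk
  · exact mul_nonneg (M3e_psi_nonneg B V) (norm_nonneg _)

theorem psi_bot {k : ℕ} (B : Matrix (Fin k) (Fin k) ℝ) :
    psi B (⊥ : Submodule ℚ (Fin k → ℚ)) = 1 := by
  have he : IsEmpty (Fin (Module.finrank ℚ (⊥ : Submodule ℚ (Fin k → ℚ)))) := by
    rw [finrank_bot]
    infer_instance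
  unfold psi
  have h1 : ∀ I : Fin (Module.finrank ℚ (⊥ : Submodule ℚ (Fin k → ℚ))) → Fin k,
      |(Matrix.of fun i l => zcomb B (zb (⊥ : Submodule ℚ (Fin k → ℚ)) i) (I l)).det| = 1 := by
    intro I
    rw [Matrix.det_isEmpty, abs_one]
  simp_rw [h1]
  have hne : Nonempty (Fin (Module.finrank ℚ (⊥ : Submodule ℚ (Fin k → ℚ))) → Fin k) :=
    ⟨fun i => (he.false i).elim⟩
  exact ciSup_const

end Ver4
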