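import Pool.Agent.LibVer4.M2
import Pool.Agent.LibVer4.M3e

open Pool.Agent.LibInterm

namespace Ver4

/-- M3f: a marked point has no short vectors. Hint: for `v ≠ 0` let `A` be the largest element of
`F ∪ {⊥}` which does not contain `v`, `V' = A ⊔ ⟨v⟩`; it is comparable with all elements of `F`
(those not below `A` contain `A` and `v`); so `ε ≤ ψ V'` in any case, and
`ψ V' ≤ k ψ A ‖zcomb B v‖ ≤ k ‖zcomb B v‖` (`ψ A ≤ ρ ≤ 1` or `A = ⊥`). -/
theorem marked_short {k : ℕ} (B : ℝ → Matrix (Fin k) (Fin k) ℝ) (ε ρ y : ℝ) (hε : 0 < ε)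
    (hερ : ε ≤ ρ) (hρ : ρ ≤ 1)
    (h : Marked {V : Submodule ℚ (Fin k → ℚ) | V ≠ ⊥} (fun V x => psi (B x) V) ε ρ y)
    (v : Fin k → ℤ) (hv : v ≠ 0) : ε / k ≤ ‖zcomb (B y) v‖ := by
  classical
  obtain ⟨F, hFS, hchain, hF, hout⟩ := h
  have hk : 0 < k := by
    rcases Nat.eq_zero_or_pos k with h0 | h0
    · subst h0
      exact absurd (Subsingleton.elim _ _) hv
    · exact h0
  set q : Fin k → ℚ := fun l => (v l : ℚ) with hq
  have hq0 : q ≠ 0 := by
    intro h0
    apply hv
    ext l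
    have h1 := congrFun h0 l
    simpa [hq] using h1
  set G : Finset (Submodule ℚ (Fin k → ℚ)) := (insert ⊥ F).filter (fun A => q ∉ A) with hG
  have hbot : (⊥ : Submodule ℚ (Fin k → ℚ)) ∈ G := by
    rw [hG, Finset.mem_filter]
    refine ⟨Finset.mem_insert_self _ _, ?_⟩
    rw [Submodule.mem_bot]
    exact hq0
  obtain ⟨A, hAmax⟩ := G.exists_maximal ⟨⊥, hbot⟩
  have hAG : A ∈ G := hAmax.1
  have hA1 : A = ⊥ ∨ A ∈ F := by
    rw [hG, Finset.mem_filter, Finset.mem_insert] at hAG
    exact hAG.1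
  have hA2 : q ∉ A := by
    rw [hG, Finset.mem_filter] at hAG
    exact hAG.2
  have hcmp : ∀ t ∈ F, A ≤ t ∨ t ≤ A := by
    intro t ht
    rcases hA1 with h1 | h1
    · left
      rw [h1]
      exact bot_le
    · exact hchain.total h1 ht
  set W := A ⊔ Submodule.span ℚ {q} with hW
  have hqW : q ∈ W := (le_sup_right : _ ≤ W) (Submodule.subset_span rfl)
  have hWne : W ≠ ⊥ := by
    intro h0
    rw [h0, Submodule.mem_bot] at hqW
    exact hq0 hqW
  have hWcmp : ∀ t ∈ F, W ≤ t ∨ t ≤ W := by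
    intro t ht
    by_cases hqt : q ∈ t
    · left
      have h1 : A ≤ t := by
        rcases hcmp t ht with h2 | h2
        · exact h2
        · exact absurd (h2 hqt) hA2
      rw [hW]
      refine sup_le h1 ?_
      rw [Submodule.span_le, Set.singleton_subset_iff]
      exact hqt
    · right
      have htG : t ∈ G := by
        rw [hG, Finset.mem_filter]
        exact ⟨Finset.mem_insert_of_mem ht, hqt⟩
      have h1 : t ≤ A := by
        rcases hcmp t ht with h2 | h2
        · exact hAmax.2 htG h2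
        · exact h2
      exact h1.trans le_sup_left
  have hlow : ε ≤ psi (B y) W := by
    by_cases hWF : W ∈ F
    · exact (hF W hWF).1
    · exact hερ.trans (hout W hWne hWF hWcmp)
  have hA3 : psi (B y) A ≤ 1 := by
    rcases hA1 with h1 | h1
    · rw [h1, psi_bot]
    · exact (hF A h1).2.trans hρ
  have hup := psi_sup_span (B y) A v hA2
  have hkR : (0 : ℝ) < k := by exact_mod_cast hk
  rw [div_le_iff₀ hkR]
  calc ε ≤ psi (B y) W := hlow
    _ ≤ k * (psi (B y) A * ‖zcomb (B y) v‖) := hup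
    _ ≤ k * (1 * ‖zcomb (B y) v‖) := by
        apply mul_le_mul_of_nonneg_left _ hkR.le
        exact mul_le_mul_of_nonneg_right hA3 (norm_nonneg _)
    _ = ‖zcomb (B y) v‖ * k := by ring

end Ver4
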