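import Pool.Agent.LibVer4.M3b
import Pool.Agent.LibVer4.M3c
import Pool.Agent.LibVer4.M3d
import Pool.Agent.LibVer4.M3f

open MeasureTheory Pool.Agent.LibInterm

namespace Ver4

/-- M4: quantitative nondivergence for the lattices `hmat m H x` (Kleinbock-Margulis). Hint:
`km_abstract` with `k = m + 1`, `α = 1/m`, `ρ` of `sup_psi` on `[-M, M]`, `marked_short`. For
`ε ≥ ρ / (m+1)` the bound is trivial. -/
theorem nondiv (m : ℕ) (hm : 1 ≤ m) (M : ℝ) (hM : 0 < M) : ∃ C α : ℝ, 0 < C ∧ 0 < α ∧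
    ∀ H : ℝ, 1 ≤ H → ∀ ε : ℝ, 0 < ε →
    volume {x ∈ Set.Icc (-M) M | ∃ a : Fin (m + 1) → ℤ, a ≠ 0 ∧ ‖zcomb (hmat m H x) a‖ < ε} ≤
      ENNReal.ofReal (C * ε ^ α) := by
  obtain ⟨C0, hC0, hgood⟩ := good_psi m hm
  have hmR : (0 : ℝ) < m := by exact_mod_cast hm
  have hα : (0 : ℝ) < 1 / (m : ℝ) := by positivity
  obtain ⟨K, hK, hkm⟩ := km_abstract (T := Submodule ℚ (Fin (m + 1) → ℚ)) C0 (1 / (m : ℝ)) hC0 hα
    (m + 1)
  have hMM : -M < M := by linarith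
  obtain ⟨ρ, hρ, hρ1, hsup⟩ := sup_psi m (-M) M hMM
  have hm1 : (0 : ℝ) < ((m + 1 : ℕ) : ℝ) := by positivity
  set L : ℝ := (((m + 1 : ℕ) : ℝ) / ρ) ^ (1 / (m : ℝ)) with hL
  have hLpos : 0 < L := Real.rpow_pos_of_pos (div_pos hm1 hρ) _
  refine ⟨(K + 1) * L * (2 * M), 1 / (m : ℝ), by positivity, hα, fun H hH ε hε => ?_⟩
  have hεα : 0 < ε ^ (1 / (m : ℝ)) := Real.rpow_pos_of_pos hε _
  have hH0 : H ≠ 0 := by linarith
  have hscale : (((m + 1 : ℕ) : ℝ) * ε / ρ) ^ (1 / (m : ℝ)) = L * ε ^ (1 / (m : ℝ)) := by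
    rw [hL, ← Real.mul_rpow (div_pos hm1 hρ).le hε.le]
    congr 1
    ring
  by_cases hcase : ((m + 1 : ℕ) : ℝ) * ε ≤ ρ
  · have h1 := hkm {V : Submodule ℚ (Fin (m + 1) → ℚ) | V ≠ ⊥} (fun V x => psi (hmat m H x) V)
      (((m + 1 : ℕ) : ℝ) * ε) ρ (mul_pos hm1 hε) hcase
      (fun V _ => continuous_psi m H V)
      (fun F hF hch => chain_card F hF hch)
      (fun V _ a b hab σ hσ hex ε' hε' => hgood H V a b hab σ hσ hex ε' hε')
      (fun y => finite_psi (Nat.succ_pos m) (hmat m H y) (by rw [det_hmat m H y hH0]; exact one_ne_zero) ρ)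
      (-M) M hMM
      (fun V hV => hsup H hH V hV)
    refine (measure_mono ?_).trans (h1.trans ?_)
    · rintro x ⟨hx, a, ha, hlt⟩
      refine ⟨hx, fun hmark => ?_⟩
      have h2 := marked_short (fun x => hmat m H x) (((m + 1 : ℕ) : ℝ) * ε) ρ x (mul_pos hm1 hε)
        hcase hρ1 hmark a ha
      rw [mul_div_cancel_left₀ _ hm1.ne'] at h2
      exact absurd hlt (not_lt.2 h2)
    · apply ENNReal.ofReal_le_ofReal
      rw [hscale]
      have h3 : 0 ≤ L * (2 * M) * ε ^ (1 / (m : ℝ)) := by positivity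
      nlinarith
  · push Not at hcase
    have h1 : volume {x ∈ Set.Icc (-M) M | ∃ a : Fin (m + 1) → ℤ, a ≠ 0 ∧
        ‖zcomb (hmat m H x) a‖ < ε} ≤ ENNReal.ofReal (2 * M) := by
      refine (measure_mono (Set.sep_subset _ _)).trans ?_
      rw [Real.volume_Icc]
      apply ENNReal.ofReal_le_ofReal
      linarith
    refine h1.trans (ENNReal.ofReal_le_ofReal ?_)
    have h2 : 1 ≤ L * ε ^ (1 / (m : ℝ)) := by
      rw [← hscale]
      apply Real.one_le_rpow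
      · rw [one_le_div hρ]
        exact hcase.le
      · exact hα.le
    have h3 : 1 ≤ (K + 1) * (L * ε ^ (1 / (m : ℝ))) := by nlinarith
    calc 2 * M = 1 * (2 * M) := by ring
      _ ≤ (K + 1) * (L * ε ^ (1 / (m : ℝ))) * (2 * M) :=
          mul_le_mul_of_nonneg_right h3 (by positivity)
      _ = (K + 1) * L * (2 * M) * ε ^ (1 / (m : ℝ)) := by ring

end Ver4
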