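import Pool.Agent.LibVer4.M4

open MeasureTheory Filter Pool.Agent.LibInterm

namespace Ver4

theorem N1_bounded (m : ℕ) (hm : 1 ≤ m) (η : ℝ) (hη : 0 < η) (M : ℝ) (hM : 0 < M) :
    ∀ᵐ x : ℝ, ∀ᶠ j : ℕ in atTop, x ∉ {x ∈ Set.Icc (-M) M | ∃ a : Fin (m + 1) → ℤ, a ≠ 0 ∧
      ‖zcomb (hmat m (2 ^ j) x) a‖ < (2 : ℝ) ^ (-(η * j))} := by
  obtain ⟨C, α, hC, hα, hnd⟩ := nondiv m hm M hM
  apply ae_eventually_notMem
  set q : ℝ := (2 : ℝ) ^ (-(η * α)) with hq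
  have hq0 : 0 < q := Real.rpow_pos_of_pos two_pos _
  have hq1 : q < 1 := by
    apply Real.rpow_lt_one_of_one_lt_of_neg one_lt_two
    have := mul_pos hη hα
    linarith
  have hle : ∀ j : ℕ, volume {x ∈ Set.Icc (-M) M | ∃ a : Fin (m + 1) → ℤ, a ≠ 0 ∧
      ‖zcomb (hmat m (2 ^ j) x) a‖ < (2 : ℝ) ^ (-(η * j))} ≤ ENNReal.ofReal (C * q ^ j) := by
    intro j
    have h1 := hnd (2 ^ j) (one_le_pow₀ one_le_two) ((2 : ℝ) ^ (-(η * j)))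
      (Real.rpow_pos_of_pos two_pos _)
    have h2 : ((2 : ℝ) ^ (-(η * j))) ^ α = q ^ j := by
      rw [hq, ← Real.rpow_mul two_pos.le, ← Real.rpow_natCast, ← Real.rpow_mul two_pos.le]
      congr 1
      ring
    rw [h2] at h1
    exact h1
  have hsum : Summable (fun j : ℕ => C * q ^ j) :=
    (summable_geometric_of_lt_one hq0.le hq1).mul_left C
  refine ne_top_of_le_ne_top ?_ (ENNReal.tsum_le_tsum hle)
  rw [← ENNReal.ofReal_tsum_of_nonneg (fun j => by positivity) hsum]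
  exact ENNReal.ofReal_ne_top

/-- N1: Hint: `nondiv` with `H = 2^j`, `ε = 2^{-jη}`, Borel-Cantelli on `[-M, M]`, `M = 1, 2, …`. -/
theorem ae_no_short (m : ℕ) (hm : 1 ≤ m) (η : ℝ) (hη : 0 < η) : ∀ᵐ x : ℝ, ∀ᶠ j : ℕ in atTop,
    ∀ a : Fin (m + 1) → ℤ, a ≠ 0 → (2 : ℝ) ^ (-(η * j)) ≤ ‖zcomb (hmat m (2 ^ j) x) a‖ := by
  have h1 : ∀ᵐ x : ℝ, ∀ N : ℕ, ∀ᶠ j : ℕ in atTop,
      x ∉ {x ∈ Set.Icc (-((N : ℝ) + 1)) ((N : ℝ) + 1) | ∃ a : Fin (m + 1) → ℤ, a ≠ 0 ∧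
        ‖zcomb (hmat m (2 ^ j) x) a‖ < (2 : ℝ) ^ (-(η * j))} :=
    ae_all_iff.2 (fun N => N1_bounded m hm η hη ((N : ℝ) + 1) (by positivity))
  filter_upwards [h1] with x hx
  obtain ⟨N, hN⟩ := exists_nat_ge |x|
  have hxN : x ∈ Set.Icc (-((N : ℝ) + 1)) ((N : ℝ) + 1) := by
    constructor <;> linarith [neg_abs_le x, le_abs_self x]
  filter_upwards [hx N] with j hj a ha
  by_contra hlt
  exact hj ⟨hxN, a, ha, not_le.1 hlt⟩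

end Ver4
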