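import Pool.Agent.LibVer4.G1
import Pool.Agent.LibVer4.M3b

open Polynomial Pool.Agent.LibInterm

namespace Ver4

/-- the polynomial with given coefficients -/
noncomputable def N2_poly (m : ℕ) (z : Fin (m + 1) → ℤ) : ℤ[X] :=
  ∑ k : Fin (m + 1), C (z k) * X ^ (k : ℕ)

theorem N2_coeff (m : ℕ) (z : Fin (m + 1) → ℤ) (l : Fin (m + 1)) :
    (N2_poly m z).coeff (l : ℕ) = z l := by
  rw [N2_poly, Polynomial.finsetSum_coeff]
  rw [Finset.sum_eq_single l]
  · rw [Polynomial.coeff_C_mul_X_pow, if_pos rfl]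
  · intro k _ hk
    rw [Polynomial.coeff_C_mul_X_pow, if_neg]
    intro h
    exact hk (Fin.ext h.symm)
  · intro h
    exact absurd (Finset.mem_univ _) h

theorem N2_natDegree (m : ℕ) (z : Fin (m + 1) → ℤ) : (N2_poly m z).natDegree ≤ m := by
  rw [N2_poly]
  apply Polynomial.natDegree_sum_le_of_forall_le
  intro k _
  refine (Polynomial.natDegree_C_mul_X_pow_le _ _).trans ?_
  omega

theorem N2_aeval (m : ℕ) (z : Fin (m + 1) → ℤ) (x : ℝ) :
    aeval x (N2_poly m z) = ∑ k : Fin (m + 1), (z k : ℝ) * x ^ (k : ℕ) := by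
  rw [N2_poly, map_sum]
  apply Finset.sum_congr rfl
  intro k _
  simp

theorem N2_aeval_derivative (m : ℕ) (z : Fin (m + 1) → ℤ) (x : ℝ) :
    aeval x (derivative (N2_poly m z)) =
      ∑ k : Fin (m + 1), (z k : ℝ) * (((k : ℕ) : ℝ) * x ^ ((k : ℕ) - 1)) := by
  rw [N2_poly, Polynomial.derivative_sum, map_sum]
  apply Finset.sum_congr rfl
  intro k _
  rw [Polynomial.derivative_C_mul_X_pow]
  simp [mul_assoc]

theorem N2_L1 (m : ℕ) (z : Fin (m + 1) → ℤ) (c : ℝ) (h : ∀ k, |(z k : ℝ)| ≤ c) :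
    L1 (N2_poly m z) ≤ ((m : ℝ) + 1) * c := by
  rw [L1_eq_sum _ m (N2_natDegree m z), Finset.sum_range]
  have h1 : ∀ k : Fin (m + 1), |(((N2_poly m z).coeff (k : ℕ) : ℤ) : ℝ)| ≤ c := by
    intro k
    rw [N2_coeff]
    exact h k
  refine (Finset.sum_le_sum (fun k _ => h1 k)).trans ?_
  rw [Finset.sum_const, Finset.card_univ, Fintype.card_fin, nsmul_eq_mul]
  push_cast
  exact le_rfl

theorem N2_det (n : ℕ) (A : Matrix (Fin (n + 2)) (Fin (n + 2)) ℝ) (p0 p1 c : ℝ)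
    (h0 : ∀ i, |A i 0| ≤ p0) (h1 : ∀ i, |A i 1| ≤ p1)
    (hc : ∀ i (j : Fin n), |A i j.succ.succ| ≤ c) :
    |A.det| ≤ ((n + 2).factorial : ℝ) * (p0 * (p1 * c ^ n)) := by
  rw [Matrix.det_apply']
  refine (Finset.abs_sum_le_sum_abs _ _).trans ?_
  have hterm : ∀ σ : Equiv.Perm (Fin (n + 2)),
      |((Equiv.Perm.sign σ : ℤ) : ℝ) * ∏ i, A (σ i) i| ≤ p0 * (p1 * c ^ n) := by
    intro σ
    have hs : |((Equiv.Perm.sign σ : ℤ) : ℝ)| = 1 := by
      rcases Int.units_eq_one_or (Equiv.Perm.sign σ) with h | h <;> rw [h] <;> simp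
    rw [abs_mul, hs, one_mul, Finset.abs_prod, Fin.prod_univ_succ, Fin.prod_univ_succ]
    have hp0 : 0 ≤ p0 := (abs_nonneg _).trans (h0 0)
    have hp1 : 0 ≤ p1 := (abs_nonneg _).trans (h1 0)
    have h3 : ∏ i : Fin n, |A (σ i.succ.succ) i.succ.succ| ≤ c ^ n := by
      calc ∏ i : Fin n, |A (σ i.succ.succ) i.succ.succ| ≤ ∏ _i : Fin n, c :=
            Finset.prod_le_prod (fun _ _ => abs_nonneg _) (fun i _ => hc _ i)
        _ = c ^ n := by rw [Finset.prod_const, Finset.card_univ, Fintype.card_fin]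
    exact mul_le_mul (h0 _) (mul_le_mul (h1 _) h3 (Finset.prod_nonneg (fun _ _ => abs_nonneg _))
      hp1) (mul_nonneg (abs_nonneg _) (Finset.prod_nonneg (fun _ _ => abs_nonneg _))) hp0
  refine (Finset.sum_le_sum (fun σ _ => hterm σ)).trans ?_
  rw [Finset.sum_const, Finset.card_univ, Fintype.card_perm, Fintype.card_fin, nsmul_eq_mul]

/-- the unipotent change of columns -/
noncomputable def N2_T (n : ℕ) (x : ℝ) : Matrix (Fin (n + 2)) (Fin (n + 2)) ℝ :=
  Matrix.of fun k j => if j = 0 then x ^ (k : ℕ) else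
    if j = 1 then ((k : ℕ) : ℝ) * x ^ ((k : ℕ) - 1) else if k = j then 1 else 0

theorem N2_det_T (n : ℕ) (x : ℝ) : (N2_T n x).det = 1 := by
  rw [Matrix.det_of_isLowerTriangular]
  · apply Finset.prod_eq_one
    intro i _
    simp only [N2_T, Matrix.of_apply, if_true]
    by_cases h0 : i = 0
    · subst h0
      simp
    · rw [if_neg h0]
      by_cases h1 : i = 1
      · subst h1
        simp
      · rw [if_neg h1]
  · intro i j hij
    have hij' : i < j := hij
    simp only [N2_T, Matrix.of_apply]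
    have hj0 : j ≠ 0 := by
      intro h0
      rw [h0] at hij'
      exact absurd hij' (Fin.not_lt_zero _)
    rw [if_neg hj0]
    by_cases h1 : j = 1
    · subst h1
      have hi : i = 0 := by
        apply Fin.ext
        have h2 : (i : ℕ) < ((1 : Fin (n + 2)) : ℕ) := hij'
        simpa using h2
      subst hi
      simp
    · rw [if_neg h1, if_neg hij'.ne]

/-- N2: if the lattice has no short vector there is a polynomial with small value and large
derivative. Hint: `weak_minkowski_second` for `hmat m H x` (`det = 1`): independent `a_i`,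
`∏ ‖zcomb‖ ≤ C`, each factor `≥ H^{-η}`, so each is `≤ C H^{mη}`: the polynomials `P_i` have
`|P_i(x)| ≤ C H^{-m+mη}`, coefficients `≤ C H^{1+mη}`. The integer matrix of the coefficients has
`|det| ≥ 1`; replace column `0` by `P_i(x)` and column `1` by `P_i'(x)` (unipotent column operations):
`1 ≤ C H^{-m+mη} (max_i |P_i'(x)|) H^{(m-1)(1+mη)}`. -/
theorem large_deriv (m : ℕ) (hm : 1 ≤ m) (M : ℝ) (hM : 1 ≤ M) (η : ℝ) (hη : 0 < η) :
    ∃ C : ℝ, 0 < C ∧ ∀ H x : ℝ, 1 ≤ H → |x| ≤ M →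
    (∀ a : Fin (m + 1) → ℤ, a ≠ 0 → H ^ (-η) ≤ ‖zcomb (hmat m H x) a‖) →
    ∃ P : ℤ[X], P ≠ 0 ∧ P.natDegree ≤ m ∧ L1 P ≤ C * H ^ (1 + m * η) ∧
      |aeval x P| ≤ C * H ^ (-(m : ℝ) + m * η) ∧
      C⁻¹ * H ^ (1 - (m : ℝ) ^ 2 * η) ≤ |aeval x (derivative P)| := by
  obtain ⟨n, rfl⟩ : ∃ n, m = n + 1 := ⟨m - 1, by omega⟩
  set K0 : ℝ := Real.sqrt ((n + 1 + 1 : ℕ) : ℝ) ^ (n + 1 + 1) with hK0
  have hK0pos : 0 < K0 := pow_pos (Real.sqrt_pos.2 (by positivity)) _
  set C1 : ℝ := K0 * (1 + ((n + 1 : ℕ) : ℝ) * M ^ (n + 1)) with hC1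
  have hMpos : 0 < M := by linarith
  have hC1pos : 0 < C1 := by positivity
  set C2 : ℝ := ((n + 2).factorial : ℝ) * (K0 * C1 ^ n) with hC2
  have hC2pos : 0 < C2 := by positivity
  set Cf : ℝ := (((n + 1 : ℕ) : ℝ) + 1) * C1 + K0 + C2 with hCf
  have hCfpos : 0 < Cf := by positivity
  refine ⟨Cf, hCfpos, fun H x hH hx hshort => ?_⟩
  have hHpos : 0 < H := by linarith
  have hdet : (hmat (n + 1) H x).det = 1 := det_hmat (n + 1) H x hHpos.ne'
  obtain ⟨a, hali, haprod⟩ := weak_minkowski_second (hmat (n + 1) H x)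
    (by rw [hdet]; exact one_ne_zero)
  rw [hdet, abs_one, mul_one] at haprod
  have hane : ∀ i, a i ≠ 0 := by
    intro i h0
    apply hali.ne_zero i
    rw [h0]
    ext l
    simp [zcomb, Matrix.vecMul, dotProduct]
  have hge : ∀ i, H ^ (-η) ≤ ‖zcomb (hmat (n + 1) H x) (a i)‖ := fun i => hshort (a i) (hane i)
  have hHη : 0 < H ^ (-η) := Real.rpow_pos_of_pos hHpos _
  have hle : ∀ i, ‖zcomb (hmat (n + 1) H x) (a i)‖ ≤ K0 * H ^ (((n + 1 : ℕ) : ℝ) * η) := by
    intro i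
    have h1 : (H ^ (-η)) ^ (n + 1) ≤ ∏ j ∈ Finset.univ.erase i,
        ‖zcomb (hmat (n + 1) H x) (a j)‖ := by
      calc (H ^ (-η)) ^ (n + 1) = ∏ _j ∈ Finset.univ.erase i, H ^ (-η) := by
            rw [Finset.prod_const, Finset.card_erase_of_mem (Finset.mem_univ _), Finset.card_univ,
              Fintype.card_fin, Nat.add_sub_cancel]
        _ ≤ _ := Finset.prod_le_prod (fun _ _ => hHη.le) (fun j _ => hge j)
    have h2 : ‖zcomb (hmat (n + 1) H x) (a i)‖ * (H ^ (-η)) ^ (n + 1) ≤ K0 := by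
      refine (mul_le_mul_of_nonneg_left h1 (norm_nonneg _)).trans ?_
      rw [Finset.mul_prod_erase Finset.univ (fun j => ‖zcomb (hmat (n + 1) H x) (a j)‖)
        (Finset.mem_univ i)]
      exact haprod
    have h3 : (H ^ (-η)) ^ (n + 1) * H ^ (((n + 1 : ℕ) : ℝ) * η) = 1 := by
      rw [← Real.rpow_natCast (H ^ (-η)), ← Real.rpow_mul hHpos.le, ← Real.rpow_add hHpos]
      have : -η * ((n + 1 : ℕ) : ℝ) + ((n + 1 : ℕ) : ℝ) * η = 0 := by ring
      rw [this, Real.rpow_zero]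
    calc ‖zcomb (hmat (n + 1) H x) (a i)‖
        = ‖zcomb (hmat (n + 1) H x) (a i)‖ * (H ^ (-η)) ^ (n + 1) *
          H ^ (((n + 1 : ℕ) : ℝ) * η) := by rw [mul_assoc, h3, mul_one]
      _ ≤ K0 * H ^ (((n + 1 : ℕ) : ℝ) * η) :=
          mul_le_mul_of_nonneg_right h2 (Real.rpow_nonneg hHpos.le _)
  set E : ℝ := H ^ (((n + 1 : ℕ) : ℝ) * η) with hE
  have hEpos : 0 < E := Real.rpow_pos_of_pos hHpos _
  -- values
  have hval : ∀ i, |∑ k : Fin (n + 1 + 1), (a i k : ℝ) * x ^ (k : ℕ)| ≤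
      K0 * H ^ (-((n + 1 : ℕ) : ℝ) + ((n + 1 : ℕ) : ℝ) * η) := by
    intro i
    have h1 := (norm_le_pi_norm (zcomb (hmat (n + 1) H x) (a i)) 0).trans (hle i)
    rw [zcomb_hmat_zero, Real.norm_eq_abs, abs_mul, abs_of_pos (pow_pos hHpos _)] at h1
    rw [Real.rpow_add hHpos, Real.rpow_neg hHpos.le, Real.rpow_natCast]
    rw [← mul_assoc, mul_comm K0, mul_assoc, ← div_eq_inv_mul, le_div_iff₀ (pow_pos hHpos _),
      mul_comm]
    exact h1
  -- coefficients
  have hcoef1 : ∀ i (l : Fin (n + 1)), |(a i l.succ : ℝ)| ≤ K0 * (H * E) := by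
    intro i l
    have h1 := (norm_le_pi_norm (zcomb (hmat (n + 1) H x) (a i)) l.succ).trans (hle i)
    rw [zcomb_hmat_succ, Real.norm_eq_abs, abs_mul, abs_inv, abs_of_pos hHpos,
      ← div_eq_mul_inv, div_le_iff₀ hHpos] at h1
    calc |(a i l.succ : ℝ)| ≤ K0 * E * H := h1
      _ = K0 * (H * E) := by ring
  have hHE : 1 ≤ H * E := by
    have h1 : 1 ≤ E := Real.one_le_rpow hH (by positivity)
    nlinarith
  have hcoef : ∀ i k, |(a i k : ℝ)| ≤ C1 * (H * E) := by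
    intro i k
    rcases Fin.eq_zero_or_eq_succ k with h | ⟨l, h⟩
    · rw [h]
      have h1 := hval i
      rw [Fin.sum_univ_succ] at h1
      have h2 : |∑ l : Fin (n + 1), (a i l.succ : ℝ) * x ^ ((l.succ : Fin (n + 1 + 1)) : ℕ)| ≤
          ((n + 1 : ℕ) : ℝ) * M ^ (n + 1) * (K0 * (H * E)) := by
        refine (Finset.abs_sum_le_sum_abs _ _).trans ?_
        have h3 : ∀ l : Fin (n + 1), |(a i l.succ : ℝ) * x ^ ((l.succ : Fin (n + 1 + 1)) : ℕ)| ≤
            M ^ (n + 1) * (K0 * (H * E)) := by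
          intro l
          rw [abs_mul, abs_pow, mul_comm]
          apply mul_le_mul _ (hcoef1 i l) (abs_nonneg _) (by positivity)
          calc |x| ^ ((l.succ : Fin (n + 1 + 1)) : ℕ) ≤ M ^ ((l.succ : Fin (n + 1 + 1)) : ℕ) :=
                pow_le_pow_left₀ (abs_nonneg _) hx _
            _ ≤ M ^ (n + 1) := pow_le_pow_right₀ hM (by
                have := (l.succ).2
                omega)
        refine (Finset.sum_le_sum (fun l _ => h3 l)).trans ?_
        rw [Finset.sum_const, Finset.card_univ, Fintype.card_fin, nsmul_eq_mul, mul_assoc]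
      have h4 : H ^ (-((n + 1 : ℕ) : ℝ) + ((n + 1 : ℕ) : ℝ) * η) ≤ H * E := by
        rw [hE, ← Real.rpow_one_add' hHpos.le (by positivity)]
        apply Real.rpow_le_rpow_of_exponent_le hH
        have : (0 : ℝ) ≤ ((n + 1 : ℕ) : ℝ) := by positivity
        linarith
      have h5 : |(a i 0 : ℝ)| ≤ K0 * (H * E) + ((n + 1 : ℕ) : ℝ) * M ^ (n + 1) * (K0 * (H * E)) := by
        have h6 : (a i 0 : ℝ) = ((a i 0 : ℝ) * x ^ ((0 : Fin (n + 1 + 1)) : ℕ) +
            ∑ l : Fin (n + 1), (a i l.succ : ℝ) * x ^ ((l.succ : Fin (n + 1 + 1)) : ℕ)) -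
            ∑ l : Fin (n + 1), (a i l.succ : ℝ) * x ^ ((l.succ : Fin (n + 1 + 1)) : ℕ) := by
          simp
        rw [h6]
        refine (abs_sub _ _).trans (add_le_add (h1.trans ?_) h2)
        exact mul_le_mul_of_nonneg_left h4 hK0pos.le
      refine h5.trans (le_of_eq ?_)
      rw [hC1]
      ring
    · rw [h]
      refine (hcoef1 i l).trans ?_
      apply mul_le_mul_of_nonneg_right _ (by positivity)
      rw [hC1]
      have : 0 ≤ ((n + 1 : ℕ) : ℝ) * M ^ (n + 1) := by positivity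
      nlinarith
  -- the determinant
  set A : Matrix (Fin (n + 2)) (Fin (n + 2)) ℤ := Matrix.of a with hA
  have hAdet : (1 : ℝ) ≤ |(A.map (Int.castRingHom ℝ)).det| := by
    have h1 := RingHom.map_det (Int.castRingHom ℝ) A
    have h2 : (A.map (Int.castRingHom ℝ)).det = ((A.det : ℤ) : ℝ) := h1.symm
    have h3 : (A.map (Int.castRingHom ℝ)).det ≠ 0 := by
      intro h0
      have h4 : IsUnit ((A.map (Int.castRingHom ℝ)) * hmat (n + 1) H x) := by
        rw [← Matrix.linearIndependent_rows_iff_isUnit]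
        exact hali
      rw [Matrix.isUnit_iff_isUnit_det, Matrix.det_mul, h0, zero_mul] at h4
      exact not_isUnit_zero h4
    rw [h2] at h3 ⊢
    have h5 : A.det ≠ 0 := by exact_mod_cast h3
    exact_mod_cast Int.one_le_abs h5
  obtain ⟨i0, hi0⟩ := Finite.exists_max (fun i => |aeval x (derivative (N2_poly (n + 1) (a i)))|)
  set p1 : ℝ := |aeval x (derivative (N2_poly (n + 1) (a i0)))| with hp1
  have hbound : (1 : ℝ) ≤ ((n + 2).factorial : ℝ) *
      ((K0 * H ^ (-((n + 1 : ℕ) : ℝ) + ((n + 1 : ℕ) : ℝ) * η)) * (p1 * (C1 * (H * E)) ^ n)) := by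
    have h1 : ((A.map (Int.castRingHom ℝ)) * N2_T n x).det = (A.map (Int.castRingHom ℝ)).det := by
      rw [Matrix.det_mul, N2_det_T, mul_one]
    rw [← h1] at hAdet
    refine hAdet.trans (N2_det n _ _ _ _ ?_ ?_ ?_)
    · intro i
      have h2 : ((A.map (Int.castRingHom ℝ)) * N2_T n x) i 0 =
          ∑ k : Fin (n + 1 + 1), (a i k : ℝ) * x ^ (k : ℕ) := by
        rw [Matrix.mul_apply]
        apply Finset.sum_congr rfl
        intro k _
        simp [N2_T, hA]
      rw [h2]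
      exact hval i
    · intro i
      have h2 : ((A.map (Int.castRingHom ℝ)) * N2_T n x) i 1 =
          aeval x (derivative (N2_poly (n + 1) (a i))) := by
        rw [Matrix.mul_apply, N2_aeval_derivative]
        apply Finset.sum_congr rfl
        intro k _
        simp [N2_T, hA]
      rw [h2]
      exact hi0 i
    · intro i j
      have h2 : ((A.map (Int.castRingHom ℝ)) * N2_T n x) i j.succ.succ = (a i j.succ.succ : ℝ) := by
        rw [Matrix.mul_apply, Finset.sum_eq_single j.succ.succ]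
        · have h3 : j.succ.succ ≠ 1 := by
            intro h
            have := congrArg Fin.val h
            simp at this
          simp [N2_T, hA, h3, Fin.succ_ne_zero]
        · intro k _ hk
          have h3 : j.succ.succ ≠ 1 := by
            intro h
            have := congrArg Fin.val h
            simp at this
          simp [N2_T, h3, Fin.succ_ne_zero, hk]
        · intro h
          exact absurd (Finset.mem_univ _) h
      rw [h2]
      exact hcoef i _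
  have hexp : H ^ (-((n + 1 : ℕ) : ℝ) + ((n + 1 : ℕ) : ℝ) * η) * (H * E) ^ n *
      H ^ (1 - ((n + 1 : ℕ) : ℝ) ^ 2 * η) = 1 := by
    rw [hE, ← Real.rpow_one_add' hHpos.le (by positivity), ← Real.rpow_natCast _ n,
      ← Real.rpow_mul hHpos.le, ← Real.rpow_add hHpos, ← Real.rpow_add hHpos]
    have : -((n + 1 : ℕ) : ℝ) + ((n + 1 : ℕ) : ℝ) * η +
        (1 + ((n + 1 : ℕ) : ℝ) * η) * (n : ℝ) + (1 - ((n + 1 : ℕ) : ℝ) ^ 2 * η) = 0 := by
      push_cast
      ring
    rw [this, Real.rpow_zero]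
  have hfinal : H ^ (1 - ((n + 1 : ℕ) : ℝ) ^ 2 * η) ≤ C2 * p1 := by
    have hpos : 0 < H ^ (1 - ((n + 1 : ℕ) : ℝ) ^ 2 * η) := Real.rpow_pos_of_pos hHpos _
    calc H ^ (1 - ((n + 1 : ℕ) : ℝ) ^ 2 * η) = 1 * H ^ (1 - ((n + 1 : ℕ) : ℝ) ^ 2 * η) :=
          (one_mul _).symm
      _ ≤ (((n + 2).factorial : ℝ) *
          ((K0 * H ^ (-((n + 1 : ℕ) : ℝ) + ((n + 1 : ℕ) : ℝ) * η)) *
            (p1 * (C1 * (H * E)) ^ n))) * H ^ (1 - ((n + 1 : ℕ) : ℝ) ^ 2 * η) :=
          mul_le_mul_of_nonneg_right hbound hpos.le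
      _ = C2 * p1 * (H ^ (-((n + 1 : ℕ) : ℝ) + ((n + 1 : ℕ) : ℝ) * η) * (H * E) ^ n *
          H ^ (1 - ((n + 1 : ℕ) : ℝ) ^ 2 * η)) := by
          rw [hC2, mul_pow]
          ring
      _ = C2 * p1 := by rw [hexp, mul_one]
  have hp1pos : 0 < p1 := by
    have hpos : 0 < H ^ (1 - ((n + 1 : ℕ) : ℝ) ^ 2 * η) := Real.rpow_pos_of_pos hHpos _
    have h1 : 0 < C2 * p1 := hpos.trans_le hfinal
    exact (pos_iff_pos_of_mul_pos h1).1 hC2pos
  refine ⟨N2_poly (n + 1) (a i0), ?_, N2_natDegree _ _, ?_, ?_, ?_⟩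
  · intro h0
    rw [hp1, h0] at hp1pos
    simp at hp1pos
  · refine (N2_L1 (n + 1) (a i0) _ (hcoef i0)).trans ?_
    rw [hE, ← Real.rpow_one_add' hHpos.le (by positivity), ← mul_assoc]
    apply mul_le_mul_of_nonneg_right _ (Real.rpow_nonneg hHpos.le _)
    rw [hCf]
    linarith
  · rw [N2_aeval]
    refine (hval i0).trans ?_
    apply mul_le_mul_of_nonneg_right _ (Real.rpow_nonneg hHpos.le _)
    rw [hCf]
    have : 0 ≤ (((n + 1 : ℕ) : ℝ) + 1) * C1 := by positivity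
    linarith
  · rw [← div_eq_inv_mul, div_le_iff₀ hCfpos]
    refine hfinal.trans ?_
    rw [mul_comm]
    apply mul_le_mul_of_nonneg_left _ hp1pos.le
    rw [hCf]
    have : 0 ≤ (((n + 1 : ℕ) : ℝ) + 1) * C1 := by positivity
    linarith

end Ver4
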