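import Mathlib

open Polynomial

namespace Ver4

theorem N3_pos (f : ℝ[X]) (x K : ℝ) (hK : 0 ≤ K)
    (h2 : ∀ y, |y - x| ≤ 1 → |(derivative (derivative f)).eval y| ≤ K)
    (hd : 0 < (derivative f).eval x)
    (h1 : 2 * |f.eval x| ≤ (derivative f).eval x)
    (h3 : 4 * K * |f.eval x| ≤ ((derivative f).eval x) ^ 2) :
    ∃ α : ℝ, f.eval α = 0 ∧ |x - α| ≤ 2 * |f.eval x| / (derivative f).eval x := by
  set D := (derivative f).eval x with hD
  set ρ : ℝ := 2 * |f.eval x| / D with hρ
  have hρ0 : 0 ≤ ρ := by positivity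
  have hρ1 : ρ ≤ 1 := by
    rw [hρ, div_le_one hd]
    exact h1
  have hρD : ρ * D = 2 * |f.eval x| := by
    rw [hρ]
    field_simp
  have hKρ : K * ρ ≤ D / 2 := by
    have h4 : K * ρ * D ≤ D / 2 * D := by
      rw [mul_assoc, hρD]
      nlinarith
    exact le_of_mul_le_mul_right h4 hd
  have hconv : Convex ℝ (Set.Icc (x - ρ) (x + ρ)) := convex_Icc _ _
  have hxmem : x ∈ Set.Icc (x - ρ) (x + ρ) := ⟨by linarith, by linarith⟩
  have hder : ∀ y ∈ Set.Icc (x - ρ) (x + ρ), D / 2 ≤ (derivative f).eval y := by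
    intro y hy
    have h5 : ‖(derivative f).eval y - (derivative f).eval x‖ ≤ K * ‖y - x‖ := by
      apply Convex.norm_image_sub_le_of_norm_hasDerivWithin_le
        (f := fun y => (derivative f).eval y) (f' := fun y => (derivative (derivative f)).eval y)
        (s := Set.Icc (x - ρ) (x + ρ)) (C := K) _ _ hconv hxmem hy
      · intro z _
        exact ((derivative f).hasDerivAt z).hasDerivWithinAt
      · intro z hz
        rw [Real.norm_eq_abs]
        apply h2
        rw [abs_le]
        constructor <;> linarith [hz.1, hz.2]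
    have h6 : ‖y - x‖ ≤ ρ := by
      rw [Real.norm_eq_abs, abs_le]
      constructor <;> linarith [hy.1, hy.2]
    have h7 : |(derivative f).eval y - D| ≤ D / 2 := by
      have := h5.trans (mul_le_mul_of_nonneg_left h6 hK)
      rw [Real.norm_eq_abs] at this
      exact this.trans hKρ
    linarith [(abs_le.1 h7).1]
  have hcont : ContinuousOn (fun y => f.eval y) (Set.Icc (x - ρ) (x + ρ)) :=
    f.continuous.continuousOn
  have hmvt : ∀ y ∈ Set.Icc (x - ρ) (x + ρ), ∀ z ∈ Set.Icc (x - ρ) (x + ρ), y ≤ z →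
      D / 2 * (z - y) ≤ f.eval z - f.eval y := by
    apply Convex.mul_sub_le_image_sub_of_le_deriv hconv hcont
    · exact f.differentiable.differentiableOn
    · intro y hy
      rw [Polynomial.deriv]
      exact hder y (interior_subset hy)
  have hright : 0 ≤ f.eval (x + ρ) := by
    have h5 := hmvt x hxmem (x + ρ) ⟨by linarith, le_rfl⟩ (by linarith)
    have h6 : D / 2 * (x + ρ - x) = |f.eval x| := by
      linear_combination hρD / 2
    rw [h6] at h5
    linarith [neg_abs_le (f.eval x)]
  have hleft : f.eval (x - ρ) ≤ 0 := by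
    have h5 := hmvt (x - ρ) ⟨le_rfl, by linarith⟩ x hxmem (by linarith)
    have h6 : D / 2 * (x - (x - ρ)) = |f.eval x| := by
      linear_combination hρD / 2
    rw [h6] at h5
    linarith [le_abs_self (f.eval x)]
  obtain ⟨α, hα, hα0⟩ := intermediate_value_Icc (by linarith : x - ρ ≤ x + ρ) hcont
    (show (0 : ℝ) ∈ Set.Icc (f.eval (x - ρ)) (f.eval (x + ρ)) from ⟨hleft, hright⟩)
  refine ⟨α, hα0, ?_⟩
  rw [abs_le]
  constructor <;> linarith [hα.1, hα.2]

/-- N3: a real root near a point with small value and large derivative. Hint: on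
`[x - ρ, x + ρ]`, `ρ = 2 |f x| / |f' x|`, the derivative keeps its sign and half of its size, so `f`
takes both signs (or is zero) there; intermediate value theorem. -/
theorem newton (f : ℝ[X]) (x K : ℝ) (hK : 0 ≤ K)
    (h2 : ∀ y, |y - x| ≤ 1 → |(derivative (derivative f)).eval y| ≤ K)
    (hd : (derivative f).eval x ≠ 0)
    (h1 : 2 * |f.eval x| ≤ |(derivative f).eval x|)
    (h3 : 4 * K * |f.eval x| ≤ |(derivative f).eval x| ^ 2) :
    ∃ α : ℝ, f.eval α = 0 ∧ |x - α| ≤ 2 * |f.eval x| / |(derivative f).eval x| := by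
  rcases lt_or_gt_of_ne hd with h | h
  · rw [abs_of_neg h] at h1 h3 ⊢
    have h4 := N3_pos (-f) x K hK
      (by
        intro y hy
        have := h2 y hy
        simpa using this)
      (by
        rw [Polynomial.derivative_neg, Polynomial.eval_neg]
        linarith)
      (by
        rw [Polynomial.derivative_neg, Polynomial.eval_neg, Polynomial.eval_neg, abs_neg]
        exact h1)
      (by
        rw [Polynomial.derivative_neg, Polynomial.eval_neg, Polynomial.eval_neg, abs_neg]
        exact h3)
    obtain ⟨α, hα0, hα⟩ := h4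
    refine ⟨α, ?_, ?_⟩
    · rw [Polynomial.eval_neg] at hα0
      linarith
    · rw [Polynomial.derivative_neg, Polynomial.eval_neg, Polynomial.eval_neg, abs_neg] at hα
      exact hα
  · rw [abs_of_pos h] at h1 h3 ⊢
    exact N3_pos f x K hK h2 h h1 h3

end Ver4
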