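import Pool.Agent.LibVer4.N1
import Pool.Agent.LibVer4.N2
import Pool.Agent.LibVer4.N3

open MeasureTheory Polynomial Pool.Agent.LibInterm

namespace Ver4

theorem N4_ev (A p q : ℝ) (h : p < q) : ∀ᶠ j : ℕ in Filter.atTop,
    A * ((2 : ℝ) ^ j) ^ p ≤ ((2 : ℝ) ^ j) ^ q := by
  have h1 : Filter.Tendsto (fun j : ℕ => (2 : ℝ) ^ j) Filter.atTop Filter.atTop :=
    tendsto_pow_atTop_atTop_of_one_lt one_lt_two
  have h2 : Filter.Tendsto (fun j : ℕ => ((2 : ℝ) ^ j) ^ (q - p)) Filter.atTop Filter.atTop :=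
    (tendsto_rpow_atTop (sub_pos.2 h)).comp h1
  filter_upwards [h2.eventually_ge_atTop A] with j hj
  have h3 : (0 : ℝ) < (2 : ℝ) ^ j := by positivity
  have h4 : ((2 : ℝ) ^ j) ^ q = ((2 : ℝ) ^ j) ^ (q - p) * ((2 : ℝ) ^ j) ^ p := by
    rw [← Real.rpow_add h3]
    congr 1
    ring
  rw [h4]
  exact mul_le_mul_of_nonneg_right hj (Real.rpow_nonneg h3.le _)

theorem N4_delta (m : ℕ) (N x : ℝ) (htr : ¬ IsAlgebraic ℤ x) : ∃ δ : ℝ, 0 < δ ∧
    ∀ P : ℤ[X], P ≠ 0 → P.natDegree ≤ m → L1 P ≤ N → δ ≤ |aeval x P| := by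
  have hpos : ∀ P : ℤ[X], P ≠ 0 → 0 < |aeval x P| := by
    intro P hP
    rw [abs_pos]
    intro h0
    exact htr ⟨P, hP, h0⟩
  have hfin : {P : ℤ[X] | P ≠ 0 ∧ P.natDegree ≤ m ∧ L1 P ≤ N}.Finite :=
    (finite_L1 m N).subset (fun P hP => hP.2)
  rcases Set.eq_empty_or_nonempty {P : ℤ[X] | P ≠ 0 ∧ P.natDegree ≤ m ∧ L1 P ≤ N} with h | h
  · refine ⟨1, one_pos, fun P hP hdeg hL => ?_⟩
    have h1 : P ∈ {P : ℤ[X] | P ≠ 0 ∧ P.natDegree ≤ m ∧ L1 P ≤ N} := ⟨hP, hdeg, hL⟩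
    rw [h] at h1
    exact absurd h1 (Set.notMem_empty _)
  · obtain ⟨Q, hQ, hmin⟩ := Set.exists_min_image _ (fun P => |aeval x P|) hfin h
    exact ⟨|aeval x Q|, hpos Q hQ.1, fun P hP hdeg hL => hmin P ⟨hP, hdeg, hL⟩⟩

/-- N4: almost every real number is approximated to order almost `m + 1` by real roots of integer
polynomials of degree at most `m`. Hint: `η` small in terms of `m + 1 - τ`; `ae_no_short`,
`large_deriv`, `newton` (`K = C H^{1+mη}`): `|x - α| ≤ C H^{-(m+1)+(m+m²)η}` and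
`L1 P ≤ C H^{1+mη}`; as `P(x) → 0` and `x` is transcendental (almost every `x` is), `L1 P` is
unbounded. -/
theorem ae_roots (m : ℕ) (hm : 1 ≤ m) (τ : ℝ) (hτ0 : 0 < τ) (hτ : τ < (m : ℝ) + 1) : ∀ᵐ x : ℝ,
    ∀ N : ℝ, ∃ (P : ℤ[X]) (α : ℝ), P ≠ 0 ∧ P.natDegree ≤ m ∧ aeval α P = 0 ∧ N < L1 P ∧
      |x - α| ≤ L1 P ^ (-τ) := by
  have hmR : (1 : ℝ) ≤ m := by exact_mod_cast hm
  have hmpos : (0 : ℝ) < m := by linarith
  obtain ⟨e, he0, he4, heτ⟩ : ∃ e : ℝ, 0 < e ∧ e ≤ 1 / 4 ∧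
      τ * (1 + e) < ((m : ℝ) + 1) * (1 - e) := by
    have h1 : 0 < ((m : ℝ) + 1 - τ) / (2 * ((m : ℝ) + 1 + τ)) :=
      div_pos (by linarith) (by linarith)
    refine ⟨min (1 / 4) (((m : ℝ) + 1 - τ) / (2 * ((m : ℝ) + 1 + τ))), lt_min (by norm_num) h1,
      min_le_left _ _, ?_⟩
    have h2 : min (1 / 4) (((m : ℝ) + 1 - τ) / (2 * ((m : ℝ) + 1 + τ))) * (2 * ((m : ℝ) + 1 + τ)) ≤
        (m : ℝ) + 1 - τ := by
      rw [← le_div_iff₀ (by linarith)]
      exact min_le_right _ _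
    nlinarith
  set η : ℝ := e / m with hη
  have hηpos : 0 < η := div_pos he0 hmpos
  have hmη : (m : ℝ) * η = e := by
    rw [hη]
    field_simp
  have hmη2 : (m : ℝ) ^ 2 * η = m * e := by
    rw [pow_two, mul_assoc, hmη]
  have htrans : ∀ᵐ x : ℝ, ¬ IsAlgebraic ℤ x :=
    (Algebraic.countable ℤ ℝ).ae_notMem volume
  filter_upwards [ae_no_short m hm η hηpos, htrans] with x hx htr
  intro N
  set M : ℝ := max 1 |x| with hM
  have hM1 : 1 ≤ M := le_max_left _ _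
  have hxM : |x| ≤ M := le_max_right _ _
  obtain ⟨C, hC, hlarge⟩ := large_deriv m hm M hM1 η hηpos
  obtain ⟨δ, hδ, hδP⟩ := N4_delta m N x htr
  set K1 : ℝ := m * (m * (M + 1) ^ m) with hK1
  have hK1pos : 0 < K1 := by positivity
  have E1 := N4_ev (2 * C ^ 2) (-(m : ℝ) + m * η) (1 - (m : ℝ) ^ 2 * η)
    (by rw [hmη, hmη2]; nlinarith)
  have E2 := N4_ev (4 * K1 * C ^ 4) ((1 + (m : ℝ) * η) + (-(m : ℝ) + m * η))
    ((1 - (m : ℝ) ^ 2 * η) + (1 - (m : ℝ) ^ 2 * η)) (by rw [hmη, hmη2]; nlinarith)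
  have E3 := N4_ev (2 * C ^ 2 * C ^ τ) ((-(m : ℝ) + m * η) - (1 - (m : ℝ) ^ 2 * η))
    ((1 + (m : ℝ) * η) * (-τ)) (by rw [hmη, hmη2]; nlinarith)
  have E4 := N4_ev (2 * C / δ) (-(m : ℝ) + m * η) 0 (by rw [hmη]; nlinarith)
  obtain ⟨j, hj, e1, e2, e3, e4⟩ := (hx.and (E1.and (E2.and (E3.and E4)))).exists
  set H : ℝ := (2 : ℝ) ^ j with hH
  have hHpos : 0 < H := by positivity
  have hH1 : 1 ≤ H := one_le_pow₀ one_le_two
  have hshort : ∀ a : Fin (m + 1) → ℤ, a ≠ 0 → H ^ (-η) ≤ ‖zcomb (hmat m H x) a‖ := by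
    intro a ha
    refine le_trans (le_of_eq ?_) (hj a ha)
    rw [hH, ← Real.rpow_natCast, ← Real.rpow_mul two_pos.le]
    congr 1
    ring
  obtain ⟨P, hP0, hPdeg, hPL, hPx, hPd⟩ := hlarge H x hH1 hxM hshort
  set Vx : ℝ := C * H ^ (-(m : ℝ) + m * η) with hVx
  set Dx : ℝ := C⁻¹ * H ^ (1 - (m : ℝ) ^ 2 * η) with hDx
  have hVpos : 0 < Vx := mul_pos hC (Real.rpow_pos_of_pos hHpos _)
  have hDpos : 0 < Dx := mul_pos (inv_pos.2 hC) (Real.rpow_pos_of_pos hHpos _)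
  have hNP : N < L1 P := by
    by_contra hcon
    have h1 := hδP P hP0 hPdeg (not_lt.1 hcon)
    rw [Real.rpow_zero] at e4
    have h2 : Vx ≤ δ / 2 := by
      have h3 : 2 * C / δ * H ^ (-(m : ℝ) + m * η) = 2 / δ * Vx := by
        rw [hVx]
        ring
      rw [h3] at e4
      rw [div_mul_eq_mul_div, div_le_one hδ] at e4
      linarith
    linarith
  set f : ℝ[X] := P.map (algebraMap ℤ ℝ) with hf
  have hf0 : ∀ y, f.eval y = aeval y P := fun y => Polynomial.eval_map_algebraMap _ _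
  have hf1 : ∀ y, (derivative f).eval y = aeval y (derivative P) := by
    intro y
    rw [hf, Polynomial.derivative_map, Polynomial.eval_map_algebraMap]
  have hf2 : ∀ y, (derivative (derivative f)).eval y = aeval y (derivative (derivative P)) := by
    intro y
    rw [hf, Polynomial.derivative_map, Polynomial.derivative_map, Polynomial.eval_map_algebraMap]
  have hdegP' : (derivative P).natDegree ≤ m :=
    (Polynomial.natDegree_derivative_le P).trans (by omega)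
  have hdegP'' : (derivative (derivative P)).natDegree ≤ m :=
    (Polynomial.natDegree_derivative_le _).trans (by omega)
  have hKbound : ∀ y, |y - x| ≤ 1 →
      |(derivative (derivative f)).eval y| ≤ K1 * (C * H ^ (1 + (m : ℝ) * η)) := by
    intro y hy
    rw [hf2]
    refine (abs_aeval_le _ m hdegP'' y).trans ?_
    have h1 : L1 (derivative (derivative P)) ≤ m * (m * L1 P) :=
      (L1_derivative_le _ m hdegP').trans
        (mul_le_mul_of_nonneg_left (L1_derivative_le P m hPdeg) hmpos.le)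
    have h2 : max 1 |y| ≤ M + 1 := by
      apply max_le (by linarith)
      have h3 : |y| ≤ |y - x| + |x| := by
        have := abs_add_le (y - x) x
        simpa using this
      linarith
    have h3 : (max 1 |y|) ^ m ≤ (M + 1) ^ m :=
      pow_le_pow_left₀ (le_trans zero_le_one (le_max_left _ _)) h2 m
    calc L1 (derivative (derivative P)) * (max 1 |y|) ^ m
        ≤ (m * (m * L1 P)) * (M + 1) ^ m := by
          apply mul_le_mul h1 h3 (by positivity)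
          have := L1_nonneg P
          positivity
      _ = K1 * L1 P := by rw [hK1]; ring
      _ ≤ K1 * (C * H ^ (1 + (m : ℝ) * η)) := mul_le_mul_of_nonneg_left hPL hK1pos.le
  have hVD : 2 * Vx ≤ Dx := by
    rw [hVx, hDx, ← div_eq_inv_mul, le_div_iff₀ hC]
    calc 2 * (C * H ^ (-(m : ℝ) + m * η)) * C = 2 * C ^ 2 * H ^ (-(m : ℝ) + m * η) := by ring
      _ ≤ _ := e1
  have hVD2 : 4 * (K1 * (C * H ^ (1 + (m : ℝ) * η))) * Vx ≤ Dx ^ 2 := by
    have h1 : Dx ^ 2 = H ^ ((1 - (m : ℝ) ^ 2 * η) + (1 - (m : ℝ) ^ 2 * η)) / C ^ 2 := by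
      rw [Real.rpow_add hHpos, hDx]
      field_simp
    rw [h1, le_div_iff₀ (by positivity)]
    calc 4 * (K1 * (C * H ^ (1 + (m : ℝ) * η))) * Vx * C ^ 2
        = 4 * K1 * C ^ 4 * (H ^ (1 + (m : ℝ) * η) * H ^ (-(m : ℝ) + m * η)) := by
          rw [hVx]
          ring
      _ = 4 * K1 * C ^ 4 * H ^ ((1 + (m : ℝ) * η) + (-(m : ℝ) + m * η)) := by
          rw [← Real.rpow_add hHpos]
      _ ≤ _ := e2
  have hVD3 : 2 * Vx / Dx ≤ (C * H ^ (1 + (m : ℝ) * η)) ^ (-τ) := by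
    have h1 : (C * H ^ (1 + (m : ℝ) * η)) ^ (-τ) = H ^ ((1 + (m : ℝ) * η) * (-τ)) / C ^ τ := by
      rw [Real.mul_rpow hC.le (Real.rpow_nonneg hHpos.le _), ← Real.rpow_mul hHpos.le,
        Real.rpow_neg hC.le, mul_comm, div_eq_mul_inv]
    have h2 : 2 * Vx / Dx = 2 * C ^ 2 *
        H ^ ((-(m : ℝ) + m * η) - (1 - (m : ℝ) ^ 2 * η)) := by
      rw [Real.rpow_sub hHpos, hVx, hDx]
      field_simp
    rw [h1, h2, le_div_iff₀ (Real.rpow_pos_of_pos hC _)]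
    calc 2 * C ^ 2 * H ^ ((-(m : ℝ) + m * η) - (1 - (m : ℝ) ^ 2 * η)) * C ^ τ
        = 2 * C ^ 2 * C ^ τ * H ^ ((-(m : ℝ) + m * η) - (1 - (m : ℝ) ^ 2 * η)) := by ring
      _ ≤ _ := e3
  have hdne : (derivative f).eval x ≠ 0 := by
    rw [hf1]
    intro h0
    rw [h0, abs_zero] at hPd
    linarith
  obtain ⟨α, hα0, hα⟩ := newton f x (K1 * (C * H ^ (1 + (m : ℝ) * η))) (by positivity) hKbound
    hdne
    (by
      rw [hf0, hf1]
      calc 2 * |aeval x P| ≤ 2 * Vx := by linarith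
        _ ≤ Dx := hVD
        _ ≤ _ := hPd)
    (by
      rw [hf0, hf1]
      calc 4 * (K1 * (C * H ^ (1 + (m : ℝ) * η))) * |aeval x P|
          ≤ 4 * (K1 * (C * H ^ (1 + (m : ℝ) * η))) * Vx :=
            mul_le_mul_of_nonneg_left hPx (by positivity)
        _ ≤ Dx ^ 2 := hVD2
        _ ≤ _ := pow_le_pow_left₀ hDpos.le hPd 2)
  refine ⟨P, α, hP0, hPdeg, ?_, hNP, ?_⟩
  · rw [← hf0]
    exact hα0
  · rw [hf0, hf1] at hα
    have hLpos : 0 < L1 P := by linarith [one_le_L1 P hP0]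
    calc |x - α| ≤ 2 * |aeval x P| / |aeval x (derivative P)| := hα
      _ ≤ 2 * Vx / Dx := by
          apply div_le_div₀ (by positivity) (by linarith) hDpos hPd
      _ ≤ (C * H ^ (1 + (m : ℝ) * η)) ^ (-τ) := hVD3
      _ ≤ L1 P ^ (-τ) := Real.rpow_le_rpow_of_nonpos hLpos hPL (by linarith)

end Ver4
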