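import Pool.Agent.LibVer4.G2

open Polynomial

namespace Ver4

private theorem U1_factor (P : ℤ[X]) : P ≠ 0 → ∃ (c : ℤ) (s : Multiset ℤ[X]), c ≠ 0 ∧
    (∀ Q ∈ s, Irreducible Q ∧ 1 ≤ Q.natDegree) ∧ P = Polynomial.C c * s.prod := by
  induction P using UniqueFactorizationMonoid.induction_on_prime with
  | h₁ => intro h; exact absurd rfl h
  | h₂ u hu =>
    intro _
    obtain ⟨r, hr, hru⟩ := Polynomial.isUnit_iff.mp hu
    refine ⟨r, 0, hr.ne_zero, by simp, by simp [hru]⟩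
  | h₃ a p ha hp ih =>
    intro _
    obtain ⟨c, s, hc, hs, rfl⟩ := ih ha
    by_cases hd : p.natDegree = 0
    · obtain ⟨k, rfl⟩ : ∃ k : ℤ, p = Polynomial.C k := ⟨_, Polynomial.eq_C_of_natDegree_eq_zero hd⟩
      refine ⟨k * c, s, mul_ne_zero ?_ hc, hs, ?_⟩
      · rintro rfl
        exact hp.ne_zero (by simp)
      · rw [Polynomial.C_mul, mul_assoc]
    · refine ⟨c, p ::ₘ s, hc, ?_, ?_⟩
      · intro Q hQ
        rcases Multiset.mem_cons.mp hQ with rfl | hQ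
        · exact ⟨hp.irreducible, Nat.one_le_iff_ne_zero.mpr hd⟩
        · exact hs Q hQ
      · rw [Multiset.prod_cons]; ring

private theorem U1_dvd_natDegree (c : ℤ) (s : Multiset ℤ[X]) (hc : c ≠ 0)
    (hs : ∀ Q ∈ s, 1 ≤ Q.natDegree) :
    Multiset.card s ≤ (Polynomial.C c * s.prod).natDegree ∧
      ∀ Q ∈ s, Q.natDegree ≤ (Polynomial.C c * s.prod).natDegree := by
  have h0 : (0 : ℤ[X]) ∉ s := by
    intro h
    have := hs 0 h
    simp at this
  have hdeg : (Polynomial.C c * s.prod).natDegree = (s.map natDegree).sum := by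
    rw [Polynomial.natDegree_C_mul hc, Polynomial.natDegree_multiset_prod s h0]
  rw [hdeg]
  constructor
  · have h1 : (s.map (fun _ : ℤ[X] => 1)).sum ≤ (s.map natDegree).sum :=
      Multiset.sum_map_le_sum_map _ _ hs
    simpa using h1
  · intro Q hQ
    exact Multiset.single_le_sum (fun _ _ => Nat.zero_le _) _ (Multiset.mem_map_of_mem _ hQ)

private theorem U1_prod (ξ q₀ W' : ℝ) (hq : 0 < q₀) (s : Multiset ℤ[X])
    (hs : ∀ Q ∈ s, q₀ * L1 Q ^ (-W') ≤ |aeval ξ Q|) :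
    q₀ ^ (Multiset.card s) * (s.map L1).prod ^ (-W') ≤ |aeval ξ s.prod| := by
  induction s using Multiset.induction_on with
  | empty => simp
  | cons Q s ih =>
    have h1 := ih (fun R hR => hs R (Multiset.mem_cons_of_mem hR))
    have h2 := hs Q (Multiset.mem_cons_self Q s)
    have hpn : 0 ≤ (s.map L1).prod := Multiset.prod_nonneg (by
      intro a ha
      obtain ⟨R, _, rfl⟩ := Multiset.mem_map.mp ha
      exact L1_nonneg R)
    rw [Multiset.card_cons, Multiset.map_cons, Multiset.prod_cons, Multiset.prod_cons, map_mul,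
      abs_mul, Real.mul_rpow (L1_nonneg Q) hpn, pow_succ]
    calc q₀ ^ Multiset.card s * q₀ * (L1 Q ^ (-W') * (s.map L1).prod ^ (-W'))
        = (q₀ * L1 Q ^ (-W')) * (q₀ ^ Multiset.card s * (s.map L1).prod ^ (-W')) := by ring
      _ ≤ |aeval ξ Q| * |aeval ξ s.prod| := by
          apply mul_le_mul h2 h1 _ (abs_nonneg _)
          have := Real.rpow_nonneg hpn (-W')
          positivity

private theorem U1_one_le (s : Multiset ℤ[X]) (hs : ∀ Q ∈ s, 1 ≤ L1 Q) :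
    1 ≤ (s.map L1).prod := by
  induction s using Multiset.induction_on with
  | empty => simp
  | cons Q s ih =>
    rw [Multiset.map_cons, Multiset.prod_cons]
    have h1 := ih (fun R hR => hs R (Multiset.mem_cons_of_mem hR))
    have h2 := hs Q (Multiset.mem_cons_self Q s)
    nlinarith

/-- U1: reduction to irreducible polynomials. Hint: suppose the set `𝒬` of the irreducible `Q`
(degree `1..m`) with `|Q(ξ)| ≤ L1 Q ^ (-W')` is finite, `q₀ = min(1, min_{𝒬} |Q(ξ)| L1(Q)^{W'}) > 0`.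
Write `P = c ∏ Q_i` (`c` an integer, `Q_i` irreducible of degree `≥ 1`); then
`L1(P)^{-W} ≥ |P(ξ)| ≥ |c| q₀^m (∏ L1 Q_i)^{-W'}` and `|c| ∏ L1 Q_i ≤ C L1 P` (`gelfond_multiset`), so
`L1(P)^{W-W'}` is bounded; contradiction with `finite_L1`. -/
theorem irred_reduction (m : ℕ) (W W' : ℝ) (hW' : 0 < W') (hWW : W' < W) (ξ : ℝ)
    (hξ : Transcendental ℤ ξ) (h : ξ ∈ Sw m W) :
    {P : ℤ[X] | Irreducible P ∧ 1 ≤ P.natDegree ∧ P.natDegree ≤ m ∧
      |aeval ξ P| ≤ L1 P ^ (-W')}.Infinite := by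
  intro hfin
  have hne : ∀ P : ℤ[X], P ≠ 0 → aeval ξ P ≠ 0 := by
    intro P hP h0
    exact hξ ⟨P, hP, h0⟩
  -- the constant `q₀`
  obtain ⟨q₀, hq0, hq1, hq⟩ : ∃ q₀ : ℝ, 0 < q₀ ∧ q₀ ≤ 1 ∧ ∀ Q : ℤ[X], Irreducible Q →
      1 ≤ Q.natDegree → Q.natDegree ≤ m → q₀ * L1 Q ^ (-W') ≤ |aeval ξ Q| := by
    classical
    let F : Finset ℤ[X] := hfin.toFinset
    let q : ℝ := (insert (1 : ℝ) (F.image (fun Q => |aeval ξ Q| * L1 Q ^ W'))).min'
      (Finset.insert_nonempty _ _)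
    refine ⟨q, ?_, ?_, ?_⟩
    · rw [Finset.lt_min'_iff]
      intro y hy
      rcases Finset.mem_insert.mp hy with rfl | hy
      · exact one_pos
      · obtain ⟨Q, hQ, rfl⟩ := Finset.mem_image.mp hy
        have hQ' := hfin.mem_toFinset.mp hQ
        have hQ0 : Q ≠ 0 := hQ'.1.ne_zero
        have := one_le_L1 Q hQ0
        exact mul_pos (abs_pos.mpr (hne Q hQ0)) (Real.rpow_pos_of_pos (by linarith) _)
    · exact Finset.min'_le _ _ (Finset.mem_insert_self _ _)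
    · intro Q hQi hQ1 hQm
      have hL : 1 ≤ L1 Q := one_le_L1 Q hQi.ne_zero
      have hLp : 0 < L1 Q := by linarith
      by_cases hQ : |aeval ξ Q| ≤ L1 Q ^ (-W')
      · have hmem : Q ∈ F := hfin.mem_toFinset.mpr ⟨hQi, hQ1, hQm, hQ⟩
        have h1 : q ≤ |aeval ξ Q| * L1 Q ^ W' :=
          Finset.min'_le _ _ (Finset.mem_insert_of_mem (Finset.mem_image_of_mem _ hmem))
        calc q * L1 Q ^ (-W') ≤ (|aeval ξ Q| * L1 Q ^ W') * L1 Q ^ (-W') :=
              mul_le_mul_of_nonneg_right h1 (Real.rpow_nonneg hLp.le _)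
          _ = |aeval ξ Q| := by
              rw [mul_assoc, ← Real.rpow_add hLp]; simp
      · have h1 : q ≤ 1 := Finset.min'_le _ _ (Finset.mem_insert_self _ _)
        calc q * L1 Q ^ (-W') ≤ 1 * L1 Q ^ (-W') :=
              mul_le_mul_of_nonneg_right h1 (Real.rpow_nonneg hLp.le _)
          _ ≤ |aeval ξ Q| := by rw [one_mul]; exact (not_le.mp hQ).le
  obtain ⟨C, hC1, hC⟩ := gelfond_multiset m
  have hC0 : 0 < C := by linarith
  set K : ℝ := (C ^ W' / q₀ ^ m) ^ (1 / (W - W')) with hK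
  apply h
  apply (finite_L1 m K).subset
  rintro P ⟨hP0, hPm, hP⟩
  refine ⟨hPm, ?_⟩
  obtain ⟨c, s, hc, hs, hPs⟩ := U1_factor P hP0
  have hs1 : ∀ Q ∈ s, 1 ≤ Q.natDegree := fun Q hQ => (hs Q hQ).2
  obtain ⟨hcard, hdegs⟩ := U1_dvd_natDegree c s hc hs1
  rw [← hPs] at hcard hdegs
  have hLP : 1 ≤ L1 P := one_le_L1 P hP0
  have hLP0 : 0 < L1 P := by linarith
  have h1 := U1_prod ξ q₀ W' hq0 s (fun Q hQ =>
    hq Q (hs Q hQ).1 (hs Q hQ).2 ((hdegs Q hQ).trans hPm))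
  have h2 := hC c s hc hs1 (by rw [← hPs]; exact hPm)
  rw [← hPs] at h2
  set p : ℝ := (s.map L1).prod with hp
  have hc1 : 1 ≤ |(c : ℝ)| := by
    have : (1 : ℤ) ≤ |c| := Int.one_le_abs hc
    exact_mod_cast this
  have hp1 : 1 ≤ p := by
    rw [hp]
    exact U1_one_le s (fun R hR => one_le_L1 R (hs R hR).1.ne_zero)
  have hp0 : 0 < p := by linarith
  have hcp : 0 < |(c : ℝ)| * p := by positivity
  -- lower bound
  have h3 : q₀ ^ m * (C * L1 P) ^ (-W') ≤ |aeval ξ P| := by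
    have h31 : |aeval ξ P| = |(c : ℝ)| * |aeval ξ s.prod| := by
      rw [hPs, map_mul, abs_mul]; simp
    rw [h31]
    have h32 : (C * L1 P) ^ (-W') ≤ (|(c : ℝ)| * p) ^ (-W') :=
      Real.rpow_le_rpow_of_nonpos hcp h2 (by linarith)
    have h33 : (|(c : ℝ)| * p) ^ (-W') ≤ |(c : ℝ)| * p ^ (-W') := by
      rw [Real.mul_rpow (by positivity) hp0.le]
      apply mul_le_mul_of_nonneg_right _ (Real.rpow_nonneg hp0.le _)
      calc |(c : ℝ)| ^ (-W') ≤ 1 := Real.rpow_le_one_of_one_le_of_nonpos hc1 (by linarith)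
        _ ≤ |(c : ℝ)| := hc1
    have h34 : q₀ ^ m ≤ q₀ ^ (Multiset.card s) :=
      pow_le_pow_of_le_one hq0.le hq1 (hcard.trans hPm)
    calc q₀ ^ m * (C * L1 P) ^ (-W') ≤ q₀ ^ (Multiset.card s) * (|(c : ℝ)| * p ^ (-W')) := by
          apply mul_le_mul h34 (h32.trans h33) (Real.rpow_nonneg (by positivity) _) (by positivity)
      _ = |(c : ℝ)| * (q₀ ^ (Multiset.card s) * p ^ (-W')) := by ring
      _ ≤ |(c : ℝ)| * |aeval ξ s.prod| := mul_le_mul_of_nonneg_left h1 (abs_nonneg _)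
  have h4 : q₀ ^ m * (C * L1 P) ^ (-W') ≤ L1 P ^ (-W) := h3.trans hP
  have h5 : L1 P ^ (W - W') ≤ C ^ W' / q₀ ^ m := by
    rw [le_div_iff₀ (by positivity)]
    rw [Real.mul_rpow hC0.le hLP0.le] at h4
    have h6 := mul_le_mul_of_nonneg_right h4 (by positivity : 0 ≤ C ^ W' * L1 P ^ W)
    have h7 : L1 P ^ (-W) * (C ^ W' * L1 P ^ W) = C ^ W' := by
      rw [Real.rpow_neg hLP0.le]
      have : L1 P ^ W ≠ 0 := (Real.rpow_pos_of_pos hLP0 _).ne'
      field_simp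
    have h8 : q₀ ^ m * (C ^ (-W') * L1 P ^ (-W')) * (C ^ W' * L1 P ^ W)
        = L1 P ^ (W - W') * q₀ ^ m := by
      rw [Real.rpow_sub hLP0, Real.rpow_neg hLP0.le, Real.rpow_neg hC0.le]
      have e1 : L1 P ^ W' ≠ 0 := (Real.rpow_pos_of_pos hLP0 _).ne'
      have e2 : C ^ W' ≠ 0 := (Real.rpow_pos_of_pos hC0 _).ne'
      field_simp
    rw [h7, h8] at h6
    exact h6
  have hWp : 0 < W - W' := by linarith
  calc L1 P = (L1 P ^ (W - W')) ^ (1 / (W - W')) := by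
        rw [← Real.rpow_mul hLP0.le, mul_one_div_cancel hWp.ne', Real.rpow_one]
    _ ≤ K := by
        rw [hK]
        exact Real.rpow_le_rpow (Real.rpow_nonneg hLP0.le _) h5 (by positivity)

end Ver4
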