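import Pool.Agent.LibVer4.G1

open Polynomial

namespace Ver4

private theorem U2_main (p : ℂ[X]) (R : Finset ℂ) (hR : p.roots = R.val)
    (α : ℂ) (hα : α ∈ R) (j : ℕ) (hj : R.card = j + 2) :
    ‖p.leadingCoeff‖ ^ j * ∏ r ∈ R, ‖p.derivative.eval r‖ ≤
      (‖p.derivative.eval α‖ * 2 ^ (j * (j + 1)) * p.mahlerMeasure ^ j) ^ 2 := by
  classical
  set a := p.leadingCoeff with ha
  have hder : ∀ x ∈ R, p.derivative.eval x = a * ∏ s ∈ R.erase x, (x - s) := by
    intro x hx
    have hs : p.Splits := IsAlgClosed.splits p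
    have h1 : p = C a * (p.roots.map (fun r => X - C r)).prod := hs.eq_prod_roots
    have hx' : x ∈ p.roots := by rw [hR]; exact hx
    have h2 := eval_multiset_prod_X_sub_C_derivative hx'
    have h3 : p.derivative = C a * derivative (p.roots.map (fun r => X - C r)).prod := by
      conv_lhs => rw [h1]
      rw [derivative_C_mul]
    rw [h3, eval_mul, eval_C, h2, hR]
    rfl
  set μ : ℂ → ℝ := fun z => max 1 ‖z‖ with hμ
  have hμ1 : ∀ z, 1 ≤ μ z := fun z => le_max_left _ _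
  have hμ0 : ∀ z, 0 ≤ μ z := fun z => zero_le_one.trans (hμ1 z)
  have hsub : ∀ r s : ℂ, ‖r - s‖ ≤ 2 * μ r * μ s := by
    intro r s
    have h1 : ‖r - s‖ ≤ ‖r‖ + ‖s‖ := norm_sub_le r s
    have h2 : ‖r‖ ≤ μ r * μ s := by
      calc ‖r‖ ≤ μ r := le_max_right _ _
        _ ≤ μ r * μ s := le_mul_of_one_le_right (hμ0 r) (hμ1 s)
    have h3 : ‖s‖ ≤ μ r * μ s := by
      calc ‖s‖ ≤ μ s := le_max_right _ _
        _ ≤ μ r * μ s := le_mul_of_one_le_left (hμ0 s) (hμ1 r)
    linarith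
  set S := R.erase α with hS
  have hScard : S.card = j + 1 := by
    rw [hS, Finset.card_erase_of_mem hα, hj]
    rfl
  have hprodR : ∏ r ∈ R, ‖p.derivative.eval r‖ =
      ‖p.derivative.eval α‖ * ∏ r ∈ S, ‖p.derivative.eval r‖ :=
    (Finset.mul_prod_erase R _ hα).symm
  have hdα : ‖p.derivative.eval α‖ = ‖a‖ * ∏ s ∈ S, ‖s - α‖ := by
    rw [hder α hα, norm_mul, norm_prod]
    congr 1
    exact Finset.prod_congr rfl fun s _ => norm_sub_rev _ _
  have hprodS : ∏ r ∈ S, ‖p.derivative.eval r‖ =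
      ‖a‖ ^ j * ‖p.derivative.eval α‖ * ∏ r ∈ S, ∏ s ∈ S.erase r, ‖r - s‖ := by
    have h1 : ∀ r ∈ S, ‖p.derivative.eval r‖ = ‖a‖ * (‖r - α‖ * ∏ s ∈ S.erase r, ‖r - s‖) := by
      intro r hr
      have hrR : r ∈ R := Finset.mem_of_mem_erase hr
      have hne : r ≠ α := Finset.ne_of_mem_erase hr
      rw [hder r hrR, norm_mul, norm_prod]
      congr 1
      have h2 : α ∈ R.erase r := Finset.mem_erase.2 ⟨hne.symm, hα⟩
      rw [← Finset.mul_prod_erase (R.erase r) _ h2, Finset.erase_right_comm]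
    rw [Finset.prod_congr rfl h1, Finset.prod_mul_distrib, Finset.prod_mul_distrib,
      Finset.prod_const, hScard, hdα, pow_succ]
    ring
  have hdouble : ∏ r ∈ S, ∏ s ∈ S.erase r, ‖r - s‖ ≤
      2 ^ (j * (j + 1)) * (∏ r ∈ S, μ r) ^ (2 * j) := by
    calc ∏ r ∈ S, ∏ s ∈ S.erase r, ‖r - s‖
        ≤ ∏ r ∈ S, ∏ s ∈ S.erase r, (2 * μ r * μ s) :=
          Finset.prod_le_prod (fun r _ => Finset.prod_nonneg fun s _ => norm_nonneg _)
            fun r _ => Finset.prod_le_prod (fun s _ => norm_nonneg _) fun s _ => hsub r s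
      _ = ∏ r ∈ S, ((2 * μ r) ^ j * ∏ s ∈ S.erase r, μ s) := by
          refine Finset.prod_congr rfl fun r hr => ?_
          rw [Finset.prod_mul_distrib, Finset.prod_const, Finset.card_erase_of_mem hr, hScard]
          rfl
      _ = (∏ r ∈ S, (2 * μ r) ^ j) * ∏ s ∈ S, μ s ^ j := by
          rw [Finset.prod_mul_distrib]
          congr 1
          have h1 : ∏ r ∈ S, ∏ s ∈ S.erase r, μ s = ∏ s ∈ S, ∏ r ∈ S.erase s, μ s := by
            apply Finset.prod_comm'
            intro x y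
            simp only [Finset.mem_erase]
            constructor
            · rintro ⟨h1, h2, h3⟩
              exact ⟨⟨h2.symm, h1⟩, h3⟩
            · rintro ⟨⟨h1, h2⟩, h3⟩
              exact ⟨h2, h1.symm, h3⟩
          rw [h1]
          refine Finset.prod_congr rfl fun r hr => ?_
          rw [Finset.prod_const, Finset.card_erase_of_mem hr, hScard]
          rfl
      _ = 2 ^ (j * (j + 1)) * (∏ r ∈ S, μ r) ^ (2 * j) := by
          rw [Finset.prod_pow, Finset.prod_pow, Finset.prod_mul_distrib, Finset.prod_const, hScard]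
          ring
  have hmm : p.mahlerMeasure = ‖a‖ * ∏ r ∈ R, μ r := by
    rw [mahlerMeasure_eq_leadingCoeff_mul_prod_roots, hR]
    rfl
  have hSR : ∏ r ∈ S, μ r ≤ ∏ r ∈ R, μ r :=
    Finset.prod_le_prod_of_subset_of_one_le (Finset.erase_subset _ _) (fun r _ => hμ0 r)
      fun r _ _ => hμ1 r
  have hS0 : 0 ≤ ∏ r ∈ S, μ r := Finset.prod_nonneg fun r _ => hμ0 r
  calc ‖a‖ ^ j * ∏ r ∈ R, ‖p.derivative.eval r‖
      = ‖p.derivative.eval α‖ ^ 2 * ‖a‖ ^ (2 * j) *
        ∏ r ∈ S, ∏ s ∈ S.erase r, ‖r - s‖ := by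
        rw [hprodR, hprodS]
        ring
    _ ≤ ‖p.derivative.eval α‖ ^ 2 * ‖a‖ ^ (2 * j) *
        (2 ^ (j * (j + 1)) * (∏ r ∈ R, μ r) ^ (2 * j)) := by
        refine mul_le_mul_of_nonneg_left (hdouble.trans ?_) (by positivity)
        exact mul_le_mul_of_nonneg_left (pow_le_pow_left₀ hS0 hSR _) (by positivity)
    _ = ‖p.derivative.eval α‖ ^ 2 * 2 ^ (j * (j + 1)) * (‖a‖ * ∏ r ∈ R, μ r) ^ (2 * j) := by
        rw [mul_pow]
        ring
    _ ≤ ‖p.derivative.eval α‖ ^ 2 * (2 ^ (j * (j + 1))) ^ 2 *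
          (‖a‖ * ∏ r ∈ R, μ r) ^ (2 * j) := by
        have h1 : (1 : ℝ) ≤ 2 ^ (j * (j + 1)) := one_le_pow₀ (by norm_num)
        have h2 : (2 : ℝ) ^ (j * (j + 1)) ≤ (2 ^ (j * (j + 1))) ^ 2 := by
          rw [sq]
          exact le_mul_of_one_le_left (by positivity) h1
        have h3 : 0 ≤ ∏ r ∈ R, μ r := Finset.prod_nonneg fun r _ => hμ0 r
        gcongr
    _ = (‖p.derivative.eval α‖ * 2 ^ (j * (j + 1)) * p.mahlerMeasure ^ j) ^ 2 := by
        rw [hmm]
        ring

/-- U2: the derivative at a root of an irreducible polynomial is not too small. Hint: with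
`j = natDegree`, `a` = leading coefficient, roots `α_1 = α, …, α_j` (distinct: `P` is separable over
`ℚ`): the discriminant `D = P.discr` is a nonzero integer and (Mathlib: `Polynomial.resultant_deriv`,
`Polynomial.resultant_eq_prod_eval`) `|D| = |a|^{2j-2} ∏_{i≠l} |α_i - α_l|`
`= |P'(α)|^2 |a|^{2j-4} ∏_{i≠l, i,l≥2} |α_i - α_l| ≤ |P'(α)|^2 2^{j^2} (|a| ∏ max(1,|α_i|))^{2j-4}`,
and `|a| ∏ max(1,|α_i|)` is the Mahler measure, at most `L1 P`. -/
theorem deriv_ge (m : ℕ) (hm : 2 ≤ m) : ∃ c : ℝ, 0 < c ∧ ∀ P : ℤ[X], Irreducible P →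
    2 ≤ P.natDegree → P.natDegree ≤ m → ∀ α : ℂ, aeval α P = 0 →
    c * L1 P ^ (2 - (m : ℝ)) ≤ ‖aeval α (derivative P)‖ := by
  classical
  refine ⟨(2 ^ (m * m))⁻¹, by positivity, ?_⟩
  intro P hP h2 hPm α hα
  have hP0 : P ≠ 0 := hP.ne_zero
  have hinj : Function.Injective (algebraMap ℤ ℂ) := (algebraMap ℤ ℂ).injective_int
  set p : ℂ[X] := P.map (algebraMap ℤ ℂ) with hp
  have hpd : p.natDegree = P.natDegree := natDegree_map_eq_of_injective hinj P
  have hp0 : p ≠ 0 := (Polynomial.map_ne_zero_iff hinj).2 hP0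
  have hlc : p.leadingCoeff = (P.leadingCoeff : ℂ) := leadingCoeff_map_of_injective hinj P
  -- separable
  have hsep : p.Separable := by
    have hprim : P.IsPrimitive := hP.isPrimitive (by omega)
    have h1 : Irreducible (P.map (Int.castRingHom ℚ)) :=
      (Polynomial.IsPrimitive.Int.irreducible_iff_irreducible_map_cast hprim).1 hP
    have h3 := h1.separable.map (f := algebraMap ℚ ℂ)
    rw [Polynomial.map_map] at h3
    have h4 : (algebraMap ℚ ℂ).comp (Int.castRingHom ℚ) = algebraMap ℤ ℂ := RingHom.ext_int _ _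
    rw [h4] at h3
    exact h3
  have hspl : p.Splits := IsAlgClosed.splits p
  have hnod : p.roots.Nodup := nodup_roots hsep
  set R : Finset ℂ := ⟨p.roots, hnod⟩ with hR
  have hRc : R.card = P.natDegree := by
    rw [← hpd, hspl.natDegree_eq_card_roots]
    rfl
  have hαR : α ∈ R := by
    change α ∈ p.roots
    rw [mem_roots hp0, IsRoot, hp, eval_map_algebraMap]
    exact hα
  obtain ⟨j, hj⟩ : ∃ j, P.natDegree = j + 2 := ⟨P.natDegree - 2, by omega⟩
  have hmain := U2_main p R rfl α hαR j (by rw [hRc, hj])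
  have hder : p.derivative = (derivative P).map (algebraMap ℤ ℂ) := derivative_map P _
  have hdα : p.derivative.eval α = aeval α (derivative P) := by
    rw [hder, eval_map_algebraMap]
  -- the discriminant
  have hres : p.leadingCoeff ^ (j + 1) * ∏ r ∈ R, p.derivative.eval r =
      (((-1) ^ (P.natDegree * (P.natDegree - 1) / 2) * P.leadingCoeff * P.discr : ℤ) : ℂ) := by
    have hdeg : 0 < P.degree := natDegree_pos_iff_degree_pos.1 (by omega)
    have h1 := resultant_deriv hdeg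
    have h3 : resultant p p.derivative P.natDegree (P.natDegree - 1) =
        algebraMap ℤ ℂ (resultant P P.derivative P.natDegree (P.natDegree - 1)) := by
      rw [hder, hp]
      exact resultant_map_map _ _ _ _ _
    have h4 : resultant p p.derivative P.natDegree (P.natDegree - 1) =
        p.leadingCoeff ^ (P.natDegree - 1) * (p.roots.map p.derivative.eval).prod := by
      have h5 := resultant_eq_prod_eval p p.derivative (P.natDegree - 1)
        (by rw [← hpd]; exact natDegree_derivative_le p) hspl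
      rw [hpd] at h5
      exact h5
    rw [h4, h1, hj] at h3
    have h6 : j + 2 - 1 = j + 1 := rfl
    rw [h6] at h3
    rw [hj]
    exact h3
  have hlc0 : p.leadingCoeff ≠ 0 := leadingCoeff_ne_zero.2 hp0
  have hnz : ∀ r ∈ R, p.derivative.eval r ≠ 0 := by
    intro r hr
    have h1 : aeval r p = 0 := by
      have h3 : r ∈ p.roots := hr
      rw [mem_roots hp0] at h3
      rw [coe_aeval_eq_eval]
      exact h3
    have h2 := hsep.aeval_derivative_ne_zero h1
    rw [coe_aeval_eq_eval] at h2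
    exact h2
  have hD : P.discr ≠ 0 := by
    intro h0
    rw [h0, mul_zero, Int.cast_zero] at hres
    rcases mul_eq_zero.1 hres with h1 | h1
    · exact hlc0 (pow_eq_zero_iff (by omega) |>.1 h1)
    · obtain ⟨r, hr, hr0⟩ := Finset.prod_eq_zero_iff.1 h1
      exact hnz r hr hr0
  have hD1 : (1 : ℝ) ≤ |(P.discr : ℝ)| := by
    have h1 : (1 : ℤ) ≤ |P.discr| := Int.one_le_abs hD
    exact_mod_cast h1
  have hnorm : ‖p.leadingCoeff‖ ^ j * ∏ r ∈ R, ‖p.derivative.eval r‖ = |(P.discr : ℝ)| := by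
    have h1 := congrArg norm hres
    rw [norm_mul, norm_pow, norm_prod] at h1
    have h2 : ‖(((-1) ^ (P.natDegree * (P.natDegree - 1) / 2) * P.leadingCoeff * P.discr : ℤ) : ℂ)‖
        = ‖p.leadingCoeff‖ * |(P.discr : ℝ)| := by
      rw [hlc]
      push_cast
      rw [norm_mul, norm_mul, norm_pow, norm_neg, norm_one, one_pow, one_mul]
      congr 1
      exact Complex.norm_intCast _
    rw [h2] at h1
    have h3 : 0 < ‖p.leadingCoeff‖ := norm_pos_iff.2 hlc0
    have h4 : ‖p.leadingCoeff‖ * (‖p.leadingCoeff‖ ^ j * ∏ r ∈ R, ‖p.derivative.eval r‖) =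
        ‖p.leadingCoeff‖ * |(P.discr : ℝ)| := by
      rw [← h1, pow_succ]
      ring
    exact mul_left_cancel₀ h3.ne' h4
  rw [hnorm, hdα] at hmain
  have hL1 : 1 ≤ L1 P := one_le_L1 P hP0
  have hML : p.mahlerMeasure ≤ L1 P := by
    refine (mahlerMeasure_le_sum_norm_coeff p).trans (le_of_eq ?_)
    unfold L1
    rw [Polynomial.sum_def, hp, support_map_of_injective _ hinj]
    refine Finset.sum_congr rfl fun i _ => ?_
    rw [coeff_map]
    exact Complex.norm_intCast _
  have hM0 : 0 ≤ p.mahlerMeasure := mahlerMeasure_nonneg p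
  have h5 : 1 ≤ ‖aeval α (derivative P)‖ * 2 ^ (j * (j + 1)) * p.mahlerMeasure ^ j := by
    have h6 : (1 : ℝ) ≤ (‖aeval α (derivative P)‖ * 2 ^ (j * (j + 1)) *
        p.mahlerMeasure ^ j) ^ 2 := hD1.trans hmain
    have h7 : 0 ≤ ‖aeval α (derivative P)‖ * 2 ^ (j * (j + 1)) * p.mahlerMeasure ^ j := by
      positivity
    exact (one_le_sq_iff₀ h7).1 h6
  have h6 : ‖aeval α (derivative P)‖ * 2 ^ (j * (j + 1)) * p.mahlerMeasure ^ j ≤
      ‖aeval α (derivative P)‖ * 2 ^ (m * m) * L1 P ^ (m - 2) := by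
    have e1 : (2 : ℝ) ^ (j * (j + 1)) ≤ 2 ^ (m * m) :=
      pow_le_pow_right₀ (by norm_num) (Nat.mul_le_mul (by omega) (by omega))
    have e2 : p.mahlerMeasure ^ j ≤ L1 P ^ (m - 2) :=
      (pow_le_pow_left₀ hM0 hML j).trans (pow_le_pow_right₀ hL1 (by omega))
    gcongr
  have h7 : L1 P ^ (2 - (m : ℝ)) = (L1 P ^ (m - 2))⁻¹ := by
    rw [← Real.rpow_natCast, ← Real.rpow_neg (by linarith)]
    congr 1
    push_cast [Nat.cast_sub hm]
    ring
  rw [h7]
  have h8 : 0 < L1 P ^ (m - 2) := by positivity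
  have h9 : (0 : ℝ) < 2 ^ (m * m) := by positivity
  rw [← mul_inv, inv_le_iff_one_le_mul₀ (by positivity)]
  calc (1 : ℝ) ≤ ‖aeval α (derivative P)‖ * 2 ^ (m * m) * L1 P ^ (m - 2) := h5.trans h6
    _ = ‖aeval α (derivative P)‖ * (2 ^ (m * m) * L1 P ^ (m - 2)) := by ring

end Ver4
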