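import Pool.Agent.LibVer4.G1

open Polynomial

namespace Ver4

private theorem U4_card_int (s : Finset ℤ) (D : ℝ) (hD0 : 0 ≤ D)
    (h : ∀ a ∈ s, ∀ b ∈ s, |(a : ℝ) - b| ≤ D) : s.card ≤ ⌊D⌋₊ + 1 := by
  rcases s.eq_empty_or_nonempty with rfl | hne
  · simp
  · set a := s.min' hne with ha
    have ham : a ∈ s := s.min'_mem hne
    have hsub : s ⊆ Finset.Icc a (a + ⌊D⌋₊) := by
      intro b hb
      rw [Finset.mem_Icc]
      have h1 : a ≤ b := s.min'_le b hb
      refine ⟨h1, ?_⟩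
      have h2 := h b hb a ham
      have h3 : (b : ℝ) - a ≤ D := (le_abs_self _).trans h2
      have h4 : ((b - a : ℤ) : ℝ) ≤ D := by push_cast; exact h3
      have h5 : b - a ≤ ⌊D⌋ := Int.le_floor.2 h4
      have h6 : (⌊D⌋₊ : ℤ) = ⌊D⌋ := Int.natCast_floor_eq_floor hD0
      rw [h6]
      linarith
    calc s.card ≤ (Finset.Icc a (a + ⌊D⌋₊)).card := Finset.card_le_card hsub
      _ = ⌊D⌋₊ + 1 := by
        rw [Int.card_Icc]
        omega

private theorem U4_fiber (m : ℕ) (hm : 1 ≤ m) (H y A0 A1 : ℝ) (hH : 0 ≤ H) (hA0 : 0 ≤ A0)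
    (hA1 : 0 ≤ A1) (T : Finset ℤ[X]) (hT : ∀ P ∈ T, P.natDegree ≤ m ∧ L1 P ≤ H ∧
      |aeval y P| ≤ A0 ∧ |aeval y (derivative P)| ≤ A1) :
    (T.card : ℝ) ≤ (2 * A1 + 1) * (2 * A0 + 1) * (2 * H + 1) ^ (m - 1) := by
  classical
  set f : ℤ[X] → (Fin (m - 1) → ℤ) := fun P i => P.coeff (i + 2) with hf
  have h1 : T.card ≤ ((⌊2 * A0⌋₊ + 1) * (⌊2 * A1⌋₊ + 1)) * (T.image f).card := by
    apply Finset.card_le_mul_card_image
    intro g _
    set S := T.filter (fun P => f P = g) with hS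
    have hdiff : ∀ P ∈ S, ∀ Q ∈ S, P - Q = C (P.coeff 1 - Q.coeff 1) * X +
        C (P.coeff 0 - Q.coeff 0) := by
      intro P hP Q hQ
      rw [hS, Finset.mem_filter] at hP hQ
      have h2 : (P - Q).natDegree ≤ 1 := by
        rw [natDegree_le_iff_coeff_eq_zero]
        intro i hi
        rw [coeff_sub]
        by_cases him : i ≤ m
        · have h3 : f P ⟨i - 2, by omega⟩ = f Q ⟨i - 2, by omega⟩ := by rw [hP.2, hQ.2]
          simp only [hf] at h3
          have h4 : i - 2 + 2 = i := by omega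
          rw [h4] at h3
          rw [h3, sub_self]
        · rw [coeff_eq_zero_of_natDegree_lt (lt_of_le_of_lt (hT P hP.1).1 (by omega)),
            coeff_eq_zero_of_natDegree_lt (lt_of_le_of_lt (hT Q hQ.1).1 (by omega)), sub_self]
      have h3 := eq_X_add_C_of_natDegree_le_one h2
      rw [coeff_sub, coeff_sub] at h3
      exact h3
    have h2 : (S.image (fun P => P.coeff 1)).card ≤ ⌊2 * A1⌋₊ + 1 := by
      apply U4_card_int _ _ (by positivity)
      intro a ha b hb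
      obtain ⟨P, hP, rfl⟩ := Finset.mem_image.1 ha
      obtain ⟨Q, hQ, rfl⟩ := Finset.mem_image.1 hb
      have h3 := congrArg derivative (hdiff P hP Q hQ)
      rw [derivative_sub] at h3
      have h4 : derivative (C (P.coeff 1 - Q.coeff 1) * X + C (P.coeff 0 - Q.coeff 0)) =
          C (P.coeff 1 - Q.coeff 1) := by simp
      rw [h4] at h3
      have h5 := congrArg (aeval y) h3
      rw [map_sub, aeval_C] at h5
      have h6 : ((P.coeff 1 : ℝ) - (Q.coeff 1 : ℝ)) =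
          aeval y (derivative P) - aeval y (derivative Q) := by
        rw [h5]
        simp
      rw [h6]
      have hP' := (hT P (Finset.mem_filter.1 hP).1).2.2.2
      have hQ' := (hT Q (Finset.mem_filter.1 hQ).1).2.2.2
      calc |aeval y (derivative P) - aeval y (derivative Q)|
          ≤ |aeval y (derivative P)| + |aeval y (derivative Q)| := abs_sub _ _
        _ ≤ 2 * A1 := by linarith
    have h3 : S.card ≤ (⌊2 * A0⌋₊ + 1) * (S.image (fun P => P.coeff 1)).card := by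
      apply Finset.card_le_mul_card_image
      intro b _
      set S' := S.filter (fun P => P.coeff 1 = b) with hS'
      have hinj : Set.InjOn (fun P : ℤ[X] => P.coeff 0) (S' : Set ℤ[X]) := by
        intro P hP Q hQ hPQ
        rw [Finset.mem_coe, hS', Finset.mem_filter] at hP hQ
        have h4 := hdiff P hP.1 Q hQ.1
        simp only at hPQ
        rw [hP.2, hQ.2, hPQ, sub_self, sub_self, map_zero, zero_mul, add_zero] at h4
        exact sub_eq_zero.1 h4
      rw [← Finset.card_image_of_injOn hinj]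
      apply U4_card_int _ _ (by positivity)
      intro a ha b' hb
      obtain ⟨P, hP, rfl⟩ := Finset.mem_image.1 ha
      obtain ⟨Q, hQ, rfl⟩ := Finset.mem_image.1 hb
      rw [hS', Finset.mem_filter] at hP hQ
      have h4 := hdiff P hP.1 Q hQ.1
      rw [hP.2, hQ.2, sub_self, map_zero, zero_mul, zero_add] at h4
      have h5 := congrArg (aeval y) h4
      rw [map_sub, aeval_C] at h5
      have h6 : ((P.coeff 0 : ℝ) - (Q.coeff 0 : ℝ)) = aeval y P - aeval y Q := by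
        rw [h5]
        simp
      rw [h6]
      have hP' := (hT P (Finset.mem_filter.1 hP.1).1).2.2.1
      have hQ' := (hT Q (Finset.mem_filter.1 hQ.1).1).2.2.1
      calc |aeval y P - aeval y Q| ≤ |aeval y P| + |aeval y Q| := abs_sub _ _
        _ ≤ 2 * A0 := by linarith
    exact h3.trans (Nat.mul_le_mul_left _ h2)
  have h2 : (T.image f).card ≤ (2 * ⌊H⌋₊ + 1) ^ (m - 1) := by
    have hsub : T.image f ⊆ Fintype.piFinset (fun _ : Fin (m - 1) =>
        Finset.Icc (-(⌊H⌋₊ : ℤ)) ⌊H⌋₊) := by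
      intro g hg
      obtain ⟨P, hP, rfl⟩ := Finset.mem_image.1 hg
      rw [Fintype.mem_piFinset]
      intro i
      rw [Finset.mem_Icc, ← abs_le]
      have h3 : |((f P i : ℤ) : ℝ)| ≤ H := (abs_coeff_le_L1 P _).trans (hT P hP).2.1
      have h4 : ((|f P i| : ℤ) : ℝ) ≤ H := by
        rw [Int.cast_abs]
        exact h3
      have h5 : |f P i| ≤ ⌊H⌋ := Int.le_floor.2 h4
      rw [Int.natCast_floor_eq_floor hH]
      exact h5
    refine (Finset.card_le_card hsub).trans (le_of_eq ?_)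
    rw [Fintype.card_piFinset, Finset.prod_const, Finset.card_univ, Fintype.card_fin, Int.card_Icc]
    congr 1
    omega
  have h3 : (T.card : ℝ) ≤ (((⌊2 * A0⌋₊ + 1) * (⌊2 * A1⌋₊ + 1)) * (2 * ⌊H⌋₊ + 1) ^ (m - 1) : ℕ) := by
    exact_mod_cast h1.trans (Nat.mul_le_mul_left _ h2)
  refine h3.trans ?_
  push_cast
  have e0 : ((⌊2 * A0⌋₊ : ℕ) : ℝ) ≤ 2 * A0 := Nat.floor_le (by positivity)
  have e1 : ((⌊2 * A1⌋₊ : ℕ) : ℝ) ≤ 2 * A1 := Nat.floor_le (by positivity)
  have e2 : ((⌊H⌋₊ : ℕ) : ℝ) ≤ H := Nat.floor_le hH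
  calc ((⌊2 * A0⌋₊ : ℝ) + 1) * ((⌊2 * A1⌋₊ : ℝ) + 1) * (2 * (⌊H⌋₊ : ℝ) + 1) ^ (m - 1)
      ≤ (2 * A0 + 1) * (2 * A1 + 1) * (2 * H + 1) ^ (m - 1) := by gcongr
    _ = (2 * A1 + 1) * (2 * A0 + 1) * (2 * H + 1) ^ (m - 1) := by ring

private theorem U4_near (m : ℕ) (M : ℝ) (hM : 1 ≤ M) (P : ℤ[X]) (hPm : P.natDegree ≤ m)
    (H δ : ℝ) (hPH : L1 P ≤ H) (hδ0 : 0 < δ) (hδ1 : δ ≤ 1) (hδH : 1 ≤ δ ^ 2 * H) (x y : ℝ)
    (hx : |x| ≤ M) (hyx : |y - x| ≤ δ) (hPx : |aeval x P| ≤ 1)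
    (hPx' : |aeval x (derivative P)| ≤ δ * H) :
    |aeval y P| ≤ (2 + m * m * (M + 1) ^ m) * (δ ^ 2 * H) ∧
      |aeval y (derivative P)| ≤ (1 + m * m * (M + 1) ^ m) * (δ * H) := by
  set K : ℝ := m * m * (M + 1) ^ m with hK
  have hK0 : 0 ≤ K := by positivity
  have hH0 : 0 ≤ H := (L1_nonneg P).trans hPH
  have hd1 : (derivative P).natDegree ≤ m := (natDegree_derivative_le P).trans (by omega)
  have hd2 : (derivative (derivative P)).natDegree ≤ m :=
    (natDegree_derivative_le _).trans (by omega)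
  have hbound : ∀ u ∈ Metric.closedBall x δ, ‖aeval u (derivative (derivative P))‖ ≤ K * H := by
    intro u hu
    rw [Metric.mem_closedBall, Real.dist_eq] at hu
    have hu' : |u| ≤ M + 1 := by
      have h1 : |u| ≤ |u - x| + |x| := by
        have := abs_add_le (u - x) x
        rwa [sub_add_cancel] at this
      linarith
    have h1 := abs_aeval_le (derivative (derivative P)) m hd2 u
    have h2 := L1_derivative_le (derivative P) m hd1
    have h3 := L1_derivative_le P m hPm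
    have h4 : (max 1 |u|) ^ m ≤ (M + 1) ^ m :=
      pow_le_pow_left₀ (by positivity) (max_le (by linarith) hu') m
    rw [Real.norm_eq_abs]
    calc |aeval u (derivative (derivative P))|
        ≤ L1 (derivative (derivative P)) * (max 1 |u|) ^ m := h1
      _ ≤ (m * (m * H)) * (M + 1) ^ m := by
          refine mul_le_mul (h2.trans ?_) h4 (by positivity) (by positivity)
          refine mul_le_mul_of_nonneg_left (h3.trans ?_) (Nat.cast_nonneg m)
          exact mul_le_mul_of_nonneg_left hPH (Nat.cast_nonneg m)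
      _ = K * H := by rw [hK]; ring
  have hxm : x ∈ Metric.closedBall x δ := Metric.mem_closedBall_self hδ0.le
  have hym : y ∈ Metric.closedBall x δ := by
    rw [Metric.mem_closedBall, Real.dist_eq]
    exact hyx
  have hder : ∀ u ∈ Metric.closedBall x δ,
      |aeval u (derivative P)| ≤ (1 + K) * (δ * H) := by
    intro u hu
    have h1 := (convex_closedBall x δ).norm_image_sub_le_of_norm_hasDerivWithin_le
      (f := fun v : ℝ => aeval v (derivative P))
      (fun v _ => (Polynomial.hasDerivAt_aeval (derivative P) v).hasDerivWithinAt) hbound hxm hu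
    rw [Real.norm_eq_abs, Real.norm_eq_abs] at h1
    rw [Metric.mem_closedBall, Real.dist_eq] at hu
    have h2 : |aeval u (derivative P)| ≤
        |aeval u (derivative P) - aeval x (derivative P)| + |aeval x (derivative P)| := by
      have := abs_add_le (aeval u (derivative P) - aeval x (derivative P))
        (aeval x (derivative P))
      rwa [sub_add_cancel] at this
    have h3 : K * H * |u - x| ≤ K * H * δ := mul_le_mul_of_nonneg_left hu (by positivity)
    calc |aeval u (derivative P)| ≤ K * H * δ + δ * H := by linarith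
      _ = (1 + K) * (δ * H) := by ring
  refine ⟨?_, hder y hym⟩
  have h1 := (convex_closedBall x δ).norm_image_sub_le_of_norm_hasDerivWithin_le
    (f := fun v : ℝ => aeval v P)
    (fun v _ => (Polynomial.hasDerivAt_aeval P v).hasDerivWithinAt)
    (fun v hv => by
      rw [Real.norm_eq_abs]
      exact hder v hv) hxm hym
  rw [Real.norm_eq_abs, Real.norm_eq_abs] at h1
  have h2 : |aeval y P| ≤ |aeval y P - aeval x P| + |aeval x P| := by
    have := abs_add_le (aeval y P - aeval x P) (aeval x P)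
    rwa [sub_add_cancel] at this
  have h3 : (1 + K) * (δ * H) * |y - x| ≤ (1 + K) * (δ * H) * δ :=
    mul_le_mul_of_nonneg_left hyx (by positivity)
  calc |aeval y P| ≤ (1 + K) * (δ * H) * δ + 1 := by linarith
    _ ≤ (1 + K) * (δ * H) * δ + δ ^ 2 * H := by linarith
    _ = (2 + K) * (δ ^ 2 * H) := by ring

/-- U4: the number of polynomials with a small value and a small derivative at the same point.
Hint: for `δ ≥ 1` use `card_L1`. Otherwise take a grid `x_k` of mesh `δ` on `[-M, M]`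
(`≤ 2M/δ + 2` points); at the nearest `x_k`: `|P(x_k)| ≤ C δ² H`, `|P'(x_k)| ≤ C δ H`
(`δ² H ≥ 1`). For fixed `x_k`: coefficients `2..m` free (`≤ (2H+1)^{m-1}`), then `a_1` in an interval
of length `C δ H` (`δ H ≥ 1`), then `a_0` in an interval of length `C δ² H`. -/
theorem count_small (m : ℕ) (hm : 1 ≤ m) (M : ℝ) (hM : 1 ≤ M) : ∃ C : ℝ, 0 < C ∧ ∀ H δ : ℝ, 1 ≤ H →
    H ^ (-(1 / 2 : ℝ)) ≤ δ →
    ({P : ℤ[X] | P.natDegree ≤ m ∧ L1 P ≤ H ∧ ∃ x : ℝ, |x| ≤ M ∧ |aeval x P| ≤ 1 ∧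
      |aeval x (derivative P)| ≤ δ * H}.ncard : ℝ) ≤ C * δ ^ 2 * H ^ (m + 1) := by
  classical
  obtain ⟨C₁, hC₁, hcard⟩ := card_L1 m
  set K : ℝ := m * m * (M + 1) ^ m with hK
  have hK0 : 0 ≤ K := by positivity
  set C₂ : ℝ := (2 * M + 3) * ((2 * (1 + K) + 1) * (2 * (2 + K) + 1) * 3 ^ (m - 1)) with hC₂
  have hC₂0 : 0 < C₂ := by positivity
  refine ⟨C₁ + C₂, by positivity, ?_⟩
  intro H δ hH hδ
  have hH0 : 0 < H := by linarith
  have hδ0 : 0 < δ := lt_of_lt_of_le (by positivity) hδ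
  have hfin := finite_L1 m H
  have hHm : (0 : ℝ) < H ^ (m + 1) := by positivity
  by_cases hδ1 : 1 ≤ δ
  · have h1 : ({P : ℤ[X] | P.natDegree ≤ m ∧ L1 P ≤ H ∧ ∃ x : ℝ, |x| ≤ M ∧ |aeval x P| ≤ 1 ∧
      |aeval x (derivative P)| ≤ δ * H}.ncard : ℝ) ≤
        ({P : ℤ[X] | P.natDegree ≤ m ∧ L1 P ≤ H}.ncard : ℝ) := by
      have h2 := Set.ncard_le_ncard (s := {P : ℤ[X] | P.natDegree ≤ m ∧ L1 P ≤ H ∧ ∃ x : ℝ,
        |x| ≤ M ∧ |aeval x P| ≤ 1 ∧ |aeval x (derivative P)| ≤ δ * H})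
        (t := {P : ℤ[X] | P.natDegree ≤ m ∧ L1 P ≤ H}) (fun P hP => ⟨hP.1, hP.2.1⟩) hfin
      exact_mod_cast h2
    have h2 : (1 : ℝ) ≤ δ ^ 2 := one_le_pow₀ hδ1
    calc ({P : ℤ[X] | P.natDegree ≤ m ∧ L1 P ≤ H ∧ ∃ x : ℝ, |x| ≤ M ∧ |aeval x P| ≤ 1 ∧
          |aeval x (derivative P)| ≤ δ * H}.ncard : ℝ) ≤ C₁ * H ^ (m + 1) := h1.trans (hcard H hH)
      _ ≤ (C₁ + C₂) * δ ^ 2 * H ^ (m + 1) := by
          refine mul_le_mul_of_nonneg_right ?_ hHm.le
          nlinarith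
  · have hδ1' : δ ≤ 1 := le_of_not_ge hδ1
    have hδH : 1 ≤ δ ^ 2 * H := by
      have h1 : (H ^ (-(1 / 2 : ℝ))) ^ 2 ≤ δ ^ 2 := pow_le_pow_left₀ (by positivity) hδ 2
      have h2 : (H ^ (-(1 / 2 : ℝ))) ^ 2 = H⁻¹ := by
        rw [← Real.rpow_natCast, ← Real.rpow_mul hH0.le, ← Real.rpow_neg_one]
        norm_num
      rw [h2] at h1
      calc (1 : ℝ) = H⁻¹ * H := (inv_mul_cancel₀ hH0.ne').symm
        _ ≤ δ ^ 2 * H := mul_le_mul_of_nonneg_right h1 hH0.le
    have hδH' : 1 ≤ δ * H := by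
      refine hδH.trans (mul_le_mul_of_nonneg_right ?_ hH0.le)
      nlinarith
    set N : ℕ := ⌊M / δ⌋₊ + 1 with hN
    set T : ℤ → Finset ℤ[X] := fun k => hfin.toFinset.filter (fun P =>
      |aeval ((k : ℝ) * δ) P| ≤ (2 + K) * (δ ^ 2 * H) ∧
      |aeval ((k : ℝ) * δ) (derivative P)| ≤ (1 + K) * (δ * H)) with hT
    have hsub : {P : ℤ[X] | P.natDegree ≤ m ∧ L1 P ≤ H ∧ ∃ x : ℝ, |x| ≤ M ∧ |aeval x P| ≤ 1 ∧
        |aeval x (derivative P)| ≤ δ * H} ⊆
        (((Finset.Icc (-(N : ℤ)) N).biUnion T : Finset ℤ[X]) : Set ℤ[X]) := by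
      rintro P ⟨hPm, hPH, x, hx, hPx, hPx'⟩
      rw [Finset.mem_coe, Finset.mem_biUnion]
      have hfl : |(⌊x / δ⌋ : ℝ) * δ - x| ≤ δ := by
        have h1 := Int.floor_le (x / δ)
        have h2 := Int.lt_floor_add_one (x / δ)
        rw [le_div_iff₀ hδ0] at h1
        rw [div_lt_iff₀ hδ0] at h2
        rw [abs_le]
        constructor
        · linarith
        · linarith
      refine ⟨⌊x / δ⌋, ?_, ?_⟩
      · rw [Finset.mem_Icc]
        have h1 : -(M / δ) ≤ x / δ := by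
          rw [← neg_div]
          exact div_le_div_of_nonneg_right (abs_le.1 hx).1 hδ0.le
        have h2 : x / δ ≤ M / δ := div_le_div_of_nonneg_right (abs_le.1 hx).2 hδ0.le
        have h3 : M / δ < N := by
          rw [hN]
          push_cast
          exact Nat.lt_floor_add_one _
        constructor
        · rw [Int.le_floor]
          push_cast
          linarith
        · have h4 : (⌊x / δ⌋ : ℝ) ≤ N := by
            have := Int.floor_le (x / δ)
            linarith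
          exact_mod_cast h4
      · rw [hT]
        simp only [Finset.mem_filter, Set.Finite.mem_toFinset, Set.mem_ofPred_eq]
        exact ⟨⟨hPm, hPH⟩, U4_near m M hM P hPm H δ hPH hδ0 hδ1' hδH x _ hx hfl hPx hPx'⟩
    have h1 : {P : ℤ[X] | P.natDegree ≤ m ∧ L1 P ≤ H ∧ ∃ x : ℝ, |x| ≤ M ∧ |aeval x P| ≤ 1 ∧
        |aeval x (derivative P)| ≤ δ * H}.ncard ≤
        ((Finset.Icc (-(N : ℤ)) N).biUnion T).card := by
      have h2 := Set.ncard_le_ncard hsub (Finset.finite_toSet _)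
      rwa [Set.ncard_coe_finset] at h2
    have h2 : (((Finset.Icc (-(N : ℤ)) N).biUnion T).card : ℝ) ≤
        ∑ k ∈ Finset.Icc (-(N : ℤ)) N, ((T k).card : ℝ) := by
      exact_mod_cast Finset.card_biUnion_le
    have h3 : ∀ k ∈ Finset.Icc (-(N : ℤ)) N, ((T k).card : ℝ) ≤
        (2 * (1 + K) + 1) * (2 * (2 + K) + 1) * 3 ^ (m - 1) * (δ ^ 3 * H ^ (m + 1)) := by
      intro k _
      have h4 := U4_fiber m hm H ((k : ℝ) * δ) ((2 + K) * (δ ^ 2 * H)) ((1 + K) * (δ * H))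
        hH0.le (by positivity) (by positivity) (T k) (by
          intro P hP
          rw [hT] at hP
          simp only [Finset.mem_filter, Set.Finite.mem_toFinset, Set.mem_ofPred_eq] at hP
          exact ⟨hP.1.1, hP.1.2, hP.2.1, hP.2.2⟩)
      refine h4.trans ?_
      have e1 : 2 * ((1 + K) * (δ * H)) + 1 ≤ (2 * (1 + K) + 1) * (δ * H) := by linarith
      have e0 : 2 * ((2 + K) * (δ ^ 2 * H)) + 1 ≤ (2 * (2 + K) + 1) * (δ ^ 2 * H) := by linarith
      have e2 : (2 * H + 1) ^ (m - 1) ≤ (3 * H) ^ (m - 1) :=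
        pow_le_pow_left₀ (by positivity) (by linarith) _
      calc (2 * ((1 + K) * (δ * H)) + 1) * (2 * ((2 + K) * (δ ^ 2 * H)) + 1) *
            (2 * H + 1) ^ (m - 1)
          ≤ ((2 * (1 + K) + 1) * (δ * H)) * ((2 * (2 + K) + 1) * (δ ^ 2 * H)) *
            (3 * H) ^ (m - 1) := by gcongr
        _ = (2 * (1 + K) + 1) * (2 * (2 + K) + 1) * 3 ^ (m - 1) *
            (δ ^ 3 * (H ^ 2 * H ^ (m - 1))) := by
            rw [mul_pow]
            ring
        _ = (2 * (1 + K) + 1) * (2 * (2 + K) + 1) * 3 ^ (m - 1) * (δ ^ 3 * H ^ (m + 1)) := by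
            rw [← pow_add]
            congr 3
            omega
    have h4 : ((Finset.Icc (-(N : ℤ)) N).card : ℝ) * δ ≤ 2 * M + 3 := by
      have e1 : (Finset.Icc (-(N : ℤ)) N).card = 2 * N + 1 := by
        rw [Int.card_Icc]
        omega
      rw [e1, hN]
      push_cast
      have e2 : (⌊M / δ⌋₊ : ℝ) * δ ≤ M := by
        have e3 := Nat.floor_le (div_nonneg (by linarith : (0 : ℝ) ≤ M) hδ0.le)
        rwa [le_div_iff₀ hδ0] at e3
      calc (2 * ((⌊M / δ⌋₊ : ℝ) + 1) + 1) * δ = 2 * ((⌊M / δ⌋₊ : ℝ) * δ) + 3 * δ := by ring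
        _ ≤ 2 * M + 3 := by linarith
    calc ({P : ℤ[X] | P.natDegree ≤ m ∧ L1 P ≤ H ∧ ∃ x : ℝ, |x| ≤ M ∧ |aeval x P| ≤ 1 ∧
          |aeval x (derivative P)| ≤ δ * H}.ncard : ℝ)
        ≤ (((Finset.Icc (-(N : ℤ)) N).biUnion T).card : ℝ) := by exact_mod_cast h1
      _ ≤ ∑ k ∈ Finset.Icc (-(N : ℤ)) N, ((T k).card : ℝ) := h2
      _ ≤ ∑ k ∈ Finset.Icc (-(N : ℤ)) N,
          ((2 * (1 + K) + 1) * (2 * (2 + K) + 1) * 3 ^ (m - 1) * (δ ^ 3 * H ^ (m + 1))) :=
          Finset.sum_le_sum h3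
      _ = (((Finset.Icc (-(N : ℤ)) N).card : ℝ) * δ) *
          (((2 * (1 + K) + 1) * (2 * (2 + K) + 1) * 3 ^ (m - 1)) * (δ ^ 2 * H ^ (m + 1))) := by
          rw [Finset.sum_const, nsmul_eq_mul]
          ring
      _ ≤ (2 * M + 3) *
          (((2 * (1 + K) + 1) * (2 * (2 + K) + 1) * 3 ^ (m - 1)) * (δ ^ 2 * H ^ (m + 1))) :=
          mul_le_mul_of_nonneg_right h4 (by positivity)
      _ = C₂ * δ ^ 2 * H ^ (m + 1) := by rw [hC₂]; ring
      _ ≤ (C₁ + C₂) * δ ^ 2 * H ^ (m + 1) := by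
          refine mul_le_mul_of_nonneg_right (mul_le_mul_of_nonneg_right ?_ (by positivity)) hHm.le
          linarith

end Ver4
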