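import Pool.Agent.LibVer4.Defs

open Pool.Agent.LibInterm

namespace Ver4

/-- The index of the lattice spanned by the rows of an integer matrix. -/
theorem V1_index (j : ℕ) (s : Fin j → Fin j → ℤ) (h : (Matrix.of s).det ≠ 0) :
    Nat.card ((Fin j → ℤ) ⧸ Submodule.span ℤ (Set.range s)) = (Matrix.of s).det.natAbs := by
  have hli : LinearIndependent ℤ s := Matrix.linearIndependent_rows_of_det_ne_zero h
  have h1 := Submodule.natAbs_det_basis_change (Pi.basisFun ℤ (Fin j))
    (Submodule.span ℤ (Set.range s)) (Module.Basis.span hli)
  rw [← h1]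
  congr 1
  have h2 : ((↑) ∘ (Module.Basis.span hli) : Fin j → Fin j → ℤ) = s := by
    funext i
    exact Module.Basis.coe_span_apply hli i
  rw [h2, Pi.basisFun_det_apply]

/-- V1: the number of short vectors of a lattice. Hint: choose `s : Fin j → T` with `|det s|` maximal;
by Cramer's rule (`Matrix.mulVec_cramer` for the transpose of `s`) every `y ∈ T` is `∑ t_i s_i` with
`t_i = det (s with row i replaced by y) / det s`, `|t_i| ≤ 1`. The map from `y` to the pair (class
of `y` modulo the lattice spanned by the `s_i`, the floors of the `t_i`, which lie in `{-1, 0, 1}`) is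
injective; the number of classes is `|det s|` (Mathlib: `Submodule.natAbs_det_basis_change`). So
`card T ≤ 3^j |det s|`, and `|det s| |det U| = |det (zcomb U (s i) l)| ≤ j! K^j` (`Matrix.det_le`). -/
theorem card_short (j : ℕ) (U : Matrix (Fin j) (Fin j) ℝ) (K : ℝ) (T : Finset (Fin j → ℤ))
    (hT : ∀ y ∈ T, ‖zcomb U y‖ ≤ K)
    (hs : ∃ s : Fin j → Fin j → ℤ, (∀ i, s i ∈ T) ∧ (Matrix.of s).det ≠ 0) :
    (T.card : ℝ) * |U.det| ≤ 3 ^ j * (j.factorial * K ^ j) := by
  classical
  obtain ⟨s0, hs0, hd0⟩ := hs
  obtain ⟨s, hs, hmax⟩ := (Fintype.piFinset (fun _ : Fin j => T)).exists_max_image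
    (fun s => (Matrix.of s).det.natAbs) ⟨s0, Fintype.mem_piFinset.2 hs0⟩
  rw [Fintype.mem_piFinset] at hs
  have hdet : (Matrix.of s).det ≠ 0 := by
    intro h
    have h1 := hmax s0 (Fintype.mem_piFinset.2 hs0)
    rw [h] at h1
    exact hd0 (Int.natAbs_eq_zero.1 (Nat.le_zero.1 h1))
  set D : ℕ := (Matrix.of s).det.natAbs with hD
  have hDpos : 0 < D := Int.natAbs_pos.2 hdet
  set c : (Fin j → ℤ) → Fin j → ℤ := fun y => Matrix.cramer (Matrix.of s).transpose y with hc
  have hcb : ∀ y ∈ T, ∀ i, |c y i| ≤ D := by
    intro y hy i
    have h1 : c y i = (Matrix.of (Function.update s i y)).det := by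
      rw [hc]
      simp only [Matrix.cramer_transpose_apply]
      rfl
    have h2 := hmax (Function.update s i y) (by
      rw [Fintype.mem_piFinset]
      intro l
      by_cases hl : l = i
      · rw [hl, Function.update_self]
        exact hy
      · rw [Function.update_of_ne hl]
        exact hs l)
    rw [h1, Int.abs_eq_natAbs]
    exact_mod_cast h2
  have hindex := V1_index j s hdet
  have hfin : Finite ((Fin j → ℤ) ⧸ Submodule.span ℤ (Set.range s)) := by
    apply Nat.finite_of_card_ne_zero
    rw [hindex]
    exact hDpos.ne'
  have : Fintype ((Fin j → ℤ) ⧸ Submodule.span ℤ (Set.range s)) := Fintype.ofFinite _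
  -- the counting
  have hcard : T.card ≤ D * 3 ^ j := by
    have h1 : T.card ≤ ((Finset.univ : Finset ((Fin j → ℤ) ⧸ Submodule.span ℤ (Set.range s))) ×ˢ
        Fintype.piFinset (fun _ : Fin j => Finset.Icc (-1 : ℤ) 1)).card := by
      refine Finset.card_le_card_of_injOn
        (fun y => (Submodule.Quotient.mk y, fun i => c y i / (D : ℤ))) ?_ ?_
      · intro y hy
        simp only [Finset.coe_product, Set.mem_prod, Finset.mem_coe, Finset.mem_univ, true_and,
          Fintype.mem_piFinset, Finset.mem_Icc]
        intro i
        have h2 := abs_le.1 (hcb y hy i)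
        have hD' : (0 : ℤ) < D := by exact_mod_cast hDpos
        constructor
        · rw [Int.le_ediv_iff_mul_le hD']
          linarith [h2.1]
        · have h3 : c y i / (D : ℤ) < 2 := by
            rw [Int.ediv_lt_iff_lt_mul hD']
            linarith [h2.2]
          omega
      · intro y hy y' hy' hyy
        simp only [Prod.mk.injEq] at hyy
        obtain ⟨h2, h3⟩ := hyy
        rw [Submodule.Quotient.eq, Submodule.mem_span_range_iff_exists_fun] at h2
        obtain ⟨n, hn⟩ := h2
        have h4 : ∀ i, c y i - c y' i = n i * (Matrix.of s).det := by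
          intro i
          have h5 : c y i - c y' i =
              Matrix.cramer (Matrix.of s).transpose (∑ l, n l • s l) i := by
            rw [hn, map_sub]
            rfl
          rw [h5, map_sum, Finset.sum_apply, Finset.sum_eq_single i]
          · rw [map_smul]
            have h6 : Matrix.cramer (Matrix.of s).transpose (s i) =
                Pi.single i (Matrix.of s).det := Matrix.cramer_transpose_row_self (Matrix.of s) i
            rw [h6, Pi.smul_apply, Pi.single_eq_same, smul_eq_mul]
          · intro l _ hl
            rw [map_smul]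
            have h6 : Matrix.cramer (Matrix.of s).transpose (s l) =
                Pi.single l (Matrix.of s).det := Matrix.cramer_transpose_row_self (Matrix.of s) l
            rw [h6, Pi.smul_apply, Pi.single_eq_of_ne hl.symm, smul_zero]
          · intro h
            exact absurd (Finset.mem_univ i) h
        have h7 : ∀ i, n i = 0 := by
          intro i
          have hD' : (0 : ℤ) < D := by exact_mod_cast hDpos
          have h8 : c y i / (D : ℤ) = c y' i / (D : ℤ) := congrFun h3 i
          have h9 := Int.emod_nonneg (c y i) hD'.ne'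
          have h10 := Int.emod_lt_of_pos (c y i) hD'
          have h11 := Int.emod_nonneg (c y' i) hD'.ne'
          have h12 := Int.emod_lt_of_pos (c y' i) hD'
          have h13 := Int.emod_add_mul_ediv (c y i) D
          have h14 := Int.emod_add_mul_ediv (c y' i) D
          rw [h8] at h13
          have h15 : |c y i - c y' i| < D := by
            rw [abs_lt]
            constructor <;> linarith
          rw [h4 i, abs_mul] at h15
          have h16 : |(Matrix.of s).det| = (D : ℤ) := by
            rw [hD, Int.abs_eq_natAbs]
          rw [h16] at h15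
          by_contra hne
          have h17 : 1 ≤ |n i| := Int.one_le_abs hne
          nlinarith
        have h18 : y - y' = 0 := by
          rw [← hn]
          refine Finset.sum_eq_zero fun i _ => ?_
          rw [h7 i, zero_smul]
        exact sub_eq_zero.1 h18
    rw [Finset.card_product, Finset.card_univ, ← Nat.card_eq_fintype_card, hindex,
      Fintype.card_piFinset] at h1
    simpa using h1
  -- the determinant
  have hdetU : (D : ℝ) * |U.det| ≤ j.factorial * K ^ j := by
    set A : Matrix (Fin j) (Fin j) ℝ := (Matrix.of s).map (Int.castRingHom ℝ) * U with hA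
    have h1 : |A.det| = (D : ℝ) * |U.det| := by
      rw [hA, Matrix.det_mul, abs_mul]
      congr 1
      have h2 : ((Matrix.of s).map (Int.castRingHom ℝ)).det =
          (((Matrix.of s).det : ℤ) : ℝ) := by
        rw [← RingHom.mapMatrix_apply, ← RingHom.map_det]
        rfl
      rw [h2, hD, Nat.cast_natAbs, Int.cast_abs]
    rw [← h1]
    have h3 : ∀ i l, AbsoluteValue.abs (A i l) ≤ K := by
      intro i l
      have h4 : A i l = zcomb U (s i) l := rfl
      rw [h4]
      have h5 := norm_le_pi_norm (zcomb U (s i)) l
      rw [Real.norm_eq_abs] at h5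
      exact h5.trans (hT _ (hs i))
    have h6 := Matrix.det_le (abv := (AbsoluteValue.abs : AbsoluteValue ℝ ℝ)) h3
    rw [Fintype.card_fin, nsmul_eq_mul] at h6
    exact h6
  calc (T.card : ℝ) * |U.det| ≤ ((D * 3 ^ j : ℕ) : ℝ) * |U.det| := by
        apply mul_le_mul_of_nonneg_right _ (abs_nonneg _)
        exact_mod_cast hcard
    _ = 3 ^ j * ((D : ℝ) * |U.det|) := by push_cast; ring
    _ ≤ 3 ^ j * (j.factorial * K ^ j) := mul_le_mul_of_nonneg_left hdetU (by positivity)

end Ver4
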