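import Pool.Agent.LibVer4.M3c
import Pool.Agent.LibVer4.N2

open Polynomial Pool.Agent.LibInterm

namespace Ver4

/-- The coordinates of a polynomial at the point `x` and scale `δ, H`: value / (δ² H),
derivative / (δ H), coefficients / H. -/
noncomputable def gv (x δ H : ℝ) (F : ℤ[X]) (k : ℕ) : ℝ :=
  if k = 0 then aeval x F / (δ ^ 2 * H) else if k = 1 then aeval x (derivative F) / (δ * H) else
    (F.coeff k : ℝ) / H

theorem gv_add (x δ H : ℝ) (F G : ℤ[X]) (k : ℕ) :
    gv x δ H (F + G) k = gv x δ H F k + gv x δ H G k := by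
  unfold gv
  split_ifs
  · rw [map_add, add_div]
  · rw [derivative_add, map_add, add_div]
  · rw [coeff_add, Int.cast_add, add_div]

theorem gv_zsmul (x δ H : ℝ) (a : ℤ) (F : ℤ[X]) (k : ℕ) :
    gv x δ H (a • F) k = (a : ℝ) * gv x δ H F k := by
  unfold gv
  split_ifs
  · rw [map_zsmul, zsmul_eq_mul, mul_div_assoc]
  · rw [derivative_smul, map_zsmul, zsmul_eq_mul, mul_div_assoc]
  · rw [coeff_smul, smul_eq_mul, Int.cast_mul, mul_div_assoc]

theorem gv_zero (x δ H : ℝ) (k : ℕ) : gv x δ H 0 k = 0 := by
  unfold gv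
  split_ifs <;> simp

theorem gv_sum (x δ H : ℝ) {ι : Type*} (s : Finset ι) (y : ι → ℤ) (F : ι → ℤ[X]) (k : ℕ) :
    gv x δ H (∑ i ∈ s, y i • F i) k = ∑ i ∈ s, (y i : ℝ) * gv x δ H (F i) k := by
  classical
  induction s using Finset.induction_on with
  | empty => simp [gv_zero]
  | insert a s ha ih => rw [Finset.sum_insert ha, Finset.sum_insert ha, gv_add, gv_zsmul, ih]

/-- The matrix of the coordinates. -/
noncomputable def tmat (n : ℕ) (x δ H : ℝ) : Matrix (Fin (n + 2)) (Fin (n + 2)) ℝ :=
  Matrix.of fun k c => if c = 0 then x ^ (k : ℕ) / (δ ^ 2 * H) else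
    if c = 1 then ((k : ℕ) : ℝ) * x ^ ((k : ℕ) - 1) / (δ * H) else if k = c then 1 / H else 0

theorem det_tmat (n : ℕ) (x δ H : ℝ) :
    (tmat n x δ H).det = 1 / (δ ^ 2 * H) * (1 / (δ * H) * (1 / H) ^ n) := by
  rw [Matrix.det_of_isLowerTriangular]
  · rw [Fin.prod_univ_succ, Fin.prod_univ_succ]
    have h0 : tmat n x δ H 0 0 = 1 / (δ ^ 2 * H) := by
      simp [tmat]
    have h1 : tmat n x δ H (Fin.succ 0) (Fin.succ 0) = 1 / (δ * H) := by
      simp [tmat]
    have h2 : ∀ i : Fin n, tmat n x δ H i.succ.succ i.succ.succ = 1 / H := by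
      intro i
      have h3 : i.succ.succ ≠ 1 := by
        intro h
        have := congrArg Fin.val h
        simp at this
      simp [tmat, h3, Fin.succ_ne_zero]
    rw [h0, h1, Finset.prod_congr rfl (fun i _ => h2 i), Finset.prod_const, Finset.card_univ,
      Fintype.card_fin]
  · intro i j hij
    have hij' : i < j := hij
    simp only [tmat, Matrix.of_apply]
    have hj0 : j ≠ 0 := by
      intro h0
      rw [h0] at hij'
      exact absurd hij' (Fin.not_lt_zero _)
    rw [if_neg hj0]
    by_cases h1 : j = 1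
    · subst h1
      have hi : i = 0 := by
        apply Fin.ext
        have h2 : (i : ℕ) < ((1 : Fin (n + 2)) : ℕ) := hij'
        simpa using h2
      subst hi
      simp
    · rw [if_neg h1, if_neg hij'.ne]

theorem gv_eq_zcomb (n : ℕ) (x δ H : ℝ) (F : ℤ[X]) (hF : F.natDegree ≤ n + 1)
    (c : Fin (n + 2)) : gv x δ H F c = zcomb (tmat n x δ H) (vec (n + 1) F) c := by
  have hF0 : F = N2_poly (n + 1) (vec (n + 1) F) := by
    ext l
    by_cases hl : l < n + 1 + 1
    · have := N2_coeff (n + 1) (vec (n + 1) F) ⟨l, hl⟩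
      rw [this]
      rfl
    · rw [Polynomial.coeff_eq_zero_of_natDegree_lt (by omega),
        Polynomial.coeff_eq_zero_of_natDegree_lt
          (lt_of_le_of_lt (N2_natDegree (n + 1) _) (by omega))]
  rw [M3c_apply]
  unfold gv
  by_cases h0 : c = 0
  · subst h0
    rw [if_pos (by simp)]
    conv_lhs => rw [hF0]
    rw [N2_aeval, Finset.sum_div]
    apply Finset.sum_congr rfl
    intro i _
    simp only [tmat, Matrix.of_apply, if_true]
    ring
  · have h0' : (c : ℕ) ≠ 0 := fun h => h0 (Fin.ext h)
    rw [if_neg h0']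
    by_cases h1 : c = 1
    · subst h1
      rw [if_pos (by simp)]
      conv_lhs => rw [hF0]
      rw [N2_aeval_derivative, Finset.sum_div]
      apply Finset.sum_congr rfl
      intro i _
      simp only [tmat, Matrix.of_apply, if_true, if_neg h0]
      ring
    · have h1' : (c : ℕ) ≠ 1 := by
        intro h
        apply h1
        apply Fin.ext
        simpa using h
      rw [if_neg h1', Finset.sum_eq_single c]
      · simp only [tmat, Matrix.of_apply, if_neg h0, if_neg h1, if_true, vec]
        ring
      · intro i _ hi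
        simp only [tmat, Matrix.of_apply, if_neg h0, if_neg h1, if_neg hi, mul_zero]
      · intro h
        exact absurd (Finset.mem_univ _) h

/-- V2: a family of integer polynomials, `j` of them of degree at most `m + 1` and `q` others with
coordinates at most `K`: the maximal minor of the first ones is not small. -/
theorem block_bound (m n j q : ℕ) (hmn : m ≤ n) (hjq : j + q = n + 2) (x δ H K : ℝ) (hδ : 0 < δ)
    (hH : 0 < H) (hK : 1 ≤ K) (c : Fin j → ℤ[X]) (r : Fin q → ℤ[X])
    (hc : ∀ i, (c i).natDegree ≤ m + 1) (hr : ∀ i, (r i).natDegree ≤ n + 1)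
    (hli : LinearIndependent ℤ (Sum.elim c r))
    (hrK : ∀ (i : Fin q) (k : ℕ), |gv x δ H (r i) k| ≤ K) (I : Fin j → Fin (m + 2))
    (hI : ∀ J : Fin j → Fin (m + 2), |(Matrix.of fun i l => gv x δ H (c i) (J l)).det| ≤
      |(Matrix.of fun i l => gv x δ H (c i) (I l)).det|) :
    1 ≤ ((n + 2).factorial * K ^ (n + 2)) * (δ ^ 3 * H ^ (n + 2)) *
      |(Matrix.of fun i l => gv x δ H (c i) (I l)).det| := by
  set U : Matrix (Fin j) (Fin j) ℝ := Matrix.of fun i l => gv x δ H (c i) (I l) with hU
  set e : Fin j ⊕ Fin q ≃ Fin (n + 2) := finSumFinEquiv.trans (finCongr hjq) with he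
  set b : Fin j ⊕ Fin q → ℤ[X] := Sum.elim c r with hb
  have hbdeg : ∀ s, (b s).natDegree ≤ n + 1 := by
    rintro (i | i)
    · exact (hc i).trans (by omega)
    · exact hr i
  have hdetT : (tmat n x δ H).det ≠ 0 := by
    rw [det_tmat]
    positivity
  -- the integer matrix
  set A : Matrix (Fin (n + 2)) (Fin (n + 2)) ℤ := Matrix.of fun s => vec (n + 1) (b (e.symm s))
    with hA
  have hvecinj : ∀ F : ℤ[X], F.natDegree ≤ n + 1 → vec (n + 1) F = 0 → F = 0 := by
    intro F hF h0
    ext l
    by_cases hl : l < n + 1 + 1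
    · exact congrFun h0 ⟨l, hl⟩
    · rw [Polynomial.coeff_eq_zero_of_natDegree_lt (by omega), Polynomial.coeff_zero]
  have hAli : LinearIndependent ℤ (fun s => A s) := by
    rw [Fintype.linearIndependent_iff]
    intro g hg
    have h1 : ∑ s, g s • b (e.symm s) = 0 := by
      apply hvecinj
      · apply Polynomial.natDegree_sum_le_of_forall_le
        intro s _
        exact (Polynomial.natDegree_smul_le _ _).trans (hbdeg _)
      · ext l
        have h2 := congrFun hg l
        simp only [Finset.sum_apply, Pi.smul_apply, Pi.zero_apply] at h2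
        simp only [vec, Polynomial.finsetSum_coeff, Polynomial.coeff_smul, Pi.zero_apply]
        exact h2
    have h3 : LinearIndependent ℤ (fun s => b (e.symm s)) := hli.comp _ e.symm.injective
    rw [Fintype.linearIndependent_iff] at h3
    exact h3 g h1
  have hAdet : (1 : ℝ) ≤ |(A.map (Int.castRingHom ℝ)).det| := by
    have h1 := M3c_li (tmat n x δ H) hdetT (fun s => A s) hAli
    have h4 : IsUnit ((A.map (Int.castRingHom ℝ)) * tmat n x δ H) := by
      rw [← Matrix.linearIndependent_rows_iff_isUnit]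
      exact h1
    have h2 := RingHom.map_det (Int.castRingHom ℝ) A
    have h3 : (A.map (Int.castRingHom ℝ)).det = ((A.det : ℤ) : ℝ) := h2.symm
    have h5 : (A.map (Int.castRingHom ℝ)).det ≠ 0 := by
      intro h0
      rw [Matrix.isUnit_iff_isUnit_det, Matrix.det_mul, h0, zero_mul] at h4
      exact not_isUnit_zero h4
    rw [h3] at h5 ⊢
    have h6 : A.det ≠ 0 := by exact_mod_cast h5
    exact_mod_cast Int.one_le_abs h6
  -- the real matrix
  set Z : Matrix (Fin (n + 2)) (Fin (n + 2)) ℝ :=
    Matrix.of fun s k => gv x δ H (b (e.symm s)) k with hZ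
  have hZA : Z = (A.map (Int.castRingHom ℝ)) * tmat n x δ H := by
    ext s k
    rw [hZ, Matrix.of_apply, gv_eq_zcomb n x δ H _ (hbdeg _)]
    rfl
  have hZdet : 1 ≤ (δ ^ 3 * H ^ (n + 2)) * |Z.det| := by
    rw [hZA, Matrix.det_mul, det_tmat, abs_mul,
      abs_of_pos (show (0 : ℝ) < 1 / (δ ^ 2 * H) * (1 / (δ * H) * (1 / H) ^ n) by positivity)]
    have h7 : (δ ^ 3 * H ^ (n + 2)) * (1 / (δ ^ 2 * H) * (1 / (δ * H) * (1 / H) ^ n)) = 1 := by
      rw [one_div_pow]
      field_simp
      ring
    calc (1 : ℝ) ≤ |(A.map (Int.castRingHom ℝ)).det| := hAdet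
      _ = |(A.map (Int.castRingHom ℝ)).det| * ((δ ^ 3 * H ^ (n + 2)) *
          (1 / (δ ^ 2 * H) * (1 / (δ * H) * (1 / H) ^ n))) := by rw [h7, mul_one]
      _ = _ := by ring
  -- the determinant of `U` is not zero
  have hUne : U.det ≠ 0 := by
    intro h0
    have hdetTm : (tmat m x δ H).det ≠ 0 := by
      rw [det_tmat]
      positivity
    have hcli : LinearIndependent ℤ (fun i => vec (m + 1) (c i)) := by
      have h1 : LinearIndependent ℤ c := by
        have := hli.comp Sum.inl Sum.inl_injective
        exact this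
      rw [Fintype.linearIndependent_iff] at h1 ⊢
      intro g hg
      apply h1 g
      ext l
      by_cases hl : l < m + 1 + 1
      · have h2 := congrFun hg ⟨l, hl⟩
        simp only [Finset.sum_apply, Pi.smul_apply, Pi.zero_apply] at h2
        rw [Polynomial.finsetSum_coeff, Polynomial.coeff_zero]
        simp only [Polynomial.coeff_smul]
        exact h2
      · rw [Polynomial.coeff_zero]
        apply Polynomial.coeff_eq_zero_of_natDegree_lt
        refine lt_of_le_of_lt (b := m + 1) ?_ (by omega)
        apply Polynomial.natDegree_sum_le_of_forall_le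
        intro s _
        exact (Polynomial.natDegree_smul_le _ _).trans (hc s)
    have h1 := M3c_li (tmat m x δ H) hdetTm (fun i => vec (m + 1) (c i)) hcli
    obtain ⟨J, hJ⟩ := exists_minor_ne_zero
      (Matrix.of fun i k => zcomb (tmat m x δ H) (vec (m + 1) (c i)) k :
        Matrix (Fin j) (Fin (m + 2)) ℝ) h1
    apply hJ
    have h2 := hI J
    rw [h0, abs_zero] at h2
    have h3 : (Matrix.submatrix (Matrix.of fun i k => zcomb (tmat m x δ H) (vec (m + 1) (c i)) k :
        Matrix (Fin j) (Fin (m + 2)) ℝ) id J) = Matrix.of fun i l => gv x δ H (c i) (J l) := by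
      ext i l
      rw [Matrix.of_apply, gv_eq_zcomb m x δ H _ (hc i)]
      rfl
    rw [h3]
    exact abs_nonpos_iff.1 h2
  -- the factorisation
  set Z' : Matrix (Fin j ⊕ Fin q) (Fin j ⊕ Fin q) ℝ := Z.submatrix e e with hZ'
  have hZ'det : Z'.det = Z.det := Matrix.det_submatrix_equiv_self e Z
  have hZ'l : ∀ i t, Z' (Sum.inl i) t = gv x δ H (c i) (e t) := by
    intro i t
    rw [hZ', Matrix.submatrix_apply, hZ, Matrix.of_apply, Equiv.symm_apply_apply]
    rfl
  have hZ'r : ∀ i t, Z' (Sum.inr i) t = gv x δ H (r i) (e t) := by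
    intro i t
    rw [hZ', Matrix.submatrix_apply, hZ, Matrix.of_apply, Equiv.symm_apply_apply]
    rfl
  set G' : Matrix (Fin j ⊕ Fin q) (Fin j ⊕ Fin q) ℝ := Matrix.of fun s t =>
    Sum.elim (fun l => (U.cramer (fun i => Z' (Sum.inl i) t)) l / U.det)
      (fun l => Z' (Sum.inr l) t) s with hG'
  have hfac : Z' = Matrix.fromBlocks U 0 0 1 * G' := by
    ext s t
    rw [Matrix.mul_apply, Fintype.sum_sum_type]
    rcases s with i | i
    · simp only [Matrix.fromBlocks_apply₁₁, Matrix.fromBlocks_apply₁₂, Matrix.zero_apply, zero_mul,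
        Finset.sum_const_zero, add_zero]
      have h1 := congrFun (Matrix.mulVec_cramer U (fun i => Z' (Sum.inl i) t)) i
      simp only [Matrix.mulVec, dotProduct, Pi.smul_apply, smul_eq_mul] at h1
      simp only [hG', Matrix.of_apply, Sum.elim_inl]
      rw [← mul_right_inj' hUne, ← h1, Finset.mul_sum]
      apply Finset.sum_congr rfl
      intro l _
      field_simp
    · simp only [Matrix.fromBlocks_apply₂₁, Matrix.fromBlocks_apply₂₂, Matrix.zero_apply, zero_mul,
        Finset.sum_const_zero, zero_add]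
      rw [Finset.sum_eq_single i]
      · rw [Matrix.one_apply_eq, one_mul, hG', Matrix.of_apply, Sum.elim_inr]
      · intro l _ hl
        rw [Matrix.one_apply_ne (Ne.symm hl), zero_mul]
      · intro h
        exact absurd (Finset.mem_univ _) h
  have hG'entry : ∀ s t, |G' s t| ≤ K := by
    intro s t
    rcases s with l | l
    · rw [hG', Matrix.of_apply, Sum.elim_inl, abs_div, div_le_iff₀ (abs_pos.2 hUne)]
      have h1 : |(U.cramer (fun i => Z' (Sum.inl i) t)) l| ≤ |U.det| := by
        rw [Matrix.cramer_apply]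
        by_cases hk : ((e t : Fin (n + 2)) : ℕ) < m + 2
        · have h5 : U.updateCol l (fun i => Z' (Sum.inl i) t) =
              Matrix.of fun i' l' => gv x δ H (c i')
                ((Function.update I l ⟨((e t : Fin (n + 2)) : ℕ), hk⟩) l') := by
            ext i' l'
            by_cases h : l' = l
            · subst h
              simp [hZ'l]
            · simp [h, hU]
          rw [h5]
          exact hI _
        · have h6 : (fun i => Z' (Sum.inl i) t) = 0 := by
            ext i
            rw [hZ'l, Pi.zero_apply]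
            unfold gv
            rw [if_neg (by omega), if_neg (by omega),
              Polynomial.coeff_eq_zero_of_natDegree_lt (lt_of_le_of_lt (hc i) (by omega))]
            simp
          have h7 : (U.updateCol l (fun i => Z' (Sum.inl i) t)).det = 0 := by
            rw [h6]
            apply Matrix.det_eq_zero_of_column_eq_zero l
            intro i
            simp
          rw [h7, abs_zero]
          exact abs_nonneg _
      calc |(U.cramer (fun i => Z' (Sum.inl i) t)) l| ≤ 1 * |U.det| := by rw [one_mul]; exact h1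
        _ ≤ K * |U.det| := mul_le_mul_of_nonneg_right hK (abs_nonneg _)
    · rw [hG', Matrix.of_apply, Sum.elim_inr, hZ'r]
      exact hrK l _
  have hG'det : |G'.det| ≤ (n + 2).factorial * K ^ (n + 2) := by
    have h1 := Matrix.det_le (A := G') (abv := AbsoluteValue.abs) (x := K) hG'entry
    rw [nsmul_eq_mul] at h1
    have h2 : Fintype.card (Fin j ⊕ Fin q) = n + 2 := by
      rw [Fintype.card_sum, Fintype.card_fin, Fintype.card_fin, hjq]
    rw [h2] at h1
    exact h1
  have hZbound : |Z.det| ≤ |U.det| * ((n + 2).factorial * K ^ (n + 2)) := by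
    rw [← hZ'det, hfac, Matrix.det_mul, Matrix.det_fromBlocks_zero₂₁, Matrix.det_one, mul_one,
      abs_mul]
    exact mul_le_mul_of_nonneg_left hG'det (abs_nonneg _)
  calc 1 ≤ (δ ^ 3 * H ^ (n + 2)) * |Z.det| := hZdet
    _ ≤ (δ ^ 3 * H ^ (n + 2)) * (|U.det| * ((n + 2).factorial * K ^ (n + 2))) :=
        mul_le_mul_of_nonneg_left hZbound (by positivity)
    _ = _ := by ring

end Ver4
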