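import Pool.Agent.LibVer4.Defs
import Pool.Agent.LibVer4.K2

open Polynomial

namespace Ver4

theorem V3_basis (S : Finset ℤ[X]) : ∃ (j : ℕ) (c : Fin j → ℤ[X]), LinearIndependent ℤ c ∧
    (∀ i, c i ∈ Submodule.span ℤ (S : Set ℤ[X])) ∧
    (∀ P ∈ S, ∃ y : Fin j → ℤ, P = ∑ i, y i • c i) := by
  have hfin : Module.Finite ℤ (Submodule.span ℤ (S : Set ℤ[X])) :=
    Module.Finite.iff_fg.2 (Submodule.fg_span S.finite_toSet)
  have hfree : Module.Free ℤ (Submodule.span ℤ (S : Set ℤ[X])) := inferInstance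
  let b := Module.finBasis ℤ (Submodule.span ℤ (S : Set ℤ[X]))
  refine ⟨_, fun i => (b i : ℤ[X]), ?_, fun i => (b i).2, ?_⟩
  · exact b.linearIndependent.map' (Submodule.subtype _) (Submodule.ker_subtype _)
  · intro P hP
    have hP' : P ∈ Submodule.span ℤ (S : Set ℤ[X]) := Submodule.subset_span hP
    refine ⟨fun i => b.repr ⟨P, hP'⟩ i, ?_⟩
    have h1 := b.sum_repr ⟨P, hP'⟩
    have h2 := congrArg (fun x : Submodule.span ℤ (S : Set ℤ[X]) => (x : ℤ[X])) h1
    simp only [Submodule.coe_sum, Submodule.coe_smul] at h2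
    exact h2.symm

theorem V3_natDegree (S : Finset ℤ[X]) (d : ℕ) (h : ∀ P ∈ S, P.natDegree ≤ d) (F : ℤ[X])
    (hF : F ∈ Submodule.span ℤ (S : Set ℤ[X])) : F.natDegree ≤ d := by
  have h1 : Submodule.span ℤ (S : Set ℤ[X]) ≤ degreeLT ℤ (d + 1) := by
    rw [Submodule.span_le]
    intro P hP
    rw [SetLike.mem_coe, mem_degreeLT]
    exact lt_of_le_of_lt degree_le_natDegree (by exact_mod_cast Nat.lt_succ_of_le (h P hP))
  have h2 := h1 hF
  rw [mem_degreeLT] at h2
  by_cases h0 : F = 0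
  · rw [h0]
    simp
  · rw [degree_eq_natDegree h0] at h2
    have h3 : F.natDegree < d + 1 := by exact_mod_cast h2
    omega

/-- the passage to `ℚ[X]` as a `ℤ`-linear map -/
noncomputable def V3_map : ℤ[X] →ₗ[ℤ] ℚ[X] :=
  (mapRingHom (Int.castRingHom ℚ)).toAddMonoidHom.toIntLinearMap

theorem V3_map_apply (F : ℤ[X]) : V3_map F = F.map (Int.castRingHom ℚ) := rfl

theorem V3_map_inj : Function.Injective V3_map := by
  intro F G h
  exact Polynomial.map_injective _ (RingHom.injective_int _) h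

theorem V3_li_iff {ι : Type*} (c : ι → ℤ[X]) :
    LinearIndependent ℤ c ↔ LinearIndependent ℚ (fun i => V3_map (c i)) := by
  rw [← LinearIndependent.iff_fractionRing (R := ℤ) (K := ℚ)]
  exact (LinearMap.linearIndependent_iff V3_map (LinearMap.ker_eq_bot.2 V3_map_inj)).symm

/-- distinct irreducible polynomials have no common factor over `ℚ` -/
theorem V3_coprime (P Q : ℤ[X]) (hP : Irreducible P) (hQ : Irreducible Q)
    (hP1 : P.natDegree ≠ 0) (hQ1 : Q.natDegree ≠ 0) (hPQ : ¬ Associated P Q) (D : ℚ[X])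
    (h1 : D ∣ V3_map P) (h2 : D ∣ V3_map Q) : IsUnit D := by
  have hPp := hP.isPrimitive hP1
  have hQp := hQ.isPrimitive hQ1
  have hPQi : Irreducible (V3_map P) := (IsPrimitive.Int.irreducible_iff_irreducible_map_cast hPp).1 hP
  have hQQi : Irreducible (V3_map Q) := (IsPrimitive.Int.irreducible_iff_irreducible_map_cast hQp).1 hQ
  by_contra hD
  have h3 : Associated D (V3_map P) := hPQi.dvd_iff.1 h1 |>.resolve_left hD |>.symm
  have h4 : Associated D (V3_map Q) := hQQi.dvd_iff.1 h2 |>.resolve_left hD |>.symm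
  apply hPQ
  have h5 : Associated (V3_map P) (V3_map Q) := h3.symm.trans h4
  apply associated_of_dvd_dvd
  · exact (IsPrimitive.Int.dvd_iff_map_cast_dvd_map_cast P Q hPp).2 h5.dvd
  · exact (IsPrimitive.Int.dvd_iff_map_cast_dvd_map_cast Q P hQp).2 h5.symm.dvd

theorem V3_card (N : ℕ) (b : Set ℚ[X]) (hbdeg : ∀ F ∈ b, F ∈ degreeLT ℚ N)
    (hbspan : degreeLT ℚ N ≤ Submodule.span ℚ b)
    (hbli : LinearIndependent ℚ (fun F : b => (F : ℚ[X]))) : b.Finite ∧ b.ncard = N := by
  have hbspan' : Submodule.span ℚ b = degreeLT ℚ N := by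
    apply le_antisymm _ hbspan
    rw [Submodule.span_le]
    intro F hF
    exact hbdeg F hF
  have hfdE : FiniteDimensional ℚ (degreeLT ℚ N) :=
    Module.Finite.equiv (degreeLTEquiv ℚ N).symm
  have h1 : LinearIndependent ℚ (fun F : b => (⟨(F : ℚ[X]), hbdeg _ F.2⟩ : degreeLT ℚ N)) := by
    apply LinearIndependent.of_comp (degreeLT ℚ N).subtype
    exact hbli
  have h2 : Finite b := h1.finite
  have hbfin : b.Finite := Set.toFinite b
  refine ⟨hbfin, ?_⟩
  have hfb : Fintype b := hbfin.fintype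
  have h3 := finrank_span_set_eq_card (R := ℚ) (s := b) hbli
  rw [hbspan', (degreeLTEquiv ℚ N).finrank_eq, Module.finrank_fin_fun] at h3
  rw [Set.ncard_eq_toFinset_card']
  exact h3.symm

theorem V3_enum (q : ℕ) (b' : Set ℚ[X]) (hfin : b'.Finite) (hcard : b'.ncard = q) :
    ∃ f : Fin q → ℚ[X], Function.Injective f ∧ ∀ l, f l ∈ b' := by
  have hfb : Fintype b' := hfin.fintype
  have hc : Fintype.card b' = q := by
    rw [← hcard, Set.ncard_eq_toFinset_card', Set.toFinset_card]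
  refine ⟨fun l => ((Fintype.equivFinOfCardEq hc).symm l : ℚ[X]), ?_, fun l =>
    ((Fintype.equivFinOfCardEq hc).symm l).2⟩
  intro l l' h
  exact (Fintype.equivFinOfCardEq hc).symm.injective (Subtype.ext h)

/-- completion of an independent family to a basis by elements of a set -/
theorem V3_complete (N j q : ℕ) (hN : j + q = N) (G : Fin j → ℚ[X]) (hGli : LinearIndependent ℚ G)
    (t : Set ℚ[X]) (hGt : Set.range G ⊆ t) (htdeg : ∀ F ∈ t, F ∈ degreeLT ℚ N)
    (hspan : ∀ Q ∈ degreeLT ℚ N, Q ∈ Submodule.span ℚ t) :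
    ∃ f : Fin q → ℚ[X], (∀ l, f l ∈ t \ Set.range G) ∧ LinearIndependent ℚ (Sum.elim G f) := by
  classical
  obtain ⟨b, hbt, hGb, htb, hbli⟩ := exists_linearIndepOn_id_extension (K := ℚ)
    (s := Set.range G) (t := t) hGli.linearIndepOn_id hGt
  have hbli' : LinearIndependent ℚ (fun F : b => (F : ℚ[X])) := hbli
  obtain ⟨hbfin, hbcard⟩ := V3_card N b (fun F hF => htdeg F (hbt hF))
    (fun Q hQ => (Submodule.span_le.2 htb) (hspan Q hQ)) hbli'
  have hGcard : (Set.range G).ncard = j := by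
    rw [← Set.image_univ, Set.ncard_image_of_injective _ hGli.injective, Set.ncard_univ,
      Nat.card_eq_fintype_card, Fintype.card_fin]
  have hb'card : (b \ Set.range G).ncard = q := by
    have h1 : (b \ Set.range G).ncard + (Set.range G).ncard = b.ncard :=
      Set.ncard_sdiff_add_ncard_of_subset hGb hbfin
    rw [hGcard, hbcard] at h1
    omega
  obtain ⟨f, hfinj, hfb⟩ := V3_enum q (b \ Set.range G) (hbfin.subset Set.sdiff_subset) hb'card
  refine ⟨f, fun l => ⟨hbt (hfb l).1, (hfb l).2⟩, ?_⟩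
  have hmem : ∀ s : Fin j ⊕ Fin q, Sum.elim G f s ∈ b := by
    rintro (i | l)
    · exact hGb ⟨i, rfl⟩
    · exact (hfb l).1
  have hinj : Function.Injective (fun s : Fin j ⊕ Fin q => (⟨Sum.elim G f s, hmem s⟩ : b)) := by
    rintro (i | l) (i' | l') h
    · have h1 : G i = G i' := congrArg Subtype.val h
      rw [hGli.injective h1]
    · exfalso
      have h1 : G i = f l' := congrArg Subtype.val h
      exact (hfb l').2 ⟨i, h1⟩
    · exfalso
      have h1 : f l = G i' := congrArg Subtype.val h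
      exact (hfb l).2 ⟨i', h1.symm⟩
    · have h1 : f l = f l' := congrArg Subtype.val h
      rw [hfinj h1]
  have h9 := hbli'.comp (fun s : Fin j ⊕ Fin q => (⟨Sum.elim G f s, hmem s⟩ : b)) hinj
  have h10 : ((fun F : b => (F : ℚ[X])) ∘ fun s : Fin j ⊕ Fin q =>
      (⟨Sum.elim G f s, hmem s⟩ : b)) = Sum.elim G f := by
    funext s
    rfl
  rw [h10] at h9
  exact h9

theorem V3_rank (d j : ℕ) (G : Fin j → ℚ[X]) (hGli : LinearIndependent ℚ G)
    (hGdeg : ∀ i, (G i).natDegree ≤ d) : j ≤ d + 1 := by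
  have h1 : Submodule.span ℚ (Set.range G) ≤ degreeLT ℚ (d + 1) := by
    rw [Submodule.span_le]
    rintro _ ⟨i, rfl⟩
    rw [SetLike.mem_coe, mem_degreeLT]
    exact lt_of_le_of_lt degree_le_natDegree (by exact_mod_cast Nat.lt_succ_of_le (hGdeg i))
  have h2 := finrank_span_eq_card hGli
  rw [Fintype.card_fin] at h2
  have h3 : Module.finrank ℚ (degreeLT ℚ (d + 1)) = d + 1 := by
    rw [(degreeLTEquiv ℚ (d + 1)).finrank_eq, Module.finrank_fin_fun]
  have hfd : FiniteDimensional ℚ (degreeLT ℚ (d + 1)) :=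
    Module.Finite.equiv (degreeLTEquiv ℚ (d + 1)).symm
  have h4 := Submodule.finrank_mono h1
  omega

/-- completion of a basis of the span of `S` by multiples of the elements of `S` -/
theorem V3_extend (S : Finset ℤ[X]) (d j : ℕ) (c : Fin j → ℤ[X]) (hc : LinearIndependent ℤ c)
    (hcS : ∀ i, c i ∈ Submodule.span ℤ (S : Set ℤ[X]))
    (hSc : ∀ P ∈ S, ∃ y : Fin j → ℤ, P = ∑ i, y i • c i)
    (hd : 1 ≤ d) (hdeg : ∀ P ∈ S, P.natDegree ≤ d) (htop : ∃ P ∈ S, P.natDegree = d)
    (hcop : ∃ P ∈ S, ∃ Q ∈ S, Irreducible P ∧ Irreducible Q ∧ P.natDegree ≠ 0 ∧ Q.natDegree ≠ 0 ∧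
      ¬ Associated P Q) :
    j ≤ d + 1 ∧ ∃ r : Fin (2 * d + 2 - 2 * j) → ℤ[X],
      (∀ l, ∃ P ∈ S, ∃ a ≤ d + 1 - j, r l = X ^ a * P) ∧ LinearIndependent ℤ (Sum.elim c r) := by
  classical
  have hcdeg : ∀ i, (c i).natDegree ≤ d := fun i => V3_natDegree S d hdeg (c i) (hcS i)
  set G : Fin j → ℚ[X] := fun i => V3_map (c i) with hG
  have hGli : LinearIndependent ℚ G := (V3_li_iff c).1 hc
  have hGdeg : ∀ i, (G i).natDegree ≤ d := fun i => natDegree_map_le.trans (hcdeg i)
  have hGS : ∀ i, G i ∈ Submodule.span ℚ (V3_map '' (S : Set ℤ[X])) := by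
    intro i
    have h1 : Submodule.span ℤ (S : Set ℤ[X]) ≤
        ((Submodule.span ℚ (V3_map '' (S : Set ℤ[X]))).restrictScalars ℤ).comap V3_map := by
      rw [Submodule.span_le]
      intro P hP
      exact Submodule.subset_span ⟨P, hP, rfl⟩
    exact h1 (hcS i)
  have hj : j ≤ d + 1 := V3_rank d j G hGli hGdeg
  have htopG : ∃ i, (G i).natDegree = d := by
    obtain ⟨P, hP, hPd⟩ := htop
    by_contra hcon
    push Not at hcon
    obtain ⟨y, hy⟩ := hSc P hP
    have h1 : P.natDegree ≤ d - 1 := by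
      rw [hy]
      apply natDegree_sum_le_of_forall_le
      intro i _
      refine (natDegree_smul_le _ _).trans ?_
      have h2 := hcon i
      have h3 : (G i).natDegree = (c i).natDegree :=
        natDegree_map_eq_of_injective (RingHom.injective_int _) _
      have h4 := hcdeg i
      omega
    omega
  have hj1 : 1 ≤ j := by
    obtain ⟨i, _⟩ := htopG
    exact Nat.one_le_iff_ne_zero.2 (fun h => by subst h; exact i.elim0)
  have hcopG : ∀ D : ℚ[X], (∀ i, D ∣ G i) → IsUnit D := by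
    intro D hD
    obtain ⟨P, hP, Q, hQ, hPi, hQi, hP1, hQ1, hPQ⟩ := hcop
    have h1 : ∀ F ∈ S, D ∣ V3_map F := by
      intro F hF
      obtain ⟨y, hy⟩ := hSc F hF
      rw [hy, map_sum]
      apply Finset.dvd_sum
      intro i _
      rw [map_smul, zsmul_eq_mul]
      exact (hD i).mul_left _
    exact V3_coprime P Q hPi hQi hP1 hQ1 hPQ D (h1 P hP) (h1 Q hQ)
  refine ⟨hj, ?_⟩
  -- the spanning set
  set t : Set ℚ[X] := Set.range G ∪ {F | ∃ P ∈ S, ∃ a ≤ d + 1 - j, F = V3_map (X ^ a * P)} with ht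
  have hmapX : ∀ (a : ℕ) (P : ℤ[X]), V3_map (X ^ a * P) = X ^ a * V3_map P := by
    intro a P
    rw [V3_map_apply, V3_map_apply, Polynomial.map_mul, Polynomial.map_pow, map_X]
  have hspan : ∀ Q ∈ degreeLT ℚ (2 * d + 2 - j), Q ∈ Submodule.span ℚ t := by
    intro Q hQ
    have hQ' : Q.natDegree ≤ 2 * d + 1 - j := by
      rw [mem_degreeLT] at hQ
      by_cases h0 : Q = 0
      · rw [h0]
        simp
      · rw [degree_eq_natDegree h0] at hQ
        have h3 : Q.natDegree < 2 * d + 2 - j := by exact_mod_cast hQ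
        omega
    have h1 := span_all d j hj1 G hGli hGdeg htopG hcopG Q hQ'
    refine (Submodule.span_le.2 ?_) h1
    rintro F ⟨i, a, ha, rfl⟩
    have h2 : Submodule.span ℚ (V3_map '' (S : Set ℤ[X])) ≤
        (Submodule.span ℚ t).comap (LinearMap.mulLeft ℚ (X ^ a : ℚ[X])) := by
      rw [Submodule.span_le]
      rintro _ ⟨P, hP, rfl⟩
      rw [SetLike.mem_coe, Submodule.mem_comap, LinearMap.mulLeft_apply, ← hmapX]
      exact Submodule.subset_span (Or.inr ⟨P, hP, a, ha, rfl⟩)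
    exact h2 (hGS i)
  have htdeg : ∀ F ∈ t, F ∈ degreeLT ℚ (2 * d + 2 - j) := by
    intro F hF
    rw [mem_degreeLT]
    rcases hF with ⟨i, rfl⟩ | ⟨P, hP, a, ha, rfl⟩
    · refine lt_of_le_of_lt degree_le_natDegree ?_
      have := hGdeg i
      exact_mod_cast (by omega : (G i).natDegree < 2 * d + 2 - j)
    · refine lt_of_le_of_lt degree_le_natDegree ?_
      have h1 : (V3_map (X ^ a * P)).natDegree ≤ a + d := by
        refine natDegree_map_le.trans ((natDegree_mul_le).trans ?_)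
        rw [natDegree_X_pow]
        exact Nat.add_le_add_left (hdeg P hP) a
      exact_mod_cast (by omega : (V3_map (X ^ a * P)).natDegree < 2 * d + 2 - j)
  obtain ⟨f, hf, hfli⟩ := V3_complete (2 * d + 2 - j) j (2 * d + 2 - 2 * j) (by omega) G hGli t
    Set.subset_union_left htdeg hspan
  have hex : ∀ l, ∃ F : ℤ[X], (∃ P ∈ S, ∃ a ≤ d + 1 - j, F = X ^ a * P) ∧ V3_map F = f l := by
    intro l
    rcases (hf l).1 with h2 | ⟨P, hP, a, ha, h2⟩
    · exact absurd h2 (hf l).2
    · exact ⟨X ^ a * P, ⟨P, hP, a, ha, rfl⟩, h2.symm⟩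
  choose r hr1 hr2 using hex
  refine ⟨r, hr1, ?_⟩
  rw [V3_li_iff]
  have h5 : (fun s => V3_map (Sum.elim c r s)) = Sum.elim G f := by
    ext1 s
    rcases s with i | l
    · rfl
    · exact hr2 l
  rw [h5]
  exact hfli

end Ver4
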