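import Pool.Agent.LibVer4.V1
import Pool.Agent.LibVer4.V2
import Pool.Agent.LibVer4.V3a

open Polynomial Pool.Agent.LibInterm

namespace Ver4

theorem V3_gv_le (x δ H K : ℝ) (hδ : 0 < δ) (hH : 0 < H) (hK : 1 ≤ K) (F : ℤ[X])
    (h0 : |aeval x F| ≤ K * δ ^ 2 * H) (h1 : |aeval x (derivative F)| ≤ K * δ * H)
    (h2 : L1 F ≤ H) (k : ℕ) : |gv x δ H F k| ≤ K := by
  unfold gv
  split_ifs
  · rw [abs_div, abs_of_pos (show (0 : ℝ) < δ ^ 2 * H by positivity),
      div_le_iff₀ (by positivity)]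
    linarith
  · rw [abs_div, abs_of_pos (show (0 : ℝ) < δ * H by positivity), div_le_iff₀ (by positivity)]
    linarith
  · rw [abs_div, abs_of_pos hH, div_le_iff₀ hH]
    have h3 := (abs_coeff_le_L1 F k).trans h2
    nlinarith

/-- the bound for the multiples `X ^ a * P` -/
theorem V3_mul_bound (m : ℕ) (M K x δ H : ℝ) (hM : 1 ≤ M) (hK : 1 ≤ K) (hδ : 0 < δ) (hδ1 : δ ≤ 1)
    (hH : 0 < H) (hx : |x| ≤ M) (F : ℤ[X]) (h0 : |aeval x F| ≤ K * δ ^ 2 * H)
    (h1 : |aeval x (derivative F)| ≤ K * δ * H) (h2 : L1 F ≤ H) (a : ℕ) (ha : a ≤ m + 1) (k : ℕ) :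
    |gv x δ H (X ^ a * F) k| ≤ ((m : ℝ) + 2) * M ^ (m + 1) * K := by
  have hMp : 0 < M := by linarith
  have hMa : |x| ^ a ≤ M ^ (m + 1) :=
    (pow_le_pow_left₀ (abs_nonneg _) hx a).trans (pow_le_pow_right₀ hM ha)
  have hM1 : 1 ≤ M ^ (m + 1) := one_le_pow₀ hM
  have hMa' : |x| ^ (a - 1) ≤ M ^ (m + 1) :=
    (pow_le_pow_left₀ (abs_nonneg _) hx (a - 1)).trans (pow_le_pow_right₀ hM (by omega))
  have hm0 : (0 : ℝ) ≤ m := Nat.cast_nonneg m
  have haR : (a : ℝ) ≤ (m : ℝ) + 1 := by exact_mod_cast ha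
  apply V3_gv_le x δ H _ hδ hH
  · have : (1 : ℝ) ≤ M ^ (m + 1) * K := by nlinarith
    nlinarith
  · rw [map_mul, map_pow, aeval_X, abs_mul, abs_pow]
    calc |x| ^ a * |aeval x F| ≤ M ^ (m + 1) * (K * δ ^ 2 * H) :=
          mul_le_mul hMa h0 (abs_nonneg _) (by positivity)
      _ = 1 * (M ^ (m + 1) * K * δ ^ 2 * H) := by ring
      _ ≤ ((m : ℝ) + 2) * (M ^ (m + 1) * K * δ ^ 2 * H) := by
          apply mul_le_mul_of_nonneg_right (by linarith) (by positivity)
      _ = ((m : ℝ) + 2) * M ^ (m + 1) * K * δ ^ 2 * H := by ring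
  · rw [derivative_mul, derivative_X_pow]
    have h3 : aeval x (C ((a : ℤ)) * X ^ (a - 1) * F + X ^ a * derivative F) =
        (a : ℝ) * x ^ (a - 1) * aeval x F + x ^ a * aeval x (derivative F) := by
      simp
    rw [show (C (a : ℤ) : ℤ[X]) = C ((a : ℕ) : ℤ) from rfl] at h3
    rw [h3]
    have h5 : |(a : ℝ) * x ^ (a - 1) * aeval x F| ≤ ((m : ℝ) + 1) * (M ^ (m + 1) * (K * δ * H)) := by
      rw [abs_mul, abs_mul, abs_pow, Nat.abs_cast, mul_assoc]
      apply mul_le_mul haR _ (by positivity) (by positivity)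
      apply mul_le_mul hMa' _ (abs_nonneg _) (by positivity)
      refine h0.trans ?_
      have : δ ^ 2 ≤ δ := by nlinarith
      have h6 : K * δ ^ 2 ≤ K * δ := mul_le_mul_of_nonneg_left this (by linarith)
      exact mul_le_mul_of_nonneg_right h6 hH.le
    have h6 : |x ^ a * aeval x (derivative F)| ≤ M ^ (m + 1) * (K * δ * H) := by
      rw [abs_mul, abs_pow]
      exact mul_le_mul hMa h1 (abs_nonneg _) (by positivity)
    calc |(a : ℝ) * x ^ (a - 1) * aeval x F + x ^ a * aeval x (derivative F)|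
        ≤ ((m : ℝ) + 1) * (M ^ (m + 1) * (K * δ * H)) + M ^ (m + 1) * (K * δ * H) :=
          (abs_add_le _ _).trans (add_le_add h5 h6)
      _ = ((m : ℝ) + 2) * M ^ (m + 1) * K * δ * H := by ring
  · rw [L1_X_pow_mul]
    exact h2

/-- the number of the elements of `S` by projection to `j` coefficients -/
theorem V3_proj (S : Finset ℤ[X]) (d j : ℕ) (c : Fin j → ℤ[X]) (hc : LinearIndependent ℤ c)
    (hcdeg : ∀ i, (c i).natDegree ≤ d) (hSc : ∀ P ∈ S, ∃ y : Fin j → ℤ, P = ∑ i, y i • c i)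
    (H : ℝ) (hH : 1 ≤ H) (hS : ∀ P ∈ S, L1 P ≤ H) : (S.card : ℝ) ≤ (3 * H) ^ j := by
  have hvec : LinearIndependent ℤ (fun i => vec d (c i)) := by
    rw [Fintype.linearIndependent_iff] at hc ⊢
    intro g hg
    apply hc g
    ext l
    by_cases hl : l < d + 1
    · have h2 := congrFun hg ⟨l, hl⟩
      simp only [Finset.sum_apply, Pi.smul_apply, Pi.zero_apply] at h2
      rw [Polynomial.finsetSum_coeff, Polynomial.coeff_zero]
      simp only [Polynomial.coeff_smul]
      exact h2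
    · rw [Polynomial.coeff_zero]
      apply Polynomial.coeff_eq_zero_of_natDegree_lt
      refine lt_of_le_of_lt (b := d) ?_ (by omega)
      apply Polynomial.natDegree_sum_le_of_forall_le
      intro s _
      exact (Polynomial.natDegree_smul_le _ _).trans (hcdeg s)
  obtain ⟨J, hJ⟩ := exists_minor_int _ hvec
  have hcard : S.card ≤ (Fintype.piFinset (fun _ : Fin j => Finset.Icc (-⌊H⌋) ⌊H⌋)).card := by
    apply Finset.card_le_card_of_injOn (fun P l => P.coeff (J l))
    · intro P hP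
      rw [Finset.mem_coe, Fintype.mem_piFinset]
      intro l
      rw [Finset.mem_Icc]
      have h1 := (abs_coeff_le_L1 P (J l)).trans (hS P hP)
      have h2 := abs_le.1 h1
      constructor
      · have h3 : (-(P.coeff (J l)) : ℤ) ≤ ⌊H⌋ := by
          rw [Int.le_floor]
          push_cast
          linarith
        linarith
      · rw [Int.le_floor]
        exact h2.2
    · intro P hP Q hQ hPQ
      obtain ⟨y, hy⟩ := hSc P hP
      obtain ⟨y', hy'⟩ := hSc Q hQ
      have h1 : (fun i => y i - y' i) = 0 := by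
        have h2 : Matrix.vecMul (fun i => y i - y' i)
            (Matrix.submatrix (Matrix.of fun i => vec d (c i)) id J) = 0 := by
          ext l
          have h3 := congrFun hPQ l
          simp only at h3
          rw [hy, hy', Polynomial.finsetSum_coeff, Polynomial.finsetSum_coeff] at h3
          simp only [Polynomial.coeff_smul, smul_eq_mul] at h3
          simp only [Matrix.vecMul, dotProduct, Matrix.submatrix_apply, Matrix.of_apply, id, vec,
            Pi.zero_apply, sub_mul, Finset.sum_sub_distrib]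
          rw [h3, sub_self]
        exact Matrix.eq_zero_of_vecMul_eq_zero hJ h2
      rw [hy, hy']
      apply Finset.sum_congr rfl
      intro i _
      have h4 : y i - y' i = 0 := congrFun h1 i
      rw [sub_eq_zero.1 h4]
  rw [Fintype.card_piFinset_const, Int.card_Icc] at hcard
  have hfl : (0 : ℤ) ≤ ⌊H⌋ := Int.floor_nonneg.2 (by linarith)
  have h5 : (((⌊H⌋ + 1 - -⌊H⌋).toNat : ℕ) : ℝ) ≤ 3 * H := by
    have h6 : (((⌊H⌋ + 1 - -⌊H⌋).toNat : ℕ) : ℤ) = 2 * ⌊H⌋ + 1 := by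
      rw [Int.toNat_of_nonneg (by omega)]
      ring
    have h7 : (((⌊H⌋ + 1 - -⌊H⌋).toNat : ℕ) : ℝ) = 2 * (⌊H⌋ : ℝ) + 1 := by
      exact_mod_cast congrArg (Int.cast : ℤ → ℝ) h6
    rw [h7]
    linarith [Int.floor_le H]
  calc (S.card : ℝ) ≤ (((⌊H⌋ + 1 - -⌊H⌋).toNat ^ j : ℕ) : ℝ) := by exact_mod_cast hcard
    _ = (((⌊H⌋ + 1 - -⌊H⌋).toNat : ℕ) : ℝ) ^ j := by push_cast; rfl
    _ ≤ (3 * H) ^ j := pow_le_pow_left₀ (Nat.cast_nonneg _) h5 j

/-- independent elements of `S` -/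
theorem V3_indep (S : Finset ℤ[X]) (j : ℕ) (c : Fin j → ℤ[X]) (hc : LinearIndependent ℤ c)
    (hcS : ∀ i, c i ∈ Submodule.span ℤ (S : Set ℤ[X])) (y : ℤ[X] → Fin j → ℤ)
    (hy : ∀ P ∈ S, P = ∑ i, y P i • c i) :
    ∃ s : Fin j → ℤ[X], (∀ i, s i ∈ S) ∧ (Matrix.of fun i => y (s i)).det ≠ 0 := by
  have hGli : LinearIndependent ℚ (fun i => V3_map (c i)) := (V3_li_iff c).1 hc
  have hspan : Submodule.span ℚ (V3_map '' (S : Set ℤ[X])) =
      Submodule.span ℚ (Set.range (fun i => V3_map (c i))) := by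
    apply le_antisymm
    · rw [Submodule.span_le]
      rintro _ ⟨P, hP, rfl⟩
      rw [SetLike.mem_coe, hy P hP, map_sum]
      apply Submodule.sum_mem
      intro i _
      rw [map_smul, ← Int.cast_smul_eq_zsmul ℚ]
      exact Submodule.smul_mem _ _ (Submodule.subset_span ⟨i, rfl⟩)
    · rw [Submodule.span_le]
      rintro _ ⟨i, rfl⟩
      have h1 : Submodule.span ℤ (S : Set ℤ[X]) ≤
          ((Submodule.span ℚ (V3_map '' (S : Set ℤ[X]))).restrictScalars ℤ).comap V3_map := by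
        rw [Submodule.span_le]
        intro P hP
        exact Submodule.subset_span ⟨P, hP, rfl⟩
      exact h1 (hcS i)
  have hrank : Module.finrank ℚ (Submodule.span ℚ (V3_map '' (S : Set ℤ[X]))) = j := by
    rw [hspan, finrank_span_eq_card hGli, Fintype.card_fin]
  have hfin : FiniteDimensional ℚ (Submodule.span ℚ (V3_map '' (S : Set ℤ[X]))) :=
    FiniteDimensional.span_of_finite ℚ (S.finite_toSet.image _)
  obtain ⟨f, hf1, -, hf3⟩ := Submodule.exists_fun_fin_finrank_span_eq ℚ (V3_map '' (S : Set ℤ[X]))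
  choose s0 hs0 hs0' using hf1
  refine ⟨fun i => s0 (Fin.cast hrank.symm i), fun i => hs0 _, ?_⟩
  intro hdet
  have hli : LinearIndependent ℚ (fun i : Fin j => V3_map (s0 (Fin.cast hrank.symm i))) := by
    have h2 : (fun i : Fin j => V3_map (s0 (Fin.cast hrank.symm i))) =
        f ∘ (Fin.cast hrank.symm) := by
      funext i
      exact hs0' _
    rw [h2]
    exact hf3.comp _ (Fin.cast_injective _)
  have hliZ := (V3_li_iff _).2 hli
  rw [Fintype.linearIndependent_iff] at hliZ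
  obtain ⟨t, ht, ht0⟩ := Matrix.exists_vecMul_eq_zero_iff.2 hdet
  apply ht
  ext i
  apply hliZ t
  calc ∑ i, t i • s0 (Fin.cast hrank.symm i)
      = ∑ i, ∑ l, (t i * y (s0 (Fin.cast hrank.symm i)) l) • c l := by
        apply Finset.sum_congr rfl
        intro i _
        conv_lhs => rw [hy _ (hs0 (Fin.cast hrank.symm i)), Finset.smul_sum]
        apply Finset.sum_congr rfl
        intro l _
        rw [smul_smul]
    _ = ∑ l, (∑ i, t i * y (s0 (Fin.cast hrank.symm i)) l) • c l := by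
        rw [Finset.sum_comm]
        apply Finset.sum_congr rfl
        intro l _
        rw [Finset.sum_smul]
    _ = 0 := by
        apply Finset.sum_eq_zero
        intro l _
        have h6 := congrFun ht0 l
        have h7 : ∑ i, t i * y (s0 (Fin.cast hrank.symm i)) l = 0 := by
          simpa [Matrix.vecMul, dotProduct] using h6
        rw [h7, zero_smul]

/-- V3: many polynomials small at the same point. -/
theorem many_bound (m : ℕ) (M K : ℝ) (hM : 1 ≤ M) (hK : 1 ≤ K) : ∃ C : ℝ, 0 < C ∧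
    ∀ (H δ x : ℝ) (S : Finset ℤ[X]), 1 ≤ H → 0 < δ → δ ≤ 1 → |x| ≤ M →
    (∀ P ∈ S, Irreducible P ∧ 2 ≤ P.natDegree ∧ P.natDegree ≤ m ∧ L1 P ≤ H ∧
      |aeval x P| ≤ K * δ ^ 2 * H ∧ |aeval x (derivative P)| ≤ K * δ * H) →
    (∀ P ∈ S, ∀ Q ∈ S, P ≠ Q → ¬ Associated P Q) → 2 ≤ S.card →
    (S.card : ℝ) ^ 2 ≤ C * H ^ (2 * m + 2) * δ ^ 3 := by
  classical
  set K' : ℝ := ((m : ℝ) + 2) * M ^ (m + 1) * K with hK'
  have hMm : 1 ≤ M ^ (m + 1) := one_le_pow₀ hM
  have hm0 : (0 : ℝ) ≤ m := Nat.cast_nonneg m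
  have hK'1 : 1 ≤ K' := by
    have h1 : 1 ≤ M ^ (m + 1) * K := by nlinarith
    rw [hK', mul_assoc]
    nlinarith
  refine ⟨((2 * m + 2).factorial * K' ^ (2 * m + 2)) * (3 ^ (m + 1) * ((m + 1).factorial *
    K ^ (m + 1))) * 3 ^ (m + 1), by positivity, ?_⟩
  intro H δ x S hH hδ hδ1 hx hS hna hcard
  have hHpos : 0 < H := by linarith
  have hne : S.Nonempty := Finset.card_pos.1 (by omega)
  -- the largest degree
  obtain ⟨P0, hP0, hmax⟩ := Finset.exists_max_image S (fun P => P.natDegree) hne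
  set d := P0.natDegree with hd
  have hd2 : 2 ≤ d := (hS P0 hP0).2.1
  have hdm : d ≤ m := (hS P0 hP0).2.2.1
  obtain ⟨j, c, hc, hcS, hSc⟩ := V3_basis S
  have hcdeg : ∀ i, (c i).natDegree ≤ d := fun i => V3_natDegree S d hmax (c i) (hcS i)
  obtain ⟨P1, hP1, P2, hP2, hP12⟩ := Finset.one_lt_card.1 (show 1 < S.card by omega)
  obtain ⟨hjd, r, hr, hli⟩ := V3_extend S d j c hc hcS hSc (by omega) hmax ⟨P0, hP0, rfl⟩
    ⟨P1, hP1, P2, hP2, (hS P1 hP1).1, (hS P2 hP2).1, by have := (hS P1 hP1).2.1; omega,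
      by have := (hS P2 hP2).2.1; omega, hna P1 hP1 P2 hP2 hP12⟩
  -- the maximal minor
  obtain ⟨I, hI⟩ := Finite.exists_max (fun J : Fin j → Fin (d - 1 + 2) =>
    |(Matrix.of fun i l => gv x δ H (c i) (J l)).det|)
  set U : Matrix (Fin j) (Fin j) ℝ := Matrix.of fun i l => gv x δ H (c i) (I l) with hU
  have hrdeg : ∀ l, (r l).natDegree ≤ (2 * d - j) + 1 := by
    intro l
    obtain ⟨P, hP, a, ha, h⟩ := hr l
    rw [h]
    refine natDegree_mul_le.trans ?_
    rw [natDegree_X_pow]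
    have := hmax P hP
    omega
  have hrK : ∀ (l : Fin (2 * d + 2 - 2 * j)) (k : ℕ), |gv x δ H (r l) k| ≤ K' := by
    intro l k
    obtain ⟨P, hP, a, ha, h⟩ := hr l
    rw [h]
    obtain ⟨-, -, -, h4, h5, h6⟩ := hS P hP
    exact V3_mul_bound m M K x δ H hM hK hδ hδ1 hHpos hx P h5 h6 h4 a (by omega) k
  have hblock := block_bound (d - 1) (2 * d - j) j (2 * d + 2 - 2 * j) (by omega) (by omega) x δ H
    K' hδ hHpos hK'1 c r (fun i => (hcdeg i).trans (by omega)) hrdeg hli hrK I hI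
  rw [← hU] at hblock
  -- the number of lattice points
  choose! y hy using hSc
  have hcount := card_short j U K (S.image y) (by
      intro v hv
      obtain ⟨P, hP, rfl⟩ := Finset.mem_image.1 hv
      rw [pi_norm_le_iff_of_nonneg (by linarith)]
      intro l
      have h1 : zcomb U (y P) l = gv x δ H P (I l) := by
        conv_rhs => rw [hy P hP]
        rw [gv_sum]
        rfl
      rw [h1, Real.norm_eq_abs]
      obtain ⟨-, -, -, h4, h5, h6⟩ := hS P hP
      exact V3_gv_le x δ H K hδ hHpos hK P h5 h6 h4 _)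
    (by
      obtain ⟨s, hs, hdet⟩ := V3_indep S j c hc hcS y hy
      exact ⟨fun i => y (s i), fun i => Finset.mem_image_of_mem y (hs i), hdet⟩)
  have hyinj : (S.image y).card = S.card := by
    apply Finset.card_image_of_injOn
    intro P hP Q hQ hPQ
    rw [hy P hP, hy Q hQ, hPQ]
  rw [hyinj] at hcount
  have hproj := V3_proj S d j c hc hcdeg (fun P hP => ⟨y P, hy P hP⟩) H hH
    (fun P hP => (hS P hP).2.2.2.1)
  -- assembly
  have hjm : j ≤ m + 1 := by omega
  set n2 : ℕ := 2 * d - j + 2 with hn2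
  have hn2le : n2 ≤ 2 * m + 2 := by omega
  have hS0 : (0 : ℝ) ≤ S.card := Nat.cast_nonneg _
  have h1 : (S.card : ℝ) ≤ (n2.factorial * K' ^ n2) * (δ ^ 3 * H ^ n2) *
      (3 ^ j * (j.factorial * K ^ j)) := by
    calc (S.card : ℝ) = S.card * 1 := (mul_one _).symm
      _ ≤ S.card * ((n2.factorial * K' ^ n2) * (δ ^ 3 * H ^ n2) * |U.det|) :=
          mul_le_mul_of_nonneg_left hblock hS0
      _ = (n2.factorial * K' ^ n2) * (δ ^ 3 * H ^ n2) * (S.card * |U.det|) := by ring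
      _ ≤ _ := mul_le_mul_of_nonneg_left hcount (by positivity)
  have hfac : (n2.factorial : ℝ) ≤ (2 * m + 2).factorial := by
    exact_mod_cast Nat.factorial_le hn2le
  have hfac2 : (j.factorial : ℝ) ≤ (m + 1).factorial := by
    exact_mod_cast Nat.factorial_le hjm
  have hKp : K' ^ n2 ≤ K' ^ (2 * m + 2) := pow_le_pow_right₀ hK'1 hn2le
  have hKq : K ^ j ≤ K ^ (m + 1) := pow_le_pow_right₀ hK hjm
  have h3p : (3 : ℝ) ^ j ≤ 3 ^ (m + 1) := pow_le_pow_right₀ (by norm_num) hjm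
  have h2 : (S.card : ℝ) ≤ (((2 * m + 2).factorial * K' ^ (2 * m + 2)) *
      (3 ^ (m + 1) * ((m + 1).factorial * K ^ (m + 1)))) * (δ ^ 3 * H ^ n2) := by
    refine h1.trans ?_
    have h4 : (n2.factorial * K' ^ n2 : ℝ) ≤ (2 * m + 2).factorial * K' ^ (2 * m + 2) :=
      mul_le_mul hfac hKp (by positivity) (by positivity)
    have h5 : (3 ^ j * (j.factorial * K ^ j) : ℝ) ≤
        3 ^ (m + 1) * ((m + 1).factorial * K ^ (m + 1)) :=
      mul_le_mul h3p (mul_le_mul hfac2 hKq (by positivity) (by positivity)) (by positivity)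
        (by positivity)
    calc (n2.factorial * K' ^ n2) * (δ ^ 3 * H ^ n2) * (3 ^ j * (j.factorial * K ^ j))
        = (n2.factorial * K' ^ n2) * (3 ^ j * (j.factorial * K ^ j)) * (δ ^ 3 * H ^ n2) := by ring
      _ ≤ _ := mul_le_mul_of_nonneg_right (mul_le_mul h4 h5 (by positivity) (by positivity))
          (by positivity)
  have h6 : (S.card : ℝ) ≤ 3 ^ (m + 1) * H ^ j := by
    refine hproj.trans ?_
    rw [mul_pow]
    exact mul_le_mul_of_nonneg_right h3p (by positivity)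
  have hHpow : H ^ n2 * H ^ j ≤ H ^ (2 * m + 2) := by
    rw [← pow_add]
    apply pow_le_pow_right₀ hH
    omega
  calc (S.card : ℝ) ^ 2 = S.card * S.card := pow_two _
    _ ≤ ((((2 * m + 2).factorial * K' ^ (2 * m + 2)) *
        (3 ^ (m + 1) * ((m + 1).factorial * K ^ (m + 1)))) * (δ ^ 3 * H ^ n2)) *
        (3 ^ (m + 1) * H ^ j) := mul_le_mul h2 h6 hS0 (by positivity)
    _ = (((2 * m + 2).factorial * K' ^ (2 * m + 2)) * (3 ^ (m + 1) * ((m + 1).factorial *
        K ^ (m + 1))) * 3 ^ (m + 1)) * (H ^ n2 * H ^ j) * δ ^ 3 := by ring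
    _ ≤ (((2 * m + 2).factorial * K' ^ (2 * m + 2)) * (3 ^ (m + 1) * ((m + 1).factorial *
        K ^ (m + 1))) * 3 ^ (m + 1)) * H ^ (2 * m + 2) * δ ^ 3 := by
        apply mul_le_mul_of_nonneg_right _ (by positivity)
        exact mul_le_mul_of_nonneg_left hHpow (by positivity)

end Ver4
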