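import Pool.Agent.LibVer4.G1

open Polynomial

namespace Ver4

/-- The resultant of two non associated irreducible integer polynomials is not zero. -/
private theorem V4_res_ne {P Q : ℤ[X]} (hP : Irreducible P) (hQ : Irreducible Q)
    (h : ¬ Associated P Q) (hp : 2 ≤ P.natDegree) (_ : 2 ≤ Q.natDegree) :
    resultant P Q ≠ 0 := by
  intro h0
  have hinj : Function.Injective (Int.castRingHom ℚ) := RingHom.injective_int _
  have hPp : P.IsPrimitive := hP.isPrimitive (by omega)
  have hPi : Irreducible (P.map (Int.castRingHom ℚ)) :=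
    (IsPrimitive.Int.irreducible_iff_irreducible_map_cast hPp).1 hP
  have h1 : resultant (P.map (Int.castRingHom ℚ)) (Q.map (Int.castRingHom ℚ)) = 0 := by
    rw [resultant_map_map, natDegree_map_eq_of_injective hinj, natDegree_map_eq_of_injective hinj, h0,
      map_zero]
  rw [resultant_eq_zero_iff] at h1
  apply h1.2
  rw [hPi.coprime_iff_not_dvd]
  intro hd
  have hd2 : P ∣ Q := (IsPrimitive.Int.dvd_iff_map_cast_dvd_map_cast P Q hPp).2 hd
  exact h (hP.associated_of_dvd hQ hd2)

private theorem V4_coeff_eq (P : ℤ[X]) (x : ℝ) (i : ℕ) :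
    ((i.factorial : ℕ) : ℝ) * (taylor x (P.map (Int.castRingHom ℝ))).coeff i =
      aeval x (derivative^[i] P) := by
  rw [taylor_coeff]
  have h1 : (derivative^[i] (P.map (Int.castRingHom ℝ))) =
      (i.factorial : ℕ) • hasseDeriv i (P.map (Int.castRingHom ℝ)) := by
    have := factorial_smul_hasseDeriv (R := ℝ) (k := i)
    rw [← this]
    rfl
  have h2 : aeval x (derivative^[i] P) = (derivative^[i] (P.map (Int.castRingHom ℝ))).eval x := by
    rw [iterate_derivative_map, eval_map, aeval_def]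
    rfl
  rw [h2, h1, eval_smul]
  simp

private theorem V4_L1_iter (P : ℤ[X]) (m : ℕ) (h : P.natDegree ≤ m) (i : ℕ) :
    L1 (derivative^[i] P) ≤ (m : ℝ) ^ i * L1 P := by
  induction i with
  | zero => simp
  | succ i ih =>
    rw [Function.iterate_succ_apply']
    have hd : (derivative^[i] P).natDegree ≤ m :=
      (natDegree_iterate_derivative P i).trans ((Nat.sub_le _ _).trans h)
    calc L1 (derivative (derivative^[i] P)) ≤ m * L1 (derivative^[i] P) := L1_derivative_le _ m hd
      _ ≤ m * ((m : ℝ) ^ i * L1 P) := by gcongr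
      _ = (m : ℝ) ^ (i + 1) * L1 P := by ring

/-- All Taylor coefficients are `O(H)`. -/
private theorem V4_coeff_le {m : ℕ} (hm : 1 ≤ m) {M H x : ℝ} (hx : |x| ≤ M) {P : ℤ[X]}
    (hP : P.natDegree ≤ m) (hL : L1 P ≤ H) (i : ℕ) :
    |(taylor x (P.map (Int.castRingHom ℝ))).coeff i| ≤ (m : ℝ) ^ m * (max 1 M) ^ m * H := by
  have hL0 := L1_nonneg P
  have hH : 0 ≤ H := hL0.trans hL
  have hm1 : (1 : ℝ) ≤ m := by exact_mod_cast hm
  rcases le_or_gt i m with him | him
  · have h1 := V4_coeff_eq P x i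
    have hd : (derivative^[i] P).natDegree ≤ m :=
      (natDegree_iterate_derivative P i).trans ((Nat.sub_le _ _).trans hP)
    have h2 := abs_aeval_le (derivative^[i] P) m hd x
    have h3 := V4_L1_iter P m hP i
    have hf : (1 : ℝ) ≤ (i.factorial : ℕ) := by exact_mod_cast Nat.succ_le_of_lt (Nat.factorial_pos i)
    have h4 : |(taylor x (P.map (Int.castRingHom ℝ))).coeff i| ≤ |aeval x (derivative^[i] P)| := by
      rw [← h1, abs_mul, abs_of_pos (by linarith : (0:ℝ) < (i.factorial : ℕ))]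
      have := abs_nonneg ((taylor x (P.map (Int.castRingHom ℝ))).coeff i)
      nlinarith
    refine h4.trans (h2.trans ?_)
    have h5 : (max 1 |x|) ^ m ≤ (max 1 M) ^ m :=
      pow_le_pow_left₀ (by positivity) (max_le_max_left 1 hx) m
    have h6 : (m : ℝ) ^ i ≤ (m : ℝ) ^ m := pow_le_pow_right₀ hm1 him
    calc L1 (derivative^[i] P) * (max 1 |x|) ^ m ≤ ((m : ℝ) ^ i * L1 P) * (max 1 M) ^ m := by
          gcongr
      _ ≤ ((m : ℝ) ^ m * H) * (max 1 M) ^ m := by gcongr
      _ = _ := by ring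
  · rw [coeff_eq_zero_of_natDegree_lt]
    · rw [abs_zero]; positivity
    · rw [natDegree_taylor]
      exact lt_of_le_of_lt ((natDegree_map_le).trans hP) him

/-- The weight of the row `c`. -/
private noncomputable def V4_G (δ : ℝ) (c : ℕ) : ℝ :=
  if c = 0 then δ ^ 3 else if c = 1 then δ ^ 2 else if c = 2 then δ else 1

/-- The weight of the column `a` of a block. -/
private noncomputable def V4_r (δ : ℝ) (a : ℕ) : ℝ := if a = 0 then δ⁻¹ else 1

private theorem V4_prod_G (δ : ℝ) (N : ℕ) (hN : 3 ≤ N) : ∏ c ∈ Finset.range N, V4_G δ c = δ ^ 6 := by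
  induction N, hN using Nat.le_induction with
  | base => simp [Finset.prod_range_succ, V4_G]; ring
  | succ n hn ih =>
    rw [Finset.prod_range_succ, ih]
    have : V4_G δ n = 1 := by
      unfold V4_G
      rw [if_neg (by omega), if_neg (by omega), if_neg (by omega)]
    rw [this, mul_one]

private theorem V4_prod_r (δ : ℝ) (N : ℕ) (hN : 1 ≤ N) : ∏ c ∈ Finset.range N, V4_r δ c = δ⁻¹ := by
  induction N, hN using Nat.le_induction with
  | base => simp [V4_r]
  | succ n hn ih =>
    rw [Finset.prod_range_succ, ih]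
    have : V4_r δ n = 1 := by
      unfold V4_r
      rw [if_neg (by omega)]
    rw [this, mul_one]

/-- The estimate of the entries. -/
private theorem V4_entry {δ B : ℝ} (hδ : 0 < δ) (hδ1 : δ ≤ 1) (hB : 0 ≤ B) (f : ℝ[X]) (n : ℕ)
    (h0 : |f.coeff 0| ≤ B * δ ^ 2) (h1 : |f.coeff 1| ≤ B * δ) (h2 : ∀ i, |f.coeff i| ≤ B) (c a : ℕ) :
    |if c ∈ Set.Icc a (a + n) then f.coeff (c - a) else 0| ≤ B * V4_G δ c * V4_r δ a := by
  have hG : 0 ≤ V4_G δ c := by unfold V4_G; split_ifs <;> positivity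
  have hr : 0 ≤ V4_r δ a := by unfold V4_r; split_ifs <;> positivity
  split_ifs with h
  swap
  · rw [abs_zero]; positivity
  rw [Set.mem_Icc] at h
  have hinv : 1 ≤ δ⁻¹ := (one_le_inv₀ hδ).2 hδ1
  have hd2 : δ ^ 2 ≤ δ := by nlinarith
  rcases Nat.eq_zero_or_pos a with ha | ha
  · subst ha
    have e : V4_r δ 0 = δ⁻¹ := by simp [V4_r]
    rw [e, Nat.sub_zero]
    unfold V4_G
    split_ifs with c0 c1 c2
    · subst c0
      refine h0.trans (le_of_eq ?_)
      field_simp
    · subst c1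
      refine h1.trans (le_of_eq ?_)
      field_simp
    · refine (h2 c).trans (le_of_eq ?_)
      field_simp
    · refine (h2 c).trans ?_
      nlinarith
  · have e : V4_r δ a = 1 := by unfold V4_r; rw [if_neg (by omega)]
    rw [e, mul_one]
    unfold V4_G
    split_ifs with c0 c1 c2
    · omega
    · have : c - a = 0 := by omega
      rw [this]; exact h0
    · rcases Nat.lt_or_ge 1 a with h3 | h3
      · have : c - a = 0 := by omega
        rw [this]
        exact h0.trans (by gcongr)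
      · have : c - a = 1 := by omega
        rw [this]; exact h1
    · rw [mul_one]; exact h2 _

/-- The estimate of the resultant. -/
private theorem V4_res {δ B : ℝ} (hδ : 0 < δ) (hδ1 : δ ≤ 1) (hB : 0 ≤ B) (f g : ℝ[X]) (p q : ℕ)
    (hp : 2 ≤ p) (hq : 2 ≤ q)
    (f0 : |f.coeff 0| ≤ B * δ ^ 2) (f1 : |f.coeff 1| ≤ B * δ) (f2 : ∀ i, |f.coeff i| ≤ B)
    (g0 : |g.coeff 0| ≤ B * δ ^ 2) (g1 : |g.coeff 1| ≤ B * δ) (g2 : ∀ i, |g.coeff i| ≤ B) :
    |resultant f g p q| ≤ (p + q).factorial * (B ^ (p + q) * δ ^ 4) := by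
  classical
  let r : Fin (p + q) → ℝ := fun j => j.addCases (fun j₁ : Fin p => V4_r δ j₁)
    (fun j₁ : Fin q => V4_r δ j₁)
  have hent : ∀ i j, |sylvester f g p q i j| ≤ B * V4_G δ i * r j := by
    intro i j
    induction j using Fin.addCases with
    | left j =>
      have e : r (Fin.castAdd q j) = V4_r δ j := by simp [r]
      rw [e, sylvester, Matrix.of_apply, Fin.addCases_left]
      exact V4_entry hδ hδ1 hB g q g0 g1 g2 i j
    | right j =>
      have e : r (Fin.natAdd p j) = V4_r δ j := by simp [r]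
      rw [e, sylvester, Matrix.of_apply, Fin.addCases_right]
      exact V4_entry hδ hδ1 hB f p f0 f1 f2 i j
  have hrprod : ∏ j, r j = δ⁻¹ * δ⁻¹ := by
    rw [Fin.prod_univ_add]
    have e1 : ∏ j : Fin p, r (Fin.castAdd q j) = δ⁻¹ := by
      rw [← V4_prod_r δ p (by omega), Finset.prod_range]
      exact Finset.prod_congr rfl fun j _ => by simp [r]
    have e2 : ∏ j : Fin q, r (Fin.natAdd p j) = δ⁻¹ := by
      rw [← V4_prod_r δ q (by omega), Finset.prod_range]
      exact Finset.prod_congr rfl fun j _ => by simp [r]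
    rw [e1, e2]
  have hGprod : ∏ i : Fin (p + q), V4_G δ i = δ ^ 6 := by
    rw [← V4_prod_G δ (p + q) (by omega), Finset.prod_range]
  rw [resultant, Matrix.det_apply]
  refine (Finset.abs_sum_le_sum_abs _ _).trans ?_
  have hterm : ∀ σ : Equiv.Perm (Fin (p + q)),
      |Equiv.Perm.sign σ • ∏ i, sylvester f g p q (σ i) i| ≤ B ^ (p + q) * δ ^ 4 := by
    intro σ
    have e1 : |Equiv.Perm.sign σ • ∏ i, sylvester f g p q (σ i) i| =
        ∏ i, |sylvester f g p q (σ i) i| := by
      rw [← Finset.abs_prod]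
      rcases Int.units_eq_one_or (Equiv.Perm.sign σ) with h | h <;> rw [h] <;> simp
    rw [e1]
    calc ∏ i, |sylvester f g p q (σ i) i| ≤ ∏ i, (B * V4_G δ (σ i) * r i) :=
          Finset.prod_le_prod (fun i _ => abs_nonneg _) fun i _ => hent _ _
      _ = B ^ (p + q) * δ ^ 6 * (δ⁻¹ * δ⁻¹) := by
          rw [Finset.prod_mul_distrib, Finset.prod_mul_distrib, hrprod, Finset.prod_const,
            Finset.card_univ, Fintype.card_fin,
            Equiv.prod_comp σ (fun i : Fin (p + q) => V4_G δ i), hGprod]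
      _ = B ^ (p + q) * δ ^ 4 := by field_simp
  refine (Finset.sum_le_sum fun σ _ => hterm σ).trans (le_of_eq ?_)
  rw [Finset.sum_const, Finset.card_univ, Fintype.card_perm, Fintype.card_fin, nsmul_eq_mul]

/-- V4: two coprime polynomials cannot be both very small, with their derivatives, at a point. Hint:
`R = resultant P Q` is a nonzero integer (`Polynomial.resultant_eq_zero_iff` over `ℚ`; distinct
irreducible polynomials are coprime over `ℚ`) and `resultant_taylor` gives
`R = resultant (taylor x P) (taylor x Q)` over `ℝ`. Put `p = natDegree P`, `q = natDegree Q`. In the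
Sylvester matrix (`p + q` rows `c`, columns `a`; column `a` of the `Q`-block has the entries
`Q_{c-a}`, the same for the `P`-block) the coefficients of the Taylor polynomials satisfy
`|P_0|, |Q_0| ≤ K δ² H`, `|P_1|, |Q_1| ≤ K δ H`, `|P_i|, |Q_i| ≤ C H`. So every entry is at most
`C H δ^(g c) δ^(ρ a)` with `g 0 = 2`, `g 1 = 1`, `g 2 = 0`, `g c = -1` for `c ≥ 3`, and `ρ a = 0`
for the two columns with `a = 0`, `ρ a = 1` for the `p + q - 2` other columns (to avoid negative
exponents multiply by `δ`). Every product over a permutation is at most `(C H)^(p+q) δ^4` because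
`2 + 1 + 0 - (p+q-3) + (p+q-2) = 4`. -/
theorem pair_bound (m : ℕ) (M K : ℝ) (hK : 1 ≤ K) : ∃ C : ℝ, 0 < C ∧ ∀ (H δ x : ℝ) (P Q : ℤ[X]),
    1 ≤ H → 0 < δ → δ ≤ 1 → |x| ≤ M → Irreducible P → Irreducible Q → ¬ Associated P Q →
    2 ≤ P.natDegree → P.natDegree ≤ m → 2 ≤ Q.natDegree → Q.natDegree ≤ m →
    L1 P ≤ H → L1 Q ≤ H →
    |aeval x P| ≤ K * δ ^ 2 * H → |aeval x (derivative P)| ≤ K * δ * H →
    |aeval x Q| ≤ K * δ ^ 2 * H → |aeval x (derivative Q)| ≤ K * δ * H →
    1 ≤ C * H ^ (2 * m) * δ ^ 4 := by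
  refine ⟨(2 * m).factorial * (K + (m : ℝ) ^ m * (max 1 M) ^ m) ^ (2 * m), ?_, ?_⟩
  · have : 0 ≤ (m : ℝ) ^ m * (max 1 M) ^ m := by positivity
    have : 0 < K + (m : ℝ) ^ m * (max 1 M) ^ m := by linarith
    positivity
  intro H δ x P Q hH hδ hδ1 hx hP hQ hPQ hp hpm hq hqm hLP hLQ hP0 hP1 hQ0 hQ1
  set C₁ : ℝ := K + (m : ℝ) ^ m * (max 1 M) ^ m with hC₁
  have hmm : 0 ≤ (m : ℝ) ^ m * (max 1 M) ^ m := by positivity
  have hC1 : 1 ≤ C₁ := by linarith
  have hinj : Function.Injective (Int.castRingHom ℝ) := RingHom.injective_int _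
  set f := taylor x (P.map (Int.castRingHom ℝ)) with hf
  set g := taylor x (Q.map (Int.castRingHom ℝ)) with hg
  have hfd : f.natDegree = P.natDegree := by
    rw [hf, natDegree_taylor, natDegree_map_eq_of_injective hinj]
  have hgd : g.natDegree = Q.natDegree := by
    rw [hg, natDegree_taylor, natDegree_map_eq_of_injective hinj]
  have hres : resultant f g = ((resultant P Q : ℤ) : ℝ) := by
    rw [hf, hg, resultant_taylor, resultant_map_map, natDegree_map_eq_of_injective hinj,
      natDegree_map_eq_of_injective hinj]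
    rfl
  have hne := V4_res_ne hP hQ hPQ hp hq
  have h1 : (1 : ℝ) ≤ |resultant f g| := by
    rw [hres, ← Int.cast_abs]
    exact_mod_cast Int.one_le_abs hne
  have c0 : ∀ P : ℤ[X], (taylor x (P.map (Int.castRingHom ℝ))).coeff 0 = aeval x P := by
    intro P
    have := V4_coeff_eq P x 0
    simpa using this
  have c1 : ∀ P : ℤ[X], (taylor x (P.map (Int.castRingHom ℝ))).coeff 1 =
      aeval x (derivative P) := by
    intro P
    have := V4_coeff_eq P x 1
    simpa using this
  have hB : 0 ≤ C₁ * H := by positivity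
  have hb : ∀ P : ℤ[X], P.natDegree ≤ m → L1 P ≤ H → ∀ i,
      |(taylor x (P.map (Int.castRingHom ℝ))).coeff i| ≤ C₁ * H := by
    intro P hPm hPL i
    refine (V4_coeff_le (by omega) hx hPm hPL i).trans ?_
    have : 0 ≤ K * H := by positivity
    rw [hC₁, add_mul]
    linarith
  have hb0 : ∀ t : ℝ, |t| ≤ K * δ ^ 2 * H → |t| ≤ C₁ * H * δ ^ 2 := by
    intro t ht
    refine ht.trans ?_
    have : 0 ≤ (m : ℝ) ^ m * (max 1 M) ^ m * H * δ ^ 2 := by positivity
    rw [hC₁]
    nlinarith
  have hb1 : ∀ t : ℝ, |t| ≤ K * δ * H → |t| ≤ C₁ * H * δ := by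
    intro t ht
    refine ht.trans ?_
    have : 0 ≤ (m : ℝ) ^ m * (max 1 M) ^ m * H * δ := by positivity
    rw [hC₁]
    nlinarith
  have h2 := V4_res hδ hδ1 hB f g P.natDegree Q.natDegree hp hq
    (by rw [hf, c0]; exact hb0 _ hP0) (by rw [hf, c1]; exact hb1 _ hP1) (by rw [hf]; exact hb P hpm hLP)
    (by rw [hg, c0]; exact hb0 _ hQ0) (by rw [hg, c1]; exact hb1 _ hQ1) (by rw [hg]; exact hb Q hqm hLQ)
  rw [hfd, hgd] at h1
  refine h1.trans (h2.trans ?_)
  have hN : P.natDegree + Q.natDegree ≤ 2 * m := by omega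
  have hCH : 1 ≤ C₁ * H := by nlinarith
  calc ((P.natDegree + Q.natDegree).factorial : ℝ) * ((C₁ * H) ^ (P.natDegree + Q.natDegree) * δ ^ 4)
      ≤ ((2 * m).factorial : ℝ) * ((C₁ * H) ^ (2 * m) * δ ^ 4) := by
        gcongr
    _ = (2 * m).factorial * C₁ ^ (2 * m) * H ^ (2 * m) * δ ^ 4 := by
        rw [mul_pow]; ring

end Ver4
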