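import Pool.Agent.LibVer4.V3
import Pool.Agent.LibVer4.V4

open Polynomial

namespace Ver4

/-- Taylor estimate near a point where the polynomial and its derivative are small. -/
theorem V5_near (m : ℕ) (M : ℝ) (hM : 1 ≤ M) (H μ x g : ℝ) (hH : 1 ≤ H) (hμ : 0 < μ) (hμ1 : μ ≤ 1)
    (P : ℤ[X]) (hdeg : P.natDegree ≤ m) (hL : L1 P ≤ H) (hx : |x| ≤ M) (hg : |g - x| ≤ μ)
    (h0 : |aeval x P| ≤ μ ^ 2 * H) (h1 : |aeval x (derivative P)| ≤ μ * H) :
    |aeval g P| ≤ (2 + (m : ℝ) ^ 2 * (M + 1) ^ m) * μ ^ 2 * H ∧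
      |aeval g (derivative P)| ≤ (2 + (m : ℝ) ^ 2 * (M + 1) ^ m) * μ * H := by
  set A : ℝ := (m : ℝ) ^ 2 * (M + 1) ^ m with hA
  have hA0 : 0 ≤ A := by positivity
  have hHpos : 0 < H := by linarith
  have hdegP' : (derivative P).natDegree ≤ m :=
    (Polynomial.natDegree_derivative_le P).trans (by omega)
  have hdegP'' : (derivative (derivative P)).natDegree ≤ m :=
    (Polynomial.natDegree_derivative_le _).trans (by omega)
  set f : ℝ[X] := P.map (algebraMap ℤ ℝ) with hf
  have hf0 : ∀ y, f.eval y = aeval y P := fun y => Polynomial.eval_map_algebraMap _ _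
  have hf1 : ∀ y, (derivative f).eval y = aeval y (derivative P) := by
    intro y
    rw [hf, Polynomial.derivative_map, Polynomial.eval_map_algebraMap]
  have hf2 : ∀ y, (derivative (derivative f)).eval y = aeval y (derivative (derivative P)) := by
    intro y
    rw [hf, Polynomial.derivative_map, Polynomial.derivative_map, Polynomial.eval_map_algebraMap]
  have hconv : Convex ℝ (Set.Icc (x - μ) (x + μ)) := convex_Icc _ _
  have hxm : x ∈ Set.Icc (x - μ) (x + μ) := ⟨by linarith, by linarith⟩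
  have hgm : ∀ y, |y - x| ≤ μ → y ∈ Set.Icc (x - μ) (x + μ) := by
    intro y hy
    have := abs_le.1 hy
    constructor <;> linarith
  have hder : ∀ y, |y - x| ≤ μ → |aeval y (derivative P)| ≤ (1 + A) * μ * H := by
    intro y hy
    have h5 : ‖(derivative f).eval y - (derivative f).eval x‖ ≤ (A * H) * ‖y - x‖ := by
      apply Convex.norm_image_sub_le_of_norm_hasDerivWithin_le
        (f := fun y => (derivative f).eval y) (f' := fun y => (derivative (derivative f)).eval y)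
        (s := Set.Icc (x - μ) (x + μ)) _ _ hconv hxm (hgm y hy)
      · intro z _
        exact ((derivative f).hasDerivAt z).hasDerivWithinAt
      · intro z hz
        rw [Real.norm_eq_abs, hf2]
        refine (abs_aeval_le _ m hdegP'' z).trans ?_
        have h3 : L1 (derivative (derivative P)) ≤ m * (m * L1 P) :=
          (L1_derivative_le _ m hdegP').trans
            (mul_le_mul_of_nonneg_left (L1_derivative_le P m hdeg) (Nat.cast_nonneg m))
        have h4 : max 1 |z| ≤ M + 1 := by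
          apply max_le (by linarith)
          rw [abs_le]
          have := abs_le.1 hx
          constructor
          · linarith [hz.1]
          · linarith [hz.2]
        have h6 : (max 1 |z|) ^ m ≤ (M + 1) ^ m :=
          pow_le_pow_left₀ (le_trans zero_le_one (le_max_left _ _)) h4 m
        have hL0 := L1_nonneg P
        calc L1 (derivative (derivative P)) * (max 1 |z|) ^ m
            ≤ (m * (m * L1 P)) * (M + 1) ^ m := mul_le_mul h3 h6 (by positivity) (by positivity)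
          _ = A * L1 P := by rw [hA]; ring
          _ ≤ A * H := mul_le_mul_of_nonneg_left hL hA0
    rw [hf1, hf1, Real.norm_eq_abs, Real.norm_eq_abs] at h5
    have h7 : |aeval y (derivative P)| ≤ |aeval y (derivative P) - aeval x (derivative P)| +
        |aeval x (derivative P)| := by
      have := abs_add_le (aeval y (derivative P) - aeval x (derivative P))
        (aeval x (derivative P))
      simpa using this
    have h8 : A * H * |y - x| ≤ A * H * μ := mul_le_mul_of_nonneg_left hy (by positivity)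
    calc |aeval y (derivative P)| ≤ A * H * μ + μ * H := h7.trans (by linarith)
      _ = (1 + A) * μ * H := by ring
  constructor
  · have h5 : ‖f.eval g - f.eval x‖ ≤ ((1 + A) * μ * H) * ‖g - x‖ := by
      apply Convex.norm_image_sub_le_of_norm_hasDerivWithin_le
        (f := fun y => f.eval y) (f' := fun y => (derivative f).eval y)
        (s := Set.Icc (x - μ) (x + μ)) _ _ hconv hxm (hgm g hg)
      · intro z _
        exact (f.hasDerivAt z).hasDerivWithinAt
      · intro z hz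
        rw [Real.norm_eq_abs, hf1]
        apply hder
        rw [abs_le]
        constructor <;> linarith [hz.1, hz.2]
    rw [hf0, hf0, Real.norm_eq_abs, Real.norm_eq_abs] at h5
    have h7 : |aeval g P| ≤ |aeval g P - aeval x P| + |aeval x P| := by
      have := abs_add_le (aeval g P - aeval x P) (aeval x P)
      simpa using this
    have h8 : (1 + A) * μ * H * |g - x| ≤ (1 + A) * μ * H * μ :=
      mul_le_mul_of_nonneg_left hg (by positivity)
    calc |aeval g P| ≤ (1 + A) * μ * H * μ + μ ^ 2 * H := h7.trans (by linarith)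
      _ = (2 + A) * μ ^ 2 * H := by ring
  · refine (hder g hg).trans ?_
    have : (1 + A) * μ * H ≤ (2 + A) * μ * H := by
      apply mul_le_mul_of_nonneg_right _ hHpos.le
      apply mul_le_mul_of_nonneg_right _ hμ.le
      linarith
    exact this

theorem V5_assoc (P Q : ℤ[X]) (hP : P ≠ 0) (hPQ : P ≠ Q) (h : Associated P Q) :
    ¬ (0 < P.leadingCoeff ↔ 0 < Q.leadingCoeff) := by
  obtain ⟨u, hu⟩ := h
  obtain ⟨a, ha, hau⟩ := Polynomial.isUnit_iff.1 u.isUnit
  rcases Int.isUnit_iff.1 ha with h1 | h1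
  · exfalso
    apply hPQ
    rw [← hu, ← hau, h1]
    simp
  · have hQ : Q = -P := by
      rw [← hu, ← hau, h1]
      simp
    rw [hQ, leadingCoeff_neg]
    have h2 : P.leadingCoeff ≠ 0 := leadingCoeff_ne_zero.2 hP
    intro h3
    rcases lt_or_gt_of_ne h2 with h4 | h4
    · have h5 := h3.2 (by omega)
      omega
    · have h5 := h3.1 h4
      omega

/-- V5: counting irreducible polynomials with a small derivative, `δ ≥ H ^ (-(m+2))`. -/
theorem count_new (m : ℕ) (hm : 2 ≤ m) (M : ℝ) (hM : 1 ≤ M) : ∃ C : ℝ, 0 < C ∧ ∀ H δ : ℝ, 1 ≤ H →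
    H ^ (-((m : ℝ) + 2)) ≤ δ → δ ≤ 1 → ∀ S : Finset ℤ[X],
    (∀ P ∈ S, Irreducible P ∧ 2 ≤ P.natDegree ∧ P.natDegree ≤ m ∧ L1 P ≤ H ∧
      ∃ x : ℝ, |x| ≤ M ∧ |aeval x P| ≤ δ ^ 2 * H ∧ |aeval x (derivative P)| ≤ δ * H) →
    (S.card : ℝ) ≤ C * H ^ (m + 1) * δ ^ (1 / 2 : ℝ) := by
  classical
  set K : ℝ := 2 + (m : ℝ) ^ 2 * (M + 1) ^ m with hK
  have hK1 : 1 ≤ K := by
    have : 0 ≤ (m : ℝ) ^ 2 * (M + 1) ^ m := by positivity
    rw [hK]
    linarith
  obtain ⟨C3, hC3, hmany⟩ := many_bound m M K hM hK1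
  obtain ⟨C4, hC4, hpair⟩ := pair_bound m M K hK1
  set c₀ : ℝ := min 1 (1 / (2 * C4)) with hc₀
  have hc₀pos : 0 < c₀ := lt_min one_pos (by positivity)
  have hc₀1 : c₀ ≤ 1 := min_le_left _ _
  have hc₀4 : C4 * c₀ ^ 4 < 1 := by
    have h1 : c₀ ^ 4 ≤ c₀ := by
      calc c₀ ^ 4 ≤ c₀ ^ 1 := pow_le_pow_of_le_one hc₀pos.le hc₀1 (by norm_num)
        _ = c₀ := pow_one _
    have h2 : c₀ ≤ 1 / (2 * C4) := min_le_right _ _
    calc C4 * c₀ ^ 4 ≤ C4 * (1 / (2 * C4)) := mul_le_mul_of_nonneg_left (h1.trans h2) hC4.le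
      _ = 1 / 2 := by field_simp
      _ < 1 := by norm_num
  refine ⟨6 * M * (c₀⁻¹ ^ 2 + Real.sqrt C3) + 6 * M * c₀⁻¹, by positivity, ?_⟩
  intro H δ hH hδ hδ1 S hS
  have hHpos : 0 < H := by linarith
  have hδpos : 0 < δ := lt_of_lt_of_le (Real.rpow_pos_of_pos hHpos _) hδ
  set ν : ℝ := c₀ * H ^ (-((m : ℝ) / 2)) with hν
  have hνpos : 0 < ν := mul_pos hc₀pos (Real.rpow_pos_of_pos hHpos _)
  have hHm1 : H ^ (-((m : ℝ) / 2)) ≤ 1 := by
    apply Real.rpow_le_one_of_one_le_of_nonpos hH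
    have : (0 : ℝ) ≤ m := Nat.cast_nonneg m
    linarith
  have hν1 : ν ≤ 1 := by
    rw [hν]
    calc c₀ * H ^ (-((m : ℝ) / 2)) ≤ 1 * 1 :=
          mul_le_mul hc₀1 hHm1 (Real.rpow_nonneg hHpos.le _) zero_le_one
      _ = 1 := one_mul 1
  set μ : ℝ := max δ ν with hμ
  have hμpos : 0 < μ := lt_max_of_lt_left hδpos
  have hμ1 : μ ≤ 1 := max_le hδ1 hν1
  have hδμ : δ ≤ μ := le_max_left _ _
  choose! xp hxp using fun P (hP : P ∈ S) => (hS P hP).2.2.2.2
  -- the grid
  set N : ℕ := ⌊2 * M / μ⌋₊ with hN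
  have hNle : ((N : ℝ) + 1) ≤ 3 * M / μ := by
    have h1 : (N : ℝ) ≤ 2 * M / μ := Nat.floor_le (by positivity)
    have h2 : 1 ≤ M / μ := by
      rw [one_le_div hμpos]
      linarith
    calc (N : ℝ) + 1 ≤ 2 * M / μ + M / μ := add_le_add h1 h2
      _ = 3 * M / μ := by ring
  set F : ℤ[X] → ℕ × Bool := fun P => (⌊(xp P + M) / μ⌋₊, decide (0 < P.leadingCoeff)) with hF
  have hmaps : ∀ P ∈ S, F P ∈ Finset.range (N + 1) ×ˢ (Finset.univ : Finset Bool) := by
    intro P hP
    rw [Finset.mem_product]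
    refine ⟨?_, Finset.mem_univ _⟩
    rw [Finset.mem_range, Nat.lt_succ_iff]
    apply Nat.floor_le_floor
    apply div_le_div_of_nonneg_right _ hμpos.le
    have := abs_le.1 (hxp P hP).1
    linarith
  -- the fibres
  have hfib : ∀ b : ℕ × Bool, ∀ P ∈ S.filter (fun P => F P = b),
      Irreducible P ∧ 2 ≤ P.natDegree ∧ P.natDegree ≤ m ∧ L1 P ≤ H ∧
      |aeval (-M + b.1 * μ) P| ≤ K * μ ^ 2 * H ∧
      |aeval (-M + b.1 * μ) (derivative P)| ≤ K * μ * H := by
    intro b P hP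
    rw [Finset.mem_filter] at hP
    obtain ⟨hPS, hPb⟩ := hP
    obtain ⟨h1, h2, h3, h4, -⟩ := hS P hPS
    obtain ⟨h5, h6, h7⟩ := hxp P hPS
    have hfl : b.1 = ⌊(xp P + M) / μ⌋₊ := by rw [← hPb]
    have hnn : 0 ≤ (xp P + M) / μ := by
      apply div_nonneg _ hμpos.le
      linarith [(abs_le.1 h5).1]
    have h8 : (b.1 : ℝ) ≤ (xp P + M) / μ := by
      rw [hfl]
      exact Nat.floor_le hnn
    have h9 : (xp P + M) / μ < (b.1 : ℝ) + 1 := by
      rw [hfl]
      exact Nat.lt_floor_add_one _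
    rw [le_div_iff₀ hμpos] at h8
    rw [div_lt_iff₀ hμpos] at h9
    have hg : |(-M + b.1 * μ) - xp P| ≤ μ := by
      rw [abs_le]
      constructor <;> linarith
    have h10 : |aeval (xp P) P| ≤ μ ^ 2 * H := by
      refine h6.trans (mul_le_mul_of_nonneg_right ?_ hHpos.le)
      exact pow_le_pow_left₀ hδpos.le hδμ 2
    have h11 : |aeval (xp P) (derivative P)| ≤ μ * H :=
      h7.trans (mul_le_mul_of_nonneg_right hδμ hHpos.le)
    obtain ⟨h12, h13⟩ := V5_near m M hM H μ (xp P) (-M + b.1 * μ) hH hμpos hμ1 P h3 h4 h5 hg h10 h11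
    exact ⟨h1, h2, h3, h4, h12, h13⟩
  have hbM : ∀ b ∈ Finset.range (N + 1) ×ˢ (Finset.univ : Finset Bool),
      |(-M + b.1 * μ : ℝ)| ≤ M := by
    intro b hb
    rw [Finset.mem_product, Finset.mem_range, Nat.lt_succ_iff] at hb
    have h1 : (b.1 : ℝ) ≤ 2 * M / μ :=
      (Nat.cast_le.2 hb.1).trans (Nat.floor_le (by positivity))
    rw [le_div_iff₀ hμpos] at h1
    have h2 : 0 ≤ (b.1 : ℝ) * μ := by positivity
    rw [abs_le]
    constructor <;> linarith
  have hna : ∀ b : ℕ × Bool, ∀ P ∈ S.filter (fun P => F P = b), ∀ Q ∈ S.filter (fun P => F P = b),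
      P ≠ Q → ¬ Associated P Q := by
    intro b P hP Q hQ hPQ hass
    rw [Finset.mem_filter] at hP hQ
    have h1 := V5_assoc P Q (hS P hP.1).1.ne_zero hPQ hass
    apply h1
    have h2 : F P = F Q := by rw [hP.2, hQ.2]
    have h3 : decide (0 < P.leadingCoeff) = decide (0 < Q.leadingCoeff) := congrArg Prod.snd h2
    exact decide_eq_decide.1 h3
  have hcardsum : (S.card : ℝ) =
      ∑ b ∈ Finset.range (N + 1) ×ˢ (Finset.univ : Finset Bool),
        ((S.filter (fun P => F P = b)).card : ℝ) := by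
    rw [Finset.card_eq_sum_card_fiberwise hmaps]
    push_cast
    rfl
  have hbound : ∀ B : ℝ, 0 ≤ B → (∀ b ∈ Finset.range (N + 1) ×ˢ (Finset.univ : Finset Bool),
      ((S.filter (fun P => F P = b)).card : ℝ) ≤ B) → (S.card : ℝ) ≤ 6 * M / μ * B := by
    intro B hB hB'
    rw [hcardsum]
    refine (Finset.sum_le_sum hB').trans ?_
    rw [Finset.sum_const, Finset.card_product, Finset.card_range, Finset.card_univ,
      Fintype.card_bool, nsmul_eq_mul]
    apply mul_le_mul_of_nonneg_right _ hB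
    push_cast
    calc ((N : ℝ) + 1) * 2 ≤ 3 * M / μ * 2 := by linarith
      _ = 6 * M / μ := by ring
  set r : ℝ := δ ^ (1 / 2 : ℝ) with hr
  have hr0 : 0 < r := Real.rpow_pos_of_pos hδpos _
  have hr2 : r ^ 2 = δ := by
    rw [hr, ← Real.rpow_natCast, ← Real.rpow_mul hδpos.le]
    norm_num
  have hr1 : r ≤ 1 := Real.rpow_le_one hδpos.le hδ1 (by norm_num)
  -- two polynomials in a fibre
  have htwo : ∀ b ∈ Finset.range (N + 1) ×ˢ (Finset.univ : Finset Bool),
      2 ≤ (S.filter (fun P => F P = b)).card → 1 ≤ C4 * H ^ (2 * m) * μ ^ 4 := by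
    intro b hb h2
    obtain ⟨P, hP, Q, hQ, hPQ⟩ := Finset.one_lt_card.1 (show 1 < (S.filter (fun P => F P = b)).card
      by omega)
    obtain ⟨p1, p2, p3, p4, p5, p6⟩ := hfib b P hP
    obtain ⟨q1, q2, q3, q4, q5, q6⟩ := hfib b Q hQ
    exact hpair H μ _ P Q hH hμpos hμ1 (hbM b hb) p1 q1 (hna b P hP Q hQ hPQ) p2 p3 q2 q3 p4 q4
      p5 p6 q5 q6
  have hHp : 0 < H ^ (m + 1) := pow_pos hHpos _
  by_cases hcase : ν ≤ δ
  · have hμδ : μ = δ := max_eq_left hcase
    have hX : 1 ≤ c₀⁻¹ ^ 2 * (H ^ (m + 1) * r ^ 3) := by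
      have h1 : ν ^ 2 ≤ r ^ 3 := by
        calc ν ^ 2 ≤ δ ^ 2 := pow_le_pow_left₀ hνpos.le hcase 2
          _ = r ^ 4 := by rw [← hr2]; ring
          _ ≤ r ^ 3 := pow_le_pow_of_le_one hr0.le hr1 (by norm_num)
      have h2 : ν ^ 2 * H ^ m = c₀ ^ 2 := by
        rw [hν, mul_pow, ← Real.rpow_natCast (H ^ (-((m : ℝ) / 2))), ← Real.rpow_mul hHpos.le,
          mul_assoc, ← Real.rpow_natCast H m, ← Real.rpow_add hHpos]
        have : -((m : ℝ) / 2) * ((2 : ℕ) : ℝ) + (m : ℝ) = 0 := by push_cast; ring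
        rw [this, Real.rpow_zero, mul_one]
      have h3 : c₀ ^ 2 ≤ H ^ (m + 1) * r ^ 3 := by
        calc c₀ ^ 2 = ν ^ 2 * H ^ m := h2.symm
          _ ≤ r ^ 3 * H ^ (m + 1) :=
            mul_le_mul h1 (pow_le_pow_right₀ hH (Nat.le_succ m)) (by positivity) (by positivity)
          _ = H ^ (m + 1) * r ^ 3 := mul_comm _ _
      rw [inv_pow, ← div_eq_inv_mul, one_le_div (by positivity)]
      exact h3
    have hB : ∀ b ∈ Finset.range (N + 1) ×ˢ (Finset.univ : Finset Bool),
        ((S.filter (fun P => F P = b)).card : ℝ) ≤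
          (c₀⁻¹ ^ 2 + Real.sqrt C3) * (H ^ (m + 1) * r ^ 3) := by
      intro b hb
      have hXpos : 0 < H ^ (m + 1) * r ^ 3 := by positivity
      by_cases h2 : 2 ≤ (S.filter (fun P => F P = b)).card
      · have h3 := hmany H μ (-M + b.1 * μ) (S.filter (fun P => F P = b)) hH hμpos hμ1 (hbM b hb)
          (hfib b) (hna b) h2
        rw [hμδ] at h3
        have h4 : C3 * H ^ (2 * m + 2) * δ ^ 3 =
            (Real.sqrt C3 * (H ^ (m + 1) * r ^ 3)) ^ 2 := by
          rw [mul_pow, Real.sq_sqrt hC3.le, ← hr2]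
          ring
        rw [h4] at h3
        have h5 : ((S.filter (fun P => F P = b)).card : ℝ) ≤
            Real.sqrt C3 * (H ^ (m + 1) * r ^ 3) :=
          (pow_le_pow_iff_left₀ (Nat.cast_nonneg _) (by positivity) (by norm_num)).1 h3
        refine h5.trans ?_
        apply mul_le_mul_of_nonneg_right _ hXpos.le
        have : 0 ≤ c₀⁻¹ ^ 2 := by positivity
        linarith
      · have h3 : ((S.filter (fun P => F P = b)).card : ℝ) ≤ 1 := by
          exact_mod_cast (by omega : (S.filter (fun P => F P = b)).card ≤ 1)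
        refine h3.trans (hX.trans ?_)
        apply mul_le_mul_of_nonneg_right _ hXpos.le
        have : 0 ≤ Real.sqrt C3 := Real.sqrt_nonneg _
        linarith
    have h6 := hbound _ (by positivity) hB
    have h7 : 6 * M / μ * ((c₀⁻¹ ^ 2 + Real.sqrt C3) * (H ^ (m + 1) * r ^ 3)) =
        6 * M * (c₀⁻¹ ^ 2 + Real.sqrt C3) * H ^ (m + 1) * r := by
      rw [hμδ, ← hr2]
      field_simp
    rw [h7] at h6
    refine h6.trans ?_
    apply mul_le_mul_of_nonneg_right _ hr0.le
    apply mul_le_mul_of_nonneg_right _ hHp.le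
    have : 0 ≤ 6 * M * c₀⁻¹ := by positivity
    linarith
  · push Not at hcase
    have hμν : μ = ν := max_eq_right hcase.le
    have hB : ∀ b ∈ Finset.range (N + 1) ×ˢ (Finset.univ : Finset Bool),
        ((S.filter (fun P => F P = b)).card : ℝ) ≤ 1 := by
      intro b hb
      by_contra hcon
      have h2 : 2 ≤ (S.filter (fun P => F P = b)).card := by
        by_contra h3
        apply hcon
        exact_mod_cast (by omega : (S.filter (fun P => F P = b)).card ≤ 1)
      have h4 := htwo b hb h2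
      have h5 : C4 * H ^ (2 * m) * μ ^ 4 = C4 * c₀ ^ 4 := by
        rw [hμν, hν, mul_pow, ← Real.rpow_natCast (H ^ (-((m : ℝ) / 2))),
          ← Real.rpow_mul hHpos.le]
        have h6 : H ^ (-((m : ℝ) / 2) * ((4 : ℕ) : ℝ)) * H ^ (2 * m) = 1 := by
          rw [← Real.rpow_natCast H (2 * m), ← Real.rpow_add hHpos]
          have : -((m : ℝ) / 2) * ((4 : ℕ) : ℝ) + ((2 * m : ℕ) : ℝ) = 0 := by push_cast; ring
          rw [this, Real.rpow_zero]
        calc C4 * H ^ (2 * m) * (c₀ ^ 4 * H ^ (-((m : ℝ) / 2) * ((4 : ℕ) : ℝ)))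
            = C4 * c₀ ^ 4 * (H ^ (-((m : ℝ) / 2) * ((4 : ℕ) : ℝ)) * H ^ (2 * m)) := by ring
          _ = C4 * c₀ ^ 4 := by rw [h6, mul_one]
      rw [h5] at h4
      linarith
    have h6 := hbound 1 zero_le_one hB
    rw [mul_one] at h6
    refine h6.trans ?_
    have h7 : 6 * M / μ = 6 * M * c₀⁻¹ * H ^ ((m : ℝ) / 2) := by
      rw [hμν, hν, Real.rpow_neg hHpos.le]
      have : 0 < H ^ ((m : ℝ) / 2) := Real.rpow_pos_of_pos hHpos _
      field_simp
    have h8 : H ^ ((m : ℝ) / 2) ≤ H ^ (m + 1) * r := by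
      have h9 : H ^ (-(((m : ℝ) + 2) / 2)) ≤ r := by
        calc H ^ (-(((m : ℝ) + 2) / 2)) = (H ^ (-((m : ℝ) + 2))) ^ (1 / 2 : ℝ) := by
              rw [← Real.rpow_mul hHpos.le]
              congr 1
              ring
          _ ≤ r := Real.rpow_le_rpow (Real.rpow_nonneg hHpos.le _) hδ (by norm_num)
      calc H ^ ((m : ℝ) / 2) = H ^ (m + 1) * H ^ (-(((m : ℝ) + 2) / 2)) := by
            rw [← Real.rpow_natCast H (m + 1), ← Real.rpow_add hHpos]
            congr 1
            push_cast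
            ring
        _ ≤ H ^ (m + 1) * r := mul_le_mul_of_nonneg_left h9 hHp.le
    rw [h7]
    calc 6 * M * c₀⁻¹ * H ^ ((m : ℝ) / 2) ≤ 6 * M * c₀⁻¹ * (H ^ (m + 1) * r) :=
          mul_le_mul_of_nonneg_left h8 (by positivity)
      _ = 6 * M * c₀⁻¹ * H ^ (m + 1) * r := by ring
      _ ≤ (6 * M * (c₀⁻¹ ^ 2 + Real.sqrt C3) + 6 * M * c₀⁻¹) * H ^ (m + 1) * r := by
          apply mul_le_mul_of_nonneg_right _ hr0.le
          apply mul_le_mul_of_nonneg_right _ hHp.le
          have : 0 ≤ 6 * M * (c₀⁻¹ ^ 2 + Real.sqrt C3) := by positivity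
          linarith

end Ver4
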